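import Pool.Agent.RTC.St2

set_option autoImplicit false

/-!
# RTC_AEX: existence and properties of the starting level
-/

namespace Pool.Agent.RTC

open MeasureTheory Set Filter Topology
open scoped ENNReal NNReal

namespace AEXx

theorem W_pos (θ y : ℝ) : 0 < Wt θ y := Real.exp_pos _

theorem W_deriv (θ y : ℝ) (hy : 0 < y) :
    HasDerivAt (Wt θ) (Wt θ y * (θ * (2 / y - 1 / y ^ 2))) y := by
  unfold Wt
  have h1 : HasDerivAt (fun y : ℝ => 2 * Real.log y) (2 * y⁻¹) y :=
    (Real.hasDerivAt_log hy.ne').const_mul 2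
  have h2 : HasDerivAt (fun y : ℝ => 1 / y) (-(y ^ 2)⁻¹) y := by
    simpa [one_div] using hasDerivAt_inv hy.ne'
  have h3 : HasDerivAt (fun y : ℝ => θ * (2 * Real.log y + 1 / y - 1))
      (θ * (2 * y⁻¹ + -(y ^ 2)⁻¹)) y := ((h1.add h2).sub_const 1).const_mul θ
  have h4 := h3.exp
  convert h4 using 1
  rw [div_eq_mul_inv, one_div]
  ring

theorem W_cont (θ : ℝ) : ContinuousOn (Wt θ) (Ioi 0) := fun y hy =>
  (W_deriv θ y hy).continuousAt.continuousWithinAt

theorem f1_cont (θ : ℝ) : ContinuousOn (fun y => Wt θ y / y) (Ioi 0) :=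
  (W_cont θ).div continuousOn_id fun _ hy => (ne_of_gt hy)

theorem f2_cont (θ : ℝ) : ContinuousOn (fun y => Wt θ y / y ^ 2) (Ioi 0) :=
  (W_cont θ).div (continuousOn_id.pow 2) fun _ hy => pow_ne_zero 2 (ne_of_gt hy)

theorem sub_Ioi {a b : ℝ} (ha : 0 < a) (hb : 0 < b) : uIcc a b ⊆ Ioi (0 : ℝ) := fun _ hx =>
  lt_of_lt_of_le (lt_min ha hb) hx.1

theorem ii {f : ℝ → ℝ} (hf : ContinuousOn f (Ioi 0)) {a b : ℝ} (ha : 0 < a) (hb : 0 < b) :
    IntervalIntegrable f volume a b :=
  (hf.mono (sub_Ioi ha hb)).intervalIntegrable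

theorem hd {f : ℝ → ℝ} (hf : ContinuousOn f (Ioi 0)) {a b : ℝ} (ha : 0 < a) (hb : 0 < b) :
    HasDerivAt (fun x => ∫ y in a..x, f y) (f b) b := by
  refine intervalIntegral.integral_hasDerivAt_right (ii hf ha hb) ?_
    (hf.continuousAt (Ioi_mem_nhds hb))
  exact hf.stronglyMeasurableAtFilter isOpen_Ioi b hb

theorem log3 : (1.09 : ℝ) < Real.log 3 := by
  have h1 : Real.log 9 = 2 * Real.log 3 := by
    rw [show (9 : ℝ) = 3 ^ 2 by norm_num, Real.log_pow]
    norm_num
  have h2 : Real.log 9 = 3 * Real.log 2 + Real.log (9 / 8) := by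
    rw [show (9 : ℝ) = 2 ^ 3 * (9 / 8) by norm_num, Real.log_mul (by norm_num) (by norm_num),
      Real.log_pow]
    norm_num
  have h3 : 1 - (9 / 8 : ℝ)⁻¹ ≤ Real.log (9 / 8) := Real.one_sub_inv_le_log_of_pos (by norm_num)
  have h4 := Real.log_two_gt_d9
  norm_num at h3
  linarith

theorem g_low (y : ℝ) (hy : 0 < y) :
    1 - 2 * Real.log 2 ≤ 2 * Real.log y + 1 / y - 1 := by
  have h1 : 1 - (2 * y)⁻¹ ≤ Real.log (2 * y) := Real.one_sub_inv_le_log_of_pos (by positivity)
  rw [Real.log_mul (by norm_num) hy.ne', mul_inv] at h1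
  rw [one_div]
  linarith

theorem g_up (y : ℝ) (h1 : 1 / 3 ≤ y) (h2 : y ≤ 1) : 2 * Real.log y + 1 / y - 1 ≤ 0 := by
  have hy : 0 < y := lt_of_lt_of_le (by norm_num) h1
  obtain ⟨u, hu⟩ : ∃ u, u = y⁻¹ := ⟨_, rfl⟩
  have hu1 : 1 ≤ u := by rw [hu]; exact (one_le_inv₀ hy).2 h2
  have hu3 : u ≤ 3 := by
    rw [hu]
    exact inv_le_of_inv_le₀ (by norm_num) (by norm_num at h1 ⊢; linarith)
  have m1 : (1 : ℝ) ∈ Ioi (0 : ℝ) := mem_Ioi.2 (by norm_num)
  have m3 : (3 : ℝ) ∈ Ioi (0 : ℝ) := mem_Ioi.2 (by norm_num)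
  have n1 : 0 ≤ 1 - (u - 1) / 2 := by linarith
  have n2 : 0 ≤ (u - 1) / 2 := by linarith
  have h3 := strictConcaveOn_log_Ioi.concaveOn.2 m1 m3 n1 n2 (by ring)
  have h4 : (1 - (u - 1) / 2) • (1 : ℝ) + ((u - 1) / 2) • (3 : ℝ) = u := by
    simp only [smul_eq_mul]
    ring
  rw [h4] at h3
  simp only [smul_eq_mul, Real.log_one, mul_zero, zero_add] at h3
  have h5 := log3
  have h6 : Real.log y = - Real.log u := by rw [hu, Real.log_inv, neg_neg]
  rw [h6, one_div, ← hu]
  nlinarith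

theorem W_ge (θ y : ℝ) (h0 : 0 < θ) (h2 : θ ≤ 2) (hy : 0 < y) :
    Real.exp 2 / 16 ≤ Wt θ y := by
  have h1 : Real.exp 2 / 16 = Real.exp (2 * (1 - 2 * Real.log 2)) := by
    rw [show 2 * (1 - 2 * Real.log 2) = 2 - 4 * Real.log 2 by ring, Real.exp_sub]
    congr 1
    rw [show (4 : ℝ) * Real.log 2 = Real.log (2 ^ 4) by rw [Real.log_pow]; norm_num,
      Real.exp_log (by norm_num)]
    norm_num
  rw [h1]
  unfold Wt
  apply Real.exp_le_exp.2
  have h3 := g_low y hy
  have h4 := Real.log_two_gt_d9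
  have h5 : 2 * (1 - 2 * Real.log 2) ≤ θ * (1 - 2 * Real.log 2) := by nlinarith
  exact h5.trans (mul_le_mul_of_nonneg_left h3 h0.le)

theorem big (θ : ℝ) (h0 : 0 < θ) (h2 : θ ≤ 2) :
    1 / 2 ≤ ∫ y in (1 / 3 : ℝ)..1, Wt θ y / y := by
  have h1 : ∫ y in (1 / 3 : ℝ)..1, Real.exp 2 / 16 * y⁻¹ = Real.exp 2 / 16 * Real.log 3 := by
    rw [intervalIntegral.integral_const_mul, integral_inv_of_pos (by norm_num) (by norm_num)]
    norm_num
  have h3 : ∫ y in (1 / 3 : ℝ)..1, Real.exp 2 / 16 * y⁻¹ ≤ ∫ y in (1 / 3 : ℝ)..1, Wt θ y / y := by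
    refine intervalIntegral.integral_mono_on (by norm_num) ?_
      (ii (f1_cont θ) (by norm_num) (by norm_num)) fun y hy => ?_
    · refine (ContinuousOn.intervalIntegrable ?_)
      refine continuousOn_const.mul (continuousOn_inv₀.mono fun y hy => ?_)
      exact ne_of_gt (sub_Ioi (by norm_num) (by norm_num) hy)
    · have hy0 : 0 < y := lt_of_lt_of_le (by norm_num) hy.1
      rw [div_eq_mul_inv]
      exact mul_le_mul_of_nonneg_right (W_ge θ y h0 h2 hy0) (inv_nonneg.2 hy0.le)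
  rw [h1] at h3
  refine le_trans ?_ h3
  have h4 := log3
  have h5 : (7.38 : ℝ) < Real.exp 2 := by
    have h6 := Real.exp_one_gt_d9
    have h7 : Real.exp 2 = Real.exp 1 * Real.exp 1 := by
      rw [← Real.exp_add]
      norm_num
    rw [h7]
    nlinarith
  nlinarith

end AEXx

open AEXx in
theorem t_AEX : S_AEX := by
  intro θ h0 h2
  have hF : ContinuousOn (fun x => ∫ y in x..1, Wt θ y / y) (Icc (1 / 3) 1) := by
    intro x hx
    have hx0 : 0 < x := lt_of_lt_of_le (by norm_num) hx.1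
    have h1 := (hd (f1_cont θ) (a := 1) (b := x) one_pos hx0).continuousAt.continuousWithinAt
      (s := Icc (1 / 3 : ℝ) 1)
    have h3 := h1.neg
    refine h3.congr (fun y _ => ?_) ?_
    · exact intervalIntegral.integral_symm _ _
    · exact intervalIntegral.integral_symm _ _
  have h1 : (1 / 2 : ℝ) ∈ Icc (∫ y in (1 : ℝ)..1, Wt θ y / y) (∫ y in (1 / 3 : ℝ)..1, Wt θ y / y) := by
    refine ⟨?_, big θ h0 h2⟩
    rw [intervalIntegral.integral_same]
    norm_num
  obtain ⟨a, ha, hFa⟩ := intermediate_value_Icc' (by norm_num : (1 / 3 : ℝ) ≤ 1) hF h1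
  have hFa' : ∫ y in a..1, Wt θ y / y = 1 / 2 := hFa
  have ha0 : 0 < a := lt_of_lt_of_le (by norm_num) ha.1
  have ha1 : a < 1 := by
    refine lt_of_le_of_ne ha.2 fun h => ?_
    rw [h, intervalIntegral.integral_same] at hFa'
    norm_num at hFa'
  obtain ⟨c, hc⟩ : ∃ c, c = (1 - Wt θ a) / θ := ⟨_, rfl⟩
  -- the second integral
  have hJ : ∫ y in a..1, Wt θ y / y ^ 2 = 1 - c := by
    have h3 : ∫ y in a..1, Wt θ y * (θ * (2 / y - 1 / y ^ 2)) = Wt θ 1 - Wt θ a := by
      refine intervalIntegral.integral_eq_sub_of_hasDerivAt (fun y hy => ?_) ?_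
      · exact W_deriv θ y (sub_Ioi ha0 one_pos hy)
      · refine ContinuousOn.intervalIntegrable ?_
        have h4 : ContinuousOn (fun y => θ * (2 * (Wt θ y / y) - Wt θ y / y ^ 2)) (Ioi 0) :=
          continuousOn_const.mul ((continuousOn_const.mul (f1_cont θ)).sub (f2_cont θ))
        refine (h4.mono (sub_Ioi ha0 one_pos)).congr fun y _ => ?_
        ring
    have h4 : ∫ y in a..1, Wt θ y * (θ * (2 / y - 1 / y ^ 2)) =
        θ * (2 * (∫ y in a..1, Wt θ y / y) - ∫ y in a..1, Wt θ y / y ^ 2) := by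
      rw [← intervalIntegral.integral_const_mul, ← intervalIntegral.integral_sub
        ((ii (f1_cont θ) ha0 one_pos).const_mul 2) (ii (f2_cont θ) ha0 one_pos),
        ← intervalIntegral.integral_const_mul]
      refine intervalIntegral.integral_congr fun y _ => ?_
      show Wt θ y * (θ * (2 / y - 1 / y ^ 2)) = θ * (2 * (Wt θ y / y) - Wt θ y / y ^ 2)
      ring
    have h5 : Wt θ 1 = 1 := by
      unfold Wt
      norm_num
    rw [h3, h5, hFa'] at h4
    have h6 : c * θ = 1 - Wt θ a := by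
      rw [hc]
      field_simp
    have h7 : θ * (c - (2 * (1 / 2) - ∫ y in a..1, Wt θ y / y ^ 2)) = 0 := by
      linarith
    rcases mul_eq_zero.1 h7 with h8 | h8
    · exact absurd h8 h0.ne'
    · linarith
  -- splitting the integral
  have hsplit : ∀ z x : ℝ, 0 < x → ∫ y in a..x, Wt θ y * (2 / y - z / y ^ 2) =
      2 * (∫ y in a..x, Wt θ y / y) - z * ∫ y in a..x, Wt θ y / y ^ 2 := by
    intro z x hx
    rw [← intervalIntegral.integral_const_mul, ← intervalIntegral.integral_const_mul,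
      ← intervalIntegral.integral_sub ((ii (f1_cont θ) ha0 hx).const_mul 2)
        ((ii (f2_cont θ) ha0 hx).const_mul z)]
    refine intervalIntegral.integral_congr fun y _ => ?_
    show Wt θ y * (2 / y - z / y ^ 2) = 2 * (Wt θ y / y) - z * (Wt θ y / y ^ 2)
    ring
  refine ⟨a, ha.1, ha1, ?_, ?_, ?_⟩
  · unfold Wt
    exact Real.exp_le_one_iff.2 (mul_nonpos_of_nonneg_of_nonpos h0.le (g_up a ha.1 ha.2))
  · -- low
    have hE : MonotoneOn (fun z => c - Wt θ z / z + ∫ y in a..z, Wt θ y / y ^ 2) (Icc a 1) := by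
      have hder : ∀ z, 0 < z → HasDerivAt (fun z => c - Wt θ z / z + ∫ y in a..z, Wt θ y / y ^ 2)
          (Wt θ z / z ^ 3 * (2 * z - θ * (2 * z - 1))) z := by
        intro z hz
        have e1 := (W_deriv θ z hz).div (hasDerivAt_id z) hz.ne'
        have e2 := hd (f2_cont θ) ha0 hz
        have e3 := (e1.const_sub c).add e2
        refine e3.congr_deriv ?_
        simp only [id]
        field_simp
        ring
      refine monotoneOn_of_deriv_nonneg (convex_Icc a 1) (fun z hz => ?_) (fun z hz => ?_)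
        fun z hz => ?_
      · exact (hder z (lt_of_lt_of_le ha0 hz.1)).continuousAt.continuousWithinAt
      · rw [interior_Icc] at hz
        exact (hder z (ha0.trans hz.1)).differentiableAt.differentiableWithinAt
      · rw [interior_Icc] at hz
        have hz0 := ha0.trans hz.1
        rw [(hder z hz0).deriv]
        have e1 : 0 < Wt θ z / z ^ 3 := div_pos (W_pos θ z) (by positivity)
        refine mul_nonneg e1.le ?_
        rcases le_total (2 * z) 1 with h | h
        · have : θ * (2 * z - 1) ≤ 0 := mul_nonpos_of_nonneg_of_nonpos h0.le (by linarith)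
          linarith
        · have : θ * (2 * z - 1) ≤ 2 * (2 * z - 1) := mul_le_mul_of_nonneg_right h2 (by linarith)
          linarith [hz.2]
    have hE1 : c - Wt θ 1 / 1 + ∫ y in a..1, Wt θ y / y ^ 2 = 0 := by
      have h5 : Wt θ 1 = 1 := by
        unfold Wt
        norm_num
      rw [hJ, h5]
      ring
    have hD : AntitoneOn (fun z => c * z - (2 * (∫ y in a..z, Wt θ y / y) -
        z * ∫ y in a..z, Wt θ y / y ^ 2)) (Icc a 1) := by
      have hder : ∀ z, 0 < z → HasDerivAt (fun z => c * z - (2 * (∫ y in a..z, Wt θ y / y) -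
          z * ∫ y in a..z, Wt θ y / y ^ 2)) (c - Wt θ z / z + ∫ y in a..z, Wt θ y / y ^ 2) z := by
        intro z hz
        have e1 := (hd (f1_cont θ) ha0 hz).const_mul 2
        have e2 := (hasDerivAt_id z).mul (hd (f2_cont θ) ha0 hz)
        have e3 := ((hasDerivAt_id z).const_mul c).sub (e1.sub e2)
        refine e3.congr_deriv ?_
        simp only [id]
        field_simp
        ring
      refine antitoneOn_of_deriv_nonpos (convex_Icc a 1) (fun z hz => ?_) (fun z hz => ?_)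
        fun z hz => ?_
      · exact (hder z (lt_of_lt_of_le ha0 hz.1)).continuousAt.continuousWithinAt
      · rw [interior_Icc] at hz
        exact (hder z (ha0.trans hz.1)).differentiableAt.differentiableWithinAt
      · rw [interior_Icc] at hz
        rw [(hder z (ha0.trans hz.1)).deriv]
        have e1 := hE ⟨hz.1.le, hz.2.le⟩ (right_mem_Icc.2 ha1.le) hz.2.le
        exact e1.trans (le_of_eq hE1)
    intro z hz
    rw [← hc, hsplit z z (lt_of_lt_of_le ha0 hz.1)]
    have e1 := hD hz (right_mem_Icc.2 ha1.le) hz.2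
    simp only [hFa', hJ] at e1
    linarith
  · intro z
    rw [← hc, hsplit z 1 one_pos, hFa', hJ]
    ring

end Pool.Agent.RTC
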