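import Pool.Agent.RTC.St2

/-!
# RTC version 2 (MP_84cf48_an): barriers in the variable `ζ`, free slope
-/

set_option autoImplicit false

namespace Pool.Agent.RTC

open MeasureTheory Set Filter Topology
open scoped ENNReal NNReal

namespace BR2

theorem sq_rpow {r : ℝ} (hr : 0 < r) (q : ℝ) : (r ^ 2) ^ (q / 2) = r ^ q := by
  rw [← Real.rpow_natCast r 2, ← Real.rpow_mul hr.le]
  congr 1
  push_cast
  ring

theorem int_eq (ν : Measure ℝ) (y q : ℝ) {r : ℝ} (hr : 0 < r) :
    ∫ z in Ioi y, (2 * (q / r) - (q / r) ^ 2 * z) ∂ν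
      = (q / r ^ 2) * ∫ z in Ioi y, (2 * r - q * z) ∂ν := by
  rw [← integral_const_mul]
  congr 1
  funext z
  field_simp

end BR2

open BR2 in
theorem t_BR2 : S_BA2 → S_BR2 := by
  intro hbar N b m ν hN hb hD ζ a Y ha hζ hma hder
  have hN0 : (0 : ℝ) < N := by
    have : 0 < N := by omega
    exact_mod_cast this
  have hN2 : (2 : ℝ) ≤ N := by exact_mod_cast hN
  have hp1 : (1 : ℝ) ≤ (N : ℝ) / 2 := by linarith
  refine hbar N b m ν hN hb hD (fun y => (max 0 (1 - 2 * ζ y / b)) ^ ((N : ℝ) / 2)) a Y ha ?_ ?_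
    hma ?_
  · refine ContinuousOn.rpow_const ?_ (fun y _ => Or.inr (by linarith))
    exact ((continuous_const (y := (0 : ℝ))).max continuous_id).comp_continuousOn
      (continuousOn_const.sub ((continuousOn_const.mul hζ).div_const b))
  · intro y _
    exact Real.rpow_nonneg (le_max_left _ _) _
  · intro y hy hmy hB0
    have hB1 : (max 0 (1 - 2 * ζ y / b)) ^ ((N : ℝ) / 2) ≤ 1 := by
      have h := hD.le_one y
      rw [hmy] at h
      exact h
    set x : ℝ := 1 - 2 * ζ y / b with hx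
    have hx0 : 0 < x := by
      by_contra h
      push Not at h
      simp only [max_eq_left h] at hB0
      rw [Real.zero_rpow (by linarith)] at hB0
      exact lt_irrefl _ hB0
    have hmx : max 0 x = x := max_eq_right hx0.le
    simp only [hmx] at hB0 hB1 hmy ⊢
    have hx1 : x ≤ 1 := by
      by_contra h
      push Not at h
      have := Real.one_lt_rpow h (by linarith : (0 : ℝ) < (N : ℝ) / 2)
      linarith
    have hr0 : 0 < Real.sqrt x := Real.sqrt_pos.2 hx0
    have hr1 : Real.sqrt x ≤ 1 := by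
      rw [Real.sqrt_le_one]
      exact hx1
    have hr2 : Real.sqrt x ^ 2 = x := Real.sq_sqrt hx0.le
    generalize Real.sqrt x = r at hr0 hr1 hr2
    have hmr : m y = r ^ N := by
      rw [hmy, ← hr2, sq_rpow hr0, Real.rpow_natCast]
    obtain ⟨ζ', q, hq, hd, hlt⟩ := hder y hy r hr0 hr1 hr2 hmr
    refine ⟨(-(2 * ζ' / b)) * ((N : ℝ) / 2) * x ^ ((N : ℝ) / 2 - 1), q / r, by positivity, ?_, ?_⟩
    · have h1 : HasDerivWithinAt (fun t => 1 - 2 * ζ t / b) (-(2 * ζ' / b)) (Ici y) y :=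
        ((hd.const_mul 2).div_const b).const_sub 1
      have h2 := h1.rpow_const (p := (N : ℝ) / 2) (Or.inr hp1)
      refine h2.congr_of_eventuallyEq ?_ ?_
      · have h3 : ∀ᶠ t in 𝓝[Ici y] y, 0 < 1 - 2 * ζ t / b :=
          h1.continuousWithinAt.eventually (lt_mem_nhds hx0)
        filter_upwards [h3] with t ht
        rw [max_eq_right ht.le]
      · simp only [← hx, hmx]
    · rw [int_eq ν y q hr0]
      set I : ℝ := ∫ z in Ioi y, (2 * r - q * z) ∂ν with hI
      clear_value I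
      obtain ⟨M, rfl⟩ := Nat.exists_eq_add_of_le hN
      have e1 : x ^ (((2 + M : ℕ) : ℝ) / 2) = r ^ M * r ^ 2 := by
        rw [← hr2, sq_rpow hr0, Real.rpow_natCast, pow_add]
        ring
      have e2 : x ^ (((2 + M : ℕ) : ℝ) / 2 - 1) = r ^ M := by
        have : ((2 + M : ℕ) : ℝ) / 2 - 1 = (M : ℝ) / 2 := by
          push_cast
          ring
        rw [this, ← hr2, sq_rpow hr0, Real.rpow_natCast]
      have e3 : (r ^ M * r ^ 2) ^ (1 - 1 / ((2 + M : ℕ) : ℝ)) = r ^ M * r := by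
        have h4 : r ^ M * r ^ 2 = r ^ (((2 + M : ℕ) : ℝ)) := by
          rw [Real.rpow_natCast, pow_add]
          ring
        have h5 : ((2 + M : ℕ) : ℝ) * (1 - 1 / ((2 + M : ℕ) : ℝ)) = ((M + 1 : ℕ) : ℝ) := by
          rw [mul_sub, mul_one, mul_one_div_cancel hN0.ne']
          push_cast
          ring
        rw [h4, ← Real.rpow_mul hr0.le, h5, Real.rpow_natCast, pow_succ]
      rw [e1, e2, e3]
      have hI1 : ζ' < 2 * q - q ^ 2 - q * I / (r ^ M * r ^ 2) := by
        have h6 : r ^ (2 + M) = r ^ M * r ^ 2 := by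
          rw [pow_add]
          ring
        rw [← h6]
        exact hlt
      have hc : 0 < ((2 + M : ℕ) : ℝ) / b * r ^ M := by positivity
      have h7 := mul_lt_mul_of_pos_left hI1 hc
      calc -(-(2 * ζ' / b) * (((2 + M : ℕ) : ℝ) / 2) * r ^ M)
          = ((2 + M : ℕ) : ℝ) / b * r ^ M * ζ' := by ring
        _ < ((2 + M : ℕ) : ℝ) / b * r ^ M * (2 * q - q ^ 2 - q * I / (r ^ M * r ^ 2)) := h7
        _ = ((2 + M : ℕ) : ℝ) / b * (2 * (q / r) * (r ^ M * r) - (q / r) ^ 2 * (r ^ M * r ^ 2)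
            - (q / r ^ 2) * I) := by
          field_simp

end Pool.Agent.RTC
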