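import Pool.Agent.RTC.St2

/-!
# Project RTC, module DI2 (helper52): the differential inequality with the signed boundary term
-/

set_option autoImplicit false

namespace Pool.Agent.RTC

open MeasureTheory Set Filter Topology
open scoped ENNReal NNReal

namespace DI2

section

variable {N : ℕ} {Ω : Set (E N)} {u : E N → ℝ}

theorem mu_nonneg (t : ℝ) : 0 ≤ mu Ω u t := ENNReal.toReal_nonneg

theorem gam_nonneg (N : ℕ) : 0 ≤ gam N := by
  unfold gam om
  exact mul_nonneg (Nat.cast_nonneg N) (Real.rpow_nonneg ENNReal.toReal_nonneg _)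

/-- The distribution function as an integral. -/
theorem int_ind (hΩ : IsOpen Ω) (hu : AEMeasurable u (volume.restrict Ω)) (t : ℝ) :
    ∫ x in Ω, ({x | t < u x}.indicator (fun _ => (1 : ℝ)) x) = mu Ω u t := by
  have hn : NullMeasurableSet {x | t < u x} (volume.restrict Ω) :=
    nullMeasurableSet_lt aemeasurable_const hu
  rw [integral_indicator₀ hn, setIntegral_const, smul_eq_mul, mul_one]
  unfold mu
  rw [measureReal_def, Measure.restrict_apply' hΩ.measurableSet, inter_comm]

theorem step (h1 : S_GEX) (h2 : S_LMA) (h3 : S_LMB) (hN : 2 ≤ N) {σ : Measure (E N)} {β : ℝ}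
    {g : E N → E N} {w : E N → ℝ} (hΩ : IsOpen Ω) (hb : Bornology.IsBounded Ω)
    (hσ : IsBoundaryMeasure Ω σ) (hr : IsRobin Ω σ β u g w) {t h s δ s0 : ℝ}
    (hs : 0 < s) (hδ : 0 < δ) (hδh : 2 * δ ≤ h) (hs0 : 0 < s0) (hs1 : s0 < 1) :
    2 * s * gam N * (mu Ω u (t + h)) ^ (1 - 1 / (N : ℝ)) * s0 ≤
      (mu Ω u t - mu Ω u (t + h)) / (h - δ) + s ^ 2 * mu Ω u t +
        ((∫ x, (if t < w x then max 0 (2 * s - s ^ 2 * β * w x) else 0) ∂σ) -
          ∫ x, (if t + h ≤ w x then max 0 (s ^ 2 * β * w x - 2 * s) else 0) ∂σ) := by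
  obtain ⟨G, hG, hG0, hG1, hGt, hGh, hd0, hd1, hdt, hdh⟩ := h1 t h δ hδ hδh
  have hhd : 0 < h - δ := by linarith
  have hfin : IsFiniteMeasure (volume.restrict Ω) :=
    ⟨by rw [Measure.restrict_apply_univ]; exact hb.measure_lt_top⟩
  have hfinσ : IsFiniteMeasure σ := ⟨hσ.finite⟩
  have hinv : 0 ≤ 1 / (h - δ) := by positivity
  have hC1 : ∀ x, G x ≤ 1 + 1 / (h - δ) := fun x => by linarith [hG1 x]
  have hC2 : ∀ x, deriv G x ≤ 1 + 1 / (h - δ) := fun x => by linarith [hd1 x]
  have hA := h2 N Ω σ β u g w hΩ hb hσ hr G (1 + 1 / (h - δ)) hG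
    (fun x => by rw [abs_of_nonneg (hG0 x)]; exact hC1 x)
    (fun x => by rw [abs_of_nonneg (hd0 x)]; exact hC2 x)
  have hB := h3 N hN Ω σ β u g w hΩ hb hσ hr G (1 + 1 / (h - δ)) hG hG0 hC1 hd0 hC2 s0 hs0
  -- measurability and integrability
  have hum : AEMeasurable u (volume.restrict Ω) := hr.u_mem.aestronglyMeasurable.aemeasurable
  have hcd : Continuous (deriv G) := hG.continuous_deriv le_rfl
  have hdu : AEStronglyMeasurable (fun x => deriv G (u x)) (volume.restrict Ω) :=
    hcd.comp_aestronglyMeasurable hr.u_mem.aestronglyMeasurable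
  have hGu : AEStronglyMeasurable (fun x => G (u x)) (volume.restrict Ω) :=
    hG.continuous.comp_aestronglyMeasurable hr.u_mem.aestronglyMeasurable
  have hGw : AEStronglyMeasurable (fun x => G (w x)) σ :=
    hG.continuous.comp_aestronglyMeasurable hr.w_mem.aestronglyMeasurable
  have hdb : ∀ x, ‖deriv G (u x)‖ ≤ 1 / (h - δ) := fun x => by
    rw [Real.norm_eq_abs, abs_of_nonneg (hd0 _)]
    exact hd1 _
  have hGb : ∀ y, ‖G y‖ ≤ 1 := fun y => by
    rw [Real.norm_eq_abs, abs_of_nonneg (hG0 _)]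
    exact hG1 _
  have i1 : Integrable (fun x => deriv G (u x)) (volume.restrict Ω) :=
    Integrable.of_bound hdu _ (Eventually.of_forall hdb)
  have ig : Integrable (fun x => ‖g x‖) (volume.restrict Ω) :=
    (hr.g_mem.integrable (by norm_num)).norm
  have ig2 : Integrable (fun x => ‖g x‖ ^ 2) (volume.restrict Ω) :=
    (memLp_two_iff_integrable_sq_norm hr.g_mem.aestronglyMeasurable).1 hr.g_mem
  have i2 : Integrable (fun x => deriv G (u x) * ‖g x‖) (volume.restrict Ω) :=
    ig.bdd_mul hdu (Eventually.of_forall hdb)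
  have i3 : Integrable (fun x => deriv G (u x) * ‖g x‖ ^ 2) (volume.restrict Ω) :=
    ig2.bdd_mul hdu (Eventually.of_forall hdb)
  have i4 : Integrable (fun x => G (u x)) (volume.restrict Ω) :=
    Integrable.of_bound hGu _ (Eventually.of_forall fun x => hGb _)
  have iw : Integrable w σ := hr.w_mem.integrable (by norm_num)
  have i5 : Integrable (fun x => G (w x)) σ :=
    Integrable.of_bound hGw _ (Eventually.of_forall fun x => hGb _)
  have i6 : Integrable (fun x => w x * G (w x)) σ := by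
    have h4 := iw.bdd_mul hGw (Eventually.of_forall fun x => hGb (w x))
    refine h4.congr (Eventually.of_forall fun x => ?_)
    exact mul_comm _ _
  have hind : ∀ τ : ℝ, Integrable ({x | τ < u x}.indicator (fun _ => (1 : ℝ)))
      (volume.restrict Ω) := fun τ =>
    (integrable_const (1 : ℝ)).indicator₀ (nullMeasurableSet_lt aemeasurable_const hum)
  -- the integral of the derivative
  have e1 : ∫ x in Ω, deriv G (u x) ≤ (mu Ω u t - mu Ω u (t + h)) / (h - δ) := by
    rw [← int_ind hΩ hum t, ← int_ind hΩ hum (t + h), ← integral_sub (hind t) (hind (t + h)),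
      ← integral_div]
    refine integral_mono i1 (((hind t).sub (hind (t + h))).div_const _) fun x => ?_
    show deriv G (u x) ≤ ({x | t < u x}.indicator (fun _ => (1 : ℝ)) x -
      {x | t + h < u x}.indicator (fun _ => (1 : ℝ)) x) / (h - δ)
    simp only [Set.indicator_apply, Set.mem_setOf_eq]
    by_cases hx : t < u x
    · by_cases hx2 : t + h < u x
      · rw [if_pos hx, if_pos hx2, hdh _ hx2.le]
        simp
      · rw [if_pos hx, if_neg hx2, sub_zero]
        exact hd1 _
    · have hx2 : ¬ t + h < u x := by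
        intro h5
        apply hx
        linarith
      rw [if_neg hx, if_neg hx2, hdt _ (not_lt.1 hx)]
      simp
  have e2 : ∫ x in Ω, G (u x) ≤ mu Ω u t := by
    rw [← int_ind hΩ hum t]
    refine integral_mono i4 (hind t) fun x => ?_
    show G (u x) ≤ {x | t < u x}.indicator (fun _ => (1 : ℝ)) x
    simp only [Set.indicator_apply, Set.mem_setOf_eq]
    by_cases hx : t < u x
    · rw [if_pos hx]
      exact hG1 _
    · rw [if_neg hx, hGt _ (not_lt.1 hx)]
  -- the boundary term
  have e3 : 2 * s * ∫ x, G (w x) ∂σ - s ^ 2 * (β * ∫ x, w x * G (w x) ∂σ) ≤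
      (∫ x, (if t < w x then max 0 (2 * s - s ^ 2 * β * w x) else 0) ∂σ) -
        ∫ x, (if t + h ≤ w x then max 0 (s ^ 2 * β * w x - 2 * s) else 0) ∂σ := by
    have h4 : 2 * s * ∫ x, G (w x) ∂σ - s ^ 2 * (β * ∫ x, w x * G (w x) ∂σ) =
        ∫ x, (2 * s * G (w x) - s ^ 2 * β * (w x * G (w x))) ∂σ := by
      rw [integral_sub (i5.const_mul _) (i6.const_mul _), integral_const_mul,
        integral_const_mul]
      ring
    rw [h4]
    have hwm : AEMeasurable w σ := hr.w_mem.aestronglyMeasurable.aemeasurable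
    have i7 : Integrable (fun x => if t < w x then max 0 (2 * s - s ^ 2 * β * w x) else 0)
        σ := by
      have h5 : Integrable (fun x => max 0 (2 * s - s ^ 2 * β * w x)) σ := by
        have h6 : Integrable (fun x => 2 * s - s ^ 2 * β * w x) σ :=
          (integrable_const _).sub (iw.const_mul _)
        have h7 := h6.pos_part
        refine h7.congr (Eventually.of_forall fun x => ?_)
        exact max_comm _ _
      have h8 := h5.indicator₀ (nullMeasurableSet_lt (aemeasurable_const (b := t)) hwm)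
      refine h8.congr (Eventually.of_forall fun x => ?_)
      simp only [Set.indicator_apply, Set.mem_setOf_eq]
    have i8 : Integrable (fun x => if t + h ≤ w x then max 0 (s ^ 2 * β * w x - 2 * s) else 0)
        σ := by
      have h5 : Integrable (fun x => max 0 (s ^ 2 * β * w x - 2 * s)) σ := by
        have h6 : Integrable (fun x => s ^ 2 * β * w x - 2 * s) σ :=
          (iw.const_mul _).sub (integrable_const _)
        have h7 := h6.pos_part
        refine h7.congr (Eventually.of_forall fun x => ?_)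
        exact max_comm _ _
      have h8 := h5.indicator₀ (nullMeasurableSet_le (aemeasurable_const (b := t + h)) hwm)
      refine h8.congr (Eventually.of_forall fun x => ?_)
      simp only [Set.indicator_apply, Set.mem_setOf_eq]
    rw [← integral_sub i7 i8]
    refine integral_mono ((i5.const_mul _).sub (i6.const_mul _)) (i7.sub i8) fun x => ?_
    show 2 * s * G (w x) - s ^ 2 * β * (w x * G (w x)) ≤
      (if t < w x then max 0 (2 * s - s ^ 2 * β * w x) else 0) -
        (if t + h ≤ w x then max 0 (s ^ 2 * β * w x - 2 * s) else 0)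
    by_cases hx2 : t + h ≤ w x
    · have hx : t < w x := by linarith
      rw [if_pos hx, if_pos hx2, hGh _ hx2]
      rcases le_total (2 * s - s ^ 2 * β * w x) 0 with h5 | h5
      · rw [max_eq_left h5, max_eq_right (by linarith)]
        linarith
      · rw [max_eq_right h5, max_eq_left (by linarith)]
        linarith
    rw [if_neg hx2, sub_zero]
    by_cases hx : t < w x
    · rw [if_pos hx]
      have h5 : 2 * s * G (w x) - s ^ 2 * β * (w x * G (w x)) =
          G (w x) * (2 * s - s ^ 2 * β * w x) := by ring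
      rw [h5]
      calc G (w x) * (2 * s - s ^ 2 * β * w x)
          ≤ G (w x) * max 0 (2 * s - s ^ 2 * β * w x) :=
            mul_le_mul_of_nonneg_left (le_max_right _ _) (hG0 _)
        _ ≤ 1 * max 0 (2 * s - s ^ 2 * β * w x) :=
            mul_le_mul_of_nonneg_right (hG1 _) (le_max_left _ _)
        _ = max 0 (2 * s - s ^ 2 * β * w x) := one_mul _
    · rw [if_neg hx, hGt _ (not_lt.1 hx)]
      simp
  -- the gradient term
  have e4 : 2 * s * ∫ x in Ω, deriv G (u x) * ‖g x‖ ≤
      (∫ x in Ω, deriv G (u x)) + s ^ 2 * ∫ x in Ω, deriv G (u x) * ‖g x‖ ^ 2 := by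
    rw [← integral_const_mul, ← integral_const_mul, ← integral_add i1 (i3.const_mul _)]
    refine integral_mono (i2.const_mul _) (i1.add (i3.const_mul _)) fun x => ?_
    show 2 * s * (deriv G (u x) * ‖g x‖) ≤
      deriv G (u x) + s ^ 2 * (deriv G (u x) * ‖g x‖ ^ 2)
    have h5 : 0 ≤ deriv G (u x) * (1 - s * ‖g x‖) ^ 2 := mul_nonneg (hd0 _) (sq_nonneg _)
    nlinarith [h5]
  -- the volume
  have e5 : (mu Ω u (t + h)) ^ (1 - 1 / (N : ℝ)) ≤
      ((volume (Ω ∩ {x | s0 < G (u x)})).toReal) ^ (1 - 1 / (N : ℝ)) := by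
    have hexp : 0 ≤ 1 - 1 / (N : ℝ) := by
      have h5 : (2 : ℝ) ≤ (N : ℝ) := by exact_mod_cast hN
      have h6 : 1 / (N : ℝ) ≤ 1 := by
        rw [div_le_one (by linarith)]
        linarith
      linarith
    refine Real.rpow_le_rpow (mu_nonneg _) ?_ hexp
    unfold mu
    refine ENNReal.toReal_mono ?_ (measure_mono ?_)
    · exact ((measure_mono inter_subset_left).trans_lt hb.measure_lt_top).ne
    · rintro x ⟨hx, hx2⟩
      refine ⟨hx, ?_⟩
      have h5 : t + h ≤ u x := le_of_lt hx2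
      show s0 < G (u x)
      rw [hGh _ h5]
      exact hs1
  have e6 : s0 * gam N * (mu Ω u (t + h)) ^ (1 - 1 / (N : ℝ)) ≤
      (∫ x in Ω, deriv G (u x) * ‖g x‖) + ∫ x, G (w x) ∂σ :=
    (mul_le_mul_of_nonneg_left e5 (mul_nonneg hs0.le (gam_nonneg N))).trans hB
  have e7 := mul_le_mul_of_nonneg_left e6 (by linarith : 0 ≤ 2 * s)
  have e8 := mul_le_mul_of_nonneg_left e2 (sq_nonneg s)
  rw [← hA] at e8
  have e9 : 2 * s * gam N * (mu Ω u (t + h)) ^ (1 - 1 / (N : ℝ)) * s0 =
      2 * s * (s0 * gam N * (mu Ω u (t + h)) ^ (1 - 1 / (N : ℝ))) := by ring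
  rw [e9]
  rw [mul_add] at e7 e8
  linarith

end

end DI2

open DI2 in
theorem t_DI2 (h1 : S_GEX) (h2 : S_LMA) (h3 : S_LMB) : S_DI2 := by
  intro N hN Ω σ β u g w _ hΩ hb hσ hr t h s hh hs
  have hstep : ∀ᶠ ε in 𝓝[>] (0 : ℝ),
      2 * s * gam N * (mu Ω u (t + h)) ^ (1 - 1 / (N : ℝ)) * (1 - ε) ≤
      (mu Ω u t - mu Ω u (t + h)) / (h - ε) + s ^ 2 * mu Ω u t +
        ((∫ x, (if t < w x then max 0 (2 * s - s ^ 2 * β * w x) else 0) ∂σ) -
          ∫ x, (if t + h ≤ w x then max 0 (s ^ 2 * β * w x - 2 * s) else 0) ∂σ) := by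
    have h4 : Ioo (0 : ℝ) (min (h / 2) 1) ∈ 𝓝[>] (0 : ℝ) :=
      Ioo_mem_nhdsGT (lt_min (by linarith) one_pos)
    filter_upwards [h4] with ε hε
    have h5 : ε < h / 2 := hε.2.trans_le (min_le_left _ _)
    have h6 : ε < 1 := hε.2.trans_le (min_le_right _ _)
    exact step h1 h2 h3 hN hΩ hb hσ hr hs hε.1 (by linarith) (by linarith) (by linarith [hε.1])
  have hid : Tendsto (fun ε : ℝ => ε) (𝓝[>] (0 : ℝ)) (𝓝 0) := tendsto_nhdsWithin_of_tendsto_nhds
    tendsto_id
  have t1 : Tendsto (fun ε : ℝ => 2 * s * gam N * (mu Ω u (t + h)) ^ (1 - 1 / (N : ℝ)) *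
      (1 - ε)) (𝓝[>] (0 : ℝ)) (𝓝 (2 * s * gam N * (mu Ω u (t + h)) ^ (1 - 1 / (N : ℝ)) *
      (1 - 0))) := (hid.const_sub 1).const_mul _
  have t2 : Tendsto (fun ε : ℝ => (mu Ω u t - mu Ω u (t + h)) / (h - ε) + s ^ 2 * mu Ω u t +
      ((∫ x, (if t < w x then max 0 (2 * s - s ^ 2 * β * w x) else 0) ∂σ) -
        ∫ x, (if t + h ≤ w x then max 0 (s ^ 2 * β * w x - 2 * s) else 0) ∂σ)) (𝓝[>] (0 : ℝ))
      (𝓝 ((mu Ω u t - mu Ω u (t + h)) / (h - 0) + s ^ 2 * mu Ω u t +
      ((∫ x, (if t < w x then max 0 (2 * s - s ^ 2 * β * w x) else 0) ∂σ) -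
        ∫ x, (if t + h ≤ w x then max 0 (s ^ 2 * β * w x - 2 * s) else 0) ∂σ))) := by
    have h5 : h - 0 ≠ 0 := by
      rw [sub_zero]
      exact hh.ne'
    exact ((tendsto_const_nhds.div (hid.const_sub h) h5).add_const _).add_const _
  have h6 := le_of_tendsto_of_tendsto t1 t2 hstep
  rw [sub_zero, sub_zero, mul_one] at h6
  linarith

end Pool.Agent.RTC
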