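import Pool.Agent.RTC.St2

/-!
# RTC_ET1: the barrier function below the level 1
-/

set_option autoImplicit false

namespace Pool.Agent.RTC

open MeasureTheory Set Filter Topology
open scoped ENNReal NNReal

namespace ET1

/-- `∫_{z > y} f dν` -/
noncomputable def J (ν : Measure ℝ) (f : ℝ → ℝ) (y : ℝ) : ℝ := ∫ z in Ioi y, f z ∂ν

theorem J_anti {ν : Measure ℝ} {f : ℝ → ℝ} (hf : Integrable f ν) (h0 : 0 ≤ᵐ[ν] f) :
    Antitone (J ν f) := by
  intro x y hxy
  exact setIntegral_mono_set hf.integrableOn (ae_restrict_of_ae h0)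
    (Eventually.of_forall fun z hz => lt_of_le_of_lt hxy hz)

theorem J_cont {ν : Measure ℝ} {f : ℝ → ℝ} (hf : Integrable f ν) (y : ℝ) :
    ContinuousWithinAt (J ν f) (Ioi y) y := by
  have e : ∀ x, J ν f x = ∫ z, (Ioi x).indicator f z ∂ν := fun x =>
    (integral_indicator measurableSet_Ioi).symm
  have h : Tendsto (fun x => ∫ z, (Ioi x).indicator f z ∂ν)
      (𝓝[Ioi y] y) (𝓝 (∫ z, (Ioi y).indicator f z ∂ν)) := by
    refine tendsto_integral_filter_of_dominated_convergence (fun z : ℝ => ‖f z‖) ?_ ?_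
      hf.norm ?_
    · exact Eventually.of_forall fun x => hf.aestronglyMeasurable.indicator measurableSet_Ioi
    · refine Eventually.of_forall fun x => Eventually.of_forall fun z => ?_
      by_cases hz : z ∈ Ioi x
      · rw [indicator_of_mem hz]
      · rw [indicator_of_notMem hz, norm_zero]
        exact norm_nonneg _
    · refine Eventually.of_forall fun z => ?_
      by_cases hz : y < z
      · have h1 : ∀ᶠ x in 𝓝[Ioi y] y, (Ioi x).indicator f z = (Ioi y).indicator f z := by
          have h2 : ∀ᶠ x in 𝓝[Ioi y] y, x < z := nhdsWithin_le_nhds (Iio_mem_nhds hz)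
          filter_upwards [h2] with x hx
          rw [indicator_of_mem (show z ∈ Ioi x from hx), indicator_of_mem (show z ∈ Ioi y from hz)]
        exact tendsto_const_nhds.congr' (h1.mono fun x hx => hx.symm)
      · have h1 : ∀ᶠ x in 𝓝[Ioi y] y, (Ioi x).indicator f z = (Ioi y).indicator f z := by
          filter_upwards [self_mem_nhdsWithin] with x hx
          have hx' : y < x := hx
          have h3 : z ∉ Ioi x := fun h => by
            have h' : x < z := h
            linarith
          rw [indicator_of_notMem h3, indicator_of_notMem (show z ∉ Ioi y from hz)]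
        exact tendsto_const_nhds.congr' (h1.mono fun x hx => hx.symm)
  unfold ContinuousWithinAt
  rw [e y]
  exact h.congr fun x => (e x).symm

theorem Sm_eq {ν : Measure ℝ} [IsFiniteMeasure ν] (hi : Integrable (fun z : ℝ => z) ν) (y : ℝ) :
    Sm ν y = y⁻¹ * (2 * J ν (fun _ => 1) y - y⁻¹ * J ν (fun z => z) y) := by
  unfold Sm J
  have h1 : Integrable (fun _ : ℝ => (2 : ℝ)) (ν.restrict (Ioi y)) := integrable_const _
  have h2 : Integrable (fun z : ℝ => z / y) (ν.restrict (Ioi y)) :=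
    (hi.integrableOn (s := Ioi y)).div_const y
  rw [integral_sub h1 h2, integral_div, one_div]
  have h3 : ∫ _ in Ioi y, (2 : ℝ) ∂ν = 2 * ∫ _ in Ioi y, (1 : ℝ) ∂ν := by
    rw [← integral_const_mul]
    simp only [mul_one]
  rw [h3, div_eq_inv_mul]

theorem ae_nonneg {ν : Measure ℝ} (h : ν (Iio 0) = 0) : 0 ≤ᵐ[ν] (fun z : ℝ => z) := by
  have h1 : ∀ᵐ z ∂ν, z ∉ Iio (0 : ℝ) := measure_eq_zero_iff_ae_notMem.1 h
  filter_upwards [h1] with z hz
  exact not_lt.1 hz

theorem W_der (θ y : ℝ) (hy : 0 < y) :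
    HasDerivAt (Wt θ) (Wt θ y * (θ * (2 / y - 1 / y ^ 2))) y := by
  have h1 : HasDerivAt (fun y : ℝ => 2 * Real.log y) (2 * y⁻¹) y :=
    (Real.hasDerivAt_log hy.ne').const_mul 2
  have h2 : HasDerivAt (fun y : ℝ => 1 / y) (-(y ^ 2)⁻¹) y := by
    have := hasDerivAt_inv hy.ne'
    simpa only [one_div] using this
  have h3 : HasDerivAt (fun y : ℝ => θ * (2 * Real.log y + 1 / y - 1))
      (θ * (2 * y⁻¹ + -(y ^ 2)⁻¹)) y := ((h1.add h2).sub_const 1).const_mul θ
  have h4 := h3.exp
  refine h4.congr_deriv ?_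
  rw [div_eq_mul_inv, one_div]
  show Real.exp (θ * (2 * Real.log y + 1 / y - 1)) * _ = Wt θ y * _
  unfold Wt
  ring

theorem W_le {θ y : ℝ} (h0 : 0 < θ) (h2 : θ ≤ 2) (hy : 1 / 3 ≤ y) (hy1 : y ≤ 1) :
    Wt θ y ≤ 9 / 2 := by
  have hy0 : 0 < y := by linarith
  have h3 : Real.log y ≤ y - 1 := Real.log_le_sub_one_of_pos hy0
  have h4 : 2 * Real.log y + 1 / y - 1 ≤ 2 / 3 := by
    have h5 : 1 / y ≤ 3 := by
      rw [div_le_iff₀ hy0]
      linarith
    have h6 : 1 / y - 1 = (1 - y) * (1 / y) := by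
      field_simp
    have h7 : (1 - y) * (1 / y) ≤ (1 - y) * 3 :=
      mul_le_mul_of_nonneg_left h5 (by linarith)
    linarith
  have h5 : θ * (2 * Real.log y + 1 / y - 1) ≤ 4 / 3 := by
    have h6 : θ * (2 * Real.log y + 1 / y - 1) ≤ θ * (2 / 3) :=
      mul_le_mul_of_nonneg_left h4 h0.le
    linarith
  have h6 : Real.exp (4 / 3) ≤ 9 / 2 := by
    by_contra hc
    push Not at hc
    have h7 : (9 / 2 : ℝ) ^ 3 < Real.exp (4 / 3) ^ 3 :=
      pow_lt_pow_left₀ hc (by norm_num) (by norm_num)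
    have h8 : Real.exp (4 / 3) ^ 3 = Real.exp 1 ^ 4 := by
      rw [← Real.exp_nat_mul, ← Real.exp_nat_mul]
      norm_num
    have h9 : Real.exp 1 ^ 4 ≤ (2.72 : ℝ) ^ 4 :=
      pow_le_pow_left₀ (Real.exp_pos 1).le (Real.exp_one_lt_d9.le.trans (by norm_num)) 4
    rw [h8] at h7
    norm_num at h7 h9
    linarith
  exact (Real.exp_le_exp.2 h5).trans h6

end ET1

open ET1

/-- ET1. -/
theorem t_ET1 : S_ET1 := by
  intro N b m ν hD θ a ε hθ hθ2 ha3 ha1 hε
  have : IsFiniteMeasure ν := ⟨hD.fin⟩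
  have hW0 : ∀ y, 0 < Wt θ y := fun y => Real.exp_pos _
  have hSe : ∀ y, Sm ν y = y⁻¹ * (2 * J ν (fun _ => 1) y - y⁻¹ * J ν (fun z => z) y) :=
    fun y => Sm_eq hD.int y
  have hAi : Integrable (fun _ : ℝ => (1 : ℝ)) ν := integrable_const _
  have hAanti : Antitone (J ν (fun _ => 1)) :=
    J_anti hAi (Eventually.of_forall fun _ => zero_le_one)
  have hBanti : Antitone (J ν (fun z => z)) := J_anti hD.int (ae_nonneg hD.supp)
  -- continuity on positive reals
  have hpos : ∀ y, a ≤ y → 0 < y := fun y hy => by linarith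
  have hWc : ContinuousOn (Wt θ) (Ici a) := fun y hy =>
    (W_der θ y (hpos y hy)).continuousAt.continuousWithinAt
  have hic : ContinuousOn (fun y : ℝ => y⁻¹) (Ici a) :=
    continuousOn_inv₀.mono fun y hy => (hpos y hy).ne'
  have hsub : ∀ y, a ≤ y → uIcc a y ⊆ Ici a := fun y hy => by
    rw [uIcc_of_le hy]
    exact fun x hx => hx.1
  have hSi : ∀ y, a ≤ y → IntervalIntegrable (Sm ν) volume a y := by
    intro y hy
    have h1 : IntervalIntegrable (fun x => 2 * J ν (fun _ => 1) x) volume a y :=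
      (hAanti.intervalIntegrable).const_mul 2
    have h2 : IntervalIntegrable (fun x => x⁻¹ * J ν (fun z => z) x) volume a y :=
      (hBanti.intervalIntegrable).continuousOn_mul (hic.mono (hsub y hy))
    have h3 := (h1.sub h2).continuousOn_mul (hic.mono (hsub y hy))
    have e : Sm ν = fun x => x⁻¹ * (2 * J ν (fun _ => 1) x - x⁻¹ * J ν (fun z => z) x) :=
      funext hSe
    rw [e]
    exact h3
  have hSm : Measurable (Sm ν) := by
    have e : Sm ν = fun x => x⁻¹ * (2 * J ν (fun _ => 1) x - x⁻¹ * J ν (fun z => z) x) :=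
      funext hSe
    rw [e]
    exact measurable_inv.mul ((hAanti.measurable.const_mul 2).sub
      (measurable_inv.mul hBanti.measurable))
  have hSc : ∀ y, a ≤ y → ContinuousWithinAt (Sm ν) (Ioi y) y := by
    intro y hy
    have e : Sm ν = fun x => x⁻¹ * (2 * J ν (fun _ => 1) x - x⁻¹ * J ν (fun z => z) x) :=
      funext hSe
    rw [e]
    have hi : ContinuousWithinAt (fun x : ℝ => x⁻¹) (Ioi y) y :=
      (continuousAt_inv₀ (hpos y hy).ne').continuousWithinAt
    exact hi.mul (((J_cont hAi y).const_mul 2).sub (hi.mul (J_cont hD.int y)))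
  have hWm : Measurable (Wt θ) := by
    unfold Wt
    exact Real.measurable_exp.comp ((((Real.measurable_log.const_mul 2).add
      (measurable_const.div measurable_id)).sub measurable_const).const_mul θ)
  obtain ⟨F, hF⟩ : ∃ F : ℝ → ℝ, F = fun x => Wt θ x * (Sm ν x + ε) := ⟨_, rfl⟩
  have hWi : ∀ y, a ≤ y → IntervalIntegrable (Wt θ) volume a y := fun y hy =>
    (hWc.mono (hsub y hy)).intervalIntegrable
  have hWSi : ∀ y, a ≤ y → IntervalIntegrable (fun x => Wt θ x * Sm ν x) volume a y :=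
    fun y hy => (hSi y hy).continuousOn_mul (hWc.mono (hsub y hy))
  have hFe : F = fun x => Wt θ x * Sm ν x + ε * Wt θ x := by
    rw [hF]
    funext x
    ring
  have hFi : ∀ y, a ≤ y → IntervalIntegrable F volume a y := fun y hy => by
    rw [hFe]
    exact (hWSi y hy).add ((hWi y hy).const_mul ε)
  refine ⟨fun y => (Wt θ a + θ * ∫ x in a..y, F x) / Wt θ y, ?_, ?_, ?_, ?_⟩
  · have h1 : ContinuousOn (fun y => ∫ x in a..y, F x) (uIcc a 1) :=
      intervalIntegral.continuousOn_primitive_interval' (hFi 1 ha1.le) left_mem_uIcc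
    rw [uIcc_of_le ha1.le] at h1
    exact (continuousOn_const.add (continuousOn_const.mul h1)).div
      (hWc.mono fun y hy => hy.1) fun y _ => (hW0 y).ne'
  · show (Wt θ a + θ * ∫ x in a..a, F x) / Wt θ a = 1
    rw [intervalIntegral.integral_same, mul_zero, add_zero, div_self (hW0 a).ne']
  · intro y hy
    have hy0 : 0 < y := hpos y hy.1
    have hm : StronglyMeasurableAtFilter F (𝓝[Ioi y] y) volume := by
      apply StronglyMeasurable.stronglyMeasurableAtFilter
      rw [hF]
      exact (hWm.mul (hSm.add measurable_const)).stronglyMeasurable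
    have hc : ContinuousWithinAt F (Ioi y) y := by
      rw [hF]
      exact (W_der θ y hy0).continuousAt.continuousWithinAt.mul
        ((hSc y hy.1).add continuousWithinAt_const)
    have h1 : HasDerivWithinAt (fun u => ∫ x in a..u, F x) (F y) (Ici y) y :=
      intervalIntegral.integral_hasDerivWithinAt_right (hFi y hy.1) hm hc
    have h2 := (W_der θ y hy0).hasDerivWithinAt (s := Ici y)
    have h3 := ((h1.const_mul θ).const_add (Wt θ a)).div h2 (hW0 y).ne'
    refine h3.congr_deriv ?_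
    have hWy := (hW0 y).ne'
    rw [hF]
    show (θ * (Wt θ y * (Sm ν y + ε)) * Wt θ y -
      (Wt θ a + θ * ∫ x in a..y, Wt θ x * (Sm ν x + ε)) * (Wt θ y * (θ * (2 / y - 1 / y ^ 2)))) /
        Wt θ y ^ 2 = θ * (Sm ν y + ε - (2 / y - 1 / y ^ 2) *
          ((Wt θ a + θ * ∫ x in a..y, Wt θ x * (Sm ν x + ε)) / Wt θ y))
    generalize (∫ x in a..y, Wt θ x * (Sm ν x + ε)) = I
    generalize 2 / y - 1 / y ^ 2 = q
    field_simp
  · show (Wt θ a + θ * ∫ x in a..1, F x) / Wt θ 1 ≤ _
    have hW1 : Wt θ 1 = 1 := by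
      unfold Wt
      rw [Real.log_one]
      norm_num
    have h1 : ∫ x in a..1, F x = (∫ x in a..1, Wt θ x * Sm ν x) + ε * ∫ x in a..1, Wt θ x := by
      have h2 := intervalIntegral.integral_add (hWSi 1 ha1.le) ((hWi 1 ha1.le).const_mul ε)
      rw [hFe]
      refine h2.trans ?_
      rw [intervalIntegral.integral_const_mul]
    have h2 : ∫ x in a..1, Wt θ x ≤ 3 := by
      have h3 : ∫ x in a..1, Wt θ x ≤ ∫ x in a..1, (9 / 2 : ℝ) :=
        intervalIntegral.integral_mono_on ha1.le (hWi 1 ha1.le) intervalIntegrable_const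
          fun x hx => W_le hθ hθ2 (ha3.trans hx.1) hx.2
      rw [intervalIntegral.integral_const, smul_eq_mul] at h3
      linarith
    rw [hW1, div_one, h1]
    have h3 : θ * (ε * ∫ x in a..1, Wt θ x) ≤ θ * (ε * 3) :=
      mul_le_mul_of_nonneg_left (mul_le_mul_of_nonneg_left h2 hε.le) hθ.le
    linarith

end Pool.Agent.RTC
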