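import Pool.Agent.RTC.St2

/-!
# RTC_ET2: the barrier function on the interval from 1 to Y
-/

set_option autoImplicit false

namespace Pool.Agent.RTC

open MeasureTheory Set Filter Topology
open scoped ENNReal NNReal

namespace ET2

theorem fint {ν : Measure ℝ} (hfin : ν univ < ⊤) (hint : Integrable (fun y : ℝ => y) ν) :
    Integrable (fun z : ℝ => max 0 (2 - z)) ν := by
  have : IsFiniteMeasure ν := ⟨hfin⟩
  have h1 : Integrable (fun z : ℝ => 2 - z) ν := (integrable_const 2).sub hint
  have h2 : Integrable (fun z : ℝ => (2 - z) ⊔ 0) ν := h1.pos_part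
  exact h2.congr (Eventually.of_forall fun z => max_comm _ _)

theorem S0_nonneg (ν : Measure ℝ) (y : ℝ) : 0 ≤ S0 ν y :=
  integral_nonneg fun z => le_max_left _ _

theorem S0_anti {ν : Measure ℝ} (hf : Integrable (fun z : ℝ => max 0 (2 - z)) ν) :
    Antitone (S0 ν) := by
  intro x y hxy
  exact setIntegral_mono_set hf.integrableOn
    (Eventually.of_forall fun z => le_max_left _ _)
    (Eventually.of_forall fun z hz => lt_of_le_of_lt hxy hz)

theorem S0_cont {ν : Measure ℝ} (hf : Integrable (fun z : ℝ => max 0 (2 - z)) ν) (y : ℝ) :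
    ContinuousWithinAt (S0 ν) (Ioi y) y := by
  have e : ∀ x, S0 ν x = ∫ z, (Ioi x).indicator (fun z : ℝ => max 0 (2 - z)) z ∂ν := fun x =>
    (integral_indicator measurableSet_Ioi).symm
  have h : Tendsto (fun x => ∫ z, (Ioi x).indicator (fun z : ℝ => max 0 (2 - z)) z ∂ν)
      (𝓝[Ioi y] y) (𝓝 (∫ z, (Ioi y).indicator (fun z : ℝ => max 0 (2 - z)) z ∂ν)) := by
    refine tendsto_integral_filter_of_dominated_convergence (fun z : ℝ => max 0 (2 - z)) ?_ ?_
      hf ?_
    · exact Eventually.of_forall fun x =>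
        hf.aestronglyMeasurable.indicator measurableSet_Ioi
    · refine Eventually.of_forall fun x => Eventually.of_forall fun z => ?_
      by_cases hz : z ∈ Ioi x
      · rw [indicator_of_mem hz, Real.norm_of_nonneg (le_max_left _ _)]
      · rw [indicator_of_notMem hz, norm_zero]
        exact le_max_left _ _
    · refine Eventually.of_forall fun z => ?_
      by_cases hz : y < z
      · have h1 : ∀ᶠ x in 𝓝[Ioi y] y, (Ioi x).indicator (fun z : ℝ => max 0 (2 - z)) z =
            (Ioi y).indicator (fun z : ℝ => max 0 (2 - z)) z := by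
          have h2 : ∀ᶠ x in 𝓝[Ioi y] y, x < z := nhdsWithin_le_nhds (Iio_mem_nhds hz)
          filter_upwards [h2] with x hx
          rw [indicator_of_mem (show z ∈ Ioi x from hx), indicator_of_mem (show z ∈ Ioi y from hz)]
        exact tendsto_const_nhds.congr' (h1.mono fun x hx => hx.symm)
      · have h1 : ∀ᶠ x in 𝓝[Ioi y] y, (Ioi x).indicator (fun z : ℝ => max 0 (2 - z)) z =
            (Ioi y).indicator (fun z : ℝ => max 0 (2 - z)) z := by
          filter_upwards [self_mem_nhdsWithin] with x hx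
          have hx' : y < x := hx
          have h3 : z ∉ Ioi x := fun h => by
            have h' : x < z := h
            linarith
          rw [indicator_of_notMem h3, indicator_of_notMem (show z ∉ Ioi y from hz)]
        exact tendsto_const_nhds.congr' (h1.mono fun x hx => hx.symm)
  unfold ContinuousWithinAt
  rw [e y]
  exact h.congr fun x => (e x).symm

/-- the exponential -/
noncomputable def ex (θ x : ℝ) : ℝ := Real.exp (θ * (x - 1))

theorem ex_cont (θ : ℝ) : Continuous (ex θ) :=
  Real.continuous_exp.comp (continuous_const.mul (continuous_id.sub continuous_const))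

theorem ex_pos (θ x : ℝ) : 0 < ex θ x := Real.exp_pos _

theorem ex_neg (θ y : ℝ) : Real.exp (-(θ * (y - 1))) * ex θ y = 1 := by
  unfold ex
  rw [← Real.exp_add, neg_add_cancel, Real.exp_zero]

end ET2

open ET2

/-- ET2. -/
theorem t_ET2 : S_ET2 := by
  intro N b m ν hD θ ε e₀ Y hθ hε he hY1 hY2
  have hf := ET2.fint hD.fin hD.int
  have hanti := ET2.S0_anti hf
  obtain ⟨F, hF⟩ : ∃ F : ℝ → ℝ, F = fun x => ex θ x * (θ * (S0 ν x + ε)) := ⟨_, rfl⟩
  have hFi : ∀ x y, IntervalIntegrable F volume x y := fun x y => by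
    rw [hF]
    have h1 : IntervalIntegrable (fun x => θ * (S0 ν x + ε)) volume x y :=
      ((hanti.intervalIntegrable).add intervalIntegrable_const).const_mul θ
    exact h1.continuousOn_mul (ex_cont θ).continuousOn
  have hFpos : ∀ x, 0 ≤ F x := fun x => by
    rw [hF]
    exact mul_nonneg (ex_pos θ x).le
      (mul_nonneg hθ.le (add_nonneg (ET2.S0_nonneg ν x) hε.le))
  refine ⟨fun y => Real.exp (-(θ * (y - 1))) * (e₀ + ∫ x in (1 : ℝ)..y, F x), ?_, ?_, ?_, ?_, ?_⟩
  · apply Continuous.continuousOn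
    exact (Real.continuous_exp.comp
      (continuous_const.mul (continuous_id.sub continuous_const)).neg).mul
      (continuous_const.add (intervalIntegral.continuous_primitive hFi 1))
  · show Real.exp (-(θ * (1 - 1))) * (e₀ + ∫ x in (1 : ℝ)..1, F x) = e₀
    rw [intervalIntegral.integral_same, add_zero, sub_self, mul_zero, neg_zero, Real.exp_zero,
      one_mul]
  · intro y hy
    have h1 : 0 ≤ ∫ x in (1 : ℝ)..y, F x :=
      intervalIntegral.integral_nonneg hy.1 fun x _ => hFpos x
    show e₀ * Real.exp (-(θ * (y - 1))) ≤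
      Real.exp (-(θ * (y - 1))) * (e₀ + ∫ x in (1 : ℝ)..y, F x)
    rw [mul_comm e₀]
    exact mul_le_mul_of_nonneg_left (by linarith) (Real.exp_pos _).le
  · intro y hy
    have hm : StronglyMeasurableAtFilter F (𝓝[Ioi y] y) volume := by
      apply StronglyMeasurable.stronglyMeasurableAtFilter
      rw [hF]
      exact ((ex_cont θ).measurable.mul
        (measurable_const.mul (hanti.measurable.add measurable_const))).stronglyMeasurable
    have hc : ContinuousWithinAt F (Ioi y) y := by
      rw [hF]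
      exact (ex_cont θ).continuousWithinAt.mul
        (continuousWithinAt_const.mul ((ET2.S0_cont hf y).add continuousWithinAt_const))
    have h1 : HasDerivWithinAt (fun u => ∫ x in (1 : ℝ)..u, F x) (F y) (Ici y) y :=
      intervalIntegral.integral_hasDerivWithinAt_right (hFi 1 y) hm hc
    have h0 : HasDerivAt (fun u : ℝ => -(θ * (u - 1))) (-(θ * 1)) y :=
      (((hasDerivAt_id y).sub_const 1).const_mul θ).neg
    have h2 : HasDerivWithinAt (fun u : ℝ => Real.exp (-(θ * (u - 1))))
        (Real.exp (-(θ * (y - 1))) * (-(θ * 1))) (Ici y) y :=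
      h0.exp.hasDerivWithinAt
    have h3 := h2.mul (h1.const_add e₀)
    refine h3.congr_deriv ?_
    rw [hF]
    have h4 := ex_neg θ y
    linear_combination (θ * (S0 ν y + ε)) * h4
  · have hS : IntervalIntegrable (fun x => ex θ x * S0 ν x) volume 1 Y :=
      (hanti.intervalIntegrable).continuousOn_mul (ex_cont θ).continuousOn
    have hE : IntervalIntegrable (ex θ) volume 1 Y := (ex_cont θ).intervalIntegrable _ _
    have h1 : ∫ x in (1 : ℝ)..Y, F x =
        θ * (∫ x in (1 : ℝ)..Y, ex θ x * S0 ν x) + θ * ε * ∫ x in (1 : ℝ)..Y, ex θ x := by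
      have e1 : F = fun x => θ * (ex θ x * S0 ν x) + θ * ε * ex θ x := by
        rw [hF]
        funext x
        ring
      have e3 := intervalIntegral.integral_add (hS.const_mul θ) (hE.const_mul (θ * ε))
      rw [e1]
      refine e3.trans ?_
      rw [intervalIntegral.integral_const_mul, intervalIntegral.integral_const_mul]
    have h2 : ∫ x in (1 : ℝ)..Y, ex θ x ≤ ex θ Y := by
      have h3 : ∫ x in (1 : ℝ)..Y, ex θ x ≤ ∫ _ in (1 : ℝ)..Y, ex θ Y := by
        refine intervalIntegral.integral_mono_on hY1 hE intervalIntegrable_const fun x hx => ?_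
        unfold ex
        refine Real.exp_le_exp.2 (mul_le_mul_of_nonneg_left ?_ hθ.le)
        linarith [hx.2]
      refine h3.trans ?_
      rw [intervalIntegral.integral_const, smul_eq_mul]
      have h4 := ex_pos θ Y
      nlinarith
    show Real.exp (-(θ * (Y - 1))) * (e₀ + ∫ x in (1 : ℝ)..Y, F x) ≤
      Real.exp (-(θ * (Y - 1))) *
        (e₀ + θ * (∫ x in (1 : ℝ)..Y, Real.exp (θ * (x - 1)) * S0 ν x)) + θ * ε
    have h5 : ∫ x in (1 : ℝ)..Y, Real.exp (θ * (x - 1)) * S0 ν x =
        ∫ x in (1 : ℝ)..Y, ex θ x * S0 ν x := rfl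
    rw [h1, h5]
    have h6 := ex_neg θ Y
    have h7 : Real.exp (-(θ * (Y - 1))) * (θ * ε * ∫ x in (1 : ℝ)..Y, ex θ x) ≤ θ * ε := by
      have h8 : θ * ε * (∫ x in (1 : ℝ)..Y, ex θ x) ≤ θ * ε * ex θ Y :=
        mul_le_mul_of_nonneg_left h2 (mul_pos hθ hε).le
      calc Real.exp (-(θ * (Y - 1))) * (θ * ε * ∫ x in (1 : ℝ)..Y, ex θ x) ≤
          Real.exp (-(θ * (Y - 1))) * (θ * ε * ex θ Y) :=
            mul_le_mul_of_nonneg_left h8 (Real.exp_pos _).le
        _ = θ * ε := by linear_combination (θ * ε) * h6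
    linarith [mul_add (Real.exp (-(θ * (Y - 1))))
      (e₀ + θ * (∫ x in (1 : ℝ)..Y, ex θ x * S0 ν x)) (θ * ε * ∫ x in (1 : ℝ)..Y, ex θ x)]

end Pool.Agent.RTC
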