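import Mathlib

/-!
# RTC: the key inequality (helper88)
-/

set_option autoImplicit false

namespace Pool.Agent.RTC

open Real

/-- geometric mean at most logarithmic mean: `-2 r log r ≤ 1 - r²` for `0 < r ≤ 1` -/
theorem k88_log (r : ℝ) (hr : 0 < r) (hr1 : r ≤ 1) : -2 * r * Real.log r ≤ 1 - r ^ 2 := by
  have hd : ∀ x : ℝ, 0 < x → HasDerivAt (fun x : ℝ => 1 - x ^ 2 + 2 * x * Real.log x)
      (-(2 * x) + (2 * Real.log x + 2)) x := by
    intro x hx
    have h1 : HasDerivAt (fun x : ℝ => 1 - x ^ 2) (-(2 * x)) x := by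
      have := (hasDerivAt_pow 2 x).const_sub 1
      simpa using this
    have h2 : HasDerivAt (fun x : ℝ => 2 * x * Real.log x)
        (2 * Real.log x + 2 * x * x⁻¹) x := by
      have h3 : HasDerivAt (fun x : ℝ => 2 * x) 2 x := by
        simpa using (hasDerivAt_id x).const_mul 2
      exact h3.mul (Real.hasDerivAt_log hx.ne')
    have h4 : 2 * x * x⁻¹ = 2 := by field_simp
    rw [h4] at h2
    exact h1.add h2
  have h : AntitoneOn (fun x : ℝ => 1 - x ^ 2 + 2 * x * Real.log x) (Set.Icc r 1) := by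
    refine antitoneOn_of_deriv_nonpos (convex_Icc r 1) ?_ ?_ ?_
    · intro x hx
      exact (hd x (lt_of_lt_of_le hr hx.1)).continuousAt.continuousWithinAt
    · intro x hx
      rw [interior_Icc] at hx
      exact (hd x (lt_trans hr hx.1)).differentiableAt.differentiableWithinAt
    · intro x hx
      rw [interior_Icc] at hx
      have hx0 : 0 < x := lt_trans hr hx.1
      rw [(hd x hx0).deriv]
      have := Real.log_le_sub_one_of_pos hx0
      linarith
  have h1 := h ⟨le_rfl, hr1⟩ ⟨hr1, le_rfl⟩ hr1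
  simp only [Real.log_one, mul_zero, one_pow, sub_self, add_zero] at h1
  linarith

theorem key88 (N : ℕ) (b r y : ℝ) (hr : 0 < r) (hr1 : r ≤ 1) (hb : 0 < b) (hN : (N : ℝ) ≤ b + 1)
    (hy : b / 2 * (1 - r ^ 2) + (1 - Real.log 2) ≤ y) :
    max (2 * r - y) 0 / r ^ N ≤ Real.exp (b / 2 * (1 - r ^ 2)) * max (2 - y) 0 := by
  have hrN : 0 < r ^ N := pow_pos hr N
  have hR : 0 ≤ Real.exp (b / 2 * (1 - r ^ 2)) * max (2 - y) 0 :=
    mul_nonneg (Real.exp_pos _).le (le_max_right _ _)
  rcases le_or_gt (2 * r) y with h1 | h1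
  · rw [max_eq_right (by linarith), zero_div]
    exact hR
  have hy2 : y < 2 := by linarith
  rw [max_eq_left (by linarith : (0 : ℝ) ≤ 2 * r - y), max_eq_left (by linarith : (0 : ℝ) ≤ 2 - y),
    div_le_iff₀ hrN]
  obtain ⟨z, hz⟩ : ∃ z : ℝ, z = b / 2 * (1 - r ^ 2) := ⟨_, rfl⟩
  obtain ⟨q, hq⟩ : ∃ q : ℝ, q = Real.exp (z + b * Real.log r) := ⟨_, rfl⟩
  rw [← hz] at hy ⊢
  have hr2 : 0 ≤ 1 - r ^ 2 := by nlinarith
  have hz0 : 0 ≤ z := by rw [hz]; positivity
  have hlog := k88_log r hr hr1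
  have hl2 := Real.log_two_lt_d9
  have hl0 := Real.log_two_gt_d9
  -- `r ^ N ≥ r * r ^ b`
  have h2 : r * Real.exp (b * Real.log r) ≤ r ^ N := by
    have h3 : r ^ (b + 1) ≤ r ^ (N : ℝ) := Real.rpow_le_rpow_of_exponent_ge hr hr1 hN
    rw [Real.rpow_natCast, Real.rpow_add hr, Real.rpow_one, Real.rpow_def_of_pos hr] at h3
    rw [mul_comm b]
    linarith
  have h4 : r * q ≤ Real.exp z * r ^ N := by
    rw [hq, Real.exp_add]
    have := mul_le_mul_of_nonneg_left h2 (Real.exp_pos z).le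
    linarith
  have hq0 : 0 < q := by rw [hq]; exact Real.exp_pos _
  have h5 : 1 - q ≤ -(z + b * Real.log r) := by
    have := Real.add_one_le_exp (z + b * Real.log r)
    rw [← hq] at this
    linarith
  have h6 : r * (1 - q) ≤ z * (1 - r) := by
    have h7 := mul_le_mul_of_nonneg_left h5 hr.le
    have h8 := mul_le_mul_of_nonneg_left hlog hb.le
    have h9 : r * -(z + b * Real.log r) ≤ z * (1 - r) := by
      have : z * (1 - r) = z - r * z := by ring
      rw [this]
      have h10 : b * (1 - r ^ 2) = 2 * z := by rw [hz]; ring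
      rw [h10] at h8
      nlinarith
    linarith
  have h11 : z * (2 - y) ≤ y := by
    have h12 : z * (2 - y) ≤ z * (2 - (z + (1 - Real.log 2))) :=
      mul_le_mul_of_nonneg_left (by linarith) hz0
    have h13 : z * (2 - (z + (1 - Real.log 2))) ≤ z + (1 - Real.log 2) := by
      nlinarith [sq_nonneg (z - Real.log 2 / 2)]
    linarith
  have h14 : r * (1 - q) * (2 - y) ≤ y * (1 - r) := by
    have h15 := mul_le_mul_of_nonneg_right h6 (by linarith : (0 : ℝ) ≤ 2 - y)
    have h16 := mul_le_mul_of_nonneg_right h11 (by linarith : (0 : ℝ) ≤ 1 - r)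
    linarith
  have h17 := mul_le_mul_of_nonneg_right h4 (by linarith : (0 : ℝ) ≤ 2 - y)
  linarith

end Pool.Agent.RTC
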