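import Pool.Agent.RTC.St2
import Pool.Agent.RTC.KEY88

/-!
# RTC_KE2: the key inequality with exponent `θ` (helper88)
-/

set_option autoImplicit false

namespace Pool.Agent.RTC

open Real

theorem t_KE2 : S_KE2 := by
  intro N b θ r x hN hb hθ hθ2 hNb hbN hr hr1 hx hζ
  have hrN : 0 < r ^ N := pow_pos hr N
  obtain ⟨z, hz⟩ : ∃ z : ℝ, z = b / 2 * (1 - r ^ 2) := ⟨_, rfl⟩
  obtain ⟨q, hq⟩ : ∃ q : ℝ, q = Real.exp (θ * z + θ * b * Real.log r) := ⟨_, rfl⟩
  rw [← hz] at hζ ⊢
  have hr2 : 0 ≤ 1 - r ^ 2 := by nlinarith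
  have hz0 : 0 ≤ z := by rw [hz]; positivity
  have hB : 0 < θ * b := mul_pos hθ hb
  have hlog := k88_log r hr hr1
  have hbz : θ * b * (1 - r ^ 2) = 2 * (θ * z) := by rw [hz]; ring
  have hE : 0 < Real.exp (θ * z) := Real.exp_pos _
  rcases le_or_gt 2 x with h2x | hx2
  · -- `x ≥ 2`
    have h1 : Real.exp (θ * z) * r ^ N ≤ 1 := by
      have h3 : r ^ (N : ℝ) ≤ r ^ (θ * b) := Real.rpow_le_rpow_of_exponent_ge hr hr1 hbN
      rw [Real.rpow_natCast, Real.rpow_def_of_pos hr] at h3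
      have h4 : Real.exp (θ * z) * Real.exp (Real.log r * (θ * b)) ≤ 1 := by
        rw [← Real.exp_add, Real.exp_le_one_iff]
        have h5 : Real.log (r ^ 2) ≤ r ^ 2 - 1 := Real.log_le_sub_one_of_pos (by positivity)
        rw [Real.log_pow] at h5
        push_cast at h5
        have h6 := mul_le_mul_of_nonneg_left h5 hB.le
        nlinarith
      have h7 := mul_le_mul_of_nonneg_left h3 hE.le
      linarith
    have h8 := mul_le_mul_of_nonneg_right h1 (by linarith : (0 : ℝ) ≤ x - 2)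
    have h9 : Real.exp (θ * z) * r ^ N * (2 - x) = -(Real.exp (θ * z) * r ^ N * (x - 2)) := by ring
    rw [h9]
    linarith
  rcases le_or_gt (2 * r) x with h1 | h1
  · have : 0 ≤ Real.exp (θ * z) * r ^ N * (2 - x) :=
      mul_nonneg (mul_pos hE hrN).le (by linarith)
    linarith
  -- `r ^ N ≥ r * r ^ (θ b)`
  have h2 : r * Real.exp (θ * b * Real.log r) ≤ r ^ N := by
    have h3 : r ^ (θ * b + 1) ≤ r ^ (N : ℝ) :=
      Real.rpow_le_rpow_of_exponent_ge hr hr1 (by linarith)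
    rw [Real.rpow_natCast, Real.rpow_add hr, Real.rpow_one, Real.rpow_def_of_pos hr] at h3
    rw [mul_comm (θ * b)]
    linarith
  have h4 : r * q ≤ Real.exp (θ * z) * r ^ N := by
    rw [hq, Real.exp_add]
    have := mul_le_mul_of_nonneg_left h2 hE.le
    linarith
  have h5 : 1 - q ≤ -(θ * z + θ * b * Real.log r) := by
    have := Real.add_one_le_exp (θ * z + θ * b * Real.log r)
    rw [← hq] at this
    linarith
  have h6 : r * (1 - q) ≤ θ * z * (1 - r) := by
    have h7 := mul_le_mul_of_nonneg_left h5 hr.le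
    have h8 := mul_le_mul_of_nonneg_left hlog hB.le
    rw [hbz] at h8
    nlinarith
  have h11 : θ * z * (2 - x) ≤ x := by
    have h12 : θ * z ≤ 2 * (x - 1 / 2) := by
      have h13 := mul_le_mul_of_nonneg_right hθ2 hz0
      linarith
    have h14 := mul_le_mul_of_nonneg_right h12 (by linarith : (0 : ℝ) ≤ 2 - x)
    nlinarith [sq_nonneg (x - 1)]
  have h14 : r * (1 - q) * (2 - x) ≤ x * (1 - r) := by
    have h15 := mul_le_mul_of_nonneg_right h6 (by linarith : (0 : ℝ) ≤ 2 - x)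
    have h16 := mul_le_mul_of_nonneg_right h11 (by linarith : (0 : ℝ) ≤ 1 - r)
    linarith
  have h17 := mul_le_mul_of_nonneg_right h4 (by linarith : (0 : ℝ) ≤ 2 - x)
  linarith

end Pool.Agent.RTC
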