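import Pool.Agent.RTC.RST

set_option autoImplicit false

/-!
# RTC, module MOM: the moment inequality (helper88, second copy)
-/

namespace Pool.Agent.RTC

open MeasureTheory Set Filter Topology
open scoped ENNReal NNReal

namespace MOM88

theorem contW (θ : ℝ) : ContinuousOn (fun y : ℝ => Wt θ y) (Ioi 0) := by
  unfold Wt
  refine ContinuousOn.rexp ?_
  refine ContinuousOn.mul continuousOn_const ?_
  refine ContinuousOn.sub (ContinuousOn.add ?_ ?_) continuousOn_const
  · exact continuousOn_const.mul (Real.continuousOn_log.mono fun x hx => (ne_of_gt hx))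
  · exact continuousOn_const.div continuousOn_id fun x hx => (ne_of_gt hx)

theorem contA (θ : ℝ) : ContinuousOn (fun y : ℝ => Wt θ y * (2 / y)) (Ioi 0) :=
  (contW θ).mul (continuousOn_const.div continuousOn_id fun x hx => (ne_of_gt hx))

theorem contB (θ : ℝ) : ContinuousOn (fun y : ℝ => Wt θ y * (1 / y ^ 2)) (Ioi 0) :=
  (contW θ).mul (continuousOn_const.div (continuousOn_id.pow 2) fun x hx =>
    pow_ne_zero 2 (ne_of_gt hx))

/-- The kernel below the level 1. -/
noncomputable def K (θ : ℝ) : ℝ × ℝ → ℝ :=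
  {p : ℝ × ℝ | p.1 < p.2}.indicator
    (fun p => Wt θ p.1 * (2 / p.1) * 1 - Wt θ p.1 * (1 / p.1 ^ 2) * p.2)

theorem K_left (θ x z : ℝ) :
    K θ (x, z) = (Ioi x).indicator (fun z => Wt θ x * (1 / x) * (2 - z / x)) z := by
  unfold K
  by_cases h : x < z
  · rw [indicator_of_mem (show (x, z) ∈ {p : ℝ × ℝ | p.1 < p.2} from h),
      indicator_of_mem (show z ∈ Ioi x from h)]
    simp only
    by_cases hx : x = 0
    · simp [hx]
    · field_simp
  · rw [indicator_of_notMem (show (x, z) ∉ {p : ℝ × ℝ | p.1 < p.2} from h),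
      indicator_of_notMem (show z ∉ Ioi x from h)]

theorem K_right (θ x z : ℝ) :
    K θ (x, z) = (Iio z).indicator (fun x => Wt θ x * (2 / x - z / x ^ 2)) x := by
  unfold K
  by_cases h : x < z
  · rw [indicator_of_mem (show (x, z) ∈ {p : ℝ × ℝ | p.1 < p.2} from h),
      indicator_of_mem (show x ∈ Iio z from h)]
    simp only
    ring
  · rw [indicator_of_notMem (show (x, z) ∉ {p : ℝ × ℝ | p.1 < p.2} from h),
      indicator_of_notMem (show x ∉ Iio z from h)]

theorem K_int (θ : ℝ) {ν : Measure ℝ} [IsFiniteMeasure ν] (hint : Integrable (fun y : ℝ => y) ν)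
    (a : ℝ) (ha : 0 < a) : Integrable (K θ) (((volume : Measure ℝ).restrict (Ioc a 1)).prod ν) := by
  unfold K
  refine Integrable.indicator ?_ (measurableSet_lt measurable_fst measurable_snd)
  have hsub : Icc a 1 ⊆ Ioi (0 : ℝ) := fun x hx => lt_of_lt_of_le ha hx.1
  refine Integrable.sub ?_ ?_
  · refine Integrable.mul_prod (f := fun x : ℝ => Wt θ x * (2 / x)) (g := fun _ : ℝ => (1 : ℝ))
      ?_ (integrable_const _)
    exact (((contA θ).mono hsub).integrableOn_Icc).mono_set Ioc_subset_Icc_self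
  · refine Integrable.mul_prod (f := fun x : ℝ => Wt θ x * (1 / x ^ 2)) (g := fun z : ℝ => z)
      ?_ hint
    exact (((contB θ).mono hsub).integrableOn_Icc).mono_set Ioc_subset_Icc_self

theorem half (v : ℝ) (hv : 0 ≤ v) : (1 - v / 2) * (Real.exp v - 1) ≤ v := by
  have hd : ∀ x : ℝ, HasDerivAt (fun x : ℝ => 1 + x / 2 - (1 - x / 2) * Real.exp x)
      (1 / 2 - (1 - x) * Real.exp x / 2) x := by
    intro x
    have h1 : HasDerivAt (fun x : ℝ => 1 + x / 2) (1 / 2) x :=
      ((hasDerivAt_id x).div_const 2).const_add 1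
    have h2 : HasDerivAt (fun x : ℝ => 1 - x / 2) (-(1 / 2)) x :=
      ((hasDerivAt_id x).div_const 2).const_sub 1
    have h3 := h1.sub (h2.mul (Real.hasDerivAt_exp x))
    refine h3.congr_deriv ?_
    ring
  have hmono : MonotoneOn (fun x : ℝ => 1 + x / 2 - (1 - x / 2) * Real.exp x) (Icc 0 v) := by
    refine monotoneOn_of_deriv_nonneg (convex_Icc 0 v)
      (fun x _ => (hd x).continuousAt.continuousWithinAt)
      (fun x _ => (hd x).differentiableAt.differentiableWithinAt) fun x _ => ?_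
    rw [(hd x).deriv]
    have h1 : (1 - x) * Real.exp x ≤ 1 := by
      have h2 := Real.add_one_le_exp (-x)
      have h3 : 1 - x ≤ Real.exp (-x) := by linarith
      calc (1 - x) * Real.exp x ≤ Real.exp (-x) * Real.exp x :=
            mul_le_mul_of_nonneg_right h3 (Real.exp_pos _).le
        _ = 1 := by rw [← Real.exp_add]; simp
    linarith
  have h := hmono ⟨le_rfl, hv⟩ ⟨hv, le_rfl⟩ hv
  simp only [zero_div, sub_zero, Real.exp_zero, mul_one, add_zero, sub_self] at h
  nlinarith

/-- The inner integral above the level 1. -/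
theorem inner_up (θ : ℝ) (hθ : 0 < θ) (Y z : ℝ) (hz : 1 < z) :
    ∫ x in Ioc 1 Y, RST.F θ (x, z) ≤ max 0 (2 - z) * (Real.exp (θ * (z - 1)) - 1) := by
  have h1 : ∀ x, RST.F θ (x, z) =
      (Iio z).indicator (fun x => θ * Real.exp (θ * (x - 1)) * max 0 (2 - z)) x :=
    fun x => RST.F_right θ x z
  simp_rw [h1]
  rw [setIntegral_indicator measurableSet_Iio]
  have hc : 0 ≤ max 0 (2 - z) := le_max_left _ _
  have h2 : ∫ x in Ioc 1 Y ∩ Iio z, θ * Real.exp (θ * (x - 1)) * max 0 (2 - z) ≤
      ∫ x in Ioc 1 z, θ * Real.exp (θ * (x - 1)) * max 0 (2 - z) := by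
    refine setIntegral_mono_set ?_ ?_ ?_
    · exact (((RST.cont_exp θ).mul continuous_const).integrableOn_Icc
        (a := 1) (b := z)).mono_set Ioc_subset_Icc_self
    · exact Eventually.of_forall fun x => mul_nonneg
        (mul_nonneg hθ.le (Real.exp_pos _).le) hc
    · refine LE.le.eventuallyLE ?_
      rintro x ⟨⟨h3, -⟩, h4⟩
      exact ⟨h3, le_of_lt h4⟩
  refine h2.trans ?_
  rw [← intervalIntegral.integral_of_le hz.le, intervalIntegral.integral_mul_const, RST.int_exp,
    mul_comm]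

theorem inner_up0 (θ : ℝ) (Y z : ℝ) (hz : z ≤ 1) :
    ∫ x in Ioc 1 Y, RST.F θ (x, z) = 0 := by
  have h1 : ∀ x, RST.F θ (x, z) =
      (Iio z).indicator (fun x => θ * Real.exp (θ * (x - 1)) * max 0 (2 - z)) x :=
    fun x => RST.F_right θ x z
  simp_rw [h1]
  rw [setIntegral_indicator measurableSet_Iio]
  have h2 : Ioc 1 Y ∩ Iio z = ∅ := by
    ext x
    simp only [mem_inter_iff, mem_Ioc, mem_Iio, mem_empty_iff_false, iff_false]
    rintro ⟨⟨h3, -⟩, h4⟩
    linarith
  rw [h2, Measure.restrict_empty, integral_zero_measure]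

/-- The inner integral below the level 1. -/
theorem inner_lo (θ a z : ℝ) (ha : a < 1) :
    ∫ x in Ioc a 1, K θ (x, z) =
      if z ≤ a then 0 else ∫ x in a..(min z 1), Wt θ x * (2 / x - z / x ^ 2) := by
  have h1 : ∀ x, K θ (x, z) = (Iio z).indicator (fun x => Wt θ x * (2 / x - z / x ^ 2)) x :=
    fun x => K_right θ x z
  simp_rw [h1]
  rw [setIntegral_indicator measurableSet_Iio]
  split_ifs with h
  · have h2 : Ioc a 1 ∩ Iio z = ∅ := by
      ext x
      simp only [mem_inter_iff, mem_Ioc, mem_Iio, mem_empty_iff_false, iff_false]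
      rintro ⟨⟨h3, -⟩, h4⟩
      linarith
    rw [h2, Measure.restrict_empty, integral_zero_measure]
  · push Not at h
    have hle : a ≤ min z 1 := le_min h.le ha.le
    rw [intervalIntegral.integral_of_le hle]
    refine setIntegral_congr_set ?_
    rcases le_or_gt z 1 with hz1 | hz1
    · rw [min_eq_left hz1]
      have h3 : Ioc a 1 ∩ Iio z = Ioo a z := by
        ext x
        simp only [mem_inter_iff, mem_Ioc, mem_Iio, mem_Ioo]
        constructor
        · rintro ⟨⟨h4, -⟩, h5⟩
          exact ⟨h4, h5⟩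
        · rintro ⟨h4, h5⟩
          exact ⟨⟨h4, by linarith⟩, h5⟩
      rw [h3]
      exact Ioo_ae_eq_Ioc
    · rw [min_eq_right hz1.le]
      have h3 : Ioc a 1 ∩ Iio z = Ioc a 1 := by
        ext x
        simp only [mem_inter_iff, mem_Ioc, mem_Iio]
        constructor
        · rintro ⟨h4, -⟩
          exact h4
        · rintro ⟨h4, h5⟩
          exact ⟨⟨h4, h5⟩, by linarith⟩
      rw [h3]

theorem point (θ a : ℝ) (hθ : 0 < θ) (hθ2 : θ ≤ 2) (hs : Start θ a) (Y z : ℝ) (hz : 0 ≤ z) :
    θ * (∫ x in Ioc a 1, K θ (x, z)) + ∫ x in Ioc 1 Y, RST.F θ (x, z) ≤ (1 - Wt θ a) * z := by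
  have hW := hs.W_le
  rw [inner_lo θ a z hs.lt_one]
  rcases le_or_gt z 1 with h1 | h1
  · rw [inner_up0 θ Y z h1, add_zero]
    split_ifs with h
    · rw [mul_zero]
      exact mul_nonneg (by linarith) hz
    · push Not at h
      rw [min_eq_left h1]
      have h2 := hs.low z ⟨h.le, h1⟩
      have h3 := mul_le_mul_of_nonneg_left h2 hθ.le
      have h4 : θ * ((1 - Wt θ a) / θ * z) = (1 - Wt θ a) * z := by
        field_simp
      linarith
  · have hna : ¬ z ≤ a := by
      push Not
      exact lt_trans hs.lt_one h1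
    rw [if_neg hna, min_eq_right h1.le, hs.high z]
    have h2 := inner_up θ hθ Y z h1
    have h4 : θ * (1 - z * (1 - (1 - Wt θ a) / θ)) = θ - θ * z + (1 - Wt θ a) * z := by
      field_simp
      ring
    rw [h4]
    rcases le_or_gt 2 z with h5 | h5
    · rw [max_eq_left (by linarith), zero_mul] at h2
      nlinarith
    · rw [max_eq_right (by linarith)] at h2
      have h6 := half (θ * (z - 1)) (by
        have : 0 ≤ z - 1 := by linarith
        positivity)
      have hE : 0 ≤ Real.exp (θ * (z - 1)) - 1 := by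
        have := Real.add_one_le_exp (θ * (z - 1))
        have h8 : 0 ≤ θ * (z - 1) := mul_nonneg hθ.le (by linarith)
        linarith
      have h7 : 2 - z ≤ 1 - θ * (z - 1) / 2 := by nlinarith
      have h8 := mul_le_mul_of_nonneg_right h7 hE
      linarith

end MOM88

open MOM88 in
theorem t_MOM88 : S_MOM := by
  intro N b m ν hd θ a hθ hθ2 hs Y hY1 _
  have hfin : IsFiniteMeasure ν := ⟨hd.fin⟩
  have ha0 : 0 < a := lt_of_lt_of_le (by norm_num) hs.third
  have hK := K_int θ hd.int a ha0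
  have hF := RST.F_int θ hd.int Y
  have e1 : θ * ∫ x in (1 : ℝ)..Y, Real.exp (θ * (x - 1)) * S0 ν x =
      ∫ z, (∫ x in Ioc 1 Y, RST.F θ (x, z)) ∂ν := by
    rw [← intervalIntegral.integral_const_mul, intervalIntegral.integral_of_le hY1]
    have h1 : ∀ x, θ * (Real.exp (θ * (x - 1)) * S0 ν x) = ∫ z, RST.F θ (x, z) ∂ν := by
      intro x
      simp_rw [RST.F_left]
      rw [integral_const_mul, integral_indicator measurableSet_Ioi, ← mul_assoc]
      rfl
    simp_rw [h1]
    rw [integral_integral_swap (f := fun x z => RST.F θ (x, z)) hF]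
  have e2 : ∫ y in a..1, Wt θ y * Sm ν y = ∫ z, (∫ x in Ioc a 1, K θ (x, z)) ∂ν := by
    rw [intervalIntegral.integral_of_le hs.lt_one.le]
    have h1 : ∀ x, Wt θ x * Sm ν x = ∫ z, K θ (x, z) ∂ν := by
      intro x
      simp_rw [K_left]
      rw [integral_indicator measurableSet_Ioi, integral_const_mul]
      unfold Sm
      ring
    simp_rw [h1]
    rw [integral_integral_swap (f := fun x z => K θ (x, z)) hK]
  have hpos : ∀ᵐ z ∂ν, 0 ≤ z := by
    have h2 : ν {z | ¬ 0 ≤ z} = 0 := by
      have h3 : {z : ℝ | ¬ 0 ≤ z} = Iio 0 := by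
        ext z
        simp
      rw [h3]
      exact hd.supp
    exact h2
  have iK : Integrable (fun z => ∫ x in Ioc a 1, K θ (x, z)) ν := hK.integral_prod_right
  have iF : Integrable (fun z => ∫ x in Ioc 1 Y, RST.F θ (x, z)) ν := hF.integral_prod_right
  have h5 : θ * (∫ z, (∫ x in Ioc a 1, K θ (x, z)) ∂ν) +
      ∫ z, (∫ x in Ioc 1 Y, RST.F θ (x, z)) ∂ν ≤ 1 - Wt θ a := by
    rw [← integral_const_mul, ← integral_add (iK.const_mul θ) iF]
    have h6 : ∫ z, (θ * (∫ x in Ioc a 1, K θ (x, z)) + ∫ x in Ioc 1 Y, RST.F θ (x, z)) ∂ν ≤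
        ∫ z, (1 - Wt θ a) * z ∂ν := by
      refine integral_mono_ae ((iK.const_mul θ).add iF) (hd.int.const_mul _) ?_
      filter_upwards [hpos] with z hz
      exact point θ a hθ hθ2 hs Y z hz
    refine h6.trans ?_
    rw [integral_const_mul]
    have h7 := hd.mean
    have h8 := hs.W_le
    nlinarith
  rw [e1, e2]
  linarith

end Pool.Agent.RTC
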