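import Pool.Agent.RTC.St2

/-! RTC, module NU2: a numerical inequality. -/

set_option autoImplicit false

namespace Pool.Agent.RTC

open MeasureTheory Set Filter Topology
open scoped ENNReal NNReal

namespace NU2aux

theorem exp_conv (a u : ℝ) (h0 : 0 ≤ u) (h1 : u ≤ 1) :
    Real.exp (u * a) ≤ u * Real.exp a + (1 - u) := by
  have h := convexOn_exp.2 (Set.mem_univ a) (Set.mem_univ 0) h0 (sub_nonneg.2 h1) (by ring)
  simp only [smul_eq_mul, mul_zero, add_zero, Real.exp_zero, mul_one] at h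
  exact h

theorem exp_up (t : ℝ) (h0 : -1 ≤ t) (h1 : t ≤ 1) :
    Real.exp t ≤ 1 + t + t ^ 2 / 2 + t ^ 3 / 6 + 5 / 96 * t ^ 4 := by
  have ht : |t| ≤ 1 := abs_le.2 ⟨h0, h1⟩
  have h := Real.exp_bound ht (n := 4) (by norm_num)
  rw [Finset.sum_range_succ, Finset.sum_range_succ, Finset.sum_range_succ, Finset.sum_range_succ,
    Finset.sum_range_zero] at h
  have e4 : |t| ^ 4 = t ^ 4 := by
    rw [← abs_pow, abs_of_nonneg (by positivity)]
  rw [e4] at h
  have h2 := (abs_le.1 h).2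
  norm_num [Nat.factorial] at h2
  linarith

theorem e_bd : Real.exp 1 ≤ 2.71829 := by
  have := Real.exp_one_lt_d9
  norm_num at this ⊢
  linarith

theorem em_bd : Real.exp (-1) ≤ 0.3679 := by
  have h := Real.exp_one_gt_d9
  rw [Real.exp_neg, inv_le_comm₀ (Real.exp_pos 1) (by norm_num)]
  norm_num at h ⊢
  linarith

theorem core (p : ℝ) (h0 : 0 ≤ p) (h1 : p ≤ 1) :
    (1 - p) * (Real.exp (2 * p) - 1) ≤ (1 - Real.exp (-1)) * (1 + p) := by
  obtain ⟨t, ht⟩ : ∃ t, t = 2 * p - 1 := ⟨_, rfl⟩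
  have hp : p = (1 + t) / 2 := by rw [ht]; ring
  have t0 : -1 ≤ t := by rw [ht]; linarith
  have t1 : t ≤ 1 := by rw [ht]; linarith
  have e1 : Real.exp (2 * p) = Real.exp 1 * Real.exp t := by
    rw [← Real.exp_add, ht]
    congr 1
    ring
  have hU := exp_up t t0 t1
  have hE := e_bd
  have hM := em_bd
  have hpos : 0 < Real.exp t := Real.exp_pos t
  have h2 : Real.exp (2 * p) ≤ 2.71829 * (1 + t + t ^ 2 / 2 + t ^ 3 / 6 + 5 / 96 * t ^ 4) := by
    rw [e1]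
    exact mul_le_mul hE hU hpos.le (by norm_num)
  have h3 : (1 - p) * (Real.exp (2 * p) - 1) ≤
      (1 - p) * (2.71829 * (1 + t + t ^ 2 / 2 + t ^ 3 / 6 + 5 / 96 * t ^ 4) - 1) :=
    mul_le_mul_of_nonneg_left (by linarith) (by linarith)
  have h4 : 0.6321 * (1 + p) ≤ (1 - Real.exp (-1)) * (1 + p) :=
    mul_le_mul_of_nonneg_right (by linarith) (by linarith)
  refine h3.trans (le_trans ?_ h4)
  rw [hp]
  have key : 0 ≤ 0.6321 * (3 + t) - (1 - t) *
      (2.71829 * (1 + t + t ^ 2 / 2 + t ^ 3 / 6 + 5 / 96 * t ^ 4) - 1) := by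
    have e : 0.6321 * (3 + t) - (1 - t) *
        (2.71829 * (1 + t + t ^ 2 / 2 + t ^ 3 / 6 + 5 / 96 * t ^ 4) - 1) =
        0.17801 - 0.3679 * t + 1.359145 * t ^ 2 + 2.71829 / 3 * t ^ 3 +
          2.71829 * 11 / 96 * t ^ 4 + 2.71829 * 5 / 96 * t ^ 5 := by ring
    rw [e]
    rcases le_total 0 t with h | h
    · have a1 : 0 ≤ 0.17801 - 0.3679 * t + 1.359145 * t ^ 2 := by
        nlinarith [sq_nonneg (t - 0.135)]
      have a2 : 0 ≤ 2.71829 / 3 * t ^ 3 + 2.71829 * 11 / 96 * t ^ 4 + 2.71829 * 5 / 96 * t ^ 5 := by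
        positivity
      linarith
    · obtain ⟨s, hs⟩ : ∃ s, s = -t := ⟨_, rfl⟩
      have ht' : t = -s := by rw [hs]; ring
      have s0 : 0 ≤ s := by linarith
      have s1 : s ≤ 1 := by linarith
      rw [ht']
      have b3 : s ^ 3 ≤ s ^ 2 := by
        have := mul_le_mul_of_nonneg_left s1 (sq_nonneg s)
        calc s ^ 3 = s ^ 2 * s := by ring
          _ ≤ s ^ 2 * 1 := this
          _ = s ^ 2 := mul_one _
      have b5 : s ^ 5 ≤ s ^ 2 := by
        have h3 : s ^ 3 ≤ 1 := pow_le_one₀ s0 s1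
        have := mul_le_mul_of_nonneg_left h3 (sq_nonneg s)
        calc s ^ 5 = s ^ 2 * s ^ 3 := by ring
          _ ≤ s ^ 2 * 1 := this
          _ = s ^ 2 := mul_one _
      have b4 : 0 ≤ s ^ 4 := by positivity
      have b2 : 0 ≤ s ^ 2 := by positivity
      have e2 : (0.17801 : ℝ) - 0.3679 * (-s) + 1.359145 * (-s) ^ 2 + 2.71829 / 3 * (-s) ^ 3 +
          2.71829 * 11 / 96 * (-s) ^ 4 + 2.71829 * 5 / 96 * (-s) ^ 5 =
          0.17801 + 0.3679 * s + 1.359145 * s ^ 2 - 2.71829 / 3 * s ^ 3 +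
          2.71829 * 11 / 96 * s ^ 4 - 2.71829 * 5 / 96 * s ^ 5 := by ring
      rw [e2]
      linarith
  linarith

end NU2aux

open NU2aux in
theorem t_NU2 : S_NU2 := by
  intro θ p hθ hθ2 hp0 hp1
  obtain ⟨u, hu⟩ : ∃ u, u = θ / 2 := ⟨_, rfl⟩
  have u0 : 0 ≤ u := by rw [hu]; linarith
  have u1 : u ≤ 1 := by rw [hu]; linarith
  have e1 : θ * p = u * (2 * p) := by rw [hu]; ring
  have e2 : -θ / 2 = u * (-1) := by rw [hu]; ring
  rw [e1, e2]
  have h1 := exp_conv (2 * p) u u0 u1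
  have h2 := exp_conv (-1) u u0 u1
  have h3 := core p hp0 hp1
  have h4 : (1 - p) * (Real.exp (u * (2 * p)) - 1) ≤ (1 - p) * (u * (Real.exp (2 * p) - 1)) :=
    mul_le_mul_of_nonneg_left (by linarith) (by linarith)
  have h5 : u * (1 - Real.exp (-1)) * (1 + p) ≤ (1 - Real.exp (u * (-1))) * (1 + p) :=
    mul_le_mul_of_nonneg_right (by linarith) (by linarith)
  have h6 := mul_le_mul_of_nonneg_left h3 u0
  linarith

end Pool.Agent.RTC
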