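import Pool.Agent.RTC.St2

set_option autoImplicit false

/-!
# RTC, module RST: the inequality after a restart (helper86)
-/

namespace Pool.Agent.RTC

open MeasureTheory Set Filter Topology
open scoped ENNReal NNReal

namespace RST

theorem co_nonneg (θ : ℝ) (hθ : 0 < θ) : 0 ≤ 1 - Real.exp (-θ / 2) := by
  have h : Real.exp (-θ / 2) ≤ 1 := by
    rw [Real.exp_le_one_iff]
    linarith
  linarith

theorem key (NU2 : S_NU2) (θ : ℝ) (hθ : 0 < θ) (hθ2 : θ ≤ 2) (z : ℝ) (hz : 1 ≤ z) :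
    max 0 (2 - z) * (Real.exp (θ * (z - 1)) - 1) ≤ (1 - Real.exp (-θ / 2)) * z := by
  rcases le_or_gt 2 z with h | h
  · rw [max_eq_left (by linarith), zero_mul]
    exact mul_nonneg (co_nonneg θ hθ) (by linarith)
  · rw [max_eq_right (by linarith)]
    have h1 := NU2 θ (z - 1) hθ hθ2 (by linarith) (by linarith)
    have e1 : 1 - (z - 1) = 2 - z := by ring
    have e2 : 1 + (z - 1) = z := by ring
    rw [e1, e2] at h1
    exact h1

theorem int_exp (θ z : ℝ) :
    ∫ x in (1 : ℝ)..z, θ * Real.exp (θ * (x - 1)) = Real.exp (θ * (z - 1)) - 1 := by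
  have hd : ∀ x ∈ uIcc (1 : ℝ) z, HasDerivAt (fun x : ℝ => Real.exp (θ * (x - 1)))
      (θ * Real.exp (θ * (x - 1))) x := by
    intro x _
    have h2 : HasDerivAt (fun p : ℝ => θ * (p - 1)) θ x := by
      simpa using ((hasDerivAt_id x).sub_const 1).const_mul θ
    refine h2.exp.congr_deriv ?_
    ring
  rw [intervalIntegral.integral_eq_sub_of_hasDerivAt hd
    ((by fun_prop : Continuous fun x : ℝ => θ * Real.exp (θ * (x - 1))).intervalIntegrable _ _)]
  simp

/-- The kernel. -/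
noncomputable def F (θ : ℝ) : ℝ × ℝ → ℝ :=
  {p : ℝ × ℝ | p.1 < p.2}.indicator (fun p => θ * Real.exp (θ * (p.1 - 1)) * max 0 (2 - p.2))

theorem F_left (θ x z : ℝ) :
    F θ (x, z) = θ * Real.exp (θ * (x - 1)) * (Ioi x).indicator (fun z => max 0 (2 - z)) z := by
  unfold F
  by_cases h : x < z
  · rw [indicator_of_mem (show (x, z) ∈ {p : ℝ × ℝ | p.1 < p.2} from h),
      indicator_of_mem (show z ∈ Ioi x from h)]
  · rw [indicator_of_notMem (show (x, z) ∉ {p : ℝ × ℝ | p.1 < p.2} from h),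
      indicator_of_notMem (show z ∉ Ioi x from h), mul_zero]

theorem F_right (θ x z : ℝ) :
    F θ (x, z) = (Iio z).indicator (fun x => θ * Real.exp (θ * (x - 1)) * max 0 (2 - z)) x := by
  unfold F
  by_cases h : x < z
  · rw [indicator_of_mem (show (x, z) ∈ {p : ℝ × ℝ | p.1 < p.2} from h),
      indicator_of_mem (show x ∈ Iio z from h)]
  · rw [indicator_of_notMem (show (x, z) ∉ {p : ℝ × ℝ | p.1 < p.2} from h),
      indicator_of_notMem (show x ∉ Iio z from h)]

theorem cont_exp (θ : ℝ) : Continuous (fun x : ℝ => θ * Real.exp (θ * (x - 1))) := by fun_prop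

theorem F_int (θ : ℝ) {ν : Measure ℝ} [IsFiniteMeasure ν] (hint : Integrable (fun y : ℝ => y) ν)
    (Y : ℝ) : Integrable (F θ) (((volume : Measure ℝ).restrict (Ioc 1 Y)).prod ν) := by
  unfold F
  refine Integrable.indicator ?_ (measurableSet_lt measurable_fst measurable_snd)
  refine Integrable.mul_prod (f := fun x : ℝ => θ * Real.exp (θ * (x - 1)))
    (g := fun z : ℝ => max 0 (2 - z)) ?_ ?_
  · exact ((cont_exp θ).integrableOn_Icc (a := 1) (b := Y)).mono_set Ioc_subset_Icc_self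
  · have h1 : Integrable (fun z : ℝ => 2 - z) ν := (integrable_const (2 : ℝ)).sub hint
    have h2 : (fun z : ℝ => max 0 (2 - z)) = fun z : ℝ => max (2 - z) 0 := by
      funext z
      exact max_comm _ _
    rw [h2]
    exact h1.pos_part

theorem inner_le (NU2 : S_NU2) (θ : ℝ) (hθ : 0 < θ) (hθ2 : θ ≤ 2) (Y z : ℝ) (hz : 0 ≤ z) :
    ∫ x in Ioc 1 Y, F θ (x, z) ≤ (1 - Real.exp (-θ / 2)) * z := by
  have h1 : ∀ x, F θ (x, z) =
      (Iio z).indicator (fun x => θ * Real.exp (θ * (x - 1)) * max 0 (2 - z)) x :=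
    fun x => F_right θ x z
  simp_rw [h1]
  rw [setIntegral_indicator measurableSet_Iio]
  have hc : 0 ≤ max 0 (2 - z) := le_max_left _ _
  rcases le_or_gt z 1 with h | h
  · have h2 : Ioc 1 Y ∩ Iio z = ∅ := by
      ext x
      simp only [mem_inter_iff, mem_Ioc, mem_Iio, mem_empty_iff_false, iff_false]
      rintro ⟨⟨h3, -⟩, h4⟩
      linarith
    rw [h2, Measure.restrict_empty, integral_zero_measure]
    exact mul_nonneg (co_nonneg θ hθ) hz
  · have h2 : ∫ x in Ioc 1 Y ∩ Iio z, θ * Real.exp (θ * (x - 1)) * max 0 (2 - z) ≤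
        ∫ x in Ioc 1 z, θ * Real.exp (θ * (x - 1)) * max 0 (2 - z) := by
      refine setIntegral_mono_set ?_ ?_ ?_
      · exact (((cont_exp θ).mul continuous_const).integrableOn_Icc
          (a := 1) (b := z)).mono_set Ioc_subset_Icc_self
      · exact Eventually.of_forall fun x => mul_nonneg
          (mul_nonneg hθ.le (Real.exp_pos _).le) hc
      · refine LE.le.eventuallyLE ?_
        rintro x ⟨⟨h3, -⟩, h4⟩
        exact ⟨h3, le_of_lt h4⟩
    refine h2.trans ?_
    rw [← intervalIntegral.integral_of_le h.le, intervalIntegral.integral_mul_const, int_exp,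
      mul_comm]
    exact key NU2 θ hθ hθ2 z h.le

theorem main (NU2 : S_NU2) (N : ℕ) (b : ℝ) (m : ℝ → ℝ) (ν : Measure ℝ) (hd : Data2 N b m ν)
    (θ : ℝ) (hθ : 0 < θ) (hθ2 : θ ≤ 2) (Y : ℝ) (hY : 1 ≤ Y) :
    ∫ x in (1 : ℝ)..Y, θ * Real.exp (θ * (x - 1)) * S0 ν x ≤ 1 - Real.exp (-θ / 2) := by
  have hfin : IsFiniteMeasure ν := ⟨hd.fin⟩
  have hF := F_int θ hd.int Y
  rw [intervalIntegral.integral_of_le hY]
  have h1 : ∀ x, θ * Real.exp (θ * (x - 1)) * S0 ν x = ∫ z, F θ (x, z) ∂ν := by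
    intro x
    simp_rw [F_left]
    rw [integral_const_mul, integral_indicator measurableSet_Ioi]
    rfl
  simp_rw [h1]
  rw [integral_integral_swap (f := fun x z => F θ (x, z)) hF]
  have hpos : ∀ᵐ z ∂ν, 0 ≤ z := by
    have h2 : ν {z | ¬ 0 ≤ z} = 0 := by
      have h3 : {z : ℝ | ¬ 0 ≤ z} = Iio 0 := by
        ext z
        simp
      rw [h3]
      exact hd.supp
    exact h2
  have h2 : ∫ z, (∫ x in Ioc 1 Y, F θ (x, z)) ∂ν ≤ ∫ z, (1 - Real.exp (-θ / 2)) * z ∂ν := by
    refine integral_mono_ae ?_ (hd.int.const_mul _) ?_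
    · exact hF.integral_prod_right
    · filter_upwards [hpos] with z hz
      exact inner_le NU2 θ hθ hθ2 Y z hz
  refine h2.trans ?_
  rw [integral_const_mul]
  have h3 := hd.mean
  have h4 := co_nonneg θ hθ
  nlinarith

end RST

open RST in
theorem t_RST : S_NU2 → S_RST := by
  intro NU2 N b m ν hd θ hθ hθ2 Y hY _
  have h := main NU2 N b m ν hd θ hθ hθ2 Y hY
  have e : ∫ x in (1 : ℝ)..Y, θ * Real.exp (θ * (x - 1)) * S0 ν x =
      θ * ∫ x in (1 : ℝ)..Y, Real.exp (θ * (x - 1)) * S0 ν x := by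
    rw [← intervalIntegral.integral_const_mul]
    congr 1
    funext x
    ring
  rw [e] at h
  linarith

end Pool.Agent.RTC
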