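import Pool.Agent.RTC.All
import Pool.Agent.RTC.AEX
import Pool.Agent.RTC.BA2
import Pool.Agent.RTC.BR2
import Pool.Agent.RTC.DI2
import Pool.Agent.RTC.ET1
import Pool.Agent.RTC.ET2
import Pool.Agent.RTC.NU2
import Pool.Agent.RTC.ON2
import Pool.Agent.RTC.ONA
import Pool.Agent.RTC.ONB
import Pool.Agent.RTC.RST
import Pool.Agent.RTC.SC2
import Pool.Agent.RTC.TW2
import Pool.Agent.RTC.KE2
import Pool.Agent.RTC.MOM88

set_option autoImplicit false

/-!
# RTC: the second version (`β R ≥ (N-1)/2`), everything together (helper88)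
-/

namespace Pool.Agent.RTC

open MeasureTheory Set Filter Topology
open scoped ENNReal NNReal

theorem all88_SC2 : S_SC2 := by
  have hISO : S_ISO := t_ISO t_BMN
  have hMOA : S_MOA := t_MOA t_MOP
  have hISW : S_ISW := t_ISW hISO hMOA
  have hLMA : S_LMA := t_LMA t_SUB
  have hLMB : S_LMB := t_LMB hISW t_SUB
  have hBR2 : S_BR2 := t_BR2 t_BA2
  have hON2 : S_ON2 := t_ON2 t_AEX t_MOM88 (t_RST t_NU2) t_ET1 (t_ONA hBR2 t_KE2)
    (t_ONB hBR2 t_KE2 t_ET2)
  exact t_SC2 (t_DI2 t_GEX hLMA hLMB) (t_NNG hLMA) (t_TW2 hBR2 hON2)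

/-- Comparison of the distribution functions of `u` and `v`, at all levels. -/
theorem lev88 (N : ℕ) (hN : 3 ≤ N) (Ω : Set (E N)) (σ : Measure (E N)) (β R : ℝ)
    (u : E N → ℝ) (g : E N → E N) (w : E N → ℝ) (hβ : 0 < β) (hR : 0 < R)
    (hβR : (N : ℝ) - 1 ≤ 2 * (β * R)) (hΩ : IsOpen Ω) (hb : Bornology.IsBounded Ω)
    (hvol : volume Ω = volume (Metric.ball (0 : E N) R)) (hσ : IsBoundaryMeasure Ω σ)
    (hu : IsRobin Ω σ β u g w) (t : ℝ) :
    volume (Ω ∩ {x | t < u x}) ≤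
      volume (Metric.ball (0 : E N) R ∩ {x | t < vball N β R x}) := by
  rcases le_or_gt (R / (N * β)) t with h | h
  · have h1 := all88_SC2 N hN Ω σ β R u g w hβ hR hβR hΩ hb hvol hσ hu t h
    refine le_trans ?_ (lev N (by omega) β R t hβ hR h)
    refine ENNReal.le_ofReal_iff_toReal_le ?_ ?_ |>.2 h1
    · exact ((measure_mono inter_subset_left).trans_lt (by
        rw [hvol]; exact measure_ball_lt_top)).ne
    · apply mul_nonneg ENNReal.toReal_nonneg
      exact Real.rpow_nonneg (le_max_left _ _) _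
  · rw [lev_small N (by omega) β R t hβ hR h.le, ← hvol]
    exact measure_mono inter_subset_left

/-- The pointwise comparison. -/
theorem fin88 (N : ℕ) (hN : 3 ≤ N) (Ω : Set (E N)) (σ : Measure (E N)) (β R : ℝ)
    (u : E N → ℝ) (g : E N → E N) (w : E N → ℝ) (hβ : 0 < β) (hR : 0 < R)
    (hb : (N : ℝ) - 1 ≤ 2 * (β * R)) (hΩ : IsOpen Ω) (hbd : Bornology.IsBounded Ω)
    (hvol : volume Ω = volume (Metric.ball (0 : E N) R)) (hσ : IsBoundaryMeasure Ω σ)
    (hu : IsRobin Ω σ β u g w) :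
    ∀ x ∈ Metric.ball (0 : E N) R, x ≠ 0 → sharp Ω u x ≤ vball N β R x := by
  intro x hx hx0
  have hN0 : (0 : ℝ) < N := by exact_mod_cast (by omega : 0 < N)
  have hxn : 0 < ‖x‖ := norm_pos_iff.2 hx0
  have hxR : ‖x‖ < R := by rwa [mem_ball_zero_iff] at hx
  have h1 : 0 < R ^ 2 - ‖x‖ ^ 2 := by nlinarith
  have hv : R / (N * β) ≤ vball N β R x := by
    unfold vball
    have : 0 ≤ (R ^ 2 - ‖x‖ ^ 2) / (2 * N) := div_nonneg h1.le (by positivity)
    linarith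
  have hv0 : 0 < R / (N * β) := by positivity
  refine le_of_forall_pos_le_add fun ε hε => ?_
  unfold sharp
  refine csInf_le ⟨0, fun t ht => ht.1⟩ ⟨by linarith, ?_⟩
  have hsca := all88_SC2 N hN Ω σ β R u g w hβ hR hb hΩ hbd hvol hσ hu (vball N β R x + ε)
    (by linarith)
  have e1 : R ^ 2 - 2 * N * (vball N β R x + ε - R / (N * β)) = ‖x‖ ^ 2 - 2 * N * ε := by
    unfold vball
    have : 2 * (N : ℝ) * ((R ^ 2 - ‖x‖ ^ 2) / (2 * N)) = R ^ 2 - ‖x‖ ^ 2 := by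
      field_simp
    linear_combination -this
  have h2 : max 0 (‖x‖ ^ 2 - 2 * N * ε) < ‖x‖ ^ 2 := by
    apply max_lt (by positivity)
    have : 0 < 2 * (N : ℝ) * ε := by positivity
    linarith
  have h3 : (max 0 (‖x‖ ^ 2 - 2 * N * ε)) ^ ((N : ℝ) / 2) < ‖x‖ ^ N := by
    have h4 : (‖x‖ ^ 2) ^ ((N : ℝ) / 2) = ‖x‖ ^ N := by
      rw [← Real.rpow_natCast ‖x‖ 2, ← Real.rpow_mul hxn.le, ← Real.rpow_natCast ‖x‖ N]
      congr 1
      push_cast
      ring
    rw [← h4]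
    exact Real.rpow_lt_rpow (le_max_left _ _) h2 (by positivity)
  rw [e1] at hsca
  have hfin : volume (Ω ∩ {z | vball N β R x + ε < u z}) ≠ ⊤ := by
    have h5 : volume (Ω ∩ {z | vball N β R x + ε < u z}) ≤ volume Ω :=
      measure_mono inter_subset_left
    rw [hvol] at h5
    exact (h5.trans_lt measure_ball_lt_top).ne
  rw [← ENNReal.toReal_lt_toReal hfin measure_ball_lt_top.ne, FIN.toReal_ball hxn]
  have h6 : om N * (max 0 (‖x‖ ^ 2 - 2 * N * ε)) ^ ((N : ℝ) / 2) < om N * ‖x‖ ^ N :=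
    mul_lt_mul_of_pos_left h3 FIN.om_pos
  have h7 : (volume (Ω ∩ {z | vball N β R x + ε < u z})).toReal =
    mu Ω u (vball N β R x + ε) := rfl
  rw [h7]
  linarith

end Pool.Agent.RTC
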