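import Pool.Agent.RTC.St

set_option autoImplicit false

/-!
# RTC_BAR: barriers for the difference inequality (helper53)
-/

namespace Pool.Agent.RTC

open MeasureTheory Set Filter Topology
open scoped ENNReal NNReal

namespace BAR

/-- points of a set without least element accumulate at its infimum from the right -/
theorem freq {S : Set ℝ} {c : ℝ} (hne : S.Nonempty) (hb : ∀ y ∈ S, c < y)
    (hinf : c = sInf S) : ∃ᶠ y in 𝓝[>] c, y ∈ S := by
  intro hev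
  have hmem : {y | y ∉ S} ∈ 𝓝[>] c := hev
  obtain ⟨u, hu, hsub⟩ := mem_nhdsGT_iff_exists_Ioo_subset.1 hmem
  have hlt : sInf S < u := by rw [← hinf]; exact hu
  obtain ⟨y, hyS, hyu⟩ := exists_lt_of_csInf_lt hne hlt
  exact hsub ⟨hb y hyS, hyu⟩ hyS

end BAR

theorem t_BAR : S_BAR := by
  intro N b m ν hN hb hD B a Y ha hBc hB0 hma hbar y₁ hy₁
  by_contra hcon
  push Not at hcon
  set S : Set ℝ := {y | y ∈ Icc a Y ∧ B y < m y} with hS
  have hSne : S.Nonempty := ⟨y₁, hy₁, hcon⟩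
  have hSbdd : BddBelow S := ⟨a, fun y hy => hy.1.1⟩
  set y₀ : ℝ := sInf S with hy₀
  have h1 : a ≤ y₀ := le_csInf hSne fun y hy => hy.1.1
  have h2 : y₀ ≤ y₁ := csInf_le hSbdd ⟨hy₁, hcon⟩
  have h3 : y₀ ≤ Y := h2.trans hy₁.2
  have hbelow : ∀ y, a ≤ y → y < y₀ → m y ≤ B y := by
    intro y hay hyy
    by_contra hc
    push Not at hc
    have : y ∈ S := ⟨⟨hay, hyy.le.trans h3⟩, hc⟩
    exact absurd (csInf_le hSbdd this) (not_le.2 hyy)
  have hmB : m y₀ ≤ B y₀ := by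
    rcases h1.eq_or_lt with he | hlt
    · rw [← he]; exact hma
    · have hc : ContinuousWithinAt B (Ioo a y₀) y₀ :=
        (hBc y₀ ⟨h1, h3⟩).mono fun z hz => ⟨hz.1.le, hz.2.le.trans h3⟩
      have ht : Tendsto B (𝓝[<] y₀) (𝓝 (B y₀)) := by
        have := hc.tendsto
        rwa [nhdsWithin_Ioo_eq_nhdsLT hlt] at this
      refine ge_of_tendsto ht ?_
      have hev : ∀ᶠ z in 𝓝[<] y₀, z ∈ Ioo a y₀ := Ioo_mem_nhdsLT hlt
      filter_upwards [hev] with z hz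
      have hz' := hbelow z hz.1.le hz.2
      exact (hD.anti (mem_Ici.2 (ha.trans hz.1.le)) (mem_Ici.2 (ha.trans h1)) hz.2.le).trans hz'
  have hnotS : y₀ ∉ S := fun h => absurd h.2 (not_lt.2 hmB)
  have hgt : ∀ y ∈ S, y₀ < y := fun y hy =>
    lt_of_le_of_ne (csInf_le hSbdd hy) fun he => hnotS (he ▸ hy)
  have h4 : y₀ < Y := (hgt y₁ ⟨hy₁, hcon⟩).trans_le hy₁.2
  have hfreq : ∃ᶠ y in 𝓝[>] y₀, y ∈ S := BAR.freq hSne hgt hy₀
  have hcont : Tendsto B (𝓝[>] y₀) (𝓝 (B y₀)) := by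
    have hc : ContinuousWithinAt B (Ioo y₀ Y) y₀ :=
      (hBc y₀ ⟨h1, h3⟩).mono fun z hz => ⟨h1.trans hz.1.le, hz.2.le⟩
    have := hc.tendsto
    rwa [nhdsWithin_Ioo_eq_nhdsGT h4] at this
  have hanti : ∀ y, y₀ < y → m y ≤ m y₀ := fun y hy =>
    hD.anti (mem_Ici.2 (ha.trans h1)) (mem_Ici.2 ((ha.trans h1).trans hy.le)) hy.le
  have hBm : B y₀ ≤ m y₀ := by
    by_contra hc
    push Not at hc
    have hev : ∀ᶠ y in 𝓝[>] y₀, m y₀ < B y := hcont.eventually (lt_mem_nhds hc)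
    obtain ⟨y, hyS, hy⟩ := (hfreq.and_eventually hev).exists
    have := hanti y (hgt y hyS)
    linarith [hyS.2]
  have heq : m y₀ = B y₀ := le_antisymm hmB hBm
  have hpos : 0 < B y₀ := by
    rcases (hB0 y₀ ⟨h1, h3⟩).eq_or_lt with he | hlt
    · obtain ⟨y, hyS⟩ := hSne
      have k1 := hanti y (hgt y hyS)
      have k2 := hB0 y hyS.1
      have k3 := hyS.2
      linarith
    · exact hlt
  have hle : B y₀ ≤ 1 := heq ▸ hD.le_one y₀
  obtain ⟨B', s, hs, hder, hlt⟩ := hbar y₀ ⟨h1, h4⟩ hpos hle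
  set I : ℝ := ∫ z in Ioi y₀, max 0 (2 * s - s ^ 2 * z) ∂ν with hI
  set p : ℝ := 1 - 1 / (N : ℝ) with hp
  have hN2 : (2 : ℝ) ≤ N := by exact_mod_cast hN
  have hp0 : 0 ≤ p := by
    have : 1 / (N : ℝ) ≤ 1 := by
      rw [div_le_one (by linarith)]; linarith
    rw [hp]; linarith
  have hNb : 0 < (N : ℝ) / b := div_pos (by linarith) hb
  have hslope : Tendsto (slope B y₀) (𝓝[>] y₀) (𝓝 B') := by
    have := hder.mono (Ioi_subset_Ici_self : Ioi y₀ ⊆ Ici y₀)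
    exact (hasDerivWithinAt_iff_tendsto_slope' (notMem_Ioi.2 le_rfl)).1 this
  have hpow : Tendsto (fun y => B y ^ p) (𝓝[>] y₀) (𝓝 (B y₀ ^ p)) :=
    hcont.rpow_const (Or.inl hpos.ne')
  have hlim : Tendsto (fun y => ((N : ℝ) / b) * (2 * s * B y ^ p - s ^ 2 * B y₀ - I)
      + slope B y₀ y) (𝓝[>] y₀)
      (𝓝 (((N : ℝ) / b) * (2 * s * B y₀ ^ p - s ^ 2 * B y₀ - I) + B')) := by
    refine Tendsto.add (Tendsto.const_mul _ ?_) hslope
    exact ((hpow.const_mul (2 * s)).sub_const _).sub_const _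
  have hev := hlim.eventually (lt_mem_nhds (show (0 : ℝ) < _ by linarith))
  obtain ⟨y, hyS, hy⟩ := (hfreq.and_eventually hev).exists
  have hyy : y₀ < y := hgt y hyS
  have hh : 0 < y - y₀ := sub_pos.2 hyy
  have key := hD.ineq y₀ (y - y₀) s (ha.trans h1) hh hs
  rw [add_sub_cancel] at key
  have k1 : B y ^ p ≤ m y ^ p := Real.rpow_le_rpow (hB0 y hyS.1) hyS.2.le hp0
  have k2 : (m y₀ - m y) / (y - y₀) ≤ -slope B y₀ y := by
    rw [slope_def_field, ← neg_div]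
    refine div_le_div_of_nonneg_right ?_ hh.le
    linarith [hyS.2]
  have k3 : ((N : ℝ) / b) * (2 * s * B y ^ p - s ^ 2 * B y₀ - I) ≤
      ((N : ℝ) / b) * (2 * s * m y ^ p - s ^ 2 * m y₀ - I) := by
    refine mul_le_mul_of_nonneg_left ?_ hNb.le
    have : 2 * s * B y ^ p ≤ 2 * s * m y ^ p := mul_le_mul_of_nonneg_left k1 (by linarith)
    rw [heq]
    linarith
  linarith

end Pool.Agent.RTC
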