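import Pool.Agent.RTC.PL46

/-!
# The Brunn-Minkowski inequality in `EuclideanSpace ℝ (Fin n)` (for MP_84cf48_an)
-/

set_option autoImplicit false

namespace Pool.Agent.RTC.P46

open MeasureTheory Set
open scoped ENNReal

variable {n : ℕ}

/-- Brunn-Minkowski, multiplicative form. -/
theorem bmE {A B C : Set (EuclideanSpace ℝ (Fin n))} (hA : MeasurableSet A)
    (hB : MeasurableSet B) (hC : MeasurableSet C) {a b : ℝ} (ha : 0 < a) (hb : 0 < b)
    (hab : a + b = 1) (h : ∀ x ∈ A, ∀ y ∈ B, a • x + b • y ∈ C) :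
    volume A ^ a * volume B ^ b ≤ volume C := by
  have key := plE (f := A.indicator 1) (g := B.indicator 1) (h := C.indicator 1)
    (measurable_one.indicator hA) (measurable_one.indicator hB) (measurable_one.indicator hC)
    ha hb hab (by
      intro x y
      by_cases hx : x ∈ A
      · by_cases hy : y ∈ B
        · rw [indicator_of_mem hx, indicator_of_mem hy, indicator_of_mem (h x hx y hy)]
          simp
        · rw [indicator_of_notMem hy, ENNReal.zero_rpow_of_pos hb, mul_zero]
          exact bot_le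
      · rw [indicator_of_notMem hx, ENNReal.zero_rpow_of_pos ha, zero_mul]
        exact bot_le)
  rwa [lintegral_indicator_one hA, lintegral_indicator_one hB, lintegral_indicator_one hC] at key

theorem vol_scale {A : Set (EuclideanSpace ℝ (Fin n))} {p : ℝ} (hp : 0 < p) :
    volume ((fun x => p • x) ⁻¹' A) = ENNReal.ofReal ((p ^ n)⁻¹) * volume A := by
  rw [Measure.addHaar_preimage_smul _ hp.ne', finrank_euclideanSpace_fin,
    abs_of_pos (inv_pos.2 (pow_pos hp n))]

/-- Brunn-Minkowski, additive form, real numbers. -/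
theorem bmReal (hn : 0 < n) {A B C : Set (EuclideanSpace ℝ (Fin n))} (hA : MeasurableSet A)
    (hB : MeasurableSet B) (hC : MeasurableSet C) (hAn : A.Nonempty) (hBn : B.Nonempty)
    (hCt : volume C ≠ ∞) (h : ∀ x ∈ A, ∀ y ∈ B, x + y ∈ C) :
    (volume A).toReal ^ (1 / (n : ℝ)) + (volume B).toReal ^ (1 / (n : ℝ)) ≤
      (volume C).toReal ^ (1 / (n : ℝ)) := by
  have hn0 : (n : ℝ) ≠ 0 := by exact_mod_cast hn.ne'
  have hn1 : 0 < 1 / (n : ℝ) := by
    have : (0 : ℝ) < n := by exact_mod_cast hn
    positivity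
  have hAC : volume A ≤ volume C := by
    obtain ⟨y, hy⟩ := hBn
    have h1 : volume ((fun z => z + (-y)) ⁻¹' A) = volume A := measure_preimage_add_right _ _ _
    rw [← h1]
    refine measure_mono fun z hz => ?_
    have := h _ hz _ hy
    simpa using this
  have hBC : volume B ≤ volume C := by
    obtain ⟨x, hx⟩ := hAn
    have h1 : volume ((fun z => z + (-x)) ⁻¹' B) = volume B := measure_preimage_add_right _ _ _
    rw [← h1]
    refine measure_mono fun z hz => ?_
    have := h _ hx _ hz
    simpa using this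
  have hAt : volume A ≠ ∞ := ne_top_of_le_ne_top hCt hAC
  have hBt : volume B ≠ ∞ := ne_top_of_le_ne_top hCt hBC
  have hmA : (volume A).toReal ^ (1 / (n : ℝ)) ≤ (volume C).toReal ^ (1 / (n : ℝ)) :=
    Real.rpow_le_rpow ENNReal.toReal_nonneg (ENNReal.toReal_mono hCt hAC) hn1.le
  have hmB : (volume B).toReal ^ (1 / (n : ℝ)) ≤ (volume C).toReal ^ (1 / (n : ℝ)) :=
    Real.rpow_le_rpow ENNReal.toReal_nonneg (ENNReal.toReal_mono hCt hBC) hn1.le
  rcases (ENNReal.toReal_nonneg (a := volume A)).eq_or_lt with hA0 | hA0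
  · rw [← hA0, Real.zero_rpow hn1.ne', zero_add]
    exact hmB
  rcases (ENNReal.toReal_nonneg (a := volume B)).eq_or_lt with hB0 | hB0
  · rw [← hB0, Real.zero_rpow hn1.ne', add_zero]
    exact hmA
  obtain ⟨p, hp⟩ : ∃ p, p = (volume A).toReal ^ (1 / (n : ℝ)) := ⟨_, rfl⟩
  obtain ⟨q, hq⟩ : ∃ q, q = (volume B).toReal ^ (1 / (n : ℝ)) := ⟨_, rfl⟩
  have hp0 : 0 < p := by rw [hp]; exact Real.rpow_pos_of_pos hA0 _
  have hq0 : 0 < q := by rw [hq]; exact Real.rpow_pos_of_pos hB0 _
  have hpn : p ^ n = (volume A).toReal := by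
    rw [hp, ← Real.rpow_natCast, ← Real.rpow_mul hA0.le, one_div, inv_mul_cancel₀ hn0,
      Real.rpow_one]
  have hqn : q ^ n = (volume B).toReal := by
    rw [hq, ← Real.rpow_natCast, ← Real.rpow_mul hB0.le, one_div, inv_mul_cancel₀ hn0,
      Real.rpow_one]
  have unit : ∀ (r : ℝ) (D : Set (EuclideanSpace ℝ (Fin n))), 0 < r → volume D ≠ ∞ →
      r ^ n = (volume D).toReal → volume ((fun x => r • x) ⁻¹' D) = 1 := by
    intro r D hr hD hrn
    rw [vol_scale hr, hrn]
    have h0 : 0 < (volume D).toReal := by rw [← hrn]; positivity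
    rw [ENNReal.ofReal_inv_of_pos h0, ENNReal.ofReal_toReal hD]
    refine ENNReal.inv_mul_cancel ?_ hD
    intro h0'
    rw [h0'] at h0
    simp at h0
  have key := bmE (A := (fun x => p • x) ⁻¹' A) (B := (fun x => q • x) ⁻¹' B)
    (C := (fun x => (p + q) • x) ⁻¹' C) ((measurable_const_smul p) hA)
    ((measurable_const_smul q) hB) ((measurable_const_smul (p + q)) hC)
    (a := p / (p + q)) (b := q / (p + q)) (by positivity) (by positivity)
    (by rw [← add_div]; exact div_self (by positivity)) (by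
      intro x hx y hy
      have h1 := h _ hx _ hy
      have e : (p + q) • ((p / (p + q)) • x + (q / (p + q)) • y) = p • x + q • y := by
        rw [smul_add, smul_smul, smul_smul, mul_div_cancel₀ _ (by positivity),
          mul_div_cancel₀ _ (by positivity)]
      simp only [mem_preimage]
      rw [e]
      exact h1)
  rw [unit p A hp0 hAt hpn, unit q B hq0 hBt hqn, ENNReal.one_rpow, ENNReal.one_rpow, one_mul,
    vol_scale (by positivity : 0 < p + q)] at key
  have hpq : 0 < (p + q) ^ n := by positivity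
  rw [ENNReal.ofReal_inv_of_pos hpq] at key
  have key2 : ENNReal.ofReal ((p + q) ^ n) ≤ volume C := by
    calc ENNReal.ofReal ((p + q) ^ n) = ENNReal.ofReal ((p + q) ^ n) * 1 := (mul_one _).symm
      _ ≤ ENNReal.ofReal ((p + q) ^ n) * ((ENNReal.ofReal ((p + q) ^ n))⁻¹ * volume C) :=
          mul_le_mul_right key _
      _ = volume C := by
          rw [← mul_assoc, ENNReal.mul_inv_cancel (by simpa using hpq) ENNReal.ofReal_ne_top,
            one_mul]
  have key3 : (p + q) ^ n ≤ (volume C).toReal := (ENNReal.ofReal_le_iff_le_toReal hCt).1 key2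
  rw [← hp, ← hq]
  calc p + q = ((p + q) ^ n) ^ (1 / (n : ℝ)) := by
        rw [← Real.rpow_natCast, ← Real.rpow_mul (by positivity), mul_one_div_cancel hn0,
          Real.rpow_one]
    _ ≤ (volume C).toReal ^ (1 / (n : ℝ)) := Real.rpow_le_rpow hpq.le key3 hn1.le

/-- Brunn-Minkowski for the thickening of a set. -/
theorem bm_thick (hn : 0 < n) {A : Set (EuclideanSpace ℝ (Fin n))} (hA : MeasurableSet A)
    (hAn : A.Nonempty) {d : ℝ} (hd : 0 < d) (hfin : volume (Metric.thickening d A) ≠ ∞) :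
    (volume A).toReal ^ (1 / (n : ℝ)) +
        (volume (Metric.ball (0 : EuclideanSpace ℝ (Fin n)) 1)).toReal ^ (1 / (n : ℝ)) * d ≤
      (volume (Metric.thickening d A)).toReal ^ (1 / (n : ℝ)) := by
  have hn0 : (n : ℝ) ≠ 0 := by exact_mod_cast hn.ne'
  have h1 := bmReal hn hA (measurableSet_ball (x := (0 : EuclideanSpace ℝ (Fin n))) (ε := d))
    (Metric.isOpen_thickening (δ := d) (E := A)).measurableSet hAn
    ⟨0, Metric.mem_ball_self hd⟩ hfin (by
      intro x hx y hy
      rw [Metric.mem_thickening_iff]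
      refine ⟨x, hx, ?_⟩
      rw [dist_eq_norm]
      simpa using hy)
  have h2 : (volume (Metric.ball (0 : EuclideanSpace ℝ (Fin n)) d)).toReal ^ (1 / (n : ℝ)) =
      (volume (Metric.ball (0 : EuclideanSpace ℝ (Fin n)) 1)).toReal ^ (1 / (n : ℝ)) * d := by
    rw [Measure.addHaar_ball_of_pos _ _ hd, finrank_euclideanSpace_fin, ENNReal.toReal_mul,
      ENNReal.toReal_ofReal (by positivity), mul_comm,
      Real.mul_rpow ENNReal.toReal_nonneg (by positivity), ← Real.rpow_natCast,
      ← Real.rpow_mul hd.le, mul_one_div_cancel hn0, Real.rpow_one]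
  rwa [h2] at h1

/-- Brunn-Minkowski for the thickening of a bounded set. -/
theorem bm_thick_bounded (hn : 0 < n) {A : Set (EuclideanSpace ℝ (Fin n))}
    (hA : MeasurableSet A) (hAn : A.Nonempty) (hAb : Bornology.IsBounded A) {d : ℝ}
    (hd : 0 < d) :
    (volume A).toReal ^ (1 / (n : ℝ)) +
        (volume (Metric.ball (0 : EuclideanSpace ℝ (Fin n)) 1)).toReal ^ (1 / (n : ℝ)) * d ≤
      (volume (Metric.thickening d A)).toReal ^ (1 / (n : ℝ)) :=
  bm_thick hn hA hAn hd (hAb.thickening.measure_lt_top).ne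

end Pool.Agent.RTC.P46
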