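import Pool.Agent.RTC.St
import Pool.Agent.RTC.BM

set_option autoImplicit false

namespace Pool.Agent.RTC

open MeasureTheory Set Filter Topology
open scoped ENNReal NNReal

theorem t_BMN : S_BMN := by
  intro N hN A hA hAb hAn ε hε
  have h := P46.bm_thick_bounded (n := N) hN hA.measurableSet hAn hAb hε
  rw [mul_comm] at h
  exact h

end Pool.Agent.RTC
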