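import Pool.Agent.RTC.St

/-!
# RTC_ETA: the barrier function
-/

set_option autoImplicit false

namespace Pool.Agent.RTC

open MeasureTheory Set Filter Topology
open scoped ENNReal NNReal

namespace ETA

theorem fint {N : ℕ} {b : ℝ} {m : ℝ → ℝ} {ν : Measure ℝ} (hD : Data N b m ν) :
    Integrable (fun z : ℝ => max 0 (2 - z)) ν := by
  have : IsFiniteMeasure ν := ⟨hD.fin⟩
  have h1 : Integrable (fun z : ℝ => 2 - z) ν := (integrable_const 2).sub hD.int
  have h2 : Integrable (fun z : ℝ => (2 - z) ⊔ 0) ν := h1.pos_part
  exact h2.congr (Eventually.of_forall fun z => max_comm _ _)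

theorem S0_nonneg (ν : Measure ℝ) (y : ℝ) : 0 ≤ S0 ν y :=
  integral_nonneg fun z => le_max_left _ _

theorem S0_anti {N : ℕ} {b : ℝ} {m : ℝ → ℝ} {ν : Measure ℝ} (hD : Data N b m ν) :
    Antitone (S0 ν) := by
  intro x y hxy
  exact setIntegral_mono_set (fint hD).integrableOn
    (Eventually.of_forall fun z => le_max_left _ _)
    (Eventually.of_forall fun z hz => lt_of_le_of_lt hxy hz)

theorem S0_cont {N : ℕ} {b : ℝ} {m : ℝ → ℝ} {ν : Measure ℝ} (hD : Data N b m ν) (y : ℝ) :
    ContinuousWithinAt (S0 ν) (Ioi y) y := by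
  have e : ∀ x, S0 ν x = ∫ z, (Ioi x).indicator (fun z : ℝ => max 0 (2 - z)) z ∂ν := fun x =>
    (integral_indicator measurableSet_Ioi).symm
  have h : Tendsto (fun x => ∫ z, (Ioi x).indicator (fun z : ℝ => max 0 (2 - z)) z ∂ν)
      (𝓝[Ioi y] y) (𝓝 (∫ z, (Ioi y).indicator (fun z : ℝ => max 0 (2 - z)) z ∂ν)) := by
    refine tendsto_integral_filter_of_dominated_convergence (fun z : ℝ => max 0 (2 - z)) ?_ ?_
      (fint hD) ?_
    · exact Eventually.of_forall fun x =>
        (fint hD).aestronglyMeasurable.indicator measurableSet_Ioi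
    · refine Eventually.of_forall fun x => Eventually.of_forall fun z => ?_
      by_cases hz : z ∈ Ioi x
      · rw [indicator_of_mem hz, Real.norm_of_nonneg (le_max_left _ _)]
      · rw [indicator_of_notMem hz, norm_zero]
        exact le_max_left _ _
    · refine Eventually.of_forall fun z => ?_
      by_cases hz : y < z
      · have h1 : ∀ᶠ x in 𝓝[Ioi y] y, (Ioi x).indicator (fun z : ℝ => max 0 (2 - z)) z =
            (Ioi y).indicator (fun z : ℝ => max 0 (2 - z)) z := by
          have h2 : ∀ᶠ x in 𝓝[Ioi y] y, x < z := nhdsWithin_le_nhds (Iio_mem_nhds hz)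
          filter_upwards [h2] with x hx
          rw [indicator_of_mem (show z ∈ Ioi x from hx), indicator_of_mem (show z ∈ Ioi y from hz)]
        exact tendsto_const_nhds.congr' (h1.mono fun x hx => hx.symm)
      · have h1 : ∀ᶠ x in 𝓝[Ioi y] y, (Ioi x).indicator (fun z : ℝ => max 0 (2 - z)) z =
            (Ioi y).indicator (fun z : ℝ => max 0 (2 - z)) z := by
          filter_upwards [self_mem_nhdsWithin] with x hx
          have hx' : y < x := hx
          have h3 : z ∉ Ioi x := fun h => by
            have h' : x < z := h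
            linarith
          rw [indicator_of_notMem h3, indicator_of_notMem (show z ∉ Ioi y from hz)]
        exact tendsto_const_nhds.congr' (h1.mono fun x hx => hx.symm)
  unfold ContinuousWithinAt
  rw [e y]
  exact h.congr fun x => (e x).symm

theorem ii {N : ℕ} {b : ℝ} {m : ℝ → ℝ} {ν : Measure ℝ} (hD : Data N b m ν) (f : ℝ → ℝ)
    (hf : Continuous f) (ε x y : ℝ) :
    IntervalIntegrable (fun x => f x * (S0 ν x + ε)) volume x y := by
  have h1 : IntervalIntegrable (fun x => S0 ν x + ε) volume x y :=
    ((S0_anti hD).intervalIntegrable).add intervalIntegrable_const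
  exact h1.continuousOn_mul hf.continuousOn

end ETA

open ETA

/-- ETA. -/
theorem t_ETA : S_ETA := by
  intro N b m ν hD ε hε
  obtain ⟨F, hF⟩ : ∃ F : ℝ → ℝ, F = fun x => Real.exp x * (S0 ν x + ε) := ⟨_, rfl⟩
  have hFi : ∀ x y, IntervalIntegrable F volume x y := fun x y => by
    rw [hF]
    exact ii hD _ Real.continuous_exp ε x y
  have hFpos : ∀ x, 0 ≤ F x := fun x => by
    rw [hF]
    exact mul_nonneg (Real.exp_pos x).le (add_nonneg (S0_nonneg ν x) hε.le)
  refine ⟨fun y => Real.exp (-y) * (Real.exp a0 + ∫ x in a0..y, F x), ?_, ?_, ?_, ?_, ?_⟩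
  · apply Continuous.continuousOn
    exact (Real.continuous_exp.comp continuous_neg).mul
      (continuous_const.add (intervalIntegral.continuous_primitive hFi a0))
  · show Real.exp (-a0) * (Real.exp a0 + ∫ x in a0..a0, F x) = 1
    rw [intervalIntegral.integral_same, add_zero, ← Real.exp_add, neg_add_cancel, Real.exp_zero]
  · intro y hy
    have h1 : 0 ≤ ∫ x in a0..y, F x := intervalIntegral.integral_nonneg hy fun x _ => hFpos x
    have h2 : Real.exp (-(y - a0)) = Real.exp (-y) * Real.exp a0 := by
      rw [← Real.exp_add]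
      congr 1
      ring
    rw [h2]
    exact mul_le_mul_of_nonneg_left (by linarith) (Real.exp_pos _).le
  · intro y hy
    have hm : StronglyMeasurableAtFilter F (𝓝[Ioi y] y) volume := by
      apply StronglyMeasurable.stronglyMeasurableAtFilter
      rw [hF]
      exact (Real.measurable_exp.mul
        ((S0_anti hD).measurable.add measurable_const)).stronglyMeasurable
    have hc : ContinuousWithinAt F (Ioi y) y := by
      rw [hF]
      exact Real.continuous_exp.continuousWithinAt.mul
        ((S0_cont hD y).add continuousWithinAt_const)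
    have h1 : HasDerivWithinAt (fun u => ∫ x in a0..u, F x) (F y) (Ici y) y :=
      intervalIntegral.integral_hasDerivWithinAt_right (hFi a0 y) hm hc
    have h2 : HasDerivWithinAt (fun u : ℝ => Real.exp (-u)) (Real.exp (-y) * (-1)) (Ici y) y :=
      ((hasDerivAt_neg y).exp).hasDerivWithinAt
    have h3 := h2.mul (h1.const_add (Real.exp a0))
    refine h3.congr_deriv ?_
    rw [hF]
    have h4 : Real.exp (-y) * Real.exp y = 1 := by
      rw [← Real.exp_add, neg_add_cancel, Real.exp_zero]
    linear_combination (S0 ν y + ε) * h4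
  · intro y hy
    have hS : ∀ f : ℝ → ℝ, Continuous f →
        IntervalIntegrable (fun x => f x * S0 ν x) volume a0 y := fun f hf =>
      ((S0_anti hD).intervalIntegrable).continuousOn_mul hf.continuousOn
    have h1 : ∫ x in a0..y, F x =
        (∫ x in a0..y, Real.exp x * S0 ν x) + ε * (Real.exp y - Real.exp a0) := by
      have e1 : F = fun x => Real.exp x * S0 ν x + ε * Real.exp x := by
        rw [hF]
        funext x
        ring
      have e2 : IntervalIntegrable (fun x : ℝ => ε * Real.exp x) volume a0 y :=
        (continuous_const.mul Real.continuous_exp).intervalIntegrable _ _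
      have e3 := intervalIntegral.integral_add (hS _ Real.continuous_exp) e2
      rw [e1]
      refine e3.trans ?_
      rw [intervalIntegral.integral_const_mul, integral_exp]
    have h2 : ∫ x in a0..y, Real.exp (x - 1) * S0 ν x =
        Real.exp (-1) * ∫ x in a0..y, Real.exp x * S0 ν x := by
      rw [← intervalIntegral.integral_const_mul]
      congr 1
      funext x
      rw [← mul_assoc, ← Real.exp_add]
      congr 2
      ring
    have h3 : Real.exp (-(y - 1)) * Real.exp (-1) = Real.exp (-y) := by
      rw [← Real.exp_add]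
      congr 1
      ring
    have h4 : Real.exp (-(y - a0)) = Real.exp (-y) * Real.exp a0 := by
      rw [← Real.exp_add]
      congr 1
      ring
    have h5 : Real.exp (-y) * Real.exp y = 1 := by
      rw [← Real.exp_add, neg_add_cancel, Real.exp_zero]
    have h6 : 1 - Real.exp (-(y - a0)) ≤ y - a0 := by
      have := Real.add_one_le_exp (-(y - a0))
      linarith
    show Real.exp (-y) * (Real.exp a0 + ∫ x in a0..y, F x) ≤ _
    rw [h1, h2]
    have h7 : Real.exp (-y) * (Real.exp a0 + ((∫ x in a0..y, Real.exp x * S0 ν x) +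
        ε * (Real.exp y - Real.exp a0))) =
        Real.exp (-(y - a0)) + Real.exp (-(y - 1)) * (Real.exp (-1) *
          ∫ x in a0..y, Real.exp x * S0 ν x) + ε * (1 - Real.exp (-(y - a0))) := by
      linear_combination (-1 + ε) * h4 - (∫ x in a0..y, Real.exp x * S0 ν x) * h3 + ε * h5
    rw [h7]
    have h8 := mul_le_mul_of_nonneg_left h6 hε.le
    linarith

end Pool.Agent.RTC
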