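import Pool.Agent.RTC.St

set_option autoImplicit false

/-!
# RTC_FIN: the pointwise comparison
-/

namespace Pool.Agent.RTC

open MeasureTheory Set Filter Topology
open scoped ENNReal NNReal

namespace FIN

theorem toReal_ball {N : ℕ} {r : ℝ} (hr : 0 < r) :
    (volume (Metric.ball (0 : E N) r)).toReal = r ^ N * om N := by
  rw [Measure.addHaar_ball_of_pos _ _ hr, ENNReal.toReal_mul, finrank_euclideanSpace_fin,
    ENNReal.toReal_ofReal (pow_nonneg hr.le N)]
  rfl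

theorem om_pos {N : ℕ} : 0 < om N := by
  unfold om
  exact ENNReal.toReal_pos (Metric.measure_ball_pos volume 0 one_pos).ne' measure_ball_lt_top.ne

end FIN

theorem t_FIN : S_SCA → S_FIN := by
  intro hSCA N hN Ω σ β R u g w hβ hR hb hΩ hbd hvol hσ hu x hx hx0
  have hN0 : (0 : ℝ) < N := by exact_mod_cast (by omega : 0 < N)
  have hxn : 0 < ‖x‖ := norm_pos_iff.2 hx0
  have hxR : ‖x‖ < R := by rwa [mem_ball_zero_iff] at hx
  have h1 : 0 < R ^ 2 - ‖x‖ ^ 2 := by nlinarith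
  have hv : R / (N * β) ≤ vball N β R x := by
    unfold vball
    have : 0 ≤ (R ^ 2 - ‖x‖ ^ 2) / (2 * N) := div_nonneg h1.le (by positivity)
    linarith
  have hv0 : 0 < R / (N * β) := by positivity
  refine le_of_forall_pos_le_add fun ε hε => ?_
  unfold sharp
  refine csInf_le ⟨0, fun t ht => ht.1⟩ ⟨by linarith, ?_⟩
  have hsca := hSCA N hN Ω σ β R u g w hβ hR hb hΩ hbd hvol hσ hu (vball N β R x + ε)
    (by linarith)
  have e1 : R ^ 2 - 2 * N * (vball N β R x + ε - R / (N * β)) = ‖x‖ ^ 2 - 2 * N * ε := by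
    unfold vball
    have : 2 * (N : ℝ) * ((R ^ 2 - ‖x‖ ^ 2) / (2 * N)) = R ^ 2 - ‖x‖ ^ 2 := by
      field_simp
    linear_combination -this
  have h2 : max 0 (‖x‖ ^ 2 - 2 * N * ε) < ‖x‖ ^ 2 := by
    apply max_lt (by positivity)
    have : 0 < 2 * (N : ℝ) * ε := by positivity
    linarith
  have h3 : (max 0 (‖x‖ ^ 2 - 2 * N * ε)) ^ ((N : ℝ) / 2) < ‖x‖ ^ N := by
    have h4 : (‖x‖ ^ 2) ^ ((N : ℝ) / 2) = ‖x‖ ^ N := by
      rw [← Real.rpow_natCast ‖x‖ 2, ← Real.rpow_mul hxn.le, ← Real.rpow_natCast ‖x‖ N]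
      congr 1
      push_cast
      ring
    rw [← h4]
    exact Real.rpow_lt_rpow (le_max_left _ _) h2 (by positivity)
  rw [e1] at hsca
  have hfin : volume (Ω ∩ {z | vball N β R x + ε < u z}) ≠ ⊤ := by
    have h5 : volume (Ω ∩ {z | vball N β R x + ε < u z}) ≤ volume Ω :=
      measure_mono inter_subset_left
    rw [hvol] at h5
    exact (h5.trans_lt measure_ball_lt_top).ne
  rw [← ENNReal.toReal_lt_toReal hfin measure_ball_lt_top.ne, FIN.toReal_ball hxn]
  have h6 : om N * (max 0 (‖x‖ ^ 2 - 2 * N * ε)) ^ ((N : ℝ) / 2) < om N * ‖x‖ ^ N :=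
    mul_lt_mul_of_pos_left h3 FIN.om_pos
  have h7 : (volume (Ω ∩ {z | vball N β R x + ε < u z})).toReal =
    mu Ω u (vball N β R x + ε) := rfl
  rw [h7]
  linarith

end Pool.Agent.RTC
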