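import Pool.Agent.RTC.St

set_option autoImplicit false

/-!
# RTC, module FUB: the moment inequality (helper80)

Fubini, and `(2 - z) (e^(z-1) - 1/2) ≤ z / 2`.
-/

namespace Pool.Agent.RTC

open MeasureTheory Set Filter Topology
open scoped ENNReal NNReal

namespace FUB

theorem exp_a0 : Real.exp (a0 - 1) = 1 / 2 := by
  have h : a0 - 1 = -Real.log 2 := by
    unfold a0
    ring
  rw [h, Real.exp_neg, Real.exp_log (by norm_num)]
  norm_num

theorem key (z : ℝ) (hz : 0 ≤ z) : max 0 (2 - z) * (Real.exp (z - 1) - 1 / 2) ≤ z / 2 := by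
  rcases le_or_gt 2 z with h | h
  · rw [max_eq_left (by linarith), zero_mul]
    linarith
  · rw [max_eq_right (by linarith)]
    have h1 : (2 - z) * Real.exp (z - 1) ≤ 1 := by
      have h2 := Real.add_one_le_exp (-(z - 1))
      have h3 : (2 - z) ≤ Real.exp (-(z - 1)) := by linarith
      calc (2 - z) * Real.exp (z - 1) ≤ Real.exp (-(z - 1)) * Real.exp (z - 1) :=
            mul_le_mul_of_nonneg_right h3 (Real.exp_pos _).le
        _ = 1 := by rw [← Real.exp_add]; simp
    nlinarith

theorem int_exp (z : ℝ) : ∫ x in a0..z, Real.exp (x - 1) = Real.exp (z - 1) - 1 / 2 := by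
  rw [intervalIntegral.integral_comp_sub_right (fun x => Real.exp x) 1, integral_exp, exp_a0]

/-- The kernel. -/
noncomputable def F : ℝ × ℝ → ℝ :=
  {p : ℝ × ℝ | p.1 < p.2}.indicator (fun p => Real.exp (p.1 - 1) * max 0 (2 - p.2))

theorem F_left (x z : ℝ) :
    F (x, z) = Real.exp (x - 1) * (Ioi x).indicator (fun z => max 0 (2 - z)) z := by
  unfold F
  by_cases h : x < z
  · rw [indicator_of_mem (show (x, z) ∈ {p : ℝ × ℝ | p.1 < p.2} from h),
      indicator_of_mem (show z ∈ Ioi x from h)]
  · rw [indicator_of_notMem (show (x, z) ∉ {p : ℝ × ℝ | p.1 < p.2} from h),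
      indicator_of_notMem (show z ∉ Ioi x from h), mul_zero]

theorem F_right (x z : ℝ) :
    F (x, z) = (Iio z).indicator (fun x => Real.exp (x - 1) * max 0 (2 - z)) x := by
  unfold F
  by_cases h : x < z
  · rw [indicator_of_mem (show (x, z) ∈ {p : ℝ × ℝ | p.1 < p.2} from h),
      indicator_of_mem (show x ∈ Iio z from h)]
  · rw [indicator_of_notMem (show (x, z) ∉ {p : ℝ × ℝ | p.1 < p.2} from h),
      indicator_of_notMem (show x ∉ Iio z from h)]

theorem cont_exp : Continuous (fun x : ℝ => Real.exp (x - 1)) :=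
  Real.continuous_exp.comp (continuous_id.sub continuous_const)

theorem F_int {ν : Measure ℝ} [IsFiniteMeasure ν] (hint : Integrable (fun y : ℝ => y) ν) (Y : ℝ) :
    Integrable F (((volume : Measure ℝ).restrict (Ioc a0 Y)).prod ν) := by
  unfold F
  refine Integrable.indicator ?_ (measurableSet_lt measurable_fst measurable_snd)
  refine Integrable.mul_prod (f := fun x : ℝ => Real.exp (x - 1))
    (g := fun z : ℝ => max 0 (2 - z)) ?_ ?_
  · exact (cont_exp.integrableOn_Icc (a := a0) (b := Y)).mono_set Ioc_subset_Icc_self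
  · have h1 : Integrable (fun z : ℝ => 2 - z) ν := (integrable_const (2 : ℝ)).sub hint
    have h2 : (fun z : ℝ => max 0 (2 - z)) = fun z : ℝ => max (2 - z) 0 := by
      funext z
      exact max_comm _ _
    rw [h2]
    exact h1.pos_part

theorem inner_le (Y z : ℝ) (hz : 0 ≤ z) :
    ∫ x in Ioc a0 Y, F (x, z) ≤ z / 2 := by
  have h1 : ∀ x, F (x, z) = (Iio z).indicator (fun x => Real.exp (x - 1) * max 0 (2 - z)) x :=
    fun x => F_right x z
  simp_rw [h1]
  rw [setIntegral_indicator measurableSet_Iio]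
  have hc : 0 ≤ max 0 (2 - z) := le_max_left _ _
  rcases le_or_gt z a0 with h | h
  · have h2 : Ioc a0 Y ∩ Iio z = ∅ := by
      ext x
      simp only [mem_inter_iff, mem_Ioc, mem_Iio, mem_empty_iff_false, iff_false]
      rintro ⟨⟨h3, -⟩, h4⟩
      linarith
    rw [h2, Measure.restrict_empty, integral_zero_measure]
    linarith
  · have h2 : ∫ x in Ioc a0 Y ∩ Iio z, Real.exp (x - 1) * max 0 (2 - z) ≤
        ∫ x in Ioc a0 z, Real.exp (x - 1) * max 0 (2 - z) := by
      refine setIntegral_mono_set ?_ ?_ ?_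
      · exact ((cont_exp.mul continuous_const).integrableOn_Icc
          (a := a0) (b := z)).mono_set Ioc_subset_Icc_self
      · exact Eventually.of_forall fun x => mul_nonneg (Real.exp_pos _).le hc
      · refine HasSubset.Subset.eventuallyLE ?_
        rintro x ⟨⟨h3, -⟩, h4⟩
        exact ⟨h3, le_of_lt h4⟩
    refine h2.trans ?_
    rw [← intervalIntegral.integral_of_le h.le, intervalIntegral.integral_mul_const, int_exp,
      mul_comm]
    exact key z hz

end FUB

open FUB in
theorem t_FUB : S_FUB := by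
  intro N b m ν hd Y hY
  have hfin : IsFiniteMeasure ν := ⟨hd.fin⟩
  have hF := F_int hd.int Y
  rw [intervalIntegral.integral_of_le hY]
  have h1 : ∀ x, Real.exp (x - 1) * S0 ν x = ∫ z, F (x, z) ∂ν := by
    intro x
    simp_rw [F_left]
    rw [integral_const_mul, integral_indicator measurableSet_Ioi]
    rfl
  simp_rw [h1]
  rw [integral_integral_swap (f := fun x z => F (x, z)) hF]
  have hpos : ∀ᵐ z ∂ν, 0 ≤ z := by
    have h2 : ν {z | ¬ 0 ≤ z} = 0 := by
      have h3 : {z : ℝ | ¬ 0 ≤ z} = Iio 0 := by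
        ext z
        simp
      rw [h3]
      exact hd.supp
    exact h2
  have h2 : ∫ z, (∫ x in Ioc a0 Y, F (x, z)) ∂ν ≤ ∫ z, z / 2 ∂ν := by
    refine integral_mono_ae ?_ (hd.int.div_const 2) ?_
    · exact hF.integral_prod_right
    · filter_upwards [hpos] with z hz
      exact inner_le Y z hz
  refine h2.trans ?_
  rw [integral_div]
  have := hd.mean
  linarith

end Pool.Agent.RTC
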