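import Pool.Agent.RTC.St

set_option autoImplicit false

/-!
# MP_84cf48_an, module GEX (helper62): a continuously differentiable cut-off
-/

namespace Pool.Agent.RTC

open MeasureTheory Set Filter Topology
open scoped ENNReal NNReal

namespace GEX

theorem hasDerivAt_sq (y : ℝ) : HasDerivAt (fun y : ℝ => (max 0 y) ^ 2) (2 * max 0 y) y := by
  rcases lt_trichotomy y 0 with h | h | h
  · rw [max_eq_left h.le, mul_zero]
    refine (hasDerivAt_const y (0 : ℝ)).congr_of_eventuallyEq ?_
    filter_upwards [Iio_mem_nhds h] with z hz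
    rw [max_eq_left (le_of_lt hz)]
    norm_num
  · subst h
    rw [max_self, mul_zero]
    have h1 : HasDerivWithinAt (fun y : ℝ => (max 0 y) ^ 2) 0 (Iic 0) 0 := by
      refine (hasDerivWithinAt_const (0 : ℝ) (Iic 0) (0 : ℝ)).congr (fun x hx => ?_) (by simp)
      rw [max_eq_left hx]
      norm_num
    have h2 : HasDerivWithinAt (fun y : ℝ => (max 0 y) ^ 2) 0 (Ici 0) 0 := by
      have h3 : HasDerivAt (fun y : ℝ => y ^ 2) 0 0 := by
        simpa using hasDerivAt_pow 2 (0 : ℝ)
      refine h3.hasDerivWithinAt.congr (fun x hx => ?_) (by simp)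
      rw [max_eq_right hx]
    have h4 := h1.union h2
    rw [Iic_union_Ici, hasDerivWithinAt_univ] at h4
    exact h4
  · rw [max_eq_right h.le]
    have h3 : HasDerivAt (fun y : ℝ => y ^ 2) (2 * y) y := by
      simpa using hasDerivAt_pow 2 y
    refine h3.congr_of_eventuallyEq ?_
    filter_upwards [Ioi_mem_nhds h] with z hz
    rw [max_eq_right (le_of_lt hz)]

theorem hasDerivAt_sq_sub (a x : ℝ) :
    HasDerivAt (fun x : ℝ => (max 0 (x - a)) ^ 2) (2 * max 0 (x - a)) x := by
  have h := (hasDerivAt_sq (x - a)).comp x ((hasDerivAt_id x).sub_const a)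
  simpa [Function.comp_def] using h

/-- The cut-off. -/
noncomputable def G (t h δ : ℝ) (x : ℝ) : ℝ :=
  ((max 0 (x - t)) ^ 2 - (max 0 (x - (t + δ))) ^ 2 - (max 0 (x - (t + h - δ))) ^ 2 +
    (max 0 (x - (t + h))) ^ 2) / (2 * (δ * (h - δ)))

/-- The derivative of the cut-off. -/
noncomputable def k (t h δ : ℝ) (x : ℝ) : ℝ :=
  (max 0 (x - t) - max 0 (x - (t + δ)) - max 0 (x - (t + h - δ)) + max 0 (x - (t + h))) /
    (δ * (h - δ))

theorem hasDerivAt_G {t h δ : ℝ} (hδ : 0 < δ) (hh : 2 * δ ≤ h) (x : ℝ) :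
    HasDerivAt (G t h δ) (k t h δ x) x := by
  have h1 : (0 : ℝ) < h - δ := by linarith
  have h2 := ((((hasDerivAt_sq_sub t x).sub (hasDerivAt_sq_sub (t + δ) x)).sub
    (hasDerivAt_sq_sub (t + h - δ) x)).add (hasDerivAt_sq_sub (t + h) x)).div_const
      (2 * (δ * (h - δ)))
  have e : (2 * max 0 (x - t) - 2 * max 0 (x - (t + δ)) - 2 * max 0 (x - (t + h - δ)) +
      2 * max 0 (x - (t + h))) / (2 * (δ * (h - δ))) = k t h δ x := by
    unfold k
    field_simp
  rw [e] at h2
  exact h2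

theorem k_nonneg {t h δ : ℝ} (hδ : 0 < δ) (hh : 2 * δ ≤ h) (x : ℝ) : 0 ≤ k t h δ x := by
  have h1 : (0 : ℝ) < h - δ := by linarith
  unfold k
  refine div_nonneg ?_ (by positivity)
  rcases le_total (x - t) 0 with c1 | c1 <;> rcases le_total (x - (t + δ)) 0 with c2 | c2 <;>
    rcases le_total (x - (t + h - δ)) 0 with c3 | c3 <;>
    rcases le_total (x - (t + h)) 0 with c4 | c4 <;>
    simp only [c1, c2, c3, c4, max_eq_left, max_eq_right] <;> linarith

theorem k_le {t h δ : ℝ} (hδ : 0 < δ) (hh : 2 * δ ≤ h) (x : ℝ) : k t h δ x ≤ 1 / (h - δ) := by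
  have h1 : (0 : ℝ) < h - δ := by linarith
  unfold k
  rw [div_le_div_iff₀ (by positivity) h1]
  have h2 : max 0 (x - t) - max 0 (x - (t + δ)) - max 0 (x - (t + h - δ)) +
      max 0 (x - (t + h)) ≤ δ := by
    rcases le_total (x - t) 0 with c1 | c1 <;> rcases le_total (x - (t + δ)) 0 with c2 | c2 <;>
      rcases le_total (x - (t + h - δ)) 0 with c3 | c3 <;>
      rcases le_total (x - (t + h)) 0 with c4 | c4 <;>
      simp only [c1, c2, c3, c4, max_eq_left, max_eq_right] <;> linarith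
  calc _ ≤ δ * (h - δ) := mul_le_mul_of_nonneg_right h2 h1.le
    _ = 1 * (δ * (h - δ)) := (one_mul _).symm

theorem k_left {t h δ : ℝ} (hδ : 0 < δ) (hh : 2 * δ ≤ h) (x : ℝ) (hx : x ≤ t) :
    k t h δ x = 0 := by
  unfold k
  rw [max_eq_left (by linarith), max_eq_left (by linarith), max_eq_left (by linarith),
    max_eq_left (by linarith)]
  simp

theorem k_right {t h δ : ℝ} (hδ : 0 < δ) (hh : 2 * δ ≤ h) (x : ℝ) (hx : t + h ≤ x) :
    k t h δ x = 0 := by
  unfold k
  rw [max_eq_right (by linarith), max_eq_right (by linarith), max_eq_right (by linarith),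
    max_eq_right (by linarith)]
  have e : x - t - (x - (t + δ)) - (x - (t + h - δ)) + (x - (t + h)) = 0 := by ring
  rw [e, zero_div]

theorem G_left {t h δ : ℝ} (hδ : 0 < δ) (hh : 2 * δ ≤ h) (x : ℝ) (hx : x ≤ t) :
    G t h δ x = 0 := by
  unfold G
  rw [max_eq_left (by linarith), max_eq_left (by linarith), max_eq_left (by linarith),
    max_eq_left (by linarith)]
  simp

theorem G_right {t h δ : ℝ} (hδ : 0 < δ) (hh : 2 * δ ≤ h) (x : ℝ) (hx : t + h ≤ x) :
    G t h δ x = 1 := by
  have h1 : (0 : ℝ) < h - δ := by linarith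
  unfold G
  rw [max_eq_right (by linarith), max_eq_right (by linarith), max_eq_right (by linarith),
    max_eq_right (by linarith)]
  have e : (x - t) ^ 2 - (x - (t + δ)) ^ 2 - (x - (t + h - δ)) ^ 2 + (x - (t + h)) ^ 2 =
      2 * (δ * (h - δ)) := by ring
  rw [e]
  exact div_self (by positivity)

theorem continuous_k (t h δ : ℝ) : Continuous (k t h δ) := by
  unfold k
  fun_prop

end GEX

theorem t_GEX : S_GEX := by
  intro t h δ hδ hh
  have hd : deriv (GEX.G t h δ) = GEX.k t h δ := by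
    funext x
    exact (GEX.hasDerivAt_G hδ hh x).deriv
  have hdiff : Differentiable ℝ (GEX.G t h δ) := fun x =>
    (GEX.hasDerivAt_G hδ hh x).differentiableAt
  have hmono : Monotone (GEX.G t h δ) := by
    refine monotone_of_deriv_nonneg hdiff fun x => ?_
    rw [hd]
    exact GEX.k_nonneg hδ hh x
  refine ⟨GEX.G t h δ, ?_, fun x => ?_, fun x => ?_, GEX.G_left hδ hh, GEX.G_right hδ hh, ?_, ?_,
    ?_, ?_⟩
  · rw [contDiff_one_iff_deriv]
    refine ⟨hdiff, ?_⟩
    rw [hd]
    exact GEX.continuous_k t h δ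
  · have h1 := hmono (min_le_left x t)
    rw [GEX.G_left hδ hh _ (min_le_right x t)] at h1
    exact h1
  · have h1 := hmono (le_max_left x (t + h))
    rw [GEX.G_right hδ hh _ (le_max_right x (t + h))] at h1
    exact h1
  · intro x
    rw [hd]
    exact GEX.k_nonneg hδ hh x
  · intro x
    rw [hd]
    exact GEX.k_le hδ hh x
  · intro x hx
    rw [hd]
    exact GEX.k_left hδ hh x hx
  · intro x hx
    rw [hd]
    exact GEX.k_right hδ hh x hx

end Pool.Agent.RTC
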