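import Pool.Agent.RTC.St

/-!
Smooth isoperimetric inequality for level sets (helper28, MP_84cf48_an).
-/

set_option autoImplicit false

namespace Pool.Agent.RTC.ISO28

open MeasureTheory Set Filter Topology Metric

theorem pow_lower (x y : ℝ) (hx : 0 ≤ x) (hy : 0 ≤ y) (n : ℕ) :
    x ^ (n + 1) + (n + 1) * y * x ^ n ≤ (x + y) ^ (n + 1) := by
  induction n with
  | zero => simp
  | succ n ih =>
    have h1 : (x ^ (n + 1) + (n + 1) * y * x ^ n) * (x + y) ≤ (x + y) ^ (n + 1) * (x + y) :=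
      mul_le_mul_of_nonneg_right ih (by positivity)
    have h2 : 0 ≤ (n + 1) * y * x ^ n * y := by positivity
    push_cast
    calc x ^ (n + 1 + 1) + (n + 1 + 1) * y * x ^ (n + 1)
        ≤ (x ^ (n + 1) + (n + 1) * y * x ^ n) * (x + y) := by
          have : (x ^ (n + 1) + (n + 1) * y * x ^ n) * (x + y) =
            x ^ (n + 1 + 1) + (n + 1 + 1) * y * x ^ (n + 1) + (n + 1) * y * x ^ n * y := by ring
          rw [this]
          linarith
      _ ≤ (x + y) ^ (n + 1) * (x + y) := h1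
      _ = (x + y) ^ (n + 1 + 1) := by ring

/-- Adding a ball. -/
theorem add_ball (n : ℕ) (hn : 2 ≤ n) (h : S_BMN) (A C : Set (EuclideanSpace ℝ (Fin n)))
    (hA : IsOpen A) (hAb : Bornology.IsBounded A) (hA0 : A.Nonempty) (hCf : volume C ≠ ⊤)
    (δ : ℝ) (hδ : 0 < δ) (hAC : ∀ x ∈ A, ∀ y, ‖y‖ < δ → x + y ∈ C) :
    (volume A).toReal + n * δ * (volume (ball (0 : EuclideanSpace ℝ (Fin n)) 1)).toReal ^
      (1 / n : ℝ) * (volume A).toReal ^ (1 - 1 / n : ℝ) ≤ (volume C).toReal := by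
  have hn0 : (0:ℝ) < n := by
    have : 0 < n := by omega
    exact_mod_cast this
  have hnpos : (0:ℝ) ≤ 1 / n := by positivity
  have hBM := h n (by omega) A hA hAb hA0 δ hδ
  have hth : Metric.thickening δ A ⊆ C := by
    intro z hz
    obtain ⟨x, hx, hxz⟩ := Metric.mem_thickening_iff.1 hz
    have := hAC x hx (z - x) (by rw [← dist_eq_norm]; exact hxz)
    simpa using this
  have hthr : (volume (Metric.thickening δ A)).toReal ≤ (volume C).toReal :=
    ENNReal.toReal_mono hCf (measure_mono hth)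
  obtain ⟨a, ha⟩ : ∃ a, a = (volume A).toReal := ⟨_, rfl⟩
  obtain ⟨c, hc⟩ : ∃ c, c = (volume C).toReal := ⟨_, rfl⟩
  obtain ⟨w, hw⟩ : ∃ w, w = (volume (ball (0 : EuclideanSpace ℝ (Fin n)) 1)).toReal := ⟨_, rfl⟩
  have ha0 : 0 ≤ a := by rw [ha]; positivity
  have hc0 : 0 ≤ c := by rw [hc]; positivity
  have hw0 : 0 ≤ w := by rw [hw]; positivity
  have hreal : a ^ (1 / n : ℝ) + δ * w ^ (1 / n : ℝ) ≤ c ^ (1 / n : ℝ) := by
    unfold om at hBM
    rw [← ha, ← hw] at hBM
    refine hBM.trans ?_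
    rw [hc]
    exact Real.rpow_le_rpow (by positivity) hthr hnpos
  obtain ⟨m, rfl⟩ : ∃ m, n = m + 1 := ⟨n - 1, by omega⟩
  have hpow : (a ^ (1 / ((m + 1 : ℕ) : ℝ)) + δ * w ^ (1 / ((m + 1 : ℕ) : ℝ))) ^ (m + 1) ≤ c := by
    have h2 : (c ^ (1 / ((m + 1 : ℕ) : ℝ))) ^ (m + 1) = c := by
      rw [← Real.rpow_natCast, ← Real.rpow_mul hc0, one_div_mul_cancel hn0.ne', Real.rpow_one]
    calc _ ≤ (c ^ (1 / ((m + 1 : ℕ) : ℝ))) ^ (m + 1) := pow_le_pow_left₀ (by positivity) hreal _
      _ = c := h2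
  have h3 := pow_lower (a ^ (1 / ((m + 1 : ℕ) : ℝ))) (δ * w ^ (1 / ((m + 1 : ℕ) : ℝ)))
    (by positivity) (by positivity) m
  have h4 : (a ^ (1 / ((m + 1 : ℕ) : ℝ))) ^ (m + 1) = a := by
    rw [← Real.rpow_natCast, ← Real.rpow_mul ha0, one_div_mul_cancel hn0.ne', Real.rpow_one]
  have h5 : (a ^ (1 / ((m + 1 : ℕ) : ℝ))) ^ m = a ^ (1 - 1 / ((m + 1 : ℕ) : ℝ)) := by
    rw [← Real.rpow_natCast, ← Real.rpow_mul ha0]
    congr 1
    push_cast
    field_simp
    ring
  rw [h4, h5] at h3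
  rw [← ha, ← hc, ← hw]
  have h6 := h3.trans hpow
  refine le_trans (le_of_eq ?_) h6
  push_cast
  ring


/-- **Level sets of smooth functions.** -/
theorem iso_smooth (n : ℕ) (hn : 2 ≤ n) (h : S_BMN) (g : EuclideanSpace ℝ (Fin n) → ℝ)
    (hg : ContDiff ℝ 1 g) (hc : HasCompactSupport g) (h0 : ∀ x, 0 ≤ g x) (s : ℝ) (hs : 0 < s) :
    n * (volume (ball (0 : EuclideanSpace ℝ (Fin n)) 1)).toReal ^ (1 / n : ℝ) * s *
      (volume {x | s < g x}).toReal ^ (1 - 1 / n : ℝ) ≤ ∫ x, ‖fderiv ℝ g x‖ := by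
  classical
  have hn0 : (0:ℝ) < n := by
    have : 0 < n := by omega
    exact_mod_cast this
  have hn1 : (1:ℝ) < n := by
    have : 1 < n := by omega
    exact_mod_cast this
  have hI0 : 0 ≤ ∫ x, ‖fderiv ℝ g x‖ := integral_nonneg fun x => norm_nonneg _
  obtain ⟨a, ha⟩ : ∃ a, a = (volume {x | s < g x}).toReal := ⟨_, rfl⟩
  obtain ⟨w, hw⟩ : ∃ w, w = (volume (ball (0 : EuclideanSpace ℝ (Fin n)) 1)).toReal := ⟨_, rfl⟩
  have ha0 : 0 ≤ a := by rw [ha]; positivity
  have hw0 : 0 ≤ w := by rw [hw]; positivity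
  rw [← ha, ← hw]
  rcases ha0.eq_or_lt with h00 | hapos
  · rw [← h00, Real.zero_rpow (by
      have : 1 / (n:ℝ) < 1 := by rw [div_lt_one hn0]; exact hn1
      linarith), mul_zero]
    exact hI0
  have hne : {x | s < g x}.Nonempty := by
    by_contra hcon
    rw [Set.not_nonempty_iff_eq_empty] at hcon
    rw [hcon, measure_empty] at ha
    simp only [ENNReal.toReal_zero] at ha
    linarith
  have hgc : Continuous g := hg.continuous
  have hcont : Continuous (fderiv ℝ g) := hg.continuous_fderiv one_ne_zero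
  have hcf : HasCompactSupport (fderiv ℝ g) := hc.fderiv (𝕜 := ℝ)
  obtain ⟨R, hR⟩ := hc.isCompact.isBounded.subset_closedBall (0 : EuclideanSpace ℝ (Fin n))
  have hgR : ∀ x, x ∉ closedBall (0 : EuclideanSpace ℝ (Fin n)) R → g x = 0 := fun x hx =>
    image_eq_zero_of_notMem_tsupport fun hx' => hx (hR hx')
  have hfR : ∀ x, x ∉ closedBall (0 : EuclideanSpace ℝ (Fin n)) R → fderiv ℝ g x = 0 := fun x hx =>
    image_eq_zero_of_notMem_tsupport fun hx' => hx (hR (tsupport_fderiv_subset ℝ hx'))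
  obtain ⟨K, hK⟩ : ∃ K, K = closedBall (0 : EuclideanSpace ℝ (Fin n)) (R + 1) := ⟨_, rfl⟩
  have hKm : MeasurableSet K := by rw [hK]; exact measurableSet_closedBall
  have hKf : volume K ≠ ⊤ := by rw [hK]; exact measure_closedBall_lt_top.ne
  have hRK : closedBall (0 : EuclideanSpace ℝ (Fin n)) R ⊆ K := by
    rw [hK]; exact closedBall_subset_closedBall (by linarith)
  obtain ⟨κ, hκ⟩ : ∃ κ, κ = (volume K).toReal := ⟨_, rfl⟩
  have hκ0 : 0 ≤ κ := by rw [hκ]; positivity
  have hgi : Integrable g := hgc.integrable_of_hasCompactSupport hc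
  have hfi : Integrable (fun x => ‖fderiv ℝ g x‖) :=
    (hcont.integrable_of_hasCompactSupport hcf).norm
  have hKi : Integrable (K.indicator (fun _ => (1:ℝ))) :=
    (integrable_indicator_iff hKm).2 (integrableOn_const hKf)
  refine le_of_forall_pos_le_add fun ε' hε' => ?_
  obtain ⟨ε, hε⟩ : ∃ ε, ε = ε' / (κ + 1) := ⟨_, rfl⟩
  have hεpos : 0 < ε := by rw [hε]; positivity
  have hεκ : ε * κ ≤ ε' := by
    rw [hε, div_mul_eq_mul_div, div_le_iff₀ (by positivity)]
    nlinarith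
  have huc : UniformContinuous (fderiv ℝ g) := hcf.uniformContinuous_of_continuous hcont
  obtain ⟨δ₁, hδ₁, hδ⟩ := Metric.uniformContinuous_iff.1 huc ε hεpos
  obtain ⟨δ, hδdef⟩ : ∃ δ, δ = min δ₁ 1 := ⟨_, rfl⟩
  have hδpos : 0 < δ := by rw [hδdef]; exact lt_min hδ₁ one_pos
  have hδ1 : δ ≤ 1 := by rw [hδdef]; exact min_le_right _ _
  have hδδ : δ ≤ δ₁ := by rw [hδdef]; exact min_le_left _ _
  obtain ⟨F, hF⟩ : ∃ F : EuclideanSpace ℝ (Fin n) → ℝ,
      F = fun x => g x + δ * (‖fderiv ℝ g x‖ + ε * K.indicator (fun _ => (1:ℝ)) x) := ⟨_, rfl⟩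
  have hFx : ∀ x, F x = g x + δ * (‖fderiv ℝ g x‖ + ε * K.indicator (fun _ => (1:ℝ)) x) := by
    intro x; rw [hF]
  have hind0 : ∀ x, 0 ≤ K.indicator (fun _ => (1:ℝ)) x := fun x =>
    Set.indicator_nonneg (fun _ _ => zero_le_one) x
  have hFg : ∀ x, g x ≤ F x := by
    intro x
    rw [hFx]
    have := hind0 x
    have h1 : 0 ≤ δ * (‖fderiv ℝ g x‖ + ε * K.indicator (fun _ => (1:ℝ)) x) := by positivity
    linarith
  have hF0 : ∀ x, 0 ≤ F x := fun x => (h0 x).trans (hFg x)
  have hFi : Integrable F := by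
    rw [hF]
    exact hgi.add ((hfi.add (hKi.const_mul ε)).const_mul δ)
  have hFK : ∀ x, x ∉ K → F x = 0 := by
    intro x hx
    have hx' : x ∉ closedBall (0 : EuclideanSpace ℝ (Fin n)) R := fun h' => hx (hRK h')
    rw [hFx, hgR x hx', hfR x hx', Set.indicator_of_notMem hx]
    simp
  have hFint : ∫ x, F x = (∫ x, g x) + δ * ((∫ x, ‖fderiv ℝ g x‖) + ε * κ) := by
    have e1 : ∫ x, F x =
        ∫ x, (g x + δ * (‖fderiv ℝ g x‖ + ε * K.indicator (fun _ => (1:ℝ)) x)) := by
      simp only [hFx]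
    have hb : Integrable (fun x => ‖fderiv ℝ g x‖ + ε * K.indicator (fun _ => (1:ℝ)) x) :=
      hfi.add (hKi.const_mul ε)
    rw [e1, integral_add hgi (hb.const_mul δ), integral_const_mul,
      integral_add hfi (hKi.const_mul ε), integral_const_mul, integral_indicator_const _ hKm]
    simp [Measure.real, hκ]
  have hmono : ∀ t : ℝ, 0 < t → ∀ x ∈ {x | t < g x}, ∀ y, ‖y‖ < δ → x + y ∈ {x | t < F x} := by
    intro t ht x hx y hy
    rw [Set.mem_ofPred_eq] at hx ⊢
    have hxR : x ∈ closedBall (0 : EuclideanSpace ℝ (Fin n)) R := by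
      by_contra hcon
      rw [hgR x hcon] at hx
      linarith
    have hxK : x + y ∈ K := by
      rw [hK, mem_closedBall, dist_zero_right]
      rw [mem_closedBall, dist_zero_right] at hxR
      calc ‖x + y‖ ≤ ‖x‖ + ‖y‖ := norm_add_le _ _
        _ ≤ R + 1 := by linarith
    have hmv := Convex.norm_image_sub_le_of_norm_fderiv_le (𝕜 := ℝ) (f := g)
      (s := ball (x + y) δ) (x := x + y) (y := x) (C := ‖fderiv ℝ g (x + y)‖ + ε)
      (fun z _ => (hg.differentiable one_ne_zero) z) (fun z hz => by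
        have h1 := hδ (a := z) (b := x + y) (lt_of_lt_of_le (mem_ball.1 hz) hδδ)
        rw [dist_eq_norm] at h1
        have h2 := norm_sub_norm_le (fderiv ℝ g z) (fderiv ℝ g (x + y))
        linarith) (convex_ball _ _) (mem_ball_self hδpos) (by
        rw [mem_ball, dist_eq_norm]
        simpa using hy)
    have h3 : ‖x - (x + y)‖ = ‖y‖ := by
      rw [sub_add_cancel_left, norm_neg]
    rw [h3] at hmv
    have h4 : g x - g (x + y) ≤ (‖fderiv ℝ g (x + y)‖ + ε) * ‖y‖ :=
      (Real.le_norm_self _).trans hmv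
    have h5 : (‖fderiv ℝ g (x + y)‖ + ε) * ‖y‖ ≤ δ * (‖fderiv ℝ g (x + y)‖ + ε) := by
      rw [mul_comm]
      exact mul_le_mul_of_nonneg_right hy.le (by positivity)
    rw [hFx, Set.indicator_of_mem hxK, mul_one]
    linarith
  obtain ⟨c₀, hc₀⟩ : ∃ c₀, c₀ = n * δ * w ^ (1 / n : ℝ) * a ^ (1 - 1 / n : ℝ) := ⟨_, rfl⟩
  have hc₀0 : 0 ≤ c₀ := by rw [hc₀]; positivity
  have hexp : 0 ≤ 1 - 1 / (n:ℝ) := by
    have : 1 / (n:ℝ) < 1 := by rw [div_lt_one hn0]; exact hn1
    linarith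
  have hmeasg : ∀ t : ℝ, MeasurableSet {x | t < g x} := fun t =>
    (isOpen_lt continuous_const hgc).measurableSet
  have hFm : Measurable F := by
    rw [hF]
    exact hgc.measurable.add ((hcont.norm.measurable.add
      ((measurable_const.indicator hKm).const_mul ε)).const_mul δ)
  have hmeasF : ∀ t : ℝ, MeasurableSet {x | t < F x} := fun t =>
    measurableSet_lt measurable_const hFm
  have hbdd : ∀ t : ℝ, 0 < t → Bornology.IsBounded {x | t < g x} := by
    intro t ht
    refine (Metric.isBounded_closedBall (x := (0 : EuclideanSpace ℝ (Fin n))) (r := R)).subset ?_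
    intro x hx
    by_contra hcon
    rw [Set.mem_ofPred_eq, hgR x hcon] at hx
    linarith
  have hvolF : ∀ t : ℝ, 0 < t → volume {x | t < F x} ≠ ⊤ := by
    intro t ht
    refine ne_top_of_le_ne_top hKf (measure_mono fun x hx => ?_)
    by_contra hcon
    rw [Set.mem_ofPred_eq, hFK x hcon] at hx
    linarith
  have hlow : ∀ t ∈ Ioi (0:ℝ), volume {x | t < g x} + (Iio s).indicator (fun _ => ENNReal.ofReal c₀) t
      ≤ volume {x | t < F x} := by
    intro t ht
    rw [mem_Ioi] at ht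
    by_cases hts : t < s
    · rw [Set.indicator_of_mem (mem_Iio.2 hts)]
      have hsub : {x | s < g x} ⊆ {x | t < g x} := fun x hx => lt_trans hts hx
      have hgf : volume {x | t < g x} ≠ ⊤ :=
        ne_top_of_le_ne_top (hvolF t ht) (measure_mono fun x hx => lt_of_lt_of_le hx (hFg x))
      have key := add_ball n hn h {x | t < g x} {x | t < F x}
        (isOpen_lt continuous_const hgc) (hbdd t ht) (hne.mono hsub) (hvolF t ht) δ hδpos (hmono t ht)
      rw [← hw] at key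
      have h1 : a ≤ (volume {x | t < g x}).toReal := by
        rw [ha]
        exact ENNReal.toReal_mono hgf (measure_mono hsub)
      have h2 : a ^ (1 - 1 / n : ℝ) ≤ (volume {x | t < g x}).toReal ^ (1 - 1 / n : ℝ) :=
        Real.rpow_le_rpow ha0 h1 hexp
      have h3 : c₀ ≤ n * δ * w ^ (1 / n : ℝ) * (volume {x | t < g x}).toReal ^ (1 - 1 / n : ℝ) := by
        rw [hc₀]
        exact mul_le_mul_of_nonneg_left h2 (by positivity)
      have h4 : (volume {x | t < g x}).toReal + c₀ ≤ (volume {x | t < F x}).toReal := by linarith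
      calc volume {x | t < g x} + ENNReal.ofReal c₀
          = ENNReal.ofReal ((volume {x | t < g x}).toReal + c₀) := by
            rw [ENNReal.ofReal_add (by positivity) hc₀0, ENNReal.ofReal_toReal hgf]
        _ ≤ ENNReal.ofReal ((volume {x | t < F x}).toReal) := ENNReal.ofReal_le_ofReal h4
        _ = volume {x | t < F x} := ENNReal.ofReal_toReal (hvolF t ht)
    · rw [Set.indicator_of_notMem (fun h' => hts (mem_Iio.1 h')), add_zero]
      exact measure_mono fun x hx => lt_of_lt_of_le hx (hFg x)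
  have hint : (∫⁻ t in Ioi (0:ℝ), volume {x | t < g x}) + ENNReal.ofReal c₀ * ENNReal.ofReal s
      ≤ ∫⁻ t in Ioi (0:ℝ), volume {x | t < F x} := by
    have h1 : (∫⁻ t in Ioi (0:ℝ), (volume {x | t < g x} +
        (Iio s).indicator (fun _ => ENNReal.ofReal c₀) t)) =
        (∫⁻ t in Ioi (0:ℝ), volume {x | t < g x}) + ENNReal.ofReal c₀ * ENNReal.ofReal s := by
      rw [lintegral_add_right _ (measurable_const.indicator measurableSet_Iio),
        lintegral_indicator_const measurableSet_Iio, Measure.restrict_apply measurableSet_Iio,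
        Set.Iio_inter_Ioi, Real.volume_Ioo, sub_zero]
    rw [← h1]
    exact setLIntegral_mono' measurableSet_Ioi hlow
  rw [← lintegral_eq_lintegral_meas_lt volume (Eventually.of_forall h0) hgc.measurable.aemeasurable,
    ← lintegral_eq_lintegral_meas_lt volume (Eventually.of_forall hF0) hFi.aemeasurable,
    ← ofReal_integral_eq_lintegral_ofReal hgi (Eventually.of_forall h0),
    ← ofReal_integral_eq_lintegral_ofReal hFi (Eventually.of_forall hF0),
    ← ENNReal.ofReal_mul hc₀0,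
    ← ENNReal.ofReal_add (integral_nonneg h0) (by positivity),
    ENNReal.ofReal_le_ofReal_iff (integral_nonneg hF0), hFint, hc₀] at hint
  have hfinal : δ * (n * w ^ (1 / n : ℝ) * s * a ^ (1 - 1 / n : ℝ)) ≤
      δ * ((∫ x, ‖fderiv ℝ g x‖) + ε * κ) := by
    have e : δ * (n * w ^ (1 / n : ℝ) * s * a ^ (1 - 1 / n : ℝ)) =
        n * δ * w ^ (1 / n : ℝ) * a ^ (1 - 1 / n : ℝ) * s := by ring
    rw [e]
    linarith
  have := le_of_mul_le_mul_left hfinal hδpos
  linarith

end Pool.Agent.RTC.ISO28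

namespace Pool.Agent.RTC

open MeasureTheory Set Filter Topology

theorem t_ISO : S_BMN → S_ISO := by
  intro h n hn f hf hc h0 s hs
  have := ISO28.iso_smooth n hn h f hf hc h0 s hs
  refine le_trans (le_of_eq ?_) this
  unfold gam om
  ring

end Pool.Agent.RTC
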