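import Pool.Agent.RTC.St

set_option autoImplicit false

namespace Pool.Agent.RTC

open MeasureTheory Set Filter Topology
open scoped ENNReal NNReal Convolution

namespace ISW

/-- bump functions of radius `1/(k+1)`. -/
noncomputable def bump (N : ℕ) (k : ℕ) : ContDiffBump (0 : E N) where
  rIn := 1 / (2 * ((k : ℝ) + 1))
  rOut := 1 / ((k : ℝ) + 1)
  rIn_pos := by positivity
  rIn_lt_rOut := by
    apply one_div_lt_one_div_of_lt
    · positivity
    · have : (0 : ℝ) ≤ k := Nat.cast_nonneg k
      linarith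

theorem bump_rOut (N : ℕ) : Tendsto (fun k => (bump N k).rOut) atTop (𝓝 0) :=
  tendsto_one_div_add_atTop_nhds_zero_nat

/-- pointwise convergence of the mollifications. -/
theorem conv (N : ℕ) (Ω : Set (E N)) (hΩ : IsOpen Ω) (W : E N → ℝ) (hW : ContDiff ℝ 1 W)
    (x : E N) (hx : x ∈ Ω) :
    Tendsto (fun k => ∫ y in Ω, (bump N k).normed volume (x - y) * W y) atTop (𝓝 (W x)) := by
  have hcont : ContinuousAt (Ω.indicator W) x := by
    have h1 : Ω.indicator W =ᶠ[𝓝 x] W := by
      filter_upwards [hΩ.mem_nhds hx] with y hy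
      exact Set.indicator_of_mem hy W
    exact (hW.continuous.continuousAt (x := x)).congr h1.symm
  have hval : Ω.indicator W x = W x := Set.indicator_of_mem hx W
  have h := ContDiffBump.convolution_tendsto_right (μ := (volume : Measure (E N)))
    (φ := fun k => bump N k) (g := fun _ => Ω.indicator W) (k := fun _ => x) (x₀ := x)
    (z₀ := W x) (l := atTop) (bump_rOut N)
    (Eventually.of_forall fun _ =>
      (hW.continuous.aestronglyMeasurable).indicator hΩ.measurableSet)
    (by
      have := hcont.tendsto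
      rw [hval] at this
      exact this.comp tendsto_snd)
    tendsto_const_nhds
  refine h.congr ?_
  intro k
  rw [convolution_eq_swap, ← integral_indicator hΩ.measurableSet]
  refine integral_congr_ae (Eventually.of_forall fun y => ?_)
  by_cases hy : y ∈ Ω
  · simp [Set.indicator_of_mem hy]
  · simp [Set.indicator_of_notMem hy]

end ISW

theorem t_ISW : S_ISO → S_MOA → S_ISW := by
  intro hISO hMOA N hN Ω σ hΩ hb hσ W hW hW0 s hs
  have h := fun k => hMOA N Ω σ hΩ hb hσ W hW hW0 ((ISW.bump N k).normed volume)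
    (by exact_mod_cast (ISW.bump N k).contDiff_normed (n := 1)) (ISW.bump N k).hasCompactSupport_normed
    (ISW.bump N k).nonneg_normed (ISW.bump N k).integral_normed
  set f : ℕ → E N → ℝ := fun k x => ∫ y in Ω, (ISW.bump N k).normed volume (x - y) * W y with hf
  set M : ℝ := (∫ x in Ω, ‖fderiv ℝ W x‖) + ∫ x, W x ∂σ with hM
  have hI : ∀ k, s * gam N * ((volume {x | s < f k x}).toReal) ^ (1 - 1 / (N : ℝ)) ≤ M := by
    intro k
    exact (hISO N hN (f k) (h k).1 (h k).2.1 (h k).2.2.1 s hs).trans (h k).2.2.2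
  have hfin : ∀ k, volume {x | s < f k x} < ⊤ := by
    intro k
    have hsub : {x | s < f k x} ⊆ tsupport (f k) := by
      intro x hx
      apply subset_tsupport
      rw [Function.mem_support]
      have : s < f k x := hx
      linarith
    exact lt_of_le_of_lt (measure_mono hsub) ((h k).2.1.isCompact.measure_lt_top)
  have hNN : (2 : ℝ) ≤ N := by exact_mod_cast hN
  have hp : 0 ≤ 1 - 1 / (N : ℝ) := by
    have : 1 / (N : ℝ) ≤ 1 := by
      rw [div_le_one (by linarith)]
      linarith
    linarith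
  have hg : 0 ≤ gam N := by
    unfold gam om
    positivity
  set A : ℕ → Set (E N) := fun n => {x | x ∈ Ω ∧ s < W x ∧ ∀ k, n ≤ k → s < f k x} with hA
  have hmono : Monotone A := by
    intro n m hnm x hx
    exact ⟨hx.1, hx.2.1, fun k hk => hx.2.2 k (hnm.trans hk)⟩
  have hun : (⋃ n, A n) = Ω ∩ {x | s < W x} := by
    ext x
    simp only [hA, mem_iUnion, mem_ofPred_eq, mem_inter_iff]
    constructor
    · rintro ⟨n, h1, h2, -⟩
      exact ⟨h1, h2⟩
    · rintro ⟨h1, h2⟩
      have hc := ISW.conv N Ω hΩ W hW x h1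
      have he : ∀ᶠ k in atTop, s < f k x := hc.eventually (lt_mem_nhds h2)
      obtain ⟨n, hn⟩ := eventually_atTop.1 he
      exact ⟨n, h1, h2, hn⟩
  have hlim := tendsto_measure_iUnion_atTop (μ := (volume : Measure (E N))) hmono
  rw [hun] at hlim
  have hΩfin : volume (Ω ∩ {x | s < W x}) ≠ ⊤ :=
    ne_top_of_le_ne_top hb.measure_lt_top.ne (measure_mono inter_subset_left)
  have hlim2 : Tendsto (fun n => (volume (A n)).toReal) atTop
      (𝓝 (volume (Ω ∩ {x | s < W x})).toReal) :=
    (ENNReal.tendsto_toReal hΩfin).comp hlim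
  have hlim3 : Tendsto (fun n => s * gam N * ((volume (A n)).toReal) ^ (1 - 1 / (N : ℝ))) atTop
      (𝓝 (s * gam N * ((volume (Ω ∩ {x | s < W x})).toReal) ^ (1 - 1 / (N : ℝ)))) :=
    (hlim2.rpow_const (Or.inr hp)).const_mul _
  refine le_of_tendsto' hlim3 fun n => ?_
  refine le_trans ?_ (hI n)
  have h1 : (volume (A n)).toReal ≤ (volume {x | s < f n x}).toReal := by
    apply ENNReal.toReal_mono (hfin n).ne
    apply measure_mono
    intro x hx
    exact hx.2.2 n le_rfl
  have h2 : (volume (A n)).toReal ^ (1 - 1 / (N : ℝ)) ≤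
      (volume {x | s < f n x}).toReal ^ (1 - 1 / (N : ℝ)) :=
    Real.rpow_le_rpow ENNReal.toReal_nonneg h1 hp
  exact mul_le_mul_of_nonneg_left h2 (by positivity)

end Pool.Agent.RTC
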