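import Pool.Agent.RTC.St
import Pool.Agent.RTC.KEY88

set_option autoImplicit false

/-!
# RTC: the key inequality (from `key88`)
-/

namespace Pool.Agent.RTC

theorem t_KEY : S_KEY := by
  intro N b r y hN hb hr hr1 hy2 hy hz
  have hN' : (2 : ℝ) ≤ N := by exact_mod_cast hN
  have hb0 : 0 < b := by linarith
  have h := key88 N b r y hr hr1 hb0 (by linarith) (by unfold a0 at hz; linarith)
  rw [max_eq_left (by linarith), max_eq_left (by linarith), div_le_iff₀ (pow_pos hr N)] at h
  exact h

end Pool.Agent.RTC
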