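import Pool.Agent.RTC.St

set_option autoImplicit false

/-!
# RTC: level sets of the solution in the ball, distribution form of the comparison
-/

namespace Pool.Agent.RTC

open MeasureTheory Set Filter Topology
open scoped ENNReal NNReal

theorem lev_ball (N : ℕ) (hN : 2 ≤ N) (r : ℝ) (hr : 0 ≤ r) :
    volume (Metric.ball (0 : E N) r) = ENNReal.ofReal (om N * r ^ N) := by
  haveI : Nonempty (Fin N) := ⟨⟨0, by omega⟩⟩
  haveI : Nontrivial (E N) := inferInstance
  have h := Measure.addHaar_ball (volume : Measure (E N)) (0 : E N) hr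
  rw [h]
  have h2 : Module.finrank ℝ (E N) = N := by simp
  rw [h2]
  have h3 : volume (Metric.ball (0 : E N) 1) = ENNReal.ofReal (om N) := by
    unfold om
    rw [ENNReal.ofReal_toReal]
    exact (measure_ball_lt_top).ne
  rw [h3, ← ENNReal.ofReal_mul (pow_nonneg hr N), mul_comm]

theorem lev (N : ℕ) (hN : 2 ≤ N) (β R t : ℝ) (hβ : 0 < β) (hR : 0 < R)
    (ht : R / (N * β) ≤ t) :
    ENNReal.ofReal (om N * (max 0 (R ^ 2 - 2 * N * (t - R / (N * β)))) ^ ((N : ℝ) / 2)) ≤
      volume (Metric.ball (0 : E N) R ∩ {x | t < vball N β R x}) := by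
  have hN0 : (0 : ℝ) < N := by exact_mod_cast (by omega : 0 < N)
  obtain ⟨q, hq⟩ : ∃ q : ℝ, q = R ^ 2 - 2 * N * (t - R / (N * β)) := ⟨_, rfl⟩
  rw [← hq]
  have hqR : q ≤ R ^ 2 := by
    rw [hq]
    have : 0 ≤ 2 * (N : ℝ) * (t - R / (N * β)) := mul_nonneg (by positivity) (by linarith)
    linarith
  rcases le_or_gt q 0 with h0 | h0
  · rw [max_eq_left h0, Real.zero_rpow (by positivity), mul_zero, ENNReal.ofReal_zero]
    exact zero_le
  · rw [max_eq_right h0.le]
    have hs : q ^ ((N : ℝ) / 2) = (Real.sqrt q) ^ N := by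
      rw [Real.sqrt_eq_rpow, ← Real.rpow_natCast, ← Real.rpow_mul h0.le]
      congr 1
      ring
    rw [hs, ← lev_ball N hN _ (Real.sqrt_nonneg q)]
    apply measure_mono
    intro x hx
    rw [mem_ball_zero_iff] at hx
    have hx2 : ‖x‖ ^ 2 < q := by
      have := (Real.lt_sqrt (norm_nonneg x)).1 hx
      exact this
    refine ⟨?_, ?_⟩
    · rw [mem_ball_zero_iff]
      have : ‖x‖ ^ 2 < R ^ 2 := lt_of_lt_of_le hx2 hqR
      exact lt_of_pow_lt_pow_left₀ 2 hR.le this
    · show t < vball N β R x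
      unfold vball
      have : t - R / (N * β) < (R ^ 2 - ‖x‖ ^ 2) / (2 * N) := by
        rw [lt_div_iff₀ (by positivity)]
        rw [hq] at hx2
        linarith
      linarith

theorem lev_small (N : ℕ) (hN : 2 ≤ N) (β R t : ℝ) (hβ : 0 < β) (hR : 0 < R)
    (ht : t ≤ R / (N * β)) :
    Metric.ball (0 : E N) R ∩ {x | t < vball N β R x} = Metric.ball (0 : E N) R := by
  have hN0 : (0 : ℝ) < N := by exact_mod_cast (by omega : 0 < N)
  apply inter_eq_left.2
  intro x hx
  rw [mem_ball_zero_iff] at hx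
  show t < vball N β R x
  unfold vball
  have : 0 < (R ^ 2 - ‖x‖ ^ 2) / (2 * N) := by
    apply div_pos _ (by positivity)
    have : ‖x‖ ^ 2 < R ^ 2 := pow_lt_pow_left₀ hx (norm_nonneg x) two_ne_zero
    linarith
  linarith

/-- Comparison of the distribution functions of `u` and `v`, at all levels. -/
theorem t_LEV (hS : S_SCA) (N : ℕ) (hN : 2 ≤ N) (Ω : Set (E N)) (σ : Measure (E N)) (β R : ℝ)
    (u : E N → ℝ) (g : E N → E N) (w : E N → ℝ) (hβ : 0 < β) (hR : 0 < R)
    (hβR : (N : ℝ) - 1 ≤ β * R) (hΩ : IsOpen Ω) (hb : Bornology.IsBounded Ω)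
    (hvol : volume Ω = volume (Metric.ball (0 : E N) R)) (hσ : IsBoundaryMeasure Ω σ)
    (hu : IsRobin Ω σ β u g w) (t : ℝ) :
    volume (Ω ∩ {x | t < u x}) ≤
      volume (Metric.ball (0 : E N) R ∩ {x | t < vball N β R x}) := by
  rcases le_or_gt (R / (N * β)) t with h | h
  · have h1 := hS N hN Ω σ β R u g w hβ hR hβR hΩ hb hvol hσ hu t h
    refine le_trans ?_ (lev N hN β R t hβ hR h)
    refine ENNReal.le_ofReal_iff_toReal_le ?_ ?_ |>.2 h1
    · exact ((measure_mono inter_subset_left).trans_lt (by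
        rw [hvol]; exact measure_ball_lt_top)).ne
    · apply mul_nonneg ENNReal.toReal_nonneg
      exact Real.rpow_nonneg (le_max_left _ _) _
  · rw [lev_small N hN β R t hβ hR h.le, ← hvol]
    exact measure_mono inter_subset_left

end Pool.Agent.RTC
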