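import Pool.Agent.RTC.St

set_option autoImplicit false

/-!
# MP_84cf48_an, module LMA (helper17): the equation tested with `G(u)`
-/

namespace Pool.Agent.RTC

open MeasureTheory Set Filter Topology
open scoped ENNReal NNReal

namespace LMA

/-- A continuous function is square integrable on a bounded set. -/
lemma memLp_of_cont {N : ℕ} {F : Type*} [NormedAddCommGroup F] [MeasurableSpace F]
    [BorelSpace F] [SecondCountableTopology F] (Ω : Set (E N)) (hb : Bornology.IsBounded Ω)
    (h : E N → F) (hc : Continuous h) (hΩ : MeasurableSet Ω) :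
    MemLp h 2 (volume.restrict Ω) := by
  have hfin : IsFiniteMeasure (volume.restrict Ω) :=
    ⟨by rw [Measure.restrict_apply_univ]; exact hb.measure_lt_top⟩
  have hK : IsCompact (closure Ω) := hb.isCompact_closure
  obtain ⟨M, hM⟩ := (hK.image hc.norm).isBounded.subset_closedBall 0
  refine MemLp.of_bound hc.aestronglyMeasurable M ?_
  refine (ae_restrict_iff' hΩ).2 (Eventually.of_forall fun x hx => ?_)
  have h1 : ‖h x‖ ∈ Metric.closedBall (0:ℝ) M := hM ⟨x, subset_closure hx, rfl⟩
  rw [Metric.mem_closedBall, dist_zero_right, norm_norm] at h1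
  exact h1

lemma fderiv_comp_apply {N : ℕ} (G : ℝ → ℝ) (hG : ContDiff ℝ 1 G)
    (U : E N → ℝ) (hU : ContDiff ℝ 1 U) (x v : E N) :
    fderiv ℝ (fun y => G (U y)) x v = deriv G (U x) * inner ℝ (gradient U x) v := by
  have h1 : HasDerivAt G (deriv G (U x)) (U x) :=
    ((hG.differentiable one_ne_zero) (U x)).hasDerivAt
  have h2 : HasFDerivAt U (fderiv ℝ U x) x := ((hU.differentiable one_ne_zero) x).hasFDerivAt
  have h3 : HasFDerivAt (fun y => G (U y)) (deriv G (U x) • fderiv ℝ U x) x :=
    h1.comp_hasFDerivAt x h2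
  rw [h3.fderiv]
  unfold gradient
  rw [InnerProductSpace.toDual_symm_apply]
  simp

end LMA

open LMA in
theorem t_LMA : S_SUB → S_LMA := by
  intro hSUB N Ω σ β u g w hΩ hb hσ hR G C hG hGC hG'C
  obtain ⟨U, hU, hUu, hUw, hUg⟩ := hSUB N Ω σ β u g w hΩ hb hσ hR
  have hΩm : MeasurableSet Ω := hΩ.measurableSet
  have hfin : IsFiniteMeasure (volume.restrict Ω) :=
    ⟨by rw [Measure.restrict_apply_univ]; exact hb.measure_lt_top⟩
  have hσfin : IsFiniteMeasure σ := ⟨hσ.finite⟩
  have hC : 0 ≤ C := (abs_nonneg _).trans (hGC 0)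
  have hGc : Continuous G := hG.continuous
  have hG'c : Continuous (deriv G) := hG.continuous_deriv le_rfl
  have hgm : AEStronglyMeasurable g (volume.restrict Ω) := hR.g_mem.aestronglyMeasurable
  have hwm : AEStronglyMeasurable w σ := hR.w_mem.aestronglyMeasurable
  have hwi : Integrable w σ := hR.w_mem.integrable one_le_two
  have hg2 : Integrable (fun x => ‖g x‖ ^ 2) (volume.restrict Ω) :=
    (memLp_two_iff_integrable_sq_norm hgm).1 hR.g_mem
  have hgradc : ∀ k, Continuous (gradient (U k)) := by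
    intro k
    have h1 : Continuous (fderiv ℝ (U k)) := (hU k).continuous_fderiv one_ne_zero
    unfold gradient
    exact (LinearIsometryEquiv.continuous _).comp h1
  have hgradL : ∀ k, MemLp (gradient (U k)) 2 (volume.restrict Ω) := fun k =>
    memLp_of_cont Ω hb _ (hgradc k) hΩm
  have hdiffL : ∀ k, MemLp (fun x => gradient (U k) x - g x) 2 (volume.restrict Ω) := fun k =>
    (hgradL k).sub hR.g_mem
  have i2 : ∀ k, Integrable (fun x => ‖gradient (U k) x - g x‖ ^ 2) (volume.restrict Ω) :=
    fun k => (memLp_two_iff_integrable_sq_norm (hdiffL k).aestronglyMeasurable).1 (hdiffL k)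
  -- the three limits
  have hF : Tendsto (fun k => ∫ x in Ω, G (U k x)) atTop (𝓝 (∫ x in Ω, G (u x))) := by
    refine tendsto_integral_of_dominated_convergence (fun _ => C) ?_ (integrable_const _) ?_ ?_
    · intro k
      exact (hGc.comp (hU k).continuous).aestronglyMeasurable
    · intro k
      exact Eventually.of_forall fun x => hGC _
    · filter_upwards [hUu] with x hx
      exact (hGc.tendsto _).comp hx
  have hB : Tendsto (fun k => ∫ x, w x * G (U k x) ∂σ) atTop (𝓝 (∫ x, w x * G (w x) ∂σ)) := by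
    refine tendsto_integral_of_dominated_convergence (fun x => ‖w x‖ * C) ?_
      (hwi.norm.mul_const C) ?_ ?_
    · intro k
      exact hwm.mul (hGc.comp (hU k).continuous).aestronglyMeasurable
    · intro k
      refine Eventually.of_forall fun x => ?_
      rw [norm_mul]
      exact mul_le_mul_of_nonneg_left (hGC _) (norm_nonneg _)
    · filter_upwards [hUw] with x hx
      exact ((hGc.tendsto _).comp hx).const_mul _
  have hA : Tendsto (fun k => ∫ x in Ω, deriv G (U k x) * ‖g x‖ ^ 2) atTop
      (𝓝 (∫ x in Ω, deriv G (u x) * ‖g x‖ ^ 2)) := by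
    refine tendsto_integral_of_dominated_convergence (fun x => C * ‖g x‖ ^ 2) ?_
      (hg2.const_mul C) ?_ ?_
    · intro k
      exact (hG'c.comp (hU k).continuous).aestronglyMeasurable.mul (hgm.norm.pow 2)
    · intro k
      refine Eventually.of_forall fun x => ?_
      rw [norm_mul, Real.norm_eq_abs, Real.norm_eq_abs, abs_of_nonneg (sq_nonneg ‖g x‖)]
      exact mul_le_mul_of_nonneg_right (hG'C _) (sq_nonneg _)
    · filter_upwards [hUu] with x hx
      exact ((hG'c.tendsto _).comp hx).mul_const _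
  -- the error
  have hle : ∀ δ : ℝ, 0 < δ → ∀ k,
      |(∫ x in Ω, deriv G (U k x) * ‖g x‖ ^ 2) + β * (∫ x, w x * G (U k x) ∂σ) -
        ∫ x in Ω, G (U k x)| ≤
      C * (δ * (∫ x in Ω, ‖g x‖ ^ 2) + δ⁻¹ * ∫ x in Ω, ‖gradient (U k) x - g x‖ ^ 2) := by
    intro δ hδ k
    have hw := hR.weak (fun x => G (U k x)) (hG.comp (hU k))
    have i1 : Integrable (fun x => deriv G (U k x) * ‖g x‖ ^ 2) (volume.restrict Ω) := by
      refine (hg2.const_mul C).mono'
        ((hG'c.comp (hU k).continuous).aestronglyMeasurable.mul (hgm.norm.pow 2))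
        (Eventually.of_forall fun x => ?_)
      rw [norm_mul, Real.norm_eq_abs, Real.norm_eq_abs, abs_of_nonneg (sq_nonneg ‖g x‖)]
      exact mul_le_mul_of_nonneg_right (hG'C _) (sq_nonneg _)
    have key : ∀ x, |deriv G (U k x) * ‖g x‖ ^ 2 - fderiv ℝ (fun y => G (U k y)) x (g x)| ≤
        C * (δ * ‖g x‖ ^ 2 + δ⁻¹ * ‖gradient (U k) x - g x‖ ^ 2) := by
      intro x
      rw [fderiv_comp_apply G hG (U k) (hU k)]
      have e1 : deriv G (U k x) * ‖g x‖ ^ 2 - deriv G (U k x) * inner ℝ (gradient (U k) x) (g x) =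
          - (deriv G (U k x) * inner ℝ (gradient (U k) x - g x) (g x)) := by
        rw [inner_sub_left, real_inner_self_eq_norm_sq]
        ring
      rw [e1, abs_neg, abs_mul]
      have h2 : |inner ℝ (gradient (U k) x - g x) (g x)| ≤
          δ * ‖g x‖ ^ 2 + δ⁻¹ * ‖gradient (U k) x - g x‖ ^ 2 := by
        refine (abs_real_inner_le_norm _ _).trans ?_
        set r := ‖gradient (U k) x - g x‖ with hr
        set q := ‖g x‖ with hq
        have hr0 : 0 ≤ r := norm_nonneg _
        have hq0 : 0 ≤ q := norm_nonneg _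
        rw [← sub_nonneg]
        have e : δ * q ^ 2 + δ⁻¹ * r ^ 2 - r * q = δ⁻¹ * ((δ * q) ^ 2 + r ^ 2 - r * (δ * q)) := by
          field_simp
        rw [e]
        refine mul_nonneg (inv_nonneg.2 hδ.le) ?_
        nlinarith [sq_nonneg (δ * q - r), mul_nonneg hr0 (mul_nonneg hδ.le hq0)]
      exact mul_le_mul (hG'C _) h2 (abs_nonneg _) hC
    have i5 : Integrable (fun x => C * (δ * ‖g x‖ ^ 2 + δ⁻¹ * ‖gradient (U k) x - g x‖ ^ 2))
        (volume.restrict Ω) := ((hg2.const_mul δ).add ((i2 k).const_mul δ⁻¹)).const_mul C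
    have m3 : AEStronglyMeasurable (fun x => fderiv ℝ (fun y => G (U k y)) x (g x))
        (volume.restrict Ω) := by
      have e : (fun x => fderiv ℝ (fun y => G (U k y)) x (g x)) =
          fun x => deriv G (U k x) * inner ℝ (gradient (U k) x) (g x) := by
        funext x
        exact fderiv_comp_apply G hG (U k) (hU k) x (g x)
      rw [e]
      exact (hG'c.comp (hU k).continuous).aestronglyMeasurable.mul
        ((hgradc k).aestronglyMeasurable.inner hgm)
    have i6 : Integrable (fun x => deriv G (U k x) * ‖g x‖ ^ 2 -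
        fderiv ℝ (fun y => G (U k y)) x (g x)) (volume.restrict Ω) :=
      i5.mono' (i1.aestronglyMeasurable.sub m3) (Eventually.of_forall key)
    have i3 : Integrable (fun x => fderiv ℝ (fun y => G (U k y)) x (g x)) (volume.restrict Ω) := by
      have h := i1.sub i6
      refine h.congr (Eventually.of_forall fun x => ?_)
      simp
    have e2 : (∫ x in Ω, deriv G (U k x) * ‖g x‖ ^ 2) + β * (∫ x, w x * G (U k x) ∂σ) -
        (∫ x in Ω, G (U k x)) = ∫ x in Ω, (deriv G (U k x) * ‖g x‖ ^ 2 -
        fderiv ℝ (fun y => G (U k y)) x (g x)) := by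
      rw [integral_sub i1 i3, ← hw]
      ring
    rw [e2]
    refine (abs_integral_le_integral_abs).trans ?_
    refine (integral_mono i6.abs i5 key).trans (le_of_eq ?_)
    rw [integral_const_mul, integral_add (hg2.const_mul δ) ((i2 k).const_mul δ⁻¹),
      integral_const_mul, integral_const_mul]
  -- the limit
  have hlim : ∀ δ : ℝ, 0 < δ →
      |(∫ x in Ω, deriv G (u x) * ‖g x‖ ^ 2) + β * (∫ x, w x * G (w x) ∂σ) -
        ∫ x in Ω, G (u x)| ≤ C * (δ * (∫ x in Ω, ‖g x‖ ^ 2) + δ⁻¹ * 0) := by
    intro δ hδ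
    refine le_of_tendsto_of_tendsto' (((hA.add (hB.const_mul β)).sub hF).abs)
      (((hUg.const_mul δ⁻¹).const_add _).const_mul C) fun k => hle δ hδ k
  have hz : |(∫ x in Ω, deriv G (u x) * ‖g x‖ ^ 2) + β * (∫ x, w x * G (w x) ∂σ) -
        ∫ x in Ω, G (u x)| ≤ 0 := by
    refine le_of_forall_pos_le_add fun ε hε => ?_
    set V := ∫ x in Ω, ‖g x‖ ^ 2 with hV
    have hV0 : 0 ≤ V := integral_nonneg fun x => sq_nonneg _
    have hD : 0 < C * V + 1 := by positivity
    refine (hlim (ε / (C * V + 1)) (div_pos hε hD)).trans ?_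
    rw [mul_zero, add_zero, zero_add]
    have e : C * (ε / (C * V + 1) * V) = ε * (C * V / (C * V + 1)) := by ring
    rw [e]
    refine mul_le_of_le_one_right hε.le ?_
    rw [div_le_one hD]
    linarith
  have h0 := abs_eq_zero.1 (le_antisymm hz (abs_nonneg _))
  linarith

end Pool.Agent.RTC
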