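import Pool.Agent.RTC.St

set_option autoImplicit false

/-!
# MP_84cf48_an, module LMB (helper87): the isoperimetric inequality for `G(u)`
-/

namespace Pool.Agent.RTC

open MeasureTheory Set Filter Topology
open scoped ENNReal NNReal

namespace LMB

/-- The indicator of `s < x`. -/
noncomputable def ps (s x : ℝ) : ℝ := if s < x then 1 else 0

lemma ps_nonneg (s x : ℝ) : 0 ≤ ps s x := by
  unfold ps
  split_ifs <;> norm_num

lemma ps_le_one (s x : ℝ) : ps s x ≤ 1 := by
  unfold ps
  split_ifs <;> norm_num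

lemma ps_meas (s : ℝ) : Measurable (ps s) := by
  unfold ps
  exact Measurable.ite measurableSet_Ioi measurable_const measurable_const

lemma vol_eq {N : ℕ} (Ω : Set (E N)) (hΩ : MeasurableSet Ω) (f : E N → ℝ)
    (hf : AEMeasurable f (volume.restrict Ω)) (s : ℝ) :
    (volume (Ω ∩ {x | s < f x})).toReal = ∫ x in Ω, ps s (f x) := by
  have hE : NullMeasurableSet {x | s < f x} (volume.restrict Ω) :=
    nullMeasurableSet_lt aemeasurable_const hf
  have h1 : volume (Ω ∩ {x | s < f x}) = (volume.restrict Ω) {x | s < f x} := by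
    rw [Measure.restrict_apply' hΩ, inter_comm]
  have h2 : (fun x => ps s (f x)) = indicator {x | s < f x} (fun _ => (1:ℝ)) := by
    funext x
    unfold ps
    by_cases hx : s < f x
    · rw [if_pos hx, indicator_of_mem (show x ∈ {x | s < f x} from hx)]
    · rw [if_neg hx, indicator_of_notMem (show x ∉ {x | s < f x} from hx)]
  rw [h2, integral_indicator₀ hE, h1, setIntegral_const]
  simp [Measure.real]

lemma norm_grad {N : ℕ} (U : E N → ℝ) (x : E N) : ‖gradient U x‖ = ‖fderiv ℝ U x‖ := by
  unfold gradient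
  exact LinearIsometryEquiv.norm_map _ _

lemma norm_fderiv_comp {N : ℕ} (G : ℝ → ℝ) (hG : ContDiff ℝ 1 G) (h0 : ∀ x, 0 ≤ deriv G x)
    (U : E N → ℝ) (hU : ContDiff ℝ 1 U) (x : E N) :
    ‖fderiv ℝ (fun y => G (U y)) x‖ = deriv G (U x) * ‖fderiv ℝ U x‖ := by
  have h1 : HasDerivAt G (deriv G (U x)) (U x) :=
    ((hG.differentiable one_ne_zero) (U x)).hasDerivAt
  have h2 : HasFDerivAt U (fderiv ℝ U x) x := ((hU.differentiable one_ne_zero) x).hasFDerivAt
  have h3 : HasFDerivAt (fun y => G (U y)) (deriv G (U x) • fderiv ℝ U x) x :=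
    h1.comp_hasFDerivAt x h2
  rw [h3.fderiv, norm_smul, Real.norm_eq_abs, abs_of_nonneg (h0 _)]

/-- A continuous function is square integrable on a bounded set. -/
lemma memLp_of_cont {N : ℕ} {F : Type*} [NormedAddCommGroup F] [MeasurableSpace F]
    [BorelSpace F] [SecondCountableTopology F] (Ω : Set (E N)) (hb : Bornology.IsBounded Ω)
    (h : E N → F) (hc : Continuous h) (hΩ : MeasurableSet Ω) :
    MemLp h 2 (volume.restrict Ω) := by
  have hfin : IsFiniteMeasure (volume.restrict Ω) :=
    ⟨by rw [Measure.restrict_apply_univ]; exact hb.measure_lt_top⟩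
  have hK : IsCompact (closure Ω) := hb.isCompact_closure
  obtain ⟨M, hM⟩ := (hK.image hc.norm).isBounded.subset_closedBall 0
  refine MemLp.of_bound hc.aestronglyMeasurable M ?_
  refine (ae_restrict_iff' hΩ).2 (Eventually.of_forall fun x hx => ?_)
  have h1 : ‖h x‖ ∈ Metric.closedBall (0:ℝ) M := hM ⟨x, subset_closure hx, rfl⟩
  rw [Metric.mem_closedBall, dist_zero_right, norm_norm] at h1
  exact h1

end LMB

open LMB in
theorem t_LMB : S_ISW → S_SUB → S_LMB := by
  intro hISW hSUB N hN Ω σ β u g w hΩ hb hσ hR G C hG hG0 hGC hG'0 hG'C s hs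
  obtain ⟨U, hU, hUu, hUw, hUg⟩ := hSUB N Ω σ β u g w hΩ hb hσ hR
  have hΩm : MeasurableSet Ω := hΩ.measurableSet
  have hfin : IsFiniteMeasure (volume.restrict Ω) :=
    ⟨by rw [Measure.restrict_apply_univ]; exact hb.measure_lt_top⟩
  have hσfin : IsFiniteMeasure σ := ⟨hσ.finite⟩
  have hC : 0 ≤ C := (hG0 0).trans (hGC 0)
  have hGc : Continuous G := hG.continuous
  have hG'c : Continuous (deriv G) := hG.continuous_deriv le_rfl
  have hum : AEStronglyMeasurable u (volume.restrict Ω) := hR.u_mem.aestronglyMeasurable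
  have hgm : AEStronglyMeasurable g (volume.restrict Ω) := hR.g_mem.aestronglyMeasurable
  have hwm : AEStronglyMeasurable w σ := hR.w_mem.aestronglyMeasurable
  have hgi : Integrable g (volume.restrict Ω) := hR.g_mem.integrable one_le_two
  have hgradc : ∀ k, Continuous (gradient (U k)) := by
    intro k
    have h1 : Continuous (fderiv ℝ (U k)) := (hU k).continuous_fderiv one_ne_zero
    unfold gradient
    exact (LinearIsometryEquiv.continuous _).comp h1
  have hgradL : ∀ k, MemLp (gradient (U k)) 2 (volume.restrict Ω) := fun k =>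
    memLp_of_cont Ω hb _ (hgradc k) hΩm
  have hdiffL : ∀ k, MemLp (fun x => gradient (U k) x - g x) 2 (volume.restrict Ω) := fun k =>
    (hgradL k).sub hR.g_mem
  -- the averages of the levels
  have hPlim : Tendsto (fun k => ∫ x in Ω, ps s (G (U k x)) * ps s (G (u x))) atTop
      (𝓝 (∫ x in Ω, ps s (G (u x)))) := by
    refine tendsto_integral_of_dominated_convergence (fun _ => (1:ℝ)) ?_ (integrable_const _) ?_ ?_
    · intro k
      refine AEStronglyMeasurable.mul ?_ ?_
      · exact ((ps_meas s).comp (hGc.comp (hU k).continuous).measurable).aestronglyMeasurable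
      · exact ((ps_meas s).comp_aemeasurable
          (hGc.measurable.comp_aemeasurable hum.aemeasurable)).aestronglyMeasurable
    · intro k
      refine Eventually.of_forall fun x => ?_
      rw [Real.norm_eq_abs, abs_of_nonneg (mul_nonneg (ps_nonneg _ _) (ps_nonneg _ _))]
      exact mul_le_one₀ (ps_le_one _ _) (ps_nonneg _ _) (ps_le_one _ _)
    · filter_upwards [hUu] with x hx
      by_cases hsx : s < G (u x)
      · have h1 : Tendsto (fun k => G (U k x)) atTop (𝓝 (G (u x))) :=
          (hGc.tendsto _).comp hx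
        have h2 : ∀ᶠ k in atTop, s < G (U k x) := h1.eventually (lt_mem_nhds hsx)
        refine tendsto_const_nhds.congr' ?_
        filter_upwards [h2] with k hk
        have e1 : ps s (G (U k x)) = 1 := by unfold ps; rw [if_pos hk]
        rw [e1, one_mul]
      · have e1 : ps s (G (u x)) = 0 := by unfold ps; rw [if_neg hsx]
        simp only [e1, mul_zero]
        exact tendsto_const_nhds
  -- the level sets of the approximations
  have hPle : ∀ k, ∫ x in Ω, ps s (G (U k x)) * ps s (G (u x)) ≤
      (volume (Ω ∩ {x | s < G (U k x)})).toReal := by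
    intro k
    have hm1 : Measurable (fun x => ps s (G (U k x))) :=
      (ps_meas s).comp (hGc.comp (hU k).continuous).measurable
    have hm2 : AEMeasurable (fun x => ps s (G (u x))) (volume.restrict Ω) :=
      (ps_meas s).comp_aemeasurable (hGc.measurable.comp_aemeasurable hum.aemeasurable)
    rw [vol_eq Ω hΩm (fun x => G (U k x)) (hGc.comp (hU k).continuous).measurable.aemeasurable s]
    refine integral_mono ?_ ?_ ?_
    · refine Integrable.of_bound (C := 1) (hm1.aemeasurable.mul hm2).aestronglyMeasurable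
        (Eventually.of_forall fun x => ?_)
      rw [Real.norm_eq_abs, abs_of_nonneg (mul_nonneg (ps_nonneg _ _) (ps_nonneg _ _))]
      exact mul_le_one₀ (ps_le_one _ _) (ps_nonneg _ _) (ps_le_one _ _)
    · refine Integrable.of_bound (C := 1) hm1.aestronglyMeasurable
        (Eventually.of_forall fun x => ?_)
      rw [Real.norm_eq_abs, abs_of_nonneg (ps_nonneg _ _)]
      exact ps_le_one _ _
    · intro x
      exact mul_le_of_le_one_right (ps_nonneg _ _) (ps_le_one _ _)
  have hP0 : ∀ k, 0 ≤ ∫ x in Ω, ps s (G (U k x)) * ps s (G (u x)) := fun k =>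
    integral_nonneg fun x => mul_nonneg (ps_nonneg _ _) (ps_nonneg _ _)
  -- the exponent
  have hexp : 0 ≤ 1 - 1 / (N : ℝ) := by
    have h2 : (2:ℝ) ≤ N := by exact_mod_cast hN
    have h3 : 1 / (N : ℝ) ≤ 1 := by
      rw [div_le_one (by linarith)]
      linarith
    linarith
  have hgam : 0 ≤ s * gam N := by
    unfold gam om
    positivity
  -- the boundary term
  have hBlim : Tendsto (fun k => ∫ x, G (U k x) ∂σ) atTop (𝓝 (∫ x, G (w x) ∂σ)) := by
    refine tendsto_integral_of_dominated_convergence (fun _ => C) ?_ (integrable_const _) ?_ ?_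
    · intro k
      exact (hGc.comp (hU k).continuous).aestronglyMeasurable
    · intro k
      refine Eventually.of_forall fun x => ?_
      rw [Real.norm_eq_abs, abs_of_nonneg (hG0 _)]
      exact hGC _
    · filter_upwards [hUw] with x hx
      exact (hGc.tendsto _).comp hx
  -- the main term
  have hAlim : Tendsto (fun k => ∫ x in Ω, deriv G (U k x) * ‖g x‖) atTop
      (𝓝 (∫ x in Ω, deriv G (u x) * ‖g x‖)) := by
    refine tendsto_integral_of_dominated_convergence (fun x => C * ‖g x‖) ?_
      (hgi.norm.const_mul C) ?_ ?_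
    · intro k
      exact (hG'c.comp (hU k).continuous).aestronglyMeasurable.mul hgm.norm
    · intro k
      refine Eventually.of_forall fun x => ?_
      rw [Real.norm_eq_abs, abs_of_nonneg (mul_nonneg (hG'0 _) (norm_nonneg _))]
      exact mul_le_mul_of_nonneg_right (hG'C _) (norm_nonneg _)
    · filter_upwards [hUu] with x hx
      exact ((hG'c.tendsto _).comp hx).mul_const _
  have hAle : ∀ δ : ℝ, 0 < δ → ∀ k, ∫ x in Ω, ‖fderiv ℝ (fun y => G (U k y)) x‖ ≤
      (∫ x in Ω, deriv G (U k x) * ‖g x‖) + C * (δ * (volume Ω).toReal +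
        δ⁻¹ * ∫ x in Ω, ‖gradient (U k) x - g x‖ ^ 2) := by
    intro δ hδ k
    have i1 : Integrable (fun x => deriv G (U k x) * ‖g x‖) (volume.restrict Ω) := by
      refine (hgi.norm.const_mul C).mono
        ((hG'c.comp (hU k).continuous).aestronglyMeasurable.mul hgm.norm)
        (Eventually.of_forall fun x => ?_)
      rw [Real.norm_eq_abs, Real.norm_eq_abs, abs_of_nonneg (mul_nonneg (hG'0 _) (norm_nonneg _)),
        abs_of_nonneg (mul_nonneg hC (norm_nonneg _))]
      exact mul_le_mul_of_nonneg_right (hG'C _) (norm_nonneg _)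
    have i2 : Integrable (fun x => ‖gradient (U k) x - g x‖ ^ 2) (volume.restrict Ω) :=
      (memLp_two_iff_integrable_sq_norm (hdiffL k).aestronglyMeasurable).1 (hdiffL k)
    have i3 : Integrable (fun x => ‖fderiv ℝ (fun y => G (U k y)) x‖) (volume.restrict Ω) := by
      have hc : Continuous (fun x => fderiv ℝ (fun y => G (U k y)) x) :=
        (hG.comp (hU k)).continuous_fderiv one_ne_zero
      exact ((memLp_of_cont Ω hb (fun x => ‖fderiv ℝ (fun y => G (U k y)) x‖) hc.norm
        hΩm).integrable one_le_two)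
    have i4 : Integrable (fun x => deriv G (U k x) * ‖g x‖ + C * (δ +
        δ⁻¹ * ‖gradient (U k) x - g x‖ ^ 2)) (volume.restrict Ω) :=
      i1.add (((integrable_const δ).add (i2.const_mul δ⁻¹)).const_mul C)
    refine (integral_mono i3 i4 ?_).trans (le_of_eq ?_)
    · intro x
      show ‖fderiv ℝ (fun y => G (U k y)) x‖ ≤ deriv G (U k x) * ‖g x‖ + C * (δ +
        δ⁻¹ * ‖gradient (U k) x - g x‖ ^ 2)
      rw [norm_fderiv_comp G hG hG'0 (U k) (hU k) x, ← norm_grad]
      have h1 : ‖gradient (U k) x‖ ≤ ‖g x‖ + ‖gradient (U k) x - g x‖ := by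
        have := norm_add_le (g x) (gradient (U k) x - g x)
        rwa [add_sub_cancel] at this
      have h2 : ‖gradient (U k) x - g x‖ ≤ δ + δ⁻¹ * ‖gradient (U k) x - g x‖ ^ 2 := by
        set r := ‖gradient (U k) x - g x‖ with hr
        have hr0 : 0 ≤ r := norm_nonneg _
        rw [← sub_nonneg]
        have e : δ + δ⁻¹ * r ^ 2 - r = δ⁻¹ * (δ ^ 2 + r ^ 2 - δ * r) := by
          field_simp
        rw [e]
        refine mul_nonneg (inv_nonneg.2 hδ.le) ?_
        nlinarith [sq_nonneg (δ - r), mul_nonneg hδ.le hr0]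
      calc deriv G (U k x) * ‖gradient (U k) x‖
          ≤ deriv G (U k x) * (‖g x‖ + ‖gradient (U k) x - g x‖) :=
            mul_le_mul_of_nonneg_left h1 (hG'0 _)
        _ = deriv G (U k x) * ‖g x‖ + deriv G (U k x) * ‖gradient (U k) x - g x‖ := by ring
        _ ≤ deriv G (U k x) * ‖g x‖ + C * (δ + δ⁻¹ * ‖gradient (U k) x - g x‖ ^ 2) := by
            gcongr
            exact hG'C _
    · have i5 : Integrable (fun x => C * (δ + δ⁻¹ * ‖gradient (U k) x - g x‖ ^ 2))
          (volume.restrict Ω) := ((integrable_const δ).add (i2.const_mul δ⁻¹)).const_mul C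
      have j1 : ∫ x in Ω, (δ + δ⁻¹ * ‖gradient (U k) x - g x‖ ^ 2) =
          δ * (volume Ω).toReal + δ⁻¹ * ∫ x in Ω, ‖gradient (U k) x - g x‖ ^ 2 := by
        rw [integral_add (integrable_const δ) (i2.const_mul δ⁻¹), integral_const_mul,
          setIntegral_const]
        simp only [Measure.real, smul_eq_mul]
        ring
      rw [integral_add i1 i5, integral_const_mul, j1]
  -- the limit
  have hlimδ : ∀ δ : ℝ, 0 < δ →
      s * gam N * (∫ x in Ω, ps s (G (u x))) ^ (1 - 1 / (N : ℝ)) ≤
      (∫ x in Ω, deriv G (u x) * ‖g x‖) + C * (δ * (volume Ω).toReal + δ⁻¹ * 0) +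
        ∫ x, G (w x) ∂σ := by
    intro δ hδ
    have hl : Tendsto (fun k => s * gam N *
        (∫ x in Ω, ps s (G (U k x)) * ps s (G (u x))) ^ (1 - 1 / (N : ℝ))) atTop
        (𝓝 (s * gam N * (∫ x in Ω, ps s (G (u x))) ^ (1 - 1 / (N : ℝ)))) :=
      (hPlim.rpow_const (Or.inr hexp)).const_mul _
    have hr : Tendsto (fun k => (∫ x in Ω, deriv G (U k x) * ‖g x‖) +
        C * (δ * (volume Ω).toReal + δ⁻¹ * ∫ x in Ω, ‖gradient (U k) x - g x‖ ^ 2) +
        ∫ x, G (U k x) ∂σ) atTop
        (𝓝 ((∫ x in Ω, deriv G (u x) * ‖g x‖) + C * (δ * (volume Ω).toReal + δ⁻¹ * 0) +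
        ∫ x, G (w x) ∂σ)) :=
      (hAlim.add (((hUg.const_mul δ⁻¹).const_add _).const_mul C)).add hBlim
    refine le_of_tendsto_of_tendsto' hl hr fun k => ?_
    have h1 := hISW N hN Ω σ hΩ hb hσ (fun x => G (U k x)) (hG.comp (hU k)) (fun x => hG0 _) s hs
    have h2 : s * gam N * (∫ x in Ω, ps s (G (U k x)) * ps s (G (u x))) ^ (1 - 1 / (N : ℝ)) ≤
        s * gam N * ((volume (Ω ∩ {x | s < G (U k x)})).toReal) ^ (1 - 1 / (N : ℝ)) :=
      mul_le_mul_of_nonneg_left (Real.rpow_le_rpow (hP0 k) (hPle k) hexp) hgam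
    refine h2.trans (h1.trans ?_)
    exact add_le_add_left (hAle δ hδ k) _
  rw [vol_eq Ω hΩm (fun x => G (u x)) (hGc.measurable.comp_aemeasurable hum.aemeasurable) s]
  refine le_of_forall_pos_le_add fun ε hε => ?_
  set V := (volume Ω).toReal with hV
  have hV0 : 0 ≤ V := ENNReal.toReal_nonneg
  have hD : 0 < C * V + 1 := by positivity
  refine (hlimδ (ε / (C * V + 1)) (div_pos hε hD)).trans ?_
  have h5 : C * (ε / (C * V + 1) * V) ≤ ε := by
    have e : C * (ε / (C * V + 1) * V) = ε * (C * V / (C * V + 1)) := by ring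
    rw [e]
    refine mul_le_of_le_one_right hε.le ?_
    rw [div_le_one hD]
    linarith
  have h6 : C * (ε / (C * V + 1) * V + (ε / (C * V + 1))⁻¹ * 0) ≤ ε := by
    rw [mul_zero, add_zero]
    exact h5
  linarith

end Pool.Agent.RTC
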