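import Pool.Agent.RTC.St

/-!
# RTC: mollification, integrated (module MOA)
-/

set_option autoImplicit false

namespace Pool.Agent.RTC

open MeasureTheory Set Filter Topology
open scoped ENNReal NNReal

namespace MOA

theorem conv {N : ℕ} (ν : Measure (E N)) [SFinite ν] (h ρ : E N → ℝ) (hh : Integrable h ν)
    (hρ : Integrable ρ volume) (h1 : ∫ x, ρ x = 1) :
    Integrable (fun x => ∫ y, ρ (x - y) * h y ∂ν) volume ∧
      ∫ x, (∫ y, ρ (x - y) * h y ∂ν) = ∫ y, h y ∂ν := by
  have e : (fun x => ∫ y, ρ (x - y) * h y ∂ν) =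
      (convolution h ρ (ContinuousLinearMap.mul ℝ ℝ) ν) := by
    funext x
    unfold convolution
    refine integral_congr_ae (Eventually.of_forall fun y => ?_)
    change ρ (x - y) * h y = h y * ρ (x - y)
    exact mul_comm _ _
  constructor
  · rw [e]
    exact (Integrable.convolution_integrand (μ := volume) (ContinuousLinearMap.mul ℝ ℝ) hh
      hρ).integral_prod_left
  · rw [e, integral_convolution (ContinuousLinearMap.mul ℝ ℝ) hh hρ, h1]
    change (∫ y, h y ∂ν) * 1 = _
    exact mul_one _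

end MOA

theorem t_MOA : S_MOP → S_MOA := by
  intro hMOP N Ω σ ho hb hσ W hW hW0 ρ hρ hcρ hρ0 hρ1
  obtain ⟨h1, h2, h3, h4⟩ := hMOP N Ω σ ho hb hσ W hW hW0 ρ hρ hcρ hρ0
  refine ⟨h1, h2, h3, ?_⟩
  have : IsFiniteMeasure σ := ⟨hσ.finite⟩
  have hρi : Integrable ρ volume := hρ.continuous.integrable_of_hasCompactSupport hcρ
  have hD : Continuous (fun y => ‖fderiv ℝ W y‖) := (hW.continuous_fderiv one_ne_zero).norm
  have hK : IsCompact (closure Ω) := hb.isCompact_closure
  have i1 : Integrable (fun y => ‖fderiv ℝ W y‖) (volume.restrict Ω) :=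
    (hD.continuousOn.integrableOn_compact hK).mono_set subset_closure
  have hF : IsCompact (frontier Ω) := hK.of_isClosed_subset isClosed_frontier frontier_subset_closure
  have hres : σ.restrict (frontier Ω) = σ := by
    refine Measure.restrict_eq_self_of_ae_mem ?_
    rw [ae_iff]
    exact hσ.supp
  have i2 : Integrable W σ := by
    have := hW.continuous.continuousOn.integrableOn_compact (μ := σ) hF
    unfold IntegrableOn at this
    rwa [hres] at this
  obtain ⟨a1, a2⟩ := MOA.conv (volume.restrict Ω) (fun y => ‖fderiv ℝ W y‖) ρ i1 hρi hρ1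
  obtain ⟨b1, b2⟩ := MOA.conv σ W ρ i2 hρi hρ1
  calc ∫ x, ‖fderiv ℝ (fun x => ∫ y in Ω, ρ (x - y) * W y) x‖
      ≤ ∫ x, ((∫ y in Ω, ρ (x - y) * ‖fderiv ℝ W y‖) + ∫ y, ρ (x - y) * W y ∂σ) :=
        integral_mono_of_nonneg (Eventually.of_forall fun x => norm_nonneg _) (a1.add b1)
          (Eventually.of_forall h4)
    _ = (∫ x in Ω, ‖fderiv ℝ W x‖) + ∫ x, W x ∂σ := by
        rw [integral_add a1 b1, a2, b2]

end Pool.Agent.RTC
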