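import Pool.Agent.RTC.St

/-!
# RTC (MP_84cf48_an), module MOP: mollification, pointwise bound
-/

set_option autoImplicit false

namespace Pool.Agent.RTC

open MeasureTheory Set Filter Topology
open scoped ENNReal NNReal

namespace MOP

variable {N : ℕ}

theorem dv_smul_const (φ : E N → ℝ) (hφ : Differentiable ℝ φ) (e : E N) (y : E N) :
    dv (fun y => φ y • e) y = fderiv ℝ φ y e := by
  have h1 : fderiv ℝ (fun y => φ y • e) y = (fderiv ℝ φ y).smulRight e := by
    rw [fderiv_smul_const (hφ y)]
  have h2 : e = ∑ i : Fin N, e i • EuclideanSpace.single i (1 : ℝ) := by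
    ext j
    simp [Pi.single_apply]
  unfold dv
  rw [h1]
  conv_rhs => rw [h2, map_sum]
  apply Finset.sum_congr rfl
  intro i _
  rw [map_smul]
  simp [mul_comm]

theorem intOn (Ω : Set (E N)) (hb : Bornology.IsBounded Ω) {F : Type} [NormedAddCommGroup F]
    (h : E N → F) (hc : Continuous h) : IntegrableOn h Ω := by
  have hK : IsCompact (closure Ω) := hb.isCompact_closure
  exact (hc.continuousOn.integrableOn_compact hK).mono_set subset_closure

end MOP

open MOP in
theorem t_MOP : S_MOP := by
  intro N Ω σ hop hb hσ W hW hW0 ρ hρ hρc hρ0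
  have hWc : Continuous W := hW.continuous
  have hρcont : Continuous ρ := hρ.continuous
  have hWd : Differentiable ℝ W := hW.differentiable one_ne_zero
  have hρd : Differentiable ℝ ρ := hρ.differentiable one_ne_zero
  have hWdc : Continuous (fderiv ℝ W) := hW.continuous_fderiv one_ne_zero
  have hρdc : Continuous (fderiv ℝ ρ) := hρ.continuous_fderiv one_ne_zero
  set f : E N → ℝ := Ω.indicator W with hf
  have hfi : Integrable f := (integrable_indicator_iff hop.measurableSet).2 (intOn Ω hb W hWc)
  have hfl : LocallyIntegrable f := hfi.locallyIntegrable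
  have hfcs : HasCompactSupport f := by
    apply HasCompactSupport.intro hb.isCompact_closure
    intro x hx
    exact indicator_of_notMem (fun h => hx (subset_closure h)) _
  -- the function as a convolution
  have hconv : ∀ (r : E N → ℝ) (x : E N),
      (convolution f r (ContinuousLinearMap.mul ℝ ℝ) volume) x = ∫ y in Ω, r (x - y) * W y := by
    intro r x
    rw [convolution_def, ← integral_indicator hop.measurableSet]
    apply integral_congr_ae
    apply Eventually.of_forall
    intro t
    show f t * r (x - t) = Ω.indicator (fun y => r (x - y) * W y) t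
    by_cases ht : t ∈ Ω
    · rw [hf, indicator_of_mem ht, indicator_of_mem ht, mul_comm]
    · rw [hf, indicator_of_notMem ht, indicator_of_notMem ht, zero_mul]
  have hF : (fun x => ∫ y in Ω, ρ (x - y) * W y)
      = convolution f ρ (ContinuousLinearMap.mul ℝ ℝ) volume := by
    funext x
    exact (hconv ρ x).symm
  refine ⟨?_, ?_, ?_, ?_⟩
  · rw [hF]
    exact hρc.contDiff_convolution_right (ContinuousLinearMap.mul ℝ ℝ) hfl hρ
  · rw [hF]
    exact hfcs.convolution (ContinuousLinearMap.mul ℝ ℝ) hρc
  · intro x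
    exact integral_nonneg fun y => mul_nonneg (hρ0 _) (hW0 _)
  · intro x
    -- derivative in a direction
    have hder : ∀ e : E N, fderiv ℝ (fun x => ∫ y in Ω, ρ (x - y) * W y) x e
        = ∫ y in Ω, fderiv ℝ ρ (x - y) e * W y := by
      intro e
      rw [hF, (hρc.hasFDerivAt_convolution_right (ContinuousLinearMap.mul ℝ ℝ) hfl hρ x).fderiv,
        convolution_precompR_apply (ContinuousLinearMap.mul ℝ ℝ) hfl (hρc.fderiv ℝ) hρdc]
      exact hconv (fun a => fderiv ℝ ρ a e) x
    have hsub : Continuous fun y : E N => x - y := continuous_const.sub continuous_id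
    have hA0 : 0 ≤ ∫ y in Ω, ρ (x - y) * ‖fderiv ℝ W y‖ :=
      integral_nonneg fun y => mul_nonneg (hρ0 _) (norm_nonneg _)
    have hB0 : 0 ≤ ∫ y, ρ (x - y) * W y ∂σ :=
      integral_nonneg fun y => mul_nonneg (hρ0 _) (hW0 _)
    apply ContinuousLinearMap.opNorm_le_bound _ (add_nonneg hA0 hB0)
    intro e
    rw [hder e]
    -- the field
    let φ : E N → ℝ := fun y => ρ (x - y) * W y
    have hφ1 : ContDiff ℝ 1 φ := (hρ.comp (contDiff_const.sub contDiff_id)).mul hW
    have hφd : Differentiable ℝ φ := hφ1.differentiable one_ne_zero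
    have hφ' : ∀ y, fderiv ℝ φ y e
        = ρ (x - y) * fderiv ℝ W y e - fderiv ℝ ρ (x - y) e * W y := by
      intro y
      have h1 : HasFDerivAt (fun y : E N => x - y) (-(ContinuousLinearMap.id ℝ (E N))) y := by
        simpa using (hasFDerivAt_id y).const_sub x
      have h2 : HasFDerivAt (fun y : E N => ρ (x - y))
          ((fderiv ℝ ρ (x - y)).comp (-(ContinuousLinearMap.id ℝ (E N)))) y :=
        (hρd (x - y)).hasFDerivAt.comp y h1
      have h3 := (h2.mul (hWd y).hasFDerivAt).fderiv
      have h4 : fderiv ℝ φ y = ρ (x - y) • fderiv ℝ W y +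
          W y • (fderiv ℝ ρ (x - y)).comp (-(ContinuousLinearMap.id ℝ (E N))) := h3
      rw [h4]
      simp
      ring
    have hdv : ∀ y, dv (fun y => φ y • e) y
        = ρ (x - y) * fderiv ℝ W y e - fderiv ℝ ρ (x - y) e * W y := fun y => by
      rw [dv_smul_const φ hφd e y, hφ' y]
    have hg := hσ.gauss (fun y => φ y • e) (hφ1.smul contDiff_const)
    have hi1 : IntegrableOn (fun y => ρ (x - y) * fderiv ℝ W y e) Ω :=
      intOn Ω hb _ ((hρcont.comp hsub).mul (hWdc.clm_apply continuous_const))
    have hi2 : IntegrableOn (fun y => fderiv ℝ ρ (x - y) e * W y) Ω :=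
      intOn Ω hb _ (((hρdc.comp hsub).clm_apply continuous_const).mul hWc)
    have hi3 : IntegrableOn (fun y => ρ (x - y) * ‖fderiv ℝ W y‖) Ω :=
      intOn Ω hb _ ((hρcont.comp hsub).mul hWdc.norm)
    simp only [hdv] at hg
    rw [integral_sub hi1 hi2] at hg
    have hn : ∫ y, ‖φ y • e‖ ∂σ = (∫ y, ρ (x - y) * W y ∂σ) * ‖e‖ := by
      rw [← integral_mul_const]
      apply integral_congr_ae
      apply Eventually.of_forall
      intro y
      show ‖φ y • e‖ = ρ (x - y) * W y * ‖e‖
      rw [norm_smul, Real.norm_of_nonneg (mul_nonneg (hρ0 _) (hW0 _))]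
    rw [hn] at hg
    have hm : |∫ y in Ω, ρ (x - y) * fderiv ℝ W y e|
        ≤ (∫ y in Ω, ρ (x - y) * ‖fderiv ℝ W y‖) * ‖e‖ := by
      rw [← Real.norm_eq_abs]
      refine (norm_integral_le_integral_norm _).trans ?_
      rw [← integral_mul_const]
      apply integral_mono hi1.norm (hi3.mul_const _)
      intro y
      show ‖ρ (x - y) * fderiv ℝ W y e‖ ≤ ρ (x - y) * ‖fderiv ℝ W y‖ * ‖e‖
      rw [norm_mul, Real.norm_of_nonneg (hρ0 _), mul_assoc]
      exact mul_le_mul_of_nonneg_left ((fderiv ℝ W y).le_opNorm e) (hρ0 _)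
    rw [Real.norm_eq_abs, add_mul]
    rw [abs_le] at hg hm ⊢
    constructor <;> linarith [hg.1, hg.2, hm.1, hm.2]

end Pool.Agent.RTC
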