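import Pool.Agent.RTC.St

set_option autoImplicit false

/-!
# RTC, module NNG: the trace is nonnegative, and the flux
-/

namespace Pool.Agent.RTC

open MeasureTheory Set Filter Topology
open scoped ENNReal NNReal

namespace NNG

/-- the square of the negative part -/
noncomputable def q (x : ℝ) : ℝ := (min x 0) ^ 2

theorem hq (x : ℝ) : HasDerivAt q (2 * min x 0) x := by
  rcases lt_trichotomy x 0 with hx | hx | hx
  · rw [min_eq_left hx.le]
    have h1 : HasDerivAt (fun y : ℝ => y ^ 2) (2 * x) x := by
      simpa using hasDerivAt_pow 2 x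
    refine h1.congr_of_eventuallyEq ?_
    filter_upwards [gt_mem_nhds hx] with y hy
    simp only [q]
    rw [min_eq_left hy.le]
  · subst hx
    rw [min_self, mul_zero, hasDerivAt_iff_tendsto_slope_zero]
    have h1 : Tendsto (fun t : ℝ => min t 0) (𝓝[≠] 0) (𝓝 0) := by
      have h2 : Continuous fun t : ℝ => min t 0 := by fun_prop
      have h3 := h2.tendsto 0
      rw [min_self] at h3
      exact h3.mono_left nhdsWithin_le_nhds
    refine h1.congr' ?_
    filter_upwards [self_mem_nhdsWithin] with t ht
    have ht' : t ≠ 0 := ht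
    simp only [q, zero_add, min_self, smul_eq_mul]
    rcases lt_or_gt_of_ne ht' with h | h
    · rw [min_eq_left h.le]
      field_simp
      ring
    · rw [min_eq_right h.le]
      simp
  · rw [min_eq_right hx.le, mul_zero]
    refine (hasDerivAt_const x (0 : ℝ)).congr_of_eventuallyEq ?_
    filter_upwards [lt_mem_nhds hx] with y hy
    simp only [q]
    rw [min_eq_right hy.le]
    simp

theorem q_nonneg (x : ℝ) : 0 ≤ q x := sq_nonneg _

/-- the test function -/
noncomputable def G (x : ℝ) : ℝ := -(q x / (1 + q x))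

theorem hG (x : ℝ) : HasDerivAt G (-(2 * min x 0) / (1 + q x) ^ 2) x := by
  have h1 := hq x
  have h0 : (1 : ℝ) + q x ≠ 0 := by have := q_nonneg x; positivity
  have h2 : HasDerivAt (fun y => 1 + q y) (2 * min x 0) x := by
    simpa using h1.const_add 1
  have h3 := (h1.div h2 h0).neg
  have e : -((2 * min x 0 * (1 + q x) - q x * (2 * min x 0)) / (1 + q x) ^ 2) =
      -(2 * min x 0) / (1 + q x) ^ 2 := by
    ring
  rw [e] at h3
  exact h3

theorem cont_q : Continuous q := by
  unfold q
  fun_prop

theorem cd_G : ContDiff ℝ 1 G := by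
  rw [contDiff_one_iff_deriv]
  refine ⟨fun x => (hG x).differentiableAt, ?_⟩
  have h : deriv G = fun x => -(2 * min x 0) / (1 + q x) ^ 2 := by
    funext x
    exact (hG x).deriv
  rw [h]
  refine Continuous.div (by fun_prop) ?_ ?_
  · exact (continuous_const.add cont_q).pow 2
  · intro x
    have := q_nonneg x
    positivity

theorem G_nonpos (x : ℝ) : G x ≤ 0 := by
  unfold G
  have := q_nonneg x
  have h : 0 ≤ q x / (1 + q x) := by positivity
  linarith

theorem abs_G_le (x : ℝ) : |G x| ≤ 1 := by
  unfold G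
  have := q_nonneg x
  rw [abs_neg, abs_of_nonneg (by positivity), div_le_one (by positivity)]
  linarith

theorem deriv_nonneg (x : ℝ) : 0 ≤ deriv G x := by
  rw [(hG x).deriv]
  have := min_le_right x 0
  apply div_nonneg (by linarith) (by positivity)

theorem abs_deriv_le (x : ℝ) : |deriv G x| ≤ 1 := by
  rw [abs_of_nonneg (deriv_nonneg x), (hG x).deriv]
  have h0 := q_nonneg x
  rw [div_le_one (by positivity)]
  have h1 : -(2 * min x 0) ≤ 1 + q x := by
    unfold q
    nlinarith [sq_nonneg (min x 0 + 1)]
  nlinarith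

theorem mul_nonneg' (x : ℝ) : 0 ≤ x * G x := by
  rcases le_or_gt 0 x with h | h
  · have : G x = 0 := by
      unfold G q
      rw [min_eq_right h]
      simp
    rw [this]
    simp
  · exact mul_nonneg_of_nonpos_of_nonpos h.le (G_nonpos x)

theorem nonneg_of_mul (x : ℝ) (h : x * G x = 0) : 0 ≤ x := by
  by_contra hx
  push Not at hx
  have h1 : 0 < q x := by
    unfold q
    rw [min_eq_left hx.le]
    nlinarith [mul_pos_of_neg_of_neg hx hx]
  have h2 : G x < 0 := by
    unfold G
    have : 0 < q x / (1 + q x) := by positivity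
    linarith
  have h3 : 0 < x * G x := mul_pos_of_neg_of_neg hx h2
  linarith

end NNG

theorem t_NNG : S_LMA → S_NNG := by
  intro hLMA N Ω σ β u g w hβ hΩ hΩb hσ hR
  have hfin : IsFiniteMeasure σ := ⟨hσ.finite⟩
  have hw : Integrable w σ := hR.w_mem.integrable (by norm_num)
  have hwG : Integrable (fun x => w x * NNG.G (w x)) σ := by
    refine hw.mul_bdd (c := 1) ?_ ?_
    · exact NNG.cd_G.continuous.comp_aestronglyMeasurable hR.w_mem.aestronglyMeasurable
    · exact ae_of_all _ fun x => by
        rw [Real.norm_eq_abs]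
        exact NNG.abs_G_le _
  constructor
  · have h := hLMA N Ω σ β u g w hΩ hΩb hσ hR NNG.G 1 NNG.cd_G NNG.abs_G_le NNG.abs_deriv_le
    have h1 : 0 ≤ ∫ x in Ω, deriv NNG.G (u x) * ‖g x‖ ^ 2 :=
      integral_nonneg fun x => mul_nonneg (NNG.deriv_nonneg _) (by positivity)
    have h2 : ∫ x in Ω, NNG.G (u x) ≤ 0 := integral_nonpos fun x => NNG.G_nonpos _
    have h3 : 0 ≤ ∫ x, w x * NNG.G (w x) ∂σ := integral_nonneg fun x => NNG.mul_nonneg' _
    have h4 : ∫ x, w x * NNG.G (w x) ∂σ = 0 := by
      have h5 : β * ∫ x, w x * NNG.G (w x) ∂σ ≤ 0 := by linarith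
      have h6 : ∫ x, w x * NNG.G (w x) ∂σ ≤ 0 := by
        by_contra hc
        push Not at hc
        have := mul_pos hβ hc
        linarith
      exact le_antisymm h6 h3
    have h5 := (integral_eq_zero_iff_of_nonneg (fun x => NNG.mul_nonneg' (w x)) hwG).1 h4
    filter_upwards [h5] with x hx
    exact NNG.nonneg_of_mul _ hx
  · have h := hR.weak (fun _ => 1) contDiff_const
    simp only [fderiv_fun_const, Pi.zero_apply, zero_apply, integral_zero,
      zero_add, mul_one] at h
    rw [h]
    simp [Measure.real]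

end Pool.Agent.RTC
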