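import Pool.Agent.RTC.St

/-!
# RTC, module SUB: almost everywhere convergent subsequences
-/

set_option autoImplicit false

namespace Pool.Agent.RTC

open MeasureTheory Set Filter Topology
open scoped ENNReal NNReal

namespace SUB

/-- Convergence in the square mean gives an almost everywhere convergent subsequence. -/
theorem sub_ae {α : Type*} [MeasurableSpace α] (μ : Measure α) (f : ℕ → α → ℝ) (g : α → ℝ)
    (hf : ∀ n, Integrable (fun x => (f n x - g x) ^ 2) μ)
    (ht : Tendsto (fun n => ∫ x, (f n x - g x) ^ 2 ∂μ) atTop (𝓝 0)) :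
    ∃ ns : ℕ → ℕ, StrictMono ns ∧ ∀ᵐ x ∂μ, Tendsto (fun k => f (ns k) x) atTop (𝓝 (g x)) := by
  have h1 : TendstoInMeasure μ (fun n x => (f n x - g x) ^ 2) atTop (fun _ => (0 : ℝ)) := by
    apply tendstoInMeasure_of_tendsto_eLpNorm (p := 1) one_ne_zero
      (fun n => (hf n).aestronglyMeasurable) aestronglyMeasurable_const
    have h2 : ∀ n, eLpNorm ((fun x => (f n x - g x) ^ 2) - fun _ => (0 : ℝ)) 1 μ =
        ENNReal.ofReal (∫ x, (f n x - g x) ^ 2 ∂μ) := by
      intro n
      rw [eLpNorm_one_eq_lintegral_enorm,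
        ofReal_integral_eq_lintegral_ofReal (hf n) (ae_of_all _ fun x => sq_nonneg _)]
      apply lintegral_congr
      intro x
      simp only [Pi.sub_apply, sub_zero]
      rw [Real.enorm_eq_ofReal (sq_nonneg _)]
    have h3 := ENNReal.tendsto_ofReal ht
    rw [ENNReal.ofReal_zero] at h3
    refine h3.congr fun n => ?_
    exact (h2 n).symm
  obtain ⟨ns, hns, hae⟩ := h1.exists_seq_tendsto_ae
  refine ⟨ns, hns, ?_⟩
  filter_upwards [hae] with x hx
  have h3 : Tendsto (fun k => Real.sqrt ((f (ns k) x - g x) ^ 2)) atTop (𝓝 (Real.sqrt 0)) :=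
    (Real.continuous_sqrt.tendsto 0).comp hx
  rw [Real.sqrt_zero] at h3
  simp only [Real.sqrt_sq_eq_abs] at h3
  have h4 := (tendsto_zero_iff_abs_tendsto_zero _).2 h3
  have h5 := h4.add_const (g x)
  simpa using h5

/-- The square of the difference is integrable. -/
theorem int_sq {N : ℕ} {Ω : Set (E N)} (hb : Bornology.IsBounded Ω) (μ : Measure (E N))
    [IsFiniteMeasure μ] (hμ : ∀ᵐ x ∂μ, x ∈ closure Ω) (V : E N → ℝ) (hV : Continuous V)
    (v : E N → ℝ) (hv : MemLp v 2 μ) : Integrable (fun x => (V x - v x) ^ 2) μ := by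
  have hc : IsCompact (closure Ω) := hb.isCompact_closure
  obtain ⟨C, hC⟩ := hc.exists_bound_of_continuousOn hV.continuousOn
  have h1 : MemLp V 2 μ := by
    apply MemLp.of_bound hV.aestronglyMeasurable C
    filter_upwards [hμ] with x hx
    exact hC x hx
  exact (h1.sub hv).integrable_sq

end SUB

open SUB in
theorem t_SUB : S_SUB := by
  intro N Ω σ β u g w hΩ hb hσ hR
  obtain ⟨U, hU, h1, h2, h3⟩ := hR.approx
  have : IsFiniteMeasure σ := ⟨hσ.finite⟩
  have : IsFiniteMeasure (volume.restrict Ω) := by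
    refine ⟨?_⟩
    rw [Measure.restrict_apply_univ]
    exact hb.measure_lt_top
  have hm1 : ∀ᵐ x ∂(volume.restrict Ω), x ∈ closure Ω := by
    filter_upwards [ae_restrict_mem hΩ.measurableSet] with x hx
    exact subset_closure hx
  have hm2 : ∀ᵐ x ∂σ, x ∈ closure Ω := by
    have h4 : ∀ᵐ x ∂σ, x ∈ frontier Ω := by
      rw [ae_iff]
      exact hσ.supp
    filter_upwards [h4] with x hx
    exact frontier_subset_closure hx
  obtain ⟨a, ha, ha'⟩ := sub_ae (volume.restrict Ω) U u
    (fun n => int_sq hb _ hm1 (U n) (hU n).continuous u hR.u_mem) h1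
  obtain ⟨b, hb1, hb2⟩ := sub_ae σ (fun k => U (a k)) w
    (fun n => int_sq hb _ hm2 (U (a n)) (hU (a n)).continuous w hR.w_mem)
    (h3.comp ha.tendsto_atTop)
  refine ⟨fun k => U (a (b k)), fun k => hU _, ?_, hb2, ?_⟩
  · filter_upwards [ha'] with x hx
    exact hx.comp hb1.tendsto_atTop
  · exact h2.comp (ha.tendsto_atTop.comp hb1.tendsto_atTop)

end Pool.Agent.RTC
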