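import Pool.Agent.RTC.St

/-!
Project RTC, module TWO: the claim for all Y at least 1.
-/

set_option autoImplicit false

namespace Pool.Agent.RTC

open MeasureTheory Set Filter Topology
open scoped ENNReal NNReal

namespace TWO

theorem int_zero (ν : Measure ℝ) (y r : ℝ) (hy : 2 ≤ y) (hr : r ≤ 1) :
    ∫ z in Ioi y, max 0 (2 * r - z) ∂ν = 0 := by
  apply setIntegral_eq_zero_of_forall_eq_zero
  intro z hz
  have hz' : y < z := hz
  apply max_eq_left
  linarith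

theorem step (hBRZ : S_BRZ) (hONE : S_ONE) (N : ℕ) (b : ℝ) (m : ℝ → ℝ) (ν : Measure ℝ)
    (hN : 2 ≤ N) (hb : (N : ℝ) - 1 ≤ b) (hD : Data N b m ν) (Y : ℝ) (hY : 2 ≤ Y) (ε : ℝ)
    (hε : 0 < ε) :
    m Y ≤ (max 0 (1 - 2 * (1 + (1 - ε) * (Y - 2)) / b)) ^ ((N : ℝ) / 2) := by
  have hN' : (2 : ℝ) ≤ N := by exact_mod_cast hN
  have hb0 : 0 < b := by linarith
  have h2 := hONE N b m ν hN hb hD 2 (by norm_num) le_rfl
  refine hBRZ N b m ν hN hb0 hD (fun y => 1 + (1 - ε) * (y - 2)) 2 Y (by norm_num) ?_ ?_ ?_ Y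
    ⟨hY, le_rfl⟩
  · fun_prop
  · have e : (1 : ℝ) - 2 * (1 + (1 - ε) * (2 - 2)) / b = 1 - 2 * (2 - 1) / b := by
      norm_num
    simp only [e]
    exact h2
  · intro y hy r hr0 hr1 _
    refine ⟨1 - ε, ?_, ?_⟩
    · have h : HasDerivAt (fun y : ℝ => 1 + (1 - ε) * (y - 2)) ((1 - ε) * 1) y :=
        (((hasDerivAt_id y).sub_const 2).const_mul (1 - ε)).const_add 1
      rw [mul_one] at h
      exact h.hasDerivWithinAt
    · rw [int_zero ν y r hy.1 hr1]
      simp only [zero_div, sub_zero]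
      linarith

end TWO

theorem t_TWO : S_BRZ → S_ONE → S_TWO := by
  intro hBRZ hONE N b m ν hN hb hD Y hY
  rcases le_total Y 2 with h2 | h2
  · exact hONE N b m ν hN hb hD Y hY h2
  · have hN' : (2 : ℝ) ≤ N := by exact_mod_cast hN
    have hc : Continuous (fun ε : ℝ =>
        (max 0 (1 - 2 * (1 + (1 - ε) * (Y - 2)) / b)) ^ ((N : ℝ) / 2)) := by
      apply Continuous.rpow_const
      · fun_prop
      · intro x
        right
        positivity
    have ht : Tendsto (fun ε : ℝ =>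
        (max 0 (1 - 2 * (1 + (1 - ε) * (Y - 2)) / b)) ^ ((N : ℝ) / 2)) (𝓝[>] 0)
        (𝓝 ((max 0 (1 - 2 * (1 + (1 - (0:ℝ)) * (Y - 2)) / b)) ^ ((N : ℝ) / 2))) :=
      (hc.tendsto 0).mono_left nhdsWithin_le_nhds
    have e : (1 : ℝ) - 2 * (1 + (1 - (0:ℝ)) * (Y - 2)) / b = 1 - 2 * (Y - 1) / b := by
      ring
    rw [e] at ht
    apply ge_of_tendsto ht
    filter_upwards [self_mem_nhdsWithin] with ε hε
    exact TWO.step hBRZ hONE N b m ν hN hb hD Y h2 ε hε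

end Pool.Agent.RTC
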