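import Pool.Agent.RTC.St
import Pool.Agent.RTC.BMN
import Pool.Agent.RTC.ISO28
import Pool.Agent.RTC.MOP
import Pool.Agent.RTC.MOA
import Pool.Agent.RTC.ISW
import Pool.Agent.RTC.SUB
import Pool.Agent.RTC.LMA
import Pool.Agent.RTC.LMB
import Pool.Agent.RTC.GEX
import Pool.Agent.RTC.DIF
import Pool.Agent.RTC.NNG
import Pool.Agent.RTC.BAR
import Pool.Agent.RTC.BRZ
import Pool.Agent.RTC.KEY
import Pool.Agent.RTC.FUB
import Pool.Agent.RTC.ETA
import Pool.Agent.RTC.ONE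
import Pool.Agent.RTC.TWO
import Pool.Agent.RTC.SCA
import Pool.Agent.RTC.FIN
import Pool.Agent.RTC.LEV

set_option autoImplicit false

/-!
# RTC: everything together
-/

namespace Pool.Agent.RTC

theorem all_SCA : S_SCA := by
  have hISO : S_ISO := t_ISO t_BMN
  have hMOA : S_MOA := t_MOA t_MOP
  have hISW : S_ISW := t_ISW hISO hMOA
  have hLMA : S_LMA := t_LMA t_SUB
  have hLMB : S_LMB := t_LMB hISW t_SUB
  have hDIF : S_DIF := t_DIF t_GEX hLMA hLMB
  have hBRZ : S_BRZ := t_BRZ t_BAR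
  have hONE : S_ONE := t_ONE hBRZ t_KEY t_FUB t_ETA
  exact t_SCA hDIF (t_NNG hLMA) (t_TWO hBRZ hONE)

theorem all_FIN : S_FIN := t_FIN all_SCA

end Pool.Agent.RTC
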