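import Pool.Agent.RTC.St2

set_option autoImplicit false

/-!
# RTC_MOM: the moment inequality
-/

namespace Pool.Agent.RTC

open MeasureTheory Set Filter Topology
open scoped ENNReal NNReal

namespace MOM93

/-- The kernel. -/
noncomputable def G (p q A B : ℝ → ℝ) : ℝ × ℝ → ℝ :=
  {w : ℝ × ℝ | w.1 < w.2}.indicator (fun w => p w.1 * A w.2 + q w.1 * B w.2)

theorem G_left (p q A B : ℝ → ℝ) (x z : ℝ) :
    G p q A B (x, z) = (Ioi x).indicator (fun z => p x * A z + q x * B z) z := by
  unfold G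
  by_cases h : x < z
  · rw [indicator_of_mem (show (x, z) ∈ {p : ℝ × ℝ | p.1 < p.2} from h),
      indicator_of_mem (show z ∈ Ioi x from h)]
  · rw [indicator_of_notMem (show (x, z) ∉ {p : ℝ × ℝ | p.1 < p.2} from h),
      indicator_of_notMem (show z ∉ Ioi x from h)]

theorem G_right (p q A B : ℝ → ℝ) (x z : ℝ) :
    G p q A B (x, z) = (Iio z).indicator (fun x => p x * A z + q x * B z) x := by
  unfold G
  by_cases h : x < z
  · rw [indicator_of_mem (show (x, z) ∈ {p : ℝ × ℝ | p.1 < p.2} from h),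
      indicator_of_mem (show x ∈ Iio z from h)]
  · rw [indicator_of_notMem (show (x, z) ∉ {p : ℝ × ℝ | p.1 < p.2} from h),
      indicator_of_notMem (show x ∉ Iio z from h)]

theorem swap {ν : Measure ℝ} [IsFiniteMeasure ν] (a b : ℝ) (p q A B : ℝ → ℝ)
    (hp : IntegrableOn p (Ioc a b)) (hq : IntegrableOn q (Ioc a b)) (hA : Integrable A ν)
    (hB : Integrable B ν) :
    (∫ y in Ioc a b, ∫ z in Ioi y, (p y * A z + q y * B z) ∂ν) =
      (∫ z, (∫ y in Ioc a b ∩ Iio z, (p y * A z + q y * B z)) ∂ν) ∧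
    Integrable (fun z => ∫ y in Ioc a b ∩ Iio z, (p y * A z + q y * B z)) ν := by
  have hF : Integrable (G p q A B) (((volume : Measure ℝ).restrict (Ioc a b)).prod ν) := by
    unfold G
    refine Integrable.indicator ?_ (measurableSet_lt measurable_fst measurable_snd)
    exact (Integrable.mul_prod hp hA).add (Integrable.mul_prod hq hB)
  have h1 : ∀ y, ∫ z in Ioi y, (p y * A z + q y * B z) ∂ν = ∫ z, G p q A B (y, z) ∂ν := by
    intro y
    simp_rw [G_left]
    rw [integral_indicator measurableSet_Ioi]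
  have h2 : ∀ z, ∫ y in Ioc a b ∩ Iio z, (p y * A z + q y * B z) =
      ∫ y in Ioc a b, G p q A B (y, z) := by
    intro z
    simp_rw [G_right]
    rw [setIntegral_indicator measurableSet_Iio]
  constructor
  · rw [integral_congr_ae (Eventually.of_forall h1), integral_congr_ae (Eventually.of_forall h2)]
    exact integral_integral_swap (f := fun x z => G p q A B (x, z)) hF
  · simp_rw [h2]
    exact hF.integral_prod_right

theorem exp_key (v : ℝ) (hv : 0 ≤ v) : (1 - v / 2) * (Real.exp v - 1) ≤ v := by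
  have hd : ∀ x : ℝ, HasDerivAt (fun v : ℝ => (1 + v / 2) - (1 - v / 2) * Real.exp v)
      (1 / 2 - 1 / 2 * (Real.exp x * (1 - x))) x := by
    intro x
    have h1 : HasDerivAt (fun p : ℝ => 1 + p / 2) (1 / 2) x := by
      simpa using ((hasDerivAt_id x).div_const 2).const_add 1
    have h2 : HasDerivAt (fun p : ℝ => 1 - p / 2) (-(1 / 2)) x := by
      simpa using ((hasDerivAt_id x).div_const 2).const_sub 1
    refine (h1.sub (h2.mul (Real.hasDerivAt_exp x))).congr_deriv ?_
    ring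
  have hm : MonotoneOn (fun v : ℝ => (1 + v / 2) - (1 - v / 2) * Real.exp v) (Ici 0) := by
    refine monotoneOn_of_deriv_nonneg (convex_Ici 0)
      (fun x _ => (hd x).continuousAt.continuousWithinAt)
      (fun x _ => (hd x).differentiableAt.differentiableWithinAt) ?_
    intro x hx
    rw [(hd x).deriv]
    have h1 : 1 - x ≤ Real.exp (-x) := by
      have := Real.add_one_le_exp (-x)
      linarith
    have h2 : Real.exp x * (1 - x) ≤ 1 := by
      calc Real.exp x * (1 - x) ≤ Real.exp x * Real.exp (-x) :=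
            mul_le_mul_of_nonneg_left h1 (Real.exp_pos x).le
        _ = 1 := by rw [← Real.exp_add]; simp
    linarith
  have h1 := hm (mem_Ici.2 le_rfl) (mem_Ici.2 hv) hv
  simp only [zero_div, add_zero, sub_zero, Real.exp_zero, mul_one, sub_self] at h1
  nlinarith

theorem key2 (θ p : ℝ) (h0 : 0 < θ) (h2 : θ ≤ 2) (hp : 0 ≤ p) :
    (1 - p) * (Real.exp (θ * p) - 1) ≤ θ * p := by
  have h3 := exp_key (θ * p) (mul_nonneg h0.le hp)
  have h4 : 0 ≤ Real.exp (θ * p) - 1 := by
    have := Real.one_le_exp (mul_nonneg h0.le hp)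
    linarith
  refine le_trans (mul_le_mul_of_nonneg_right ?_ h4) h3
  nlinarith

theorem int_exp (θ z : ℝ) (h0 : 0 < θ) :
    ∫ x in (1 : ℝ)..z, Real.exp (θ * (x - 1)) = (Real.exp (θ * (z - 1)) - 1) / θ := by
  have hd : ∀ x ∈ uIcc 1 z, HasDerivAt (fun x : ℝ => Real.exp (θ * (x - 1)) / θ)
      (Real.exp (θ * (x - 1))) x := by
    intro x _
    have h2 : HasDerivAt (fun p : ℝ => θ * (p - 1)) θ x := by
      simpa using ((hasDerivAt_id x).sub_const 1).const_mul θ
    refine (h2.exp.div_const θ).congr_deriv ?_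
    field_simp
  rw [intervalIntegral.integral_eq_sub_of_hasDerivAt hd
    ((by fun_prop : Continuous fun x : ℝ => Real.exp (θ * (x - 1))).intervalIntegrable _ _)]
  simp
  ring

theorem Wt_cont (θ : ℝ) : ContinuousOn (Wt θ) (Ioi 0) := by
  unfold Wt
  intro y hy
  have hy' : y ≠ 0 := ne_of_gt hy
  have h1 : ContinuousAt (fun y => Real.exp (θ * (2 * Real.log y + 1 / y - 1))) y := by
    fun_prop (disch := assumption)
  exact h1.continuousWithinAt

/-- the first inner integral -/
theorem inner1 (θ a z : ℝ) (ha : Start θ a) (c : ℝ) (hc : c = (1 - Wt θ a) / θ) (hc0 : 0 ≤ c)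
    (hz : 0 ≤ z) :
    (z ≤ 1 → ∫ y in Ioc a 1 ∩ Iio z, (Wt θ y / y * 2 + -(Wt θ y / y ^ 2) * z) ≤ c * z) ∧
    (1 < z → ∫ y in Ioc a 1 ∩ Iio z, (Wt θ y / y * 2 + -(Wt θ y / y ^ 2) * z) =
      1 - z * (1 - c)) := by
  have e : ∀ y, Wt θ y / y * 2 + -(Wt θ y / y ^ 2) * z = Wt θ y * (2 / y - z / y ^ 2) := by
    intro y
    ring
  simp_rw [e]
  constructor
  · intro h1
    rcases le_or_gt z a with h | h
    · have h2 : Ioc a 1 ∩ Iio z = ∅ := by
        ext x
        simp only [mem_inter_iff, mem_Ioc, mem_Iio, mem_empty_iff_false, iff_false]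
        rintro ⟨⟨h3, -⟩, h4⟩
        linarith
      rw [h2, Measure.restrict_empty, integral_zero_measure]
      exact mul_nonneg hc0 hz
    · have h2 : Ioc a 1 ∩ Iio z = Ioo a z := by
        ext x
        simp only [mem_inter_iff, mem_Ioc, mem_Iio, mem_Ioo]
        constructor
        · rintro ⟨⟨h3, -⟩, h4⟩
          exact ⟨h3, h4⟩
        · rintro ⟨h3, h4⟩
          exact ⟨⟨h3, by linarith⟩, h4⟩
      rw [h2, ← integral_Ioc_eq_integral_Ioo, ← intervalIntegral.integral_of_le h.le, hc]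
      exact ha.low z ⟨h.le, h1⟩
  · intro h1
    have h2 : Ioc a 1 ∩ Iio z = Ioc a 1 := by
      ext x
      simp only [mem_inter_iff, mem_Ioc, mem_Iio]
      constructor
      · rintro ⟨h3, -⟩
        exact h3
      · rintro ⟨h3, h4⟩
        exact ⟨⟨h3, h4⟩, by linarith⟩
    rw [h2, ← intervalIntegral.integral_of_le ha.lt_one.le, hc]
    exact ha.high z

/-- the second inner integral -/
theorem inner2 (θ Y z : ℝ) (h0 : 0 < θ) (h2 : θ ≤ 2) :
    (z ≤ 1 → ∫ y in Ioc 1 Y ∩ Iio z, (Real.exp (θ * (y - 1)) * max 0 (2 - z) + 0 * 0) = 0) ∧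
    (1 < z → ∫ y in Ioc 1 Y ∩ Iio z, (Real.exp (θ * (y - 1)) * max 0 (2 - z) + 0 * 0) ≤
      z - 1) := by
  simp only [mul_zero, add_zero]
  constructor
  · intro h1
    have h3 : Ioc 1 Y ∩ Iio z = ∅ := by
      ext x
      simp only [mem_inter_iff, mem_Ioc, mem_Iio, mem_empty_iff_false, iff_false]
      rintro ⟨⟨h3, -⟩, h4⟩
      linarith
    rw [h3, Measure.restrict_empty, integral_zero_measure]
  · intro h1
    have hc : 0 ≤ max 0 (2 - z) := le_max_left _ _
    have hcont : Continuous fun x : ℝ => Real.exp (θ * (x - 1)) * max 0 (2 - z) := by fun_prop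
    have h3 : ∫ x in Ioc 1 Y ∩ Iio z, Real.exp (θ * (x - 1)) * max 0 (2 - z) ≤
        ∫ x in Ioc 1 z, Real.exp (θ * (x - 1)) * max 0 (2 - z) := by
      refine setIntegral_mono_set ?_ ?_ ?_
      · exact (hcont.integrableOn_Icc (a := 1) (b := z)).mono_set Ioc_subset_Icc_self
      · exact Eventually.of_forall fun x => mul_nonneg (Real.exp_pos _).le hc
      · refine LE.le.eventuallyLE ?_
        rintro x ⟨⟨h3, -⟩, h4⟩
        exact ⟨h3, le_of_lt h4⟩
    refine h3.trans ?_
    rw [← intervalIntegral.integral_of_le h1.le, intervalIntegral.integral_mul_const,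
      int_exp θ z h0]
    rcases le_or_gt 2 z with h | h
    · rw [max_eq_left (by linarith), mul_zero]
      linarith
    · rw [max_eq_right (by linarith)]
      have h4 := key2 θ (z - 1) h0 h2 (by linarith)
      rw [div_mul_eq_mul_div, div_le_iff₀ h0]
      nlinarith

end MOM93

open MOM93 in
theorem t_MOM : S_MOM := by
  intro N b m ν hd θ a h0 h2 ha Y hY1 hY2
  have hfin : IsFiniteMeasure ν := ⟨hd.fin⟩
  have ha0 : 0 < a := lt_of_lt_of_le (by norm_num) ha.third
  obtain ⟨c, hc⟩ : ∃ c, c = (1 - Wt θ a) / θ := ⟨_, rfl⟩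
  have hc0 : 0 ≤ c := by
    rw [hc]
    exact div_nonneg (by linarith [ha.W_le]) h0.le
  have hsub : Icc a 1 ⊆ Ioi (0 : ℝ) := fun x hx => lt_of_lt_of_le ha0 hx.1
  have hp : IntegrableOn (fun y => Wt θ y / y) (Ioc a 1) := by
    have h1 : ContinuousOn (fun y => Wt θ y / y) (Icc a 1) :=
      ((Wt_cont θ).mono hsub).div continuousOn_id fun y hy => ne_of_gt (hsub hy)
    exact h1.integrableOn_Icc.mono_set Ioc_subset_Icc_self
  have hq : IntegrableOn (fun y => -(Wt θ y / y ^ 2)) (Ioc a 1) := by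
    have h1 : ContinuousOn (fun y => -(Wt θ y / y ^ 2)) (Icc a 1) :=
      (((Wt_cont θ).mono hsub).div (continuousOn_id.pow 2)
        fun y hy => pow_ne_zero 2 (ne_of_gt (hsub hy))).neg
    exact h1.integrableOn_Icc.mono_set Ioc_subset_Icc_self
  obtain ⟨s1, i1⟩ := swap (ν := ν) a 1 (fun y => Wt θ y / y) (fun y => -(Wt θ y / y ^ 2))
    (fun _ => 2) (fun z => z) hp hq (integrable_const 2) hd.int
  have hp2 : IntegrableOn (fun y => Real.exp (θ * (y - 1))) (Ioc 1 Y) :=
    ((by fun_prop : Continuous fun x : ℝ => Real.exp (θ * (x - 1))).integrableOn_Icc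
      (a := 1) (b := Y)).mono_set Ioc_subset_Icc_self
  have hA2 : Integrable (fun z : ℝ => max 0 (2 - z)) ν := by
    have h1 : Integrable (fun z : ℝ => 2 - z) ν := (integrable_const (2 : ℝ)).sub hd.int
    have h2 : (fun z : ℝ => max 0 (2 - z)) = fun z : ℝ => max (2 - z) 0 := by
      funext z
      exact max_comm _ _
    rw [h2]
    exact h1.pos_part
  obtain ⟨s2, i2⟩ := swap (ν := ν) 1 Y (fun y => Real.exp (θ * (y - 1))) (fun _ => 0)
    (fun z => max 0 (2 - z)) (fun _ => 0) hp2 (integrable_zero _ _ _) hA2 (integrable_zero _ _ _)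
  have t1 : ∫ y in a..1, Wt θ y * Sm ν y =
      ∫ z, (∫ y in Ioc a 1 ∩ Iio z, (Wt θ y / y * 2 + -(Wt θ y / y ^ 2) * z)) ∂ν := by
    rw [← s1, intervalIntegral.integral_of_le ha.lt_one.le]
    refine integral_congr_ae (Eventually.of_forall fun y => ?_)
    show Wt θ y * Sm ν y = _
    unfold Sm
    rw [← mul_assoc, ← integral_const_mul]
    refine integral_congr_ae (Eventually.of_forall fun z => ?_)
    show Wt θ y * (1 / y) * (2 - z / y) = Wt θ y / y * 2 + -(Wt θ y / y ^ 2) * z
    ring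
  have t2 : ∫ x in (1 : ℝ)..Y, Real.exp (θ * (x - 1)) * S0 ν x =
      ∫ z, (∫ y in Ioc 1 Y ∩ Iio z, (Real.exp (θ * (y - 1)) * max 0 (2 - z) + 0 * 0)) ∂ν := by
    rw [← s2, intervalIntegral.integral_of_le hY1]
    refine integral_congr_ae (Eventually.of_forall fun y => ?_)
    show Real.exp (θ * (y - 1)) * S0 ν y = _
    unfold S0
    rw [← integral_const_mul]
    refine integral_congr_ae (Eventually.of_forall fun z => ?_)
    show Real.exp (θ * (y - 1)) * max 0 (2 - z) = Real.exp (θ * (y - 1)) * max 0 (2 - z) + 0 * 0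
    ring
  have hpos : ∀ᵐ z ∂ν, 0 ≤ z := by
    have h2 : ν {z | ¬ 0 ≤ z} = 0 := by
      have h3 : {z : ℝ | ¬ 0 ≤ z} = Iio 0 := by
        ext z
        simp
      rw [h3]
      exact hd.supp
    exact h2
  have h3 : (∫ y in a..1, Wt θ y * Sm ν y) + (∫ x in (1 : ℝ)..Y, Real.exp (θ * (x - 1)) * S0 ν x) ≤
      c := by
    rw [t1, t2, ← integral_add i1 i2]
    have h4 : ∫ z, ((∫ y in Ioc a 1 ∩ Iio z, (Wt θ y / y * 2 + -(Wt θ y / y ^ 2) * z)) +
        ∫ y in Ioc 1 Y ∩ Iio z, (Real.exp (θ * (y - 1)) * max 0 (2 - z) + 0 * 0)) ∂ν ≤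
        ∫ z, c * z ∂ν := by
      refine integral_mono_ae (i1.add i2) (hd.int.const_mul c) ?_
      filter_upwards [hpos] with z hz
      obtain ⟨a1, a2⟩ := inner1 θ a z ha c hc hc0 hz
      obtain ⟨b1, b2⟩ := inner2 θ Y z h0 h2
      rcases le_or_gt z 1 with h | h
      · exact (add_le_add (a1 h) (le_of_eq (b1 h))).trans (le_of_eq (add_zero _))
      · exact (add_le_add (le_of_eq (a2 h)) (b2 h)).trans (le_of_eq (by ring))
    refine h4.trans ?_
    rw [integral_const_mul]
    have := mul_le_mul_of_nonneg_left hd.mean hc0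
    linarith
  have h5 : θ * c = 1 - Wt θ a := by
    rw [hc]
    field_simp
  have h6 := mul_le_mul_of_nonneg_left h3 h0.le
  rw [h5, mul_add] at h6
  linarith

end Pool.Agent.RTC
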