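import Pool.Agent.RTC.St2
import Pool.Agent.RTC.BMN
import Pool.Agent.RTC.ISO28
import Pool.Agent.RTC.MOP
import Pool.Agent.RTC.MOA
import Pool.Agent.RTC.ISW
import Pool.Agent.RTC.SUB
import Pool.Agent.RTC.LMA
import Pool.Agent.RTC.LMB
import Pool.Agent.RTC.GEX
import Pool.Agent.RTC.NNG
import Pool.Agent.RTC.DI2
import Pool.Agent.RTC.BA2
import Pool.Agent.RTC.BR2
import Pool.Agent.RTC.KE2
import Pool.Agent.RTC.AEX
import Pool.Agent.RTC.NU2
import Pool.Agent.RTC.RST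
import Pool.Agent.RTC.MOM93
import Pool.Agent.RTC.ET1
import Pool.Agent.RTC.ET2
import Pool.Agent.RTC.ONA
import Pool.Agent.RTC.ONB
import Pool.Agent.RTC.ON2
import Pool.Agent.RTC.TW2
import Pool.Agent.RTC.SC2
import Pool.Agent.RTC.FIN
import Pool.Agent.RTC.LEV

set_option autoImplicit false

/-!
# RTC, second version: everything together
-/

namespace Pool.Agent.RTC

open MeasureTheory Set Filter Topology
open scoped ENNReal NNReal

theorem all_SC2 : S_SC2 := by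
  have hISO : S_ISO := t_ISO t_BMN
  have hMOA : S_MOA := t_MOA t_MOP
  have hISW : S_ISW := t_ISW hISO hMOA
  have hLMA : S_LMA := t_LMA t_SUB
  have hLMB : S_LMB := t_LMB hISW t_SUB
  have hDI2 : S_DI2 := t_DI2 t_GEX hLMA hLMB
  have hBR2 : S_BR2 := t_BR2 t_BA2
  have hON2 : S_ON2 := t_ON2 t_AEX t_MOM (t_RST t_NU2) t_ET1 (t_ONA hBR2 t_KE2)
    (t_ONB hBR2 t_KE2 t_ET2)
  exact t_SC2 hDI2 (t_NNG hLMA) (t_TW2 hBR2 hON2)

/-- The pointwise comparison, from the comparison of the distribution functions. -/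
theorem all_fin (N : ℕ) (hN : 2 ≤ N) (Ω : Set (E N)) (β R : ℝ) (u : E N → ℝ) (hβ : 0 < β)
    (hR : 0 < R) (hvol : volume Ω = volume (Metric.ball (0 : E N) R))
    (hS : ∀ t : ℝ, R / (N * β) ≤ t →
      mu Ω u t ≤ om N * (max 0 (R ^ 2 - 2 * N * (t - R / (N * β)))) ^ ((N : ℝ) / 2))
    (x : E N) (hx : x ∈ Metric.ball (0 : E N) R) (hx0 : x ≠ 0) :
    sharp Ω u x ≤ vball N β R x := by
  have hN0 : (0 : ℝ) < N := by exact_mod_cast (by omega : 0 < N)
  have hxn : 0 < ‖x‖ := norm_pos_iff.2 hx0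
  have hxR : ‖x‖ < R := by rwa [mem_ball_zero_iff] at hx
  have h1 : 0 < R ^ 2 - ‖x‖ ^ 2 := by nlinarith
  have hv : R / (N * β) ≤ vball N β R x := by
    unfold vball
    have : 0 ≤ (R ^ 2 - ‖x‖ ^ 2) / (2 * N) := div_nonneg h1.le (by positivity)
    linarith
  have hv0 : 0 < R / (N * β) := by positivity
  refine le_of_forall_pos_le_add fun ε hε => ?_
  unfold sharp
  refine csInf_le ⟨0, fun t ht => ht.1⟩ ⟨by linarith, ?_⟩
  have hsca := hS (vball N β R x + ε) (by linarith)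
  have e1 : R ^ 2 - 2 * N * (vball N β R x + ε - R / (N * β)) = ‖x‖ ^ 2 - 2 * N * ε := by
    unfold vball
    have : 2 * (N : ℝ) * ((R ^ 2 - ‖x‖ ^ 2) / (2 * N)) = R ^ 2 - ‖x‖ ^ 2 := by
      field_simp
    linear_combination -this
  have h2 : max 0 (‖x‖ ^ 2 - 2 * N * ε) < ‖x‖ ^ 2 := by
    apply max_lt (by positivity)
    have : 0 < 2 * (N : ℝ) * ε := by positivity
    linarith
  have h3 : (max 0 (‖x‖ ^ 2 - 2 * N * ε)) ^ ((N : ℝ) / 2) < ‖x‖ ^ N := by
    have h4 : (‖x‖ ^ 2) ^ ((N : ℝ) / 2) = ‖x‖ ^ N := by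
      rw [← Real.rpow_natCast ‖x‖ 2, ← Real.rpow_mul hxn.le, ← Real.rpow_natCast ‖x‖ N]
      congr 1
      push_cast
      ring
    rw [← h4]
    exact Real.rpow_lt_rpow (le_max_left _ _) h2 (by positivity)
  rw [e1] at hsca
  have hfin : volume (Ω ∩ {z | vball N β R x + ε < u z}) ≠ ⊤ := by
    have h5 : volume (Ω ∩ {z | vball N β R x + ε < u z}) ≤ volume Ω :=
      measure_mono inter_subset_left
    rw [hvol] at h5
    exact (h5.trans_lt measure_ball_lt_top).ne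
  rw [← ENNReal.toReal_lt_toReal hfin measure_ball_lt_top.ne, FIN.toReal_ball hxn]
  have h6 : om N * (max 0 (‖x‖ ^ 2 - 2 * N * ε)) ^ ((N : ℝ) / 2) < om N * ‖x‖ ^ N :=
    mul_lt_mul_of_pos_left h3 FIN.om_pos
  have h7 : (volume (Ω ∩ {z | vball N β R x + ε < u z})).toReal =
    mu Ω u (vball N β R x + ε) := rfl
  rw [h7]
  linarith

/-- Comparison of the distribution functions at all levels. -/
theorem all_lev (N : ℕ) (hN : 2 ≤ N) (Ω : Set (E N)) (β R : ℝ) (u : E N → ℝ) (hβ : 0 < β)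
    (hR : 0 < R) (hvol : volume Ω = volume (Metric.ball (0 : E N) R))
    (hS : ∀ t : ℝ, R / (N * β) ≤ t →
      mu Ω u t ≤ om N * (max 0 (R ^ 2 - 2 * N * (t - R / (N * β)))) ^ ((N : ℝ) / 2))
    (t : ℝ) :
    volume (Ω ∩ {x | t < u x}) ≤
      volume (Metric.ball (0 : E N) R ∩ {x | t < vball N β R x}) := by
  rcases le_or_gt (R / (N * β)) t with h | h
  · have h1 := hS t h
    refine le_trans ?_ (lev N hN β R t hβ hR h)
    refine ENNReal.le_ofReal_iff_toReal_le ?_ ?_ |>.2 h1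
    · exact ((measure_mono inter_subset_left).trans_lt (by
        rw [hvol]; exact measure_ball_lt_top)).ne
    · apply mul_nonneg ENNReal.toReal_nonneg
      exact Real.rpow_nonneg (le_max_left _ _) _
  · rw [lev_small N hN β R t hβ hR h.le, ← hvol]
    exact measure_mono inter_subset_left

end Pool.Agent.RTC
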