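import Pool.Agent.RTC.St4
import Pool.Agent.RTC.KE2

/-!
# RTC_KE4: the key inequality with exponent `θ`, with the larger range for `N = 3`
-/

set_option autoImplicit false

namespace Pool.Agent.RTC

open Real

theorem ke4_one (r : ℝ) (hr : 0 < r) (hr1 : r ≤ 1) :
    2 * r - 1 ≤ Real.exp ((1 - r ^ 2) / 2) * r ^ 3 := by
  have ht : 0 ≤ (1 - r ^ 2) / 2 := by nlinarith
  have h1 : 1 + (1 - r ^ 2) / 2 + ((1 - r ^ 2) / 2) ^ 2 / 2 ≤ Real.exp ((1 - r ^ 2) / 2) :=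
    Real.quadratic_le_exp_of_nonneg ht
  have h2 := mul_le_mul_of_nonneg_right h1 (pow_pos hr 3).le
  refine le_trans ?_ h2
  have h3 : (1 + (1 - r ^ 2) / 2 + ((1 - r ^ 2) / 2) ^ 2 / 2) * r ^ 3 - (2 * r - 1) =
      (1 - r) ^ 3 * (8 + 8 * r - 3 * r ^ 3 - r ^ 4) / 8 := by ring
  have h4 : 0 ≤ (1 - r) ^ 3 := pow_nonneg (by linarith) 3
  have h5 : 0 ≤ 8 + 8 * r - 3 * r ^ 3 - r ^ 4 := by
    have h6 : r ^ 3 ≤ 1 := pow_le_one₀ hr.le hr1
    have h7 : r ^ 4 ≤ 1 := pow_le_one₀ hr.le hr1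
    linarith
  have h8 := mul_nonneg h4 h5
  linarith

theorem t_KE4 : S_KE4 := by
  intro N b θ r x hN hb hθ hθ2 hNb hbN hr hr1 hx hζ
  rcases hNb with hNb | ⟨h3, hNb⟩
  · exact t_KE2 N b θ r x hN hb hθ hθ2 hNb hbN hr hr1 hx hζ
  subst h3
  have hB : 0 < θ * b := mul_pos hθ hb
  have hr2 : 0 ≤ 1 - r ^ 2 := by nlinarith
  obtain ⟨e, he⟩ : ∃ e : ℝ, e = Real.exp (θ * (b / 2 * (1 - r ^ 2))) := ⟨_, rfl⟩
  rw [← he]
  have hE : 0 < e := by rw [he]; exact Real.exp_pos _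
  have hr3 : 0 < r ^ 3 := pow_pos hr 3
  rcases le_or_gt 2 x with h2x | hx2
  · have h1 : e * r ^ 3 ≤ 1 := by
      have h5 : Real.log (r ^ 2) ≤ r ^ 2 - 1 := Real.log_le_sub_one_of_pos (by positivity)
      rw [Real.log_pow] at h5
      push_cast at h5
      have h6 : e * r ^ 3 = Real.exp (θ * (b / 2 * (1 - r ^ 2)) + 3 * Real.log r) := by
        rw [Real.exp_add, ← he]
        congr 1
        rw [show (3 : ℝ) * Real.log r = Real.log (r ^ 3) by rw [Real.log_pow]; norm_num,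
          Real.exp_log hr3]
      rw [h6, Real.exp_le_one_iff]
      push_cast at hbN
      have h7 : θ * b * (1 - r ^ 2) ≤ 3 * (1 - r ^ 2) := mul_le_mul_of_nonneg_right hbN hr2
      nlinarith
    have h8 := mul_le_mul_of_nonneg_right h1 (by linarith : (0 : ℝ) ≤ x - 2)
    have h9 : e * r ^ 3 * (2 - x) = -(e * r ^ 3 * (x - 2)) := by ring
    rw [h9]
    linarith
  · have h1 : 2 * r - 1 ≤ e * r ^ 3 := by
      refine (ke4_one r hr hr1).trans ?_
      apply mul_le_mul_of_nonneg_right _ hr3.le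
      rw [he]
      apply Real.exp_le_exp.2
      have h7 : 1 * (1 - r ^ 2) ≤ θ * b * (1 - r ^ 2) := mul_le_mul_of_nonneg_right hNb hr2
      nlinarith
    have h2 := mul_le_mul_of_nonneg_right h1 (by linarith : (0 : ℝ) ≤ 2 - x)
    have h3 : 0 ≤ (x - 1) * (1 - r) := mul_nonneg (by linarith) (by linarith)
    nlinarith

end Pool.Agent.RTC
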