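import Pool.Agent.RTC.St4

set_option autoImplicit false

/-!
RTC_ON4: the claim for `1 ≤ Y ≤ 2`.
-/

namespace Pool.Agent.RTC

open MeasureTheory Set Filter Topology
open scoped ENNReal NNReal

theorem t_ON4 : S_AEX → S_MOM → S_RST → S_ET1 → S_ONA4 → S_ONB4 → S_ON4 := by
  intro hAEX hMOM hRST hET1 hONA hONB N b θ m ν hN hb hθ hθ2 h1 h2 hD Y hY1 hY2
  obtain ⟨a, ha⟩ := hAEX θ hθ hθ2
  have ha3 := ha.third
  have ha1 := ha.lt_one
  have hθb : 0 < θ * b := mul_pos hθ hb
  have hr := hRST N b m ν hD θ hθ hθ2 Y hY1 hY2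
  by_cases hc : ∃ y ∈ Ico a 1, m y < (max 0 (1 - 1 / b)) ^ ((N : ℝ) / 2)
  · obtain ⟨y, hy, hlt⟩ := hc
    have hm : m 1 ≤ m y := hD.anti (by
      rw [mem_Ici]
      linarith [hy.1]) (by
      rw [mem_Ici]
      norm_num) hy.2.le
    have e1 : 1 + 2 * Real.log (Real.exp (-θ / 2)) / (θ * b) = 1 - 1 / b := by
      rw [Real.log_exp]
      field_simp
      ring
    have h3 := hONB N b θ m ν hN hb hθ hθ2 h1 h2 hD (Real.exp (-θ / 2)) 0 Y hY1 hY2 le_rfl le_rfl
      (by
        rw [e1]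
        exact hm.trans hlt.le) (by
        rw [add_zero]
        exact hr)
    rw [add_zero, Real.log_one, mul_zero, zero_div, add_zero] at h3
    exact h3
  · push Not at hc
    have key : ∀ ε : ℝ, 0 < ε → m Y ≤
        (max 0 (1 - 2 * (Y - 1) / b + 2 * Real.log (1 + 3 * θ * ε) / (θ * b))) ^ ((N : ℝ) / 2) := by
      intro ε hε
      obtain ⟨η, hη1, hη2, hη3, hη4⟩ := hET1 N b m ν hD θ a ε hθ hθ2 ha3 ha1 hε
      have hm1 := hONA N b θ m ν hN hb hθ hθ2 h1 h2 hD a ε η ha3 ha1 hε hc hη1 hη2 hη3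
        (max (η 1) (Real.exp (-θ / 2))) (le_max_left _ _) (le_max_right _ _)
      have hδ : 0 ≤ 3 * θ * ε := by positivity
      refine hONB N b θ m ν hN hb hθ hθ2 h1 h2 hD (max (η 1) (Real.exp (-θ / 2))) (3 * θ * ε) Y
        hY1 hY2 hδ (le_max_right _ _) hm1 ?_
      have hmom := hMOM N b m ν hD θ a hθ hθ2 ha Y hY1 hY2
      rcases le_total (η 1) (Real.exp (-θ / 2)) with h | h
      · rw [max_eq_right h]
        linarith
      · rw [max_eq_left h]
        linarith
    have hcont : ContinuousAt (fun ε : ℝ =>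
        (max 0 (1 - 2 * (Y - 1) / b + 2 * Real.log (1 + 3 * θ * ε) / (θ * b))) ^ ((N : ℝ) / 2))
        0 := by
      have hl : ContinuousAt (fun ε : ℝ => Real.log (1 + 3 * θ * ε)) 0 := by
        apply ContinuousAt.log
        · fun_prop
        · norm_num
      have hi : ContinuousAt (fun ε : ℝ =>
          max 0 (1 - 2 * (Y - 1) / b + 2 * Real.log (1 + 3 * θ * ε) / (θ * b))) 0 := by
        exact continuousAt_const.sup
          (continuousAt_const.add ((continuousAt_const.mul hl).div_const _))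
      exact hi.rpow_const (Or.inr (by positivity))
    have hlim : Tendsto (fun ε : ℝ =>
        (max 0 (1 - 2 * (Y - 1) / b + 2 * Real.log (1 + 3 * θ * ε) / (θ * b))) ^ ((N : ℝ) / 2))
        (𝓝[>] 0) (𝓝 ((max 0 (1 - 2 * (Y - 1) / b)) ^ ((N : ℝ) / 2))) := by
      have h3 := hcont.tendsto
      simp only [mul_zero, add_zero, Real.log_one, zero_div] at h3
      exact tendsto_nhdsWithin_of_tendsto_nhds h3
    refine ge_of_tendsto hlim ?_
    filter_upwards [self_mem_nhdsWithin] with ε hε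
    exact key ε hε

end Pool.Agent.RTC
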