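import Pool.Agent.RTC.St4
import Pool.Agent.RTC.ONB

set_option autoImplicit false

/-!
# RTC: module ONB4, above the level 1
-/

namespace Pool.Agent.RTC

open MeasureTheory Set Filter Topology
open scoped ENNReal NNReal

theorem t_ONB4 : S_BR2 → S_KE4 → S_ET2 → S_ONB4 := by
  intro hBR hKE hET N b θ m ν hN hb hθ hθ2 hNb1 hNb2 hD e₀ δ Y hY1 hY2 hδ he hm1 hmom
  have : IsFiniteMeasure ν := ⟨hD.fin⟩
  have hN2 : 2 ≤ N := by omega
  have he₀ : 0 < e₀ := lt_of_lt_of_le (Real.exp_pos _) he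
  have hθb : 0 < θ * b := mul_pos hθ hb
  obtain ⟨E₀, hE₀⟩ : ∃ E₀, E₀ = Real.exp (-(θ * (Y - 1))) := ⟨_, rfl⟩
  have hE₀pos : 0 < E₀ := by rw [hE₀]; exact Real.exp_pos _
  have key : ∀ ε : ℝ, 0 < ε →
      m Y ≤ (max 0 (1 - 2 * (-(1 / θ) * Real.log (E₀ * (1 + δ) + θ * ε)) / b)) ^ ((N : ℝ) / 2) := by
    intro ε hε
    obtain ⟨η, hc, h1, hlow, hder, hup⟩ := hET N b m ν hD θ ε e₀ Y hθ hε he₀ hY1 hY2
    have hpos : ∀ y ∈ Icc 1 Y, 0 < η y := fun y hy =>
      lt_of_lt_of_le (mul_pos he₀ (Real.exp_pos _)) (hlow y hy)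
    have hYm : Y ∈ Icc 1 Y := ⟨hY1, le_rfl⟩
    have hmain := hBR N b m ν hN2 hb hD (fun y => -(1 / θ) * Real.log (η y)) 1 Y zero_le_one
      ?_ ?_ ?_ Y hYm
    · refine hmain.trans (Real.rpow_le_rpow (le_max_left _ _) ?_ (by positivity))
      refine max_le_max le_rfl ?_
      have h2 : η Y ≤ E₀ * (1 + δ) + θ * ε := by
        rw [← hE₀] at hup
        have h3 := mul_le_mul_of_nonneg_left hmom hE₀pos.le
        linarith
      have h6 := Real.log_le_log (hpos Y hYm) h2
      have h8 : 1 / θ * Real.log (η Y) ≤ 1 / θ * Real.log (E₀ * (1 + δ) + θ * ε) :=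
        mul_le_mul_of_nonneg_left h6 (by positivity)
      have h7 : 2 * (-(1 / θ) * Real.log (E₀ * (1 + δ) + θ * ε)) / b ≤
          2 * (-(1 / θ) * Real.log (η Y)) / b :=
        div_le_div_of_nonneg_right (by linarith) hb.le
      linarith
    · intro y hy
      exact ((hc y hy).log (hpos y hy).ne').const_mul (-(1 / θ))
    · rw [h1]
      refine hm1.trans (le_of_eq ?_)
      congr 2
      field_simp
      ring
    · intro y hy r hr0 hr1 hr2 hmr
      have hyI : y ∈ Icc 1 Y := ⟨hy.1, hy.2.le⟩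
      have hy0 : 0 < y := lt_of_lt_of_le zero_lt_one hy.1
      have hη := hpos y hyI
      refine ⟨-(1 / θ) * ((θ * (S0 ν y + ε - η y)) / η y), 1, one_pos,
        ((hder y hy).log hη.ne').const_mul (-(1 / θ)), ?_⟩
      have hz : b / 2 * (1 - r ^ 2) = -(1 / θ) * Real.log (η y) := by
        rw [hr2]
        field_simp
        ring
      have hzle : -(1 / θ) * Real.log (η y) ≤ y - 1 / 2 := by
        have h2 : Real.exp (-θ / 2) * Real.exp (-(θ * (y - 1))) ≤ η y :=
          (mul_le_mul_of_nonneg_right he (Real.exp_pos _).le).trans (hlow y hyI)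
        rw [← Real.exp_add] at h2
        have h3 := Real.log_le_log (Real.exp_pos _) h2
        rw [Real.log_exp] at h3
        have h4 : 1 / θ * (-θ / 2 + -(θ * (y - 1))) ≤ 1 / θ * Real.log (η y) :=
          mul_le_mul_of_nonneg_left h3 (by positivity)
        have h5 : 1 / θ * (-θ / 2 + -(θ * (y - 1))) = -(y - 1 / 2) := by
          field_simp
          ring
        linarith
      have hexp : Real.exp (θ * (-(1 / θ) * Real.log (η y))) = (η y)⁻¹ := by
        have : θ * (-(1 / θ) * Real.log (η y)) = -Real.log (η y) := by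
          field_simp
        rw [this, Real.exp_neg, Real.exp_log hη]
      have hI : ∫ z in Ioi y, (2 * r - 1 * z) ∂ν ≤ (η y)⁻¹ * r ^ N * S0 ν y := by
        unfold S0
        rw [← integral_const_mul]
        refine setIntegral_mono_on
          ((integrable_const (2 * r)).sub (hD.int.const_mul 1)).integrableOn
          ((onb28_int ν 2 y (by norm_num) hy0).const_mul _) measurableSet_Ioi fun z hz' => ?_
        have hyz : y < z := hz'
        have h3 := hKE N b θ r z hN2 hb hθ hθ2 hNb1 hNb2 hr0 hr1 (by linarith [hy.1])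
          (by rw [hz]; linarith)
        rw [hz, hexp] at h3
        have h4 : (η y)⁻¹ * r ^ N * (2 - z) ≤ (η y)⁻¹ * r ^ N * max 0 (2 - z) :=
          mul_le_mul_of_nonneg_left (le_max_right _ _) (by positivity)
        linarith
      have hrN : 0 < r ^ N := pow_pos hr0 N
      have h4 : (∫ z in Ioi y, (2 * r - 1 * z) ∂ν) / r ^ N ≤ (η y)⁻¹ * S0 ν y := by
        rw [div_le_iff₀ hrN]
        linarith
      have h5 : -(1 / θ) * ((θ * (S0 ν y + ε - η y)) / η y) =
          1 - (η y)⁻¹ * S0 ν y - ε / η y := by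
        field_simp
        ring
      rw [h5]
      have h6 : 0 < ε / η y := div_pos hε hη
      have h7 : (2 * 1 - 1 ^ 2 - 1 * (∫ z in Ioi y, (2 * r - 1 * z) ∂ν) / r ^ N : ℝ) =
          1 - (∫ z in Ioi y, (2 * r - 1 * z) ∂ν) / r ^ N := by
        ring
      rw [h7]
      linarith
  -- the limit
  have hlim : Tendsto (fun ε : ℝ =>
      (max 0 (1 - 2 * (-(1 / θ) * Real.log (E₀ * (1 + δ) + θ * ε)) / b)) ^ ((N : ℝ) / 2)) (𝓝[>] 0)
      (𝓝 ((max 0 (1 - 2 * (-(1 / θ) * Real.log (E₀ * (1 + δ) + θ * 0)) / b)) ^ ((N : ℝ) / 2))) := by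
    have hca : ContinuousAt (fun ε : ℝ =>
        (max 0 (1 - 2 * (-(1 / θ) * Real.log (E₀ * (1 + δ) + θ * ε)) / b)) ^ ((N : ℝ) / 2)) 0 := by
      refine ContinuousAt.rpow_const ?_ (Or.inr (by positivity))
      refine Filter.Tendsto.max tendsto_const_nhds ?_
      change ContinuousAt (fun ε : ℝ =>
        1 - 2 * (-(1 / θ) * Real.log (E₀ * (1 + δ) + θ * ε)) / b) 0
      refine ContinuousAt.sub continuousAt_const ?_
      refine ContinuousAt.div_const ?_ _
      refine ContinuousAt.mul continuousAt_const ?_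
      refine ContinuousAt.mul continuousAt_const ?_
      refine ContinuousAt.log (by fun_prop) ?_
      simp only [mul_zero, add_zero]
      exact (mul_pos hE₀pos (by linarith)).ne'
    exact hca.tendsto.mono_left nhdsWithin_le_nhds
  have hfin : 1 - 2 * (-(1 / θ) * Real.log (E₀ * (1 + δ) + θ * 0)) / b =
      1 - 2 * (Y - 1) / b + 2 * Real.log (1 + δ) / (θ * b) := by
    rw [mul_zero, add_zero, Real.log_mul hE₀pos.ne' (by linarith), hE₀, Real.log_exp]
    field_simp
    ring
  rw [hfin] at hlim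
  exact ge_of_tendsto hlim (eventually_nhdsWithin_of_forall fun ε hε => key ε hε)

end Pool.Agent.RTC
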