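import Pool.Agent.RTC.St4
import Pool.Agent.RTC.SC2

set_option autoImplicit false

/-!
# RTC_SC4: comparison of the distribution functions, fourth version
-/

namespace Pool.Agent.RTC

open MeasureTheory Set Filter Topology
open scoped ENNReal NNReal

open SC2 in
theorem t_SC4 : S_DI2 → S_NNG → S_TW4 → S_SC4 := by
  intro hDIF hNNG hTWO N hN3 Ω σ β R u g w hβ hR hb hΩo hΩb hΩv hσ hu t ht
  have hN : 2 ≤ N := by omega
  have hN0 : (0 : ℝ) < N := by positivity
  have hNne : (N : ℝ) ≠ 0 := hN0.ne'
  set v0 : ℝ := R / (N * β) with hv0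
  have hv0p : 0 < v0 := by positivity
  set b : ℝ := β * R with hbdef
  have hbp : 0 < b := by positivity
  set ω := om N with hω
  have hωp : 0 < ω := om_pos N
  have hMv : (volume Ω).toReal = ω * R ^ N := vol hR hΩv
  set M : ℝ := ω * R ^ N with hM
  have hMp : 0 < M := by positivity
  have hΩf : volume Ω ≠ ⊤ := by rw [hΩv]; exact measure_ball_lt_top.ne
  have : IsFiniteMeasure σ := ⟨hσ.finite⟩
  obtain ⟨hw0, hflux⟩ := hNNG N Ω σ β u g w hβ hΩo hΩb hσ hu
  have hwm : AEMeasurable w σ := hu.w_mem.aestronglyMeasurable.aemeasurable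
  have hwi : Integrable w σ := hu.w_mem.integrable one_le_two
  have hfm : AEMeasurable (fun x => w x / v0) σ := hwm.div_const v0
  set c : ℝ := 1 / (N * ω * R ^ (N - 1)) with hc
  have hcp : 0 < c := by positivity
  set ν : Measure ℝ := ENNReal.ofReal c • σ.map (fun x => w x / v0) with hν
  set m : ℝ → ℝ := fun y => mu Ω u (v0 * y) / M with hm
  have hRN : R ^ N = R * R ^ (N - 1) := by
    conv_lhs => rw [← Nat.sub_add_cancel (by omega : 1 ≤ N), pow_succ, mul_comm]
  -- integrals against nu
  have hint : ∀ F : ℝ → ℝ, Measurable F → ∫ z, F z ∂ν = c * ∫ x, F (w x / v0) ∂σ := by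
    intro F hF
    rw [hν, integral_smul_measure, ENNReal.toReal_ofReal hcp.le,
      integral_map hfm hF.aestronglyMeasurable, smul_eq_mul]
  have hData : Data2 N b m ν := by
    refine ⟨?_, ?_, ?_, ?_, ?_, ?_, ?_, ?_⟩
    · intro x _ y _ hxy
      exact div_le_div_of_nonneg_right (mu_anti hΩf u (mul_le_mul_of_nonneg_left hxy hv0p.le)) hMp.le
    · intro y
      exact div_nonneg (mu_nonneg _ _ _) hMp.le
    · intro y
      rw [hm]
      simp only
      rw [div_le_one hMp, ← hMv]
      exact mu_le hΩf u _
    · rw [hν, Measure.smul_apply, Measure.map_apply_of_aemeasurable hfm MeasurableSet.univ,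
        smul_eq_mul]
      exact ENNReal.mul_lt_top ENNReal.ofReal_lt_top (measure_lt_top _ _)
    · rw [hν, Measure.smul_apply, Measure.map_apply_of_aemeasurable hfm measurableSet_Iio,
        smul_eq_mul]
      have : σ ((fun x => w x / v0) ⁻¹' Iio 0) = 0 := by
        rw [measure_eq_zero_iff_ae_notMem]
        filter_upwards [hw0] with x hx h
        have h' : w x / v0 < 0 := h
        exact absurd (div_nonneg hx hv0p.le) (not_le.mpr h')
      rw [this, mul_zero]
    · rw [hν]
      refine Integrable.smul_measure ?_ ENNReal.ofReal_ne_top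
      exact (integrable_map_measure (f := fun x => w x / v0) (g := fun y : ℝ => y)
        measurable_id.aestronglyMeasurable hfm).mpr (hwi.div_const v0)
    · rw [hint (fun y => y) measurable_id, integral_div]
      have e1 : ∫ x, w x ∂σ = M / β := by
        rw [eq_div_iff hβ.ne', mul_comm, hflux, hMv]
      rw [e1, hc, hv0, hM, hRN]
      apply le_of_eq
      field_simp
    · intro y h s hy hh hs
      have hD := hDIF N hN Ω σ β u g w hβ hΩo hΩb hσ hu (v0 * y) (v0 * h) (N / R * s)
        (by positivity) (by positivity)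
      have eI : (∫ x, (if v0 * y < w x then
            max 0 (2 * (N / R * s) - (N / R * s) ^ 2 * β * w x) else 0) ∂σ)
          = N / R * (∫ x, (Ioi y).indicator (fun z => max 0 (2 * s - s ^ 2 * z)) (w x / v0) ∂σ) := by
        rw [← integral_const_mul]
        refine integral_congr_ae (Eventually.of_forall fun x => ?_)
        simp only
        have e2 : v0 * y < w x ↔ w x / v0 ∈ Ioi y := by
          rw [mem_Ioi, lt_div_iff₀ hv0p, mul_comm]
        by_cases hx : v0 * y < w x
        · rw [if_pos hx, indicator_of_mem (e2.mp hx)]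
          have e3 : 2 * (N / R * s) - (N / R * s) ^ 2 * β * w x
              = N / R * (2 * s - s ^ 2 * (w x / v0)) := by
            rw [hv0]; field_simp
          rw [e3, mul_max_of_nonneg _ _ (by positivity : (0 : ℝ) ≤ N / R), mul_zero]
        · rw [if_neg hx, indicator_of_notMem (fun h => hx (e2.mpr h)), mul_zero]
      have eJ : ∫ z in Ioi y, max 0 (2 * s - s ^ 2 * z) ∂ν
          = c * ∫ x, (Ioi y).indicator (fun z => max 0 (2 * s - s ^ 2 * z)) (w x / v0) ∂σ := by
        rw [← integral_indicator measurableSet_Ioi]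
        refine hint _ ?_
        refine Measurable.indicator ?_ measurableSet_Ioi
        fun_prop
      have eI2 : (∫ x, (if v0 * y + v0 * h ≤ w x then
            max 0 ((N / R * s) ^ 2 * β * w x - 2 * (N / R * s)) else 0) ∂σ)
          = N / R * (∫ x, (Ici (y + h)).indicator (fun z => max 0 (s ^ 2 * z - 2 * s))
            (w x / v0) ∂σ) := by
        rw [← integral_const_mul]
        refine integral_congr_ae (Eventually.of_forall fun x => ?_)
        simp only
        have e2 : v0 * y + v0 * h ≤ w x ↔ w x / v0 ∈ Ici (y + h) := by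
          have e0 : (y + h) * v0 = v0 * y + v0 * h := by ring
          rw [mem_Ici, le_div_iff₀ hv0p, e0]
        by_cases hx : v0 * y + v0 * h ≤ w x
        · rw [if_pos hx, indicator_of_mem (e2.mp hx)]
          have e3 : (N / R * s) ^ 2 * β * w x - 2 * (N / R * s)
              = N / R * (s ^ 2 * (w x / v0) - 2 * s) := by
            rw [hv0]; field_simp
          rw [e3, mul_max_of_nonneg _ _ (by positivity : (0 : ℝ) ≤ N / R), mul_zero]
        · rw [if_neg hx, indicator_of_notMem (fun h => hx (e2.mpr h)), mul_zero]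
      have eJ2 : ∫ z in Ici (y + h), max 0 (s ^ 2 * z - 2 * s) ∂ν
          = c * ∫ x, (Ici (y + h)).indicator (fun z => max 0 (s ^ 2 * z - 2 * s))
            (w x / v0) ∂σ := by
        rw [← integral_indicator measurableSet_Ici]
        refine hint _ ?_
        refine Measurable.indicator ?_ measurableSet_Ici
        fun_prop
      have hmu : ∀ y, mu Ω u (v0 * y) = M * m y := by
        intro y
        rw [hm]
        simp only
        field_simp
      have hexp : M ^ (1 - 1 / (N : ℝ)) * gam N = N * ω * R ^ (N - 1) := by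
        rw [hM, gam, ← hω, Real.mul_rpow hωp.le (by positivity)]
        have e4 : (R ^ N : ℝ) ^ (1 - 1 / (N : ℝ)) = R ^ (N - 1) := by
          rw [← Real.rpow_natCast, ← Real.rpow_mul hR.le, ← Real.rpow_natCast R (N - 1)]
          congr 1
          rw [Nat.cast_sub (by omega)]
          push_cast
          field_simp
        rw [e4]
        have e5 : ω ^ (1 - 1 / (N : ℝ)) * ω ^ (1 / (N : ℝ)) = ω := by
          rw [← Real.rpow_add hωp]
          simp
        calc ω ^ (1 - 1 / (N : ℝ)) * R ^ (N - 1) * (N * ω ^ (1 / (N : ℝ)))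
            = N * (ω ^ (1 - 1 / (N : ℝ)) * ω ^ (1 / (N : ℝ))) * R ^ (N - 1) := by ring
          _ = N * ω * R ^ (N - 1) := by rw [e5]
      have hm0 : 0 ≤ m (y + h) := div_nonneg (mu_nonneg _ _ _) hMp.le
      rw [eI, eI2, ← mul_add, hmu, hmu, Real.mul_rpow hMp.le hm0] at hD
      rw [eJ, eJ2]
      set J2 := ∫ x, (Ici (y + h)).indicator (fun z => max 0 (s ^ 2 * z - 2 * s)) (w x / v0) ∂σ
        with hJ2
      set J := ∫ x, (Ioi y).indicator (fun z => max 0 (2 * s - s ^ 2 * z)) (w x / v0) ∂σ with hJ
      set P := (m (y + h)) ^ (1 - 1 / (N : ℝ)) with hP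
      have e6 : 2 * (N / R * s) * gam N * (M ^ (1 - 1 / (N : ℝ)) * P)
          = 2 * (N / R * s) * (N * ω * R ^ (N - 1)) * P := by
        rw [← hexp]; ring
      rw [e6] at hD
      set Q := R ^ (N - 1) with hQ
      have hQp : 0 < Q := by positivity
      have hM' : M = ω * (R * Q) := by rw [hM, hRN]
      rw [hM'] at hD
      have e7 : (M * m y - M * m (y + h)) / (v0 * h)
          = N * β * ω * Q * ((m y - m (y + h)) / h) := by
        rw [hM', hv0]; field_simp
      rw [← hM', e7] at hD
      have e8 : (N : ℝ) / b * (2 * s * P - s ^ 2 * m y - c * J + c * J2)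
          = (2 * (N / R * s) * (N * ω * Q) * P - (N / R * s) ^ 2 * (M * m y) - N / R * J
            + N / R * J2) / (N * β * ω * Q) := by
        rw [hM', hbdef, hc]; field_simp
      rw [e8, div_le_iff₀ (by positivity)]
      linarith [hD]
  have hY : 1 ≤ t / v0 := by rwa [le_div_iff₀ hv0p, one_mul]
  have h2 := hTWO N b m ν hN3 hbp hb hData (t / v0) hY
  have e9 : mu Ω u t = M * m (t / v0) := by
    rw [hm]
    simp only
    rw [mul_div_cancel₀ _ hv0p.ne']
    field_simp
  have e10 : max 0 (R ^ 2 - 2 * N * (t - v0)) = R ^ 2 * max 0 (1 - 2 * (t / v0 - 1) / b) := by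
    rw [mul_max_of_nonneg _ _ (by positivity : (0 : ℝ) ≤ R ^ 2), mul_zero]
    congr 1
    rw [hbdef, hv0]
    field_simp
  rw [e9, e10, Real.mul_rpow (by positivity) (le_max_left _ _)]
  have e11 : (R ^ 2 : ℝ) ^ ((N : ℝ) / 2) = R ^ N := by
    rw [← Real.rpow_natCast, ← Real.rpow_mul hR.le, ← Real.rpow_natCast R N]
    congr 1
    push_cast
    ring
  rw [e11, ← mul_assoc]
  exact mul_le_mul_of_nonneg_left h2 hMp.le

end Pool.Agent.RTC
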