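import Pool.Agent.RTC.St4
import Pool.Agent.RTC.TW2

/-!
Project RTC, fourth version, module TW4: the claim for all Y at least 1.
-/

set_option autoImplicit false

namespace Pool.Agent.RTC

open MeasureTheory Set Filter Topology
open scoped ENNReal NNReal

namespace TW4

theorem theta (N : ℕ) (b : ℝ) (hN : 3 ≤ N) (hb0 : 0 < b) (hb : Rng N (2 * b)) :
    0 < min 2 ((N : ℝ) / b) ∧ min 2 ((N : ℝ) / b) ≤ 2 ∧
      Rng N (min 2 ((N : ℝ) / b) * b) ∧ min 2 ((N : ℝ) / b) * b ≤ N := by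
  have hN' : (3 : ℝ) ≤ N := by exact_mod_cast hN
  have hq : 0 < (N : ℝ) / b := by positivity
  have hqb : (N : ℝ) / b * b = N := by field_simp
  refine ⟨lt_min (by norm_num) hq, min_le_left _ _, ?_, ?_⟩
  · rcases min_choice (2 : ℝ) ((N : ℝ) / b) with h | h
    · rw [h]
      exact hb
    · rw [h, hqb]
      left
      linarith
  · calc min 2 ((N : ℝ) / b) * b ≤ (N : ℝ) / b * b :=
        mul_le_mul_of_nonneg_right (min_le_right _ _) hb0.le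
      _ = N := hqb

theorem two (hON2 : S_ON4) (N : ℕ) (b : ℝ) (m : ℝ → ℝ) (ν : Measure ℝ)
    (hN : 3 ≤ N) (hb0 : 0 < b) (hb : Rng N (2 * b)) (hD : Data2 N b m ν) (Y : ℝ) (h1 : 1 ≤ Y)
    (h2 : Y ≤ 2) : m Y ≤ (max 0 (1 - 2 * (Y - 1) / b)) ^ ((N : ℝ) / 2) := by
  obtain ⟨t1, t2, t3, t4⟩ := theta N b hN hb0 hb
  exact hON2 N b (min 2 ((N : ℝ) / b)) m ν hN hb0 t1 t2 t3 t4 hD Y h1 h2

theorem step (hBR2 : S_BR2) (hON2 : S_ON4) (N : ℕ) (b : ℝ) (m : ℝ → ℝ) (ν : Measure ℝ)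
    (hN : 3 ≤ N) (hb0 : 0 < b) (hb : Rng N (2 * b)) (hD : Data2 N b m ν) (Y : ℝ) (hY : 2 ≤ Y) (ε : ℝ)
    (hε : 0 < ε) :
    m Y ≤ (max 0 (1 - 2 * (1 + (1 - ε) * (Y - 2)) / b)) ^ ((N : ℝ) / 2) := by
  have h2 := two hON2 N b m ν hN hb0 hb hD 2 (by norm_num) le_rfl
  refine hBR2 N b m ν (by omega) hb0 hD (fun y => 1 + (1 - ε) * (y - 2)) 2 Y (by norm_num)
    ?_ ?_ ?_ Y ⟨hY, le_rfl⟩
  · fun_prop
  · have e : (1 : ℝ) - 2 * (1 + (1 - ε) * (2 - 2)) / b = 1 - 2 * (2 - 1) / b := by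
      norm_num
    simp only [e]
    exact h2
  · intro y hy r hr0 hr1 _ _
    refine ⟨1 - ε, 1, one_pos, ?_, ?_⟩
    · have h : HasDerivAt (fun y : ℝ => 1 + (1 - ε) * (y - 2)) ((1 - ε) * 1) y :=
        (((hasDerivAt_id y).sub_const 2).const_mul (1 - ε)).const_add 1
      rw [mul_one] at h
      exact h.hasDerivWithinAt
    · have hI := TW2.int_nonpos ν y r hy.1 hr1
      have hr : 0 < r ^ N := pow_pos hr0 N
      have h3 : 1 * (∫ z in Ioi y, (2 * r - 1 * z) ∂ν) / r ^ N ≤ 0 := by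
        rw [one_mul]
        exact div_nonpos_of_nonpos_of_nonneg hI hr.le
      linarith

end TW4

theorem t_TW4 : S_BR2 → S_ON4 → S_TW4 := by
  intro hBR2 hON2 N b m ν hN hb0 hb hD Y hY
  rcases le_total Y 2 with h2 | h2
  · exact TW4.two hON2 N b m ν hN hb0 hb hD Y hY h2
  · have hN' : (3 : ℝ) ≤ N := by exact_mod_cast hN
    have hc : Continuous (fun ε : ℝ =>
        (max 0 (1 - 2 * (1 + (1 - ε) * (Y - 2)) / b)) ^ ((N : ℝ) / 2)) := by
      apply Continuous.rpow_const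
      · fun_prop
      · intro x
        right
        positivity
    have ht : Tendsto (fun ε : ℝ =>
        (max 0 (1 - 2 * (1 + (1 - ε) * (Y - 2)) / b)) ^ ((N : ℝ) / 2)) (𝓝[>] 0)
        (𝓝 ((max 0 (1 - 2 * (1 + (1 - (0:ℝ)) * (Y - 2)) / b)) ^ ((N : ℝ) / 2))) :=
      (hc.tendsto 0).mono_left nhdsWithin_le_nhds
    have e : (1 : ℝ) - 2 * (1 + (1 - (0:ℝ)) * (Y - 2)) / b = 1 - 2 * (Y - 1) / b := by
      ring
    rw [e] at ht
    apply ge_of_tendsto ht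
    filter_upwards [self_mem_nhdsWithin] with ε hε
    exact TW4.step hBR2 hON2 N b m ν hN hb0 hb hD Y h2 ε hε

end Pool.Agent.RTC
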