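import Pool.Agent.RTC.St5
import Pool.Agent.RTC.KE4

/-!
# RTC_KE5: the key inequality, range `N - 3/2 ≤ θ b`
-/

set_option autoImplicit false

namespace Pool.Agent.RTC

open Real

theorem ke5_two (N : ℕ) (b θ r x : ℝ) (hB : 0 < θ * b) (hbN : θ * b ≤ N) (hr : 0 < r)
    (hr1 : r ≤ 1) (h2x : 2 ≤ x) :
    2 * r - x ≤ Real.exp (θ * (b / 2 * (1 - r ^ 2))) * r ^ N * (2 - x) := by
  obtain ⟨z, hz⟩ : ∃ z : ℝ, z = b / 2 * (1 - r ^ 2) := ⟨_, rfl⟩
  rw [← hz]
  have hbz : θ * b * (1 - r ^ 2) = 2 * (θ * z) := by rw [hz]; ring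
  have hE : 0 < Real.exp (θ * z) := Real.exp_pos _
  have h1 : Real.exp (θ * z) * r ^ N ≤ 1 := by
    have h3 : r ^ (N : ℝ) ≤ r ^ (θ * b) := Real.rpow_le_rpow_of_exponent_ge hr hr1 hbN
    rw [Real.rpow_natCast, Real.rpow_def_of_pos hr] at h3
    have h4 : Real.exp (θ * z) * Real.exp (Real.log r * (θ * b)) ≤ 1 := by
      rw [← Real.exp_add, Real.exp_le_one_iff]
      have h5 : Real.log (r ^ 2) ≤ r ^ 2 - 1 := Real.log_le_sub_one_of_pos (by positivity)
      rw [Real.log_pow] at h5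
      push_cast at h5
      have h6 := mul_le_mul_of_nonneg_left h5 hB.le
      nlinarith
    have h7 := mul_le_mul_of_nonneg_left h3 hE.le
    linarith
  have h8 := mul_le_mul_of_nonneg_right h1 (by linarith : (0 : ℝ) ≤ x - 2)
  have h9 : Real.exp (θ * z) * r ^ N * (2 - x) = -(Real.exp (θ * z) * r ^ N * (x - 2)) := by ring
  rw [h9]
  linarith

theorem t_KE5 : S_KE5 := by
  intro N b θ r x hN hb hθ hθ2 hNb hbN hr hr1 hx hζ
  have hB : 0 < θ * b := mul_pos hθ hb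
  have hr2 : 0 ≤ 1 - r ^ 2 := by nlinarith
  rcases le_or_gt 2 x with h2x | hx2
  · exact ke5_two N b θ r x hB hbN hr hr1 h2x
  have hrN : 0 < r ^ N := pow_pos hr N
  rcases hNb with hNb | ⟨h3, hNb⟩
  · obtain ⟨z, hz⟩ : ∃ z : ℝ, z = b / 2 * (1 - r ^ 2) := ⟨_, rfl⟩
    obtain ⟨q, hq⟩ : ∃ q : ℝ, q = Real.exp (θ * z + (θ * b + 1 / 2) * Real.log r) := ⟨_, rfl⟩
    rw [← hz] at hζ ⊢
    have hz0 : 0 ≤ z := by rw [hz]; positivity
    have hlog := k88_log r hr hr1
    have hbz : θ * b * (1 - r ^ 2) = 2 * (θ * z) := by rw [hz]; ring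
    have hE : 0 < Real.exp (θ * z) := Real.exp_pos _
    rcases le_or_gt (2 * r) x with h1 | h1
    · have : 0 ≤ Real.exp (θ * z) * r ^ N * (2 - x) :=
        mul_nonneg (mul_pos hE hrN).le (by linarith)
      linarith
    have h2 : r * Real.exp ((θ * b + 1 / 2) * Real.log r) ≤ r ^ N := by
      have h3 : r ^ ((θ * b + 1 / 2) + 1) ≤ r ^ (N : ℝ) :=
        Real.rpow_le_rpow_of_exponent_ge hr hr1 (by linarith)
      rw [Real.rpow_natCast, Real.rpow_add hr, Real.rpow_one, Real.rpow_def_of_pos hr] at h3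
      rw [mul_comm (θ * b + 1 / 2)]
      linarith
    have h4 : r * q ≤ Real.exp (θ * z) * r ^ N := by
      rw [hq, Real.exp_add]
      have := mul_le_mul_of_nonneg_left h2 hE.le
      linarith
    have h5 : 1 - q ≤ -(θ * z + (θ * b + 1 / 2) * Real.log r) := by
      have := Real.add_one_le_exp (θ * z + (θ * b + 1 / 2) * Real.log r)
      rw [← hq] at this
      linarith
    have h6 : r * (1 - q) ≤ (θ * z + 1 / 2) * (1 - r) := by
      have h7 := mul_le_mul_of_nonneg_left h5 hr.le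
      have h8 := mul_le_mul_of_nonneg_left hlog hB.le
      rw [hbz] at h8
      nlinarith [sq_nonneg (1 - r)]
    have h11 : (θ * z + 1 / 2) * (2 - x) ≤ x := by
      have h14 := mul_le_mul_of_nonneg_right hζ (by linarith : (0 : ℝ) ≤ 2 - x)
      nlinarith [sq_nonneg (x - 1)]
    have h14 : r * (1 - q) * (2 - x) ≤ x * (1 - r) := by
      have h15 := mul_le_mul_of_nonneg_right h6 (by linarith : (0 : ℝ) ≤ 2 - x)
      have h16 := mul_le_mul_of_nonneg_right h11 (by linarith : (0 : ℝ) ≤ 1 - r)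
      linarith
    have h17 := mul_le_mul_of_nonneg_right h4 (by linarith : (0 : ℝ) ≤ 2 - x)
    linarith
  · subst h3
    obtain ⟨e, he⟩ : ∃ e : ℝ, e = Real.exp (θ * (b / 2 * (1 - r ^ 2))) := ⟨_, rfl⟩
    rw [← he]
    have hE : 0 < e := by rw [he]; exact Real.exp_pos _
    have h1 : 2 * r - 1 ≤ e * r ^ 3 := by
      refine (ke4_one r hr hr1).trans ?_
      apply mul_le_mul_of_nonneg_right _ hrN.le
      rw [he]
      apply Real.exp_le_exp.2
      have h7 : 1 * (1 - r ^ 2) ≤ θ * b * (1 - r ^ 2) := mul_le_mul_of_nonneg_right hNb hr2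
      nlinarith
    have h2 := mul_le_mul_of_nonneg_right h1 (by linarith : (0 : ℝ) ≤ 2 - x)
    have h3 : 0 ≤ (x - 1) * (1 - r) := mul_nonneg (by linarith) (by linarith)
    nlinarith

end Pool.Agent.RTC
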