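import Pool.Agent.RTC.St5
import Pool.Agent.RTC.ONA

set_option autoImplicit false

/-!
# RTC: module ONA5 (below the level 1)
-/

namespace Pool.Agent.RTC

open MeasureTheory Set Filter Topology

theorem t_ONA5 : S_BR2 → S_KE5 → S_ONA5 := by
  intro hBR hKE N b θ m ν hN hb hθ hθ2 hNb hbN hD a ε η ha3 ha1 hε hm hc h1 hder e₀ he1 he2
  have ha : 0 < a := by linarith
  have he₀ : 0 < e₀ := lt_of_lt_of_le (Real.exp_pos _) he2
  have hθb : 0 < θ * b := by positivity
  obtain ⟨c₀, hc₀⟩ : ∃ c₀ : ℝ, c₀ = Real.exp (-(θ * b / 2)) := ⟨_, rfl⟩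
  have hc₀pos : 0 < c₀ := by rw [hc₀]; exact Real.exp_pos _
  have hc₀1 : c₀ ≤ 1 := by
    rw [hc₀]
    exact Real.exp_le_one_iff.2 (by linarith)
  have hmaxpos : ∀ y, 0 < max (η y) c₀ := fun y => lt_max_of_lt_right hc₀pos
  have hmain := hBR N b m ν (by omega) hb hD (fun y => -(1 / θ * Real.log (max (η y) c₀))) a 1
    ha.le ?_ ?_ ?_ 1 ⟨ha1.le, le_rfl⟩
  · refine hmain.trans (Real.rpow_le_rpow (le_max_left _ _) ?_ (by positivity))
    refine max_le (le_max_left _ _) ?_
    have h4 : 1 - 2 * (-(1 / θ * Real.log (max (η 1) c₀))) / b =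
        1 + 2 * Real.log (max (η 1) c₀) / (θ * b) := by
      field_simp
      ring
    rw [h4]
    rcases le_total c₀ (η 1) with hcc | hcc
    · rw [max_eq_left hcc]
      have h3 := Real.log_le_log (lt_of_lt_of_le hc₀pos hcc) he1
      have h5 : 2 * Real.log (η 1) / (θ * b) ≤ 2 * Real.log e₀ / (θ * b) :=
        div_le_div_of_nonneg_right (by linarith) hθb.le
      exact le_max_of_le_right (by linarith)
    · rw [max_eq_right hcc]
      refine le_max_of_le_left (le_of_eq ?_)
      rw [hc₀, Real.log_exp]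
      field_simp
      ring
  · apply ContinuousOn.neg
    apply ContinuousOn.mul continuousOn_const
    apply ContinuousOn.log (hc.sup continuousOn_const)
    intro x _
    exact (hmaxpos x).ne'
  · have e : max (η a) c₀ = 1 := by rw [h1]; exact max_eq_left hc₀1
    rw [e, Real.log_one, mul_zero, neg_zero, mul_zero, zero_div, sub_zero,
      max_eq_right zero_le_one, Real.one_rpow]
    exact hD.le_one a
  · intro y hy r hr0 hr1 hr2 hmr
    have hy0 : 0 < y := lt_of_lt_of_le ha hy.1
    have hy1 : y < 1 := hy.2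
    have hlogc : Real.log c₀ = -(θ * b / 2) := by rw [hc₀, Real.log_exp]
    -- the touching value
    have hz : b / 2 * (1 - r ^ 2) = -(1 / θ * Real.log (max (η y) c₀)) := by
      rw [hr2]
      field_simp
      ring
    have hlt : Real.log c₀ < Real.log (max (η y) c₀) := by
      have h2 : Real.log (max (η y) c₀) = -(θ * (b / 2 * (1 - r ^ 2))) := by
        rw [hz]
        field_simp
      rw [h2, hlogc]
      have h3 : 0 < θ * b * r ^ 2 := by positivity
      nlinarith
    have hlt2 : c₀ < max (η y) c₀ := (Real.log_lt_log_iff hc₀pos (hmaxpos y)).1 hlt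
    have hηc : c₀ < η y := by
      rcases lt_max_iff.1 hlt2 with h | h
      · exact h
      · exact absurd h (lt_irrefl _)
    have hη : 0 < η y := lt_trans hc₀pos hηc
    have hmax : max (η y) c₀ = η y := max_eq_left hηc.le
    rw [hmax] at hz
    have hz2 : θ * (b / 2 * (1 - r ^ 2)) ≤ 1 / 2 := by
      have h2 := hm y hy
      rw [hmr] at h2
      rcases le_or_gt (1 - 1 / (θ * b)) (r ^ 2) with h3 | h3
      · have h4 : θ * b * (1 - r ^ 2) ≤ θ * b * (1 / (θ * b)) :=
          mul_le_mul_of_nonneg_left (by linarith) hθb.le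
        rw [mul_one_div_cancel hθb.ne'] at h4
        linarith
      · exfalso
        have hr2pos : 0 < r ^ 2 := by positivity
        have h4 : (r ^ 2) ^ ((N : ℝ) / 2) = r ^ N := by
          rw [← Real.rpow_natCast r 2, ← Real.rpow_mul hr0.le, ← Real.rpow_natCast r N]
          congr 1
          push_cast
          ring
        have h5 : (r ^ 2) ^ ((N : ℝ) / 2) < (max 0 (1 - 1 / (θ * b))) ^ ((N : ℝ) / 2) := by
          apply Real.rpow_lt_rpow hr2pos.le _ (by positivity)
          exact lt_max_of_lt_right h3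
        rw [h4] at h5
        linarith
    have hexp : Real.exp (θ * (b / 2 * (1 - r ^ 2))) = (η y)⁻¹ := by
      have e : θ * (b / 2 * (1 - r ^ 2)) = -Real.log (η y) := by
        rw [hz]
        field_simp
      rw [e, Real.exp_neg, Real.exp_log hη]
    refine ⟨-(1 / θ * (θ * (Sm ν y + ε - (2 / y - 1 / y ^ 2) * η y) / η y)), 1 / y, by positivity,
      ?_, ?_⟩
    · have h2 : HasDerivWithinAt (fun x => -(1 / θ * Real.log (η x)))
          (-(1 / θ * (θ * (Sm ν y + ε - (2 / y - 1 / y ^ 2) * η y) / η y))) (Ici y) y :=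
        (((hder y hy).log hη.ne').const_mul (1 / θ)).neg
      refine h2.congr_of_eventuallyEq ?_ (by rw [hmax])
      have h3 : ∀ᶠ x in 𝓝[Ici y] y, c₀ < η x :=
        (hder y hy).continuousWithinAt.eventually (lt_mem_nhds hηc)
      filter_upwards [h3] with x hx
      rw [max_eq_left hx.le]
    · have hrN : 0 < r ^ N := pow_pos hr0 N
      have hI : ∫ z in Ioi y, (2 * r - 1 / y * z) ∂ν ≤
          (η y)⁻¹ * r ^ N * ∫ z in Ioi y, (2 - z / y) ∂ν := by
        rw [← integral_const_mul]
        have hi2 : Integrable (fun z : ℝ => (η y)⁻¹ * r ^ N * (2 - z / y)) ν := by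
          have e : (fun z : ℝ => (η y)⁻¹ * r ^ N * (2 - z / y)) =
              fun z : ℝ => (η y)⁻¹ * r ^ N * (2 - 1 / y * z) := by
            funext z
            ring
          rw [e]
          exact (ona_int hD 2 (1 / y)).const_mul _
        refine setIntegral_mono_on (ona_int hD (2 * r) (1 / y)).integrableOn hi2.integrableOn
          measurableSet_Ioi fun z hz' => ?_
        have hyz : y < z := hz'
        have hx1 : 1 ≤ z / y := by rw [le_div_iff₀ hy0]; linarith
        have h3 := hKE N b θ r (z / y) (by omega) hb hθ hθ2 hNb hbN hr0 hr1 hx1 (by linarith)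
        rw [hexp] at h3
        have e : 1 / y * z = z / y := by ring
        rw [e]
        exact h3
      have h4 : (∫ z in Ioi y, (2 * r - 1 / y * z) ∂ν) / r ^ N ≤
          (η y)⁻¹ * ∫ z in Ioi y, (2 - z / y) ∂ν := by
        rw [div_le_iff₀ hrN]
        linarith
      have h5 : 1 / y * ((∫ z in Ioi y, (2 * r - 1 / y * z) ∂ν) / r ^ N) ≤
          (η y)⁻¹ * Sm ν y := by
        unfold Sm
        have h6 := mul_le_mul_of_nonneg_left h4 (by positivity : (0 : ℝ) ≤ 1 / y)
        refine h6.trans (le_of_eq ?_)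
        ring
      have h6 : -(1 / θ * (θ * (Sm ν y + ε - (2 / y - 1 / y ^ 2) * η y) / η y)) =
          2 / y - 1 / y ^ 2 - (η y)⁻¹ * Sm ν y - ε / η y := by
        field_simp
        ring
      have h7 : 0 < ε / η y := div_pos hε hη
      have h8 : 2 * (1 / y) - (1 / y) ^ 2 = 2 / y - 1 / y ^ 2 := by
        field_simp
      rw [h6, h8, mul_div_assoc]
      linarith

end Pool.Agent.RTC
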