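import Pool.Agent.RTC.St5
import Pool.Agent.RTC.NU2
import Pool.Agent.RTC.RST

/-!
# RTC_RST5: the inequality after a restart, with the reduced budget
-/

set_option autoImplicit false

namespace Pool.Agent.RTC

open MeasureTheory Set Filter Topology
open scoped ENNReal NNReal

namespace RST5

theorem co_nonneg : 0 ≤ 1 - Real.exp (-1) := by
  have h : Real.exp (-1) ≤ 1 := by
    rw [Real.exp_le_one_iff]
    norm_num
  linarith

theorem key (θ : ℝ) (hθ2 : θ ≤ 2) (z : ℝ) (hz : 1 ≤ z) :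
    max 0 (2 - z) * (Real.exp (θ * (z - 1)) - 1) ≤ (1 - Real.exp (-1)) * z := by
  rcases le_or_gt 2 z with h | h
  · rw [max_eq_left (by linarith), zero_mul]
    exact mul_nonneg co_nonneg (by linarith)
  · rw [max_eq_right (by linarith)]
    have h1 := NU2aux.core (z - 1) (by linarith) (by linarith)
    have e1 : 1 - (z - 1) = 2 - z := by ring
    have e2 : 1 + (z - 1) = z := by ring
    rw [e1, e2] at h1
    refine le_trans (mul_le_mul_of_nonneg_left ?_ (by linarith)) h1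
    have h2 : Real.exp (θ * (z - 1)) ≤ Real.exp (2 * (z - 1)) :=
      Real.exp_le_exp.2 (mul_le_mul_of_nonneg_right hθ2 (by linarith))
    linarith

theorem inner_le (θ : ℝ) (hθ : 0 < θ) (hθ2 : θ ≤ 2) (Y z : ℝ) :
    ∫ x in Ioc 1 Y, RST.F θ (x, z) ≤
      (1 - Real.exp (-1)) * (Ioi (1 : ℝ)).indicator (fun z => z) z := by
  have h1 : ∀ x, RST.F θ (x, z) =
      (Iio z).indicator (fun x => θ * Real.exp (θ * (x - 1)) * max 0 (2 - z)) x :=
    fun x => RST.F_right θ x z
  simp_rw [h1]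
  rw [setIntegral_indicator measurableSet_Iio]
  have hc : 0 ≤ max 0 (2 - z) := le_max_left _ _
  rcases le_or_gt z 1 with h | h
  · have h2 : Ioc 1 Y ∩ Iio z = ∅ := by
      ext x
      simp only [mem_inter_iff, mem_Ioc, mem_Iio, mem_empty_iff_false, iff_false]
      rintro ⟨⟨h3, -⟩, h4⟩
      linarith
    rw [h2, Measure.restrict_empty, integral_zero_measure,
      indicator_of_notMem (fun h' => not_lt.2 h (mem_Ioi.1 h')), mul_zero]
  · have h2 : ∫ x in Ioc 1 Y ∩ Iio z, θ * Real.exp (θ * (x - 1)) * max 0 (2 - z) ≤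
        ∫ x in Ioc 1 z, θ * Real.exp (θ * (x - 1)) * max 0 (2 - z) := by
      refine setIntegral_mono_set ?_ ?_ ?_
      · exact (((RST.cont_exp θ).mul continuous_const).integrableOn_Icc
          (a := 1) (b := z)).mono_set Ioc_subset_Icc_self
      · exact Eventually.of_forall fun x => mul_nonneg
          (mul_nonneg hθ.le (Real.exp_pos _).le) hc
      · refine LE.le.eventuallyLE ?_
        rintro x ⟨⟨h3, -⟩, h4⟩
        exact ⟨h3, le_of_lt h4⟩
    refine h2.trans ?_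
    rw [← intervalIntegral.integral_of_le h.le, intervalIntegral.integral_mul_const, RST.int_exp,
      mul_comm, indicator_of_mem (mem_Ioi.2 h)]
    exact key θ hθ2 z h.le

theorem main (N : ℕ) (b : ℝ) (m : ℝ → ℝ) (ν : Measure ℝ) (hd : Data2 N b m ν)
    (hlam : ∫ z in Ioi 1, z ∂ν ≤ m 1)
    (θ : ℝ) (hθ : 0 < θ) (hθ2 : θ ≤ 2) (Y : ℝ) (hY : 1 ≤ Y) :
    ∫ x in (1 : ℝ)..Y, θ * Real.exp (θ * (x - 1)) * S0 ν x ≤ (1 - Real.exp (-1)) * m 1 := by
  have hfin : IsFiniteMeasure ν := ⟨hd.fin⟩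
  have hF := RST.F_int θ hd.int Y
  rw [intervalIntegral.integral_of_le hY]
  have h1 : ∀ x, θ * Real.exp (θ * (x - 1)) * S0 ν x = ∫ z, RST.F θ (x, z) ∂ν := by
    intro x
    simp_rw [RST.F_left]
    rw [integral_const_mul, integral_indicator measurableSet_Ioi]
    rfl
  simp_rw [h1]
  rw [integral_integral_swap (f := fun x z => RST.F θ (x, z)) hF]
  have h2 : ∫ z, (∫ x in Ioc 1 Y, RST.F θ (x, z)) ∂ν ≤
      ∫ z, (1 - Real.exp (-1)) * (Ioi (1 : ℝ)).indicator (fun z => z) z ∂ν := by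
    refine integral_mono ?_ ((hd.int.indicator measurableSet_Ioi).const_mul _) ?_
    · exact hF.integral_prod_right
    · intro z
      exact inner_le θ hθ hθ2 Y z
  refine h2.trans ?_
  rw [integral_const_mul, integral_indicator measurableSet_Ioi]
  exact mul_le_mul_of_nonneg_left hlam co_nonneg

theorem num : Real.exp (-1 / 2) + (1 - Real.exp (-1)) * Real.exp (-1 / 2) ≤ 1 := by
  obtain ⟨s, hs⟩ : ∃ s : ℝ, s = Real.exp (-1 / 2) := ⟨_, rfl⟩
  have e1 : Real.exp (-1) = s ^ 2 := by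
    rw [hs, ← Real.exp_nat_mul]
    norm_num
  rw [e1, ← hs]
  have h0 : 0 < s := by rw [hs]; exact Real.exp_pos _
  have h1 : s ^ 2 ≤ 0.3679 := by rw [← e1]; exact NU2aux.em_bd
  have h2 : s ≤ 0.61 := by nlinarith
  nlinarith [mul_nonneg (by linarith : (0 : ℝ) ≤ 1 - s) (by nlinarith : (0 : ℝ) ≤ 1 - s - s ^ 2)]

end RST5

theorem t_RST5 : S_LAM5 → S_RST5 := by
  intro hLAM N b m ν hN hb hd hm θ hθ hθ2 Y hY _
  have h := RST5.main N b m ν hd (hLAM N b m ν hN hb hd) θ hθ hθ2 Y hY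
  have e : ∫ x in (1 : ℝ)..Y, θ * Real.exp (θ * (x - 1)) * S0 ν x =
      θ * ∫ x in (1 : ℝ)..Y, Real.exp (θ * (x - 1)) * S0 ν x := by
    rw [← intervalIntegral.integral_const_mul]
    congr 1
    funext x
    ring
  rw [e] at h
  have h1 := mul_le_mul_of_nonneg_left hm RST5.co_nonneg
  have h2 := RST5.num
  linarith

end Pool.Agent.RTC
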