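import Pool.Agent.RTC.St5
import Pool.Agent.RTC.BMN
import Pool.Agent.RTC.ISO28
import Pool.Agent.RTC.MOP
import Pool.Agent.RTC.MOA
import Pool.Agent.RTC.ISW
import Pool.Agent.RTC.SUB
import Pool.Agent.RTC.LMA
import Pool.Agent.RTC.LMB
import Pool.Agent.RTC.GEX
import Pool.Agent.RTC.DI2
import Pool.Agent.RTC.NNG
import Pool.Agent.RTC.BA2
import Pool.Agent.RTC.BR2
import Pool.Agent.RTC.AEX
import Pool.Agent.RTC.MOM93
import Pool.Agent.RTC.RST5
import Pool.Agent.RTC.LAM5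
import Pool.Agent.RTC.ET1
import Pool.Agent.RTC.ET2
import Pool.Agent.RTC.KE5
import Pool.Agent.RTC.ONA5
import Pool.Agent.RTC.ONB5
import Pool.Agent.RTC.ON5
import Pool.Agent.RTC.TW5
import Pool.Agent.RTC.SC5
import Pool.Agent.RTC.FIN
import Pool.Agent.RTC.LEV

set_option autoImplicit false

/-!
# RTC: everything together, fifth version (`β R ≥ (2N-3)/4`, and `β R ≥ 1/2` for `N = 3`)
-/

namespace Pool.Agent.RTC

open MeasureTheory Set Filter Topology
open scoped ENNReal NNReal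

theorem all_SC5 : S_SC5 := by
  have hISO : S_ISO := t_ISO t_BMN
  have hMOA : S_MOA := t_MOA t_MOP
  have hISW : S_ISW := t_ISW hISO hMOA
  have hLMA : S_LMA := t_LMA t_SUB
  have hLMB : S_LMB := t_LMB hISW t_SUB
  have hDI2 : S_DI2 := t_DI2 t_GEX hLMA hLMB
  have hBR2 : S_BR2 := t_BR2 t_BA2
  have hONA : S_ONA5 := t_ONA5 hBR2 t_KE5
  have hONB : S_ONB5 := t_ONB5 hBR2 t_KE5 t_ET2
  have hON : S_ON5 := t_ON5 t_AEX t_MOM (t_RST5 t_LAM5) t_ET1 hONA hONB
  exact t_SC5 hDI2 (t_NNG hLMA) (t_TW5 hBR2 hON)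

/-- Comparison of the distribution functions of `u` and `v`, at all levels. -/
theorem lev5 (N : ℕ) (hN : 3 ≤ N) (Ω : Set (E N)) (σ : Measure (E N)) (β R : ℝ)
    (u : E N → ℝ) (g : E N → E N) (w : E N → ℝ) (hβ : 0 < β) (hR : 0 < R)
    (hβR : Rng5 N (2 * (β * R))) (hΩ : IsOpen Ω) (hb : Bornology.IsBounded Ω)
    (hvol : volume Ω = volume (Metric.ball (0 : E N) R)) (hσ : IsBoundaryMeasure Ω σ)
    (hu : IsRobin Ω σ β u g w) (t : ℝ) :
    volume (Ω ∩ {x | t < u x}) ≤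
      volume (Metric.ball (0 : E N) R ∩ {x | t < vball N β R x}) := by
  rcases le_or_gt (R / (N * β)) t with h | h
  · have h1 := all_SC5 N hN Ω σ β R u g w hβ hR hβR hΩ hb hvol hσ hu t h
    refine le_trans ?_ (lev N (by omega) β R t hβ hR h)
    refine ENNReal.le_ofReal_iff_toReal_le ?_ ?_ |>.2 h1
    · exact ((measure_mono inter_subset_left).trans_lt (by
        rw [hvol]; exact measure_ball_lt_top)).ne
    · apply mul_nonneg ENNReal.toReal_nonneg
      exact Real.rpow_nonneg (le_max_left _ _) _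
  · rw [lev_small N (by omega) β R t hβ hR h.le, ← hvol]
    exact measure_mono inter_subset_left

/-- The pointwise comparison. -/
theorem fin5 (N : ℕ) (hN : 3 ≤ N) (Ω : Set (E N)) (σ : Measure (E N)) (β R : ℝ)
    (u : E N → ℝ) (g : E N → E N) (w : E N → ℝ) (hβ : 0 < β) (hR : 0 < R)
    (hβR : Rng5 N (2 * (β * R))) (hΩ : IsOpen Ω) (hbd : Bornology.IsBounded Ω)
    (hvol : volume Ω = volume (Metric.ball (0 : E N) R)) (hσ : IsBoundaryMeasure Ω σ)
    (hu : IsRobin Ω σ β u g w) :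
    ∀ x ∈ Metric.ball (0 : E N) R, x ≠ 0 → sharp Ω u x ≤ vball N β R x := by
  intro x hx hx0
  have hN0 : (0 : ℝ) < N := by exact_mod_cast (by omega : 0 < N)
  have hxn : 0 < ‖x‖ := norm_pos_iff.2 hx0
  have hxR : ‖x‖ < R := by rwa [mem_ball_zero_iff] at hx
  have h1 : 0 < R ^ 2 - ‖x‖ ^ 2 := by nlinarith
  have hv : R / (N * β) ≤ vball N β R x := by
    unfold vball
    have : 0 ≤ (R ^ 2 - ‖x‖ ^ 2) / (2 * N) := div_nonneg h1.le (by positivity)
    linarith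
  have hv0 : 0 < R / (N * β) := by positivity
  refine le_of_forall_pos_le_add fun ε hε => ?_
  unfold sharp
  refine csInf_le ⟨0, fun t ht => ht.1⟩ ⟨by linarith, ?_⟩
  have hsca := all_SC5 N hN Ω σ β R u g w hβ hR hβR hΩ hbd hvol hσ hu (vball N β R x + ε)
    (by linarith)
  have e1 : R ^ 2 - 2 * N * (vball N β R x + ε - R / (N * β)) = ‖x‖ ^ 2 - 2 * N * ε := by
    unfold vball
    have : 2 * (N : ℝ) * ((R ^ 2 - ‖x‖ ^ 2) / (2 * N)) = R ^ 2 - ‖x‖ ^ 2 := by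
      field_simp
    linear_combination -this
  have h2 : max 0 (‖x‖ ^ 2 - 2 * N * ε) < ‖x‖ ^ 2 := by
    apply max_lt (by positivity)
    have : 0 < 2 * (N : ℝ) * ε := by positivity
    linarith
  have h3 : (max 0 (‖x‖ ^ 2 - 2 * N * ε)) ^ ((N : ℝ) / 2) < ‖x‖ ^ N := by
    have h4 : (‖x‖ ^ 2) ^ ((N : ℝ) / 2) = ‖x‖ ^ N := by
      rw [← Real.rpow_natCast ‖x‖ 2, ← Real.rpow_mul hxn.le, ← Real.rpow_natCast ‖x‖ N]
      congr 1
      push_cast
      ring
    rw [← h4]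
    exact Real.rpow_lt_rpow (le_max_left _ _) h2 (by positivity)
  rw [e1] at hsca
  have hfin : volume (Ω ∩ {z | vball N β R x + ε < u z}) ≠ ⊤ := by
    have h5 : volume (Ω ∩ {z | vball N β R x + ε < u z}) ≤ volume Ω :=
      measure_mono inter_subset_left
    rw [hvol] at h5
    exact (h5.trans_lt measure_ball_lt_top).ne
  rw [← ENNReal.toReal_lt_toReal hfin measure_ball_lt_top.ne, FIN.toReal_ball hxn]
  have h6 : om N * (max 0 (‖x‖ ^ 2 - 2 * N * ε)) ^ ((N : ℝ) / 2) < om N * ‖x‖ ^ N :=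
    mul_lt_mul_of_pos_left h3 FIN.om_pos
  have h7 : (volume (Ω ∩ {z | vball N β R x + ε < u z})).toReal =
    mu Ω u (vball N β R x + ε) := rfl
  rw [h7]
  linarith

end Pool.Agent.RTC
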