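import Mathlib

/-! # Brunn-Minkowski for bounded open sets of `Fin n → ℝ` -/

open MeasureTheory Set Metric
open scoped ENNReal Pointwise

namespace RTCB

/-- One-dimensional Brunn-Minkowski for compact sets. -/
theorem bm1c (K L : Set ℝ) (hK : IsCompact K) (hL : IsCompact L) (hKn : K.Nonempty)
    (hLn : L.Nonempty) : volume K + volume L ≤ volume (K + L) := by
  obtain ⟨a, haK, ha⟩ := hK.exists_isGreatest hKn
  obtain ⟨b, hbL, hb⟩ := hL.exists_isLeast hLn
  have h1 : (fun x => b + x) '' K ⊆ (K + L) ∩ Iic (a + b) := by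
    rintro _ ⟨x, hx, rfl⟩
    refine ⟨⟨x, hx, b, hbL, add_comm _ _⟩, ?_⟩
    have := ha hx
    simp only [mem_Iic]; linarith
  have h2 : ((fun x => a + x) '' L) \ {a + b} ⊆ (K + L) \ Iic (a + b) := by
    rintro _ ⟨⟨x, hx, rfl⟩, hne⟩
    refine ⟨⟨a, haK, x, hx, rfl⟩, ?_⟩
    have h3 := hb hx
    simp only [mem_Iic, not_le]
    rcases lt_or_eq_of_le h3 with h | h
    · linarith
    · exact absurd (by simp [h]) hne
  have e1 : volume ((fun x => b + x) '' K) = volume K := by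
    simp [measure_preimage_add]
  have e2 : volume (((fun x => a + x) '' L) \ {a + b}) = volume L := by
    rw [measure_sdiff_null (by simp)]
    simp
  rw [← measure_inter_add_sdiff (K + L) (measurableSet_Iic (a := a + b)), ← e1, ← e2]
  exact add_le_add (measure_mono h1) (measure_mono h2)

/-- One-dimensional Brunn-Minkowski for measurable sets. -/
theorem bm1 (A B C : Set ℝ) (hA : MeasurableSet A) (hB : MeasurableSet B) (hAn : A.Nonempty)
    (hBn : B.Nonempty) (h : ∀ x ∈ A, ∀ y ∈ B, x + y ∈ C) : volume A + volume B ≤ volume C := by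
  obtain ⟨a0, ha0⟩ := hAn
  obtain ⟨b0, hb0⟩ := hBn
  rw [hA.measure_eq_iSup_isCompact, hB.measure_eq_iSup_isCompact]
  simp only [iSup_and']
  refine ENNReal.biSup_add_biSup_le' ⟨∅, empty_subset _, isCompact_empty⟩
    ⟨∅, empty_subset _, isCompact_empty⟩ fun K hK L hL => ?_
  have h1 := bm1c (insert a0 K) (insert b0 L) (hK.2.insert a0) (hL.2.insert b0)
    (insert_nonempty _ _) (insert_nonempty _ _)
  refine (add_le_add (measure_mono (subset_insert _ _)) (measure_mono (subset_insert _ _))).trans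
    (h1.trans (measure_mono ?_))
  rintro _ ⟨x, hx, y, hy, rfl⟩
  exact h x (insert_subset ha0 hK.1 hx) y (insert_subset hb0 hL.1 hy)

/-- One-dimensional Brunn-Minkowski with weights. -/
theorem bm1w (A B C : Set ℝ) (hA : MeasurableSet A) (hB : MeasurableSet B) (hAn : A.Nonempty)
    (hBn : B.Nonempty) (l : ℝ) (h0 : 0 < l) (h1 : l < 1)
    (h : ∀ x ∈ A, ∀ y ∈ B, (1 - l) * x + l * y ∈ C) :
    ENNReal.ofReal (1 - l) * volume A + ENNReal.ofReal l * volume B ≤ volume C := by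
  have h1l : 0 < 1 - l := by linarith
  have key := bm1 ((1 - l) • A) (l • B) C (hA.const_smul₀ _) (hB.const_smul₀ _)
    hAn.smul_set hBn.smul_set ?_
  · rw [Measure.addHaar_smul, Measure.addHaar_smul] at key
    simpa [abs_of_pos h0, abs_of_pos h1l] using key
  · rintro _ ⟨x, hx, rfl⟩ _ ⟨y, hy, rfl⟩
    exact h x hx y hy

/-- Prekopa-Leindler on the line, functions with supremum 1. -/
theorem pl1n (f g k : ℝ → ℝ) (hf : Measurable f) (hg : Measurable g) (hk : Measurable k)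
    (f0 : ∀ x, 0 ≤ f x) (g0 : ∀ x, 0 ≤ g x) (k0 : ∀ x, 0 ≤ k x)
    (f1 : ∀ x, f x ≤ 1) (g1 : ∀ x, g x ≤ 1) (fs : ∀ s < 1, ∃ x, s < f x) (gs : ∀ s < 1, ∃ x, s < g x)
    (l : ℝ) (h0 : 0 < l) (h1 : l < 1)
    (h : ∀ x y, (f x) ^ (1 - l) * (g y) ^ l ≤ k ((1 - l) * x + l * y)) :
    ENNReal.ofReal (1 - l) * (∫⁻ x, ENNReal.ofReal (f x)) +
      ENNReal.ofReal l * (∫⁻ x, ENNReal.ofReal (g x)) ≤ ∫⁻ x, ENNReal.ofReal (k x) := by
  have h1l : 0 < 1 - l := by linarith
  rw [lintegral_eq_lintegral_meas_lt volume (Filter.Eventually.of_forall f0) hf.aemeasurable,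
    lintegral_eq_lintegral_meas_lt volume (Filter.Eventually.of_forall g0) hg.aemeasurable,
    lintegral_eq_lintegral_meas_lt volume (Filter.Eventually.of_forall k0) hk.aemeasurable]
  have m1 : Measurable fun t : ℝ => volume {a | t < f a} :=
    Antitone.measurable fun a b hab => measure_mono fun x (hx : b < f x) => lt_of_le_of_lt hab hx
  have m2 : Measurable fun t : ℝ => volume {a | t < g a} :=
    Antitone.measurable fun a b hab => measure_mono fun x (hx : b < g x) => lt_of_le_of_lt hab hx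
  rw [← lintegral_const_mul _ m1, ← lintegral_const_mul _ m2,
    ← lintegral_add_left (m1.const_mul _)]
  refine setLIntegral_mono' measurableSet_Ioi fun t (ht : 0 < t) => ?_
  rcases lt_or_ge t 1 with ht1 | ht1
  · refine bm1w _ _ _ (measurableSet_lt measurable_const hf) (measurableSet_lt measurable_const hg)
      (fs t ht1) (gs t ht1) l h0 h1 ?_
    intro x (hx : t < f x) y (hy : t < g y)
    refine lt_of_lt_of_le ?_ (h x y)
    calc t = t ^ (1 - l) * t ^ l := by rw [← Real.rpow_add ht]; simp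
      _ < (f x) ^ (1 - l) * (g y) ^ l := by
        apply mul_lt_mul'' (Real.rpow_lt_rpow ht.le hx h1l) (Real.rpow_lt_rpow ht.le hy h0)
        all_goals positivity
  · have e1 : {a | t < f a} = ∅ := by
      ext a; simp only [mem_ofPred_eq, mem_empty_iff_false, iff_false, not_lt]
      exact (f1 a).trans ht1
    have e2 : {a | t < g a} = ∅ := by
      ext a; simp only [mem_ofPred_eq, mem_empty_iff_false, iff_false, not_lt]
      exact (g1 a).trans ht1
    simp [e1, e2]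

/-- Weighted arithmetic-geometric mean inequality. -/
theorem amgm (a b : ℝ≥0∞) (l : ℝ) (h0 : 0 < l) (h1 : l < 1) :
    a ^ (1 - l) * b ^ l ≤ ENNReal.ofReal (1 - l) * a + ENNReal.ofReal l * b := by
  have h1l : 0 < 1 - l := by linarith
  by_cases ha : a = ⊤
  · subst ha
    rw [ENNReal.mul_top (by simpa using h1)]; simp
  by_cases hb : b = ⊤
  · subst hb
    rw [ENNReal.mul_top (a := ENNReal.ofReal l) (by simpa using h0)]; simp
  lift a to NNReal using ha
  lift b to NNReal using hb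
  rw [← ENNReal.coe_rpow_of_nonneg _ h1l.le, ← ENNReal.coe_rpow_of_nonneg _ h0.le,
    ENNReal.ofReal, ENNReal.ofReal]
  norm_cast
  have := NNReal.geom_mean_le_arith_mean2_weighted (Real.toNNReal (1 - l)) (Real.toNNReal l) a b
    (by rw [← Real.toNNReal_add h1l.le h0.le]; simp)
  rwa [Real.coe_toNNReal _ h1l.le, Real.coe_toNNReal _ h0.le] at this

/-- Prekopa-Leindler on the line for bounded functions. -/
theorem pl1 (f g k : ℝ → ℝ) (hf : Measurable f) (hg : Measurable g) (hk : Measurable k)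
    (f0 : ∀ x, 0 ≤ f x) (g0 : ∀ x, 0 ≤ g x) (k0 : ∀ x, 0 ≤ k x) (a b : ℝ) (ha : 0 < a) (hb : 0 < b)
    (f1 : ∀ x, f x ≤ a) (g1 : ∀ x, g x ≤ b) (fs : ∀ s < a, ∃ x, s < f x) (gs : ∀ s < b, ∃ x, s < g x)
    (l : ℝ) (h0 : 0 < l) (h1 : l < 1)
    (h : ∀ x y, (f x) ^ (1 - l) * (g y) ^ l ≤ k ((1 - l) * x + l * y)) :
    (∫⁻ x, ENNReal.ofReal (f x)) ^ (1 - l) * (∫⁻ x, ENNReal.ofReal (g x)) ^ l ≤
      ∫⁻ x, ENNReal.ofReal (k x) := by
  have h1l : 0 < 1 - l := by linarith
  set c : ℝ := (a⁻¹) ^ (1 - l) * (b⁻¹) ^ l with hc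
  have hc0 : 0 < c := by positivity
  have key := pl1n (fun x => a⁻¹ * f x) (fun x => b⁻¹ * g x) (fun x => c * k x)
    (hf.const_mul _) (hg.const_mul _) (hk.const_mul _)
    (fun x => mul_nonneg (inv_nonneg.2 ha.le) (f0 x)) (fun x => mul_nonneg (inv_nonneg.2 hb.le) (g0 x))
    (fun x => mul_nonneg hc0.le (k0 x))
    (fun x => by rw [inv_mul_le_iff₀ ha]; simpa using f1 x)
    (fun x => by rw [inv_mul_le_iff₀ hb]; simpa using g1 x)
    (fun s hs => by
      obtain ⟨x, hx⟩ := fs (a * s) (by nlinarith)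
      exact ⟨x, by rwa [lt_inv_mul_iff₀ ha]⟩)
    (fun s hs => by
      obtain ⟨x, hx⟩ := gs (b * s) (by nlinarith)
      exact ⟨x, by rwa [lt_inv_mul_iff₀ hb]⟩)
    l h0 h1 (fun x y => by
      have := h x y
      rw [Real.mul_rpow (inv_nonneg.2 ha.le) (f0 x), Real.mul_rpow (inv_nonneg.2 hb.le) (g0 y)]
      calc _ = c * ((f x) ^ (1 - l) * (g y) ^ l) := by rw [hc]; ring
        _ ≤ _ := mul_le_mul_of_nonneg_left this hc0.le)
  have e1 : ∫⁻ x, ENNReal.ofReal (a⁻¹ * f x) = ENNReal.ofReal a⁻¹ * ∫⁻ x, ENNReal.ofReal (f x) := by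
    rw [← lintegral_const_mul _ hf.ennreal_ofReal]
    congr 1; ext x; rw [ENNReal.ofReal_mul (inv_nonneg.2 ha.le)]
  have e2 : ∫⁻ x, ENNReal.ofReal (b⁻¹ * g x) = ENNReal.ofReal b⁻¹ * ∫⁻ x, ENNReal.ofReal (g x) := by
    rw [← lintegral_const_mul _ hg.ennreal_ofReal]
    congr 1; ext x; rw [ENNReal.ofReal_mul (inv_nonneg.2 hb.le)]
  have e3 : ∫⁻ x, ENNReal.ofReal (c * k x) = ENNReal.ofReal c * ∫⁻ x, ENNReal.ofReal (k x) := by
    rw [← lintegral_const_mul _ hk.ennreal_ofReal]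
    congr 1; ext x; rw [ENNReal.ofReal_mul hc0.le]
  rw [e1, e2, e3] at key
  have key2 := (amgm _ _ l h0 h1).trans key
  rw [ENNReal.mul_rpow_of_nonneg _ _ h1l.le, ENNReal.mul_rpow_of_nonneg _ _ h0.le,
    ENNReal.ofReal_rpow_of_nonneg (inv_nonneg.2 ha.le) h1l.le,
    ENNReal.ofReal_rpow_of_nonneg (inv_nonneg.2 hb.le) h0.le, mul_mul_mul_comm,
    ← ENNReal.ofReal_mul (by positivity), ← hc] at key2
  exact (ENNReal.mul_le_mul_iff_right (by simpa using hc0) ENNReal.ofReal_ne_top).1 key2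

/-- Slices. -/
def sl {n : ℕ} (A : Set (Fin (n + 1) → ℝ)) (t : ℝ) : Set (Fin n → ℝ) := {x | Fin.cons t x ∈ A}

theorem sl_open {n : ℕ} {A : Set (Fin (n + 1) → ℝ)} (hA : IsOpen A) (t : ℝ) : IsOpen (sl A t) := by
  refine hA.preimage ?_
  fun_prop

theorem sl_bdd {n : ℕ} {A : Set (Fin (n + 1) → ℝ)} (hA : Bornology.IsBounded A) :
    ∃ R : ℝ, ∀ t, sl A t ⊆ closedBall 0 R := by
  obtain ⟨R, hR⟩ := hA.subset_closedBall 0
  refine ⟨R, fun t x hx => ?_⟩
  have h1 := hR hx
  rw [mem_closedBall_zero_iff] at h1 ⊢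
  have hR0 : 0 ≤ R := (norm_nonneg _).trans h1
  rw [pi_norm_le_iff_of_nonneg hR0] at h1 ⊢
  intro i
  simpa using h1 i.succ

theorem sl_vol {n : ℕ} {A : Set (Fin (n + 1) → ℝ)} (hA : MeasurableSet A) :
    volume A = ∫⁻ t, volume (sl A t) ∧ Measurable fun t => volume (sl A t) := by
  have e := (volume_preserving_piFinSuccAbove (fun _ : Fin (n + 1) => ℝ) 0).symm
  have h1 := e.measure_preimage hA.nullMeasurableSet
  have hm : MeasurableSet (((MeasurableEquiv.piFinSuccAbove (fun _ : Fin (n + 1) => ℝ) 0).symm) ⁻¹' A) :=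
    e.measurable hA
  have hs : ∀ t, Prod.mk t ⁻¹' (((MeasurableEquiv.piFinSuccAbove (fun _ : Fin (n + 1) => ℝ) 0).symm) ⁻¹' A)
      = sl A t := by
    intro t
    ext x
    simp only [mem_preimage, sl, mem_ofPred_eq]
    have : (MeasurableEquiv.piFinSuccAbove (fun _ : Fin (n + 1) => ℝ) 0).symm (t, x)
        = (Fin.cons t x : Fin (n + 1) → ℝ) := by
      simp [MeasurableEquiv.piFinSuccAbove, Fin.insertNthEquiv]
    rw [this]
  constructor
  · rw [← h1, Measure.volume_eq_prod, Measure.prod_apply hm]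
    simp only [hs]
  · have := measurable_measure_prodMk_left (ν := (volume : Measure (Fin n → ℝ))) hm
    simp only [hs] at this
    exact this

theorem sl_nonempty {n : ℕ} {A : Set (Fin (n + 1) → ℝ)} (hA : A.Nonempty) :
    ∃ t, (sl A t).Nonempty := by
  obtain ⟨x, hx⟩ := hA
  exact ⟨x 0, Fin.tail x, by simpa [sl] using hx⟩

theorem sl_conv {n : ℕ} {A B C : Set (Fin (n + 1) → ℝ)} {l : ℝ}
    (h : ∀ x ∈ A, ∀ y ∈ B, (1 - l) • x + l • y ∈ C) (s t : ℝ) :
    ∀ x ∈ sl A s, ∀ y ∈ sl B t, (1 - l) • x + l • y ∈ sl C ((1 - l) * s + l * t) := by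
  intro x hx y hy
  have := h _ hx _ hy
  simp only [sl, mem_ofPred_eq]
  convert this using 1
  ext i
  refine Fin.cases ?_ (fun j => ?_) i <;> simp

theorem bmn (l : ℝ) (h0 : 0 < l) (h1 : l < 1) : ∀ (n : ℕ) (A B C : Set (Fin n → ℝ)),
    IsOpen A → IsOpen B → IsOpen C → Bornology.IsBounded A → Bornology.IsBounded B →
    Bornology.IsBounded C → A.Nonempty → B.Nonempty →
    (∀ x ∈ A, ∀ y ∈ B, (1 - l) • x + l • y ∈ C) →
    volume A ^ (1 - l) * volume B ^ l ≤ volume C := by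
  have h1l : 0 < 1 - l := by linarith
  intro n
  induction n with
  | zero =>
    intro A B C _ _ _ _ _ _ hA hB h
    obtain ⟨x, hx⟩ := hA
    obtain ⟨y, hy⟩ := hB
    have e : ∀ D : Set (Fin 0 → ℝ), D.Nonempty → D = univ := fun D hD => by
      obtain ⟨z, hz⟩ := hD
      ext w; simp [Subsingleton.elim w z, hz]
    rw [e A ⟨x, hx⟩, e B ⟨y, hy⟩, e C ⟨_, h x hx y hy⟩, ← ENNReal.rpow_add_of_nonneg _ _ h1l.le h0.le]
    simp
  | succ n ih =>
    intro A B C oA oB oC bA bB bC nA nB h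
    obtain ⟨eA, mA⟩ := sl_vol oA.measurableSet
    obtain ⟨eB, mB⟩ := sl_vol oB.measurableSet
    obtain ⟨eC, mC⟩ := sl_vol oC.measurableSet
    obtain ⟨RA, hRA⟩ := sl_bdd bA
    obtain ⟨RB, hRB⟩ := sl_bdd bB
    obtain ⟨RC, hRC⟩ := sl_bdd bC
    have fin : ∀ R : ℝ, volume (closedBall (0 : Fin n → ℝ) R) ≠ ⊤ := fun R => measure_closedBall_lt_top.ne
    have fA : ∀ t, volume (sl A t) ≠ ⊤ := fun t => ne_top_of_le_ne_top (fin RA) (measure_mono (hRA t))
    have fB : ∀ t, volume (sl B t) ≠ ⊤ := fun t => ne_top_of_le_ne_top (fin RB) (measure_mono (hRB t))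
    have fC : ∀ t, volume (sl C t) ≠ ⊤ := fun t => ne_top_of_le_ne_top (fin RC) (measure_mono (hRC t))
    have bdA : BddAbove (range fun t => (volume (sl A t)).toReal) := by
      refine ⟨(volume (closedBall (0 : Fin n → ℝ) RA)).toReal, ?_⟩
      rintro _ ⟨t, rfl⟩
      exact ENNReal.toReal_mono (fin RA) (measure_mono (hRA t))
    have bdB : BddAbove (range fun t => (volume (sl B t)).toReal) := by
      refine ⟨(volume (closedBall (0 : Fin n → ℝ) RB)).toReal, ?_⟩
      rintro _ ⟨t, rfl⟩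
      exact ENNReal.toReal_mono (fin RB) (measure_mono (hRB t))
    have posA : 0 < ⨆ t, (volume (sl A t)).toReal := by
      obtain ⟨t, ht⟩ := sl_nonempty nA
      exact lt_of_lt_of_le (ENNReal.toReal_pos ((sl_open oA t).measure_pos _ ht).ne' (fA t))
        (le_ciSup bdA t)
    have posB : 0 < ⨆ t, (volume (sl B t)).toReal := by
      obtain ⟨t, ht⟩ := sl_nonempty nB
      exact lt_of_lt_of_le (ENNReal.toReal_pos ((sl_open oB t).measure_pos _ ht).ne' (fB t))
        (le_ciSup bdB t)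
    have key := pl1 (fun t => (volume (sl A t)).toReal) (fun t => (volume (sl B t)).toReal)
      (fun t => (volume (sl C t)).toReal) mA.ennreal_toReal mB.ennreal_toReal mC.ennreal_toReal
      (fun _ => ENNReal.toReal_nonneg) (fun _ => ENNReal.toReal_nonneg)
      (fun _ => ENNReal.toReal_nonneg) _ _ posA posB (fun x => le_ciSup bdA x)
      (fun x => le_ciSup bdB x) (fun s hs => exists_lt_of_lt_ciSup hs)
      (fun s hs => exists_lt_of_lt_ciSup hs) l h0 h1 ?_
    · simp only [ENNReal.ofReal_toReal (fA _), ENNReal.ofReal_toReal (fB _),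
        ENNReal.ofReal_toReal (fC _)] at key
      rwa [← eA, ← eB, ← eC] at key
    · intro x y
      rcases (sl A x).eq_empty_or_nonempty with hx | hx
      · simp only [hx, measure_empty, ENNReal.toReal_zero]
        rw [Real.zero_rpow h1l.ne', zero_mul]
        exact ENNReal.toReal_nonneg
      rcases (sl B y).eq_empty_or_nonempty with hy | hy
      · simp only [hy, measure_empty, ENNReal.toReal_zero]
        rw [Real.zero_rpow h0.ne', mul_zero]
        exact ENNReal.toReal_nonneg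
      have := ih (sl A x) (sl B y) (sl C ((1 - l) * x + l * y)) (sl_open oA x) (sl_open oB y)
        (sl_open oC _) (isBounded_closedBall.subset (hRA x)) (isBounded_closedBall.subset (hRB y))
        (isBounded_closedBall.subset (hRC _)) hx hy (sl_conv h x y)
      have h2 := ENNReal.toReal_mono (fC _) this
      rwa [ENNReal.toReal_mul, ← ENNReal.toReal_rpow, ← ENNReal.toReal_rpow] at h2

theorem root_smul {n : ℕ} (hn : 0 < n) (A : Set (Fin n → ℝ)) (hA : volume A ≠ ⊤) (hA0 : volume A ≠ 0) :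
    0 < (volume A).toReal ^ (1 / (n : ℝ)) ∧
    ENNReal.ofReal ((volume A).toReal ^ (1 / (n : ℝ))) = volume A ^ (1 / (n : ℝ)) ∧
    volume ((((volume A).toReal ^ (1 / (n : ℝ)))⁻¹) • A) = 1 := by
  have hn' : (n : ℝ) ≠ 0 := by exact_mod_cast hn.ne'
  have hp : 0 < (volume A).toReal := ENNReal.toReal_pos hA0 hA
  have hr : 0 < (volume A).toReal ^ (1 / (n : ℝ)) := Real.rpow_pos_of_pos hp _
  refine ⟨hr, ?_, ?_⟩
  · rw [← ENNReal.ofReal_rpow_of_pos hp, ENNReal.ofReal_toReal hA]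
  · rw [Measure.addHaar_smul, Module.finrank_fin_fun]
    have e : |((volume A).toReal ^ (1 / (n : ℝ)))⁻¹ ^ n| = ((volume A).toReal)⁻¹ := by
      rw [abs_of_pos (by positivity), inv_pow, ← Real.rpow_natCast, ← Real.rpow_mul hp.le]
      rw [one_div_mul_cancel hn', Real.rpow_one]
    rw [e, ENNReal.ofReal_inv_of_pos hp, ENNReal.ofReal_toReal hA]
    exact ENNReal.inv_mul_cancel hA0 hA

/-- Brunn-Minkowski for bounded open sets. -/
theorem bm_open (n : ℕ) (hn : 0 < n) (A B C : Set (Fin n → ℝ)) (oA : IsOpen A) (oB : IsOpen B)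
    (oC : IsOpen C) (bA : Bornology.IsBounded A) (bB : Bornology.IsBounded B)
    (bC : Bornology.IsBounded C) (nA : A.Nonempty) (nB : B.Nonempty)
    (h : ∀ x ∈ A, ∀ y ∈ B, x + y ∈ C) :
    volume A ^ (1 / (n : ℝ)) + volume B ^ (1 / (n : ℝ)) ≤ volume C ^ (1 / (n : ℝ)) := by
  have hn' : (n : ℝ) ≠ 0 := by exact_mod_cast hn.ne'
  have hnp : (0 : ℝ) < n := by exact_mod_cast hn
  obtain ⟨ha, ea, va⟩ := root_smul hn A bA.measure_lt_top.ne (oA.measure_pos _ nA).ne'
  obtain ⟨hb, eb, vb⟩ := root_smul hn B bB.measure_lt_top.ne (oB.measure_pos _ nB).ne'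
  set a := (volume A).toReal ^ (1 / (n : ℝ))
  set b := (volume B).toReal ^ (1 / (n : ℝ))
  have hab : 0 < a + b := by linarith
  have key := bmn (b / (a + b)) (by positivity) (by rw [div_lt_one hab]; linarith) n
    (a⁻¹ • A) (b⁻¹ • B) ((a + b)⁻¹ • C) (oA.smul₀ (inv_ne_zero ha.ne')) (oB.smul₀ (inv_ne_zero hb.ne'))
    (oC.smul₀ (inv_ne_zero hab.ne')) (bA.smul₀ _) (bB.smul₀ _) (bC.smul₀ _) nA.smul_set nB.smul_set ?_
  · rw [va, vb, ENNReal.one_rpow, ENNReal.one_rpow, one_mul, Measure.addHaar_smul,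
      Module.finrank_fin_fun, abs_of_pos (by positivity), inv_pow,
      ENNReal.ofReal_inv_of_pos (by positivity)] at key
    have h2 : ENNReal.ofReal ((a + b) ^ n) ≤ volume C := by
      have h3 := mul_le_mul_right key (ENNReal.ofReal ((a + b) ^ n))
      rwa [mul_one, ← mul_assoc, ENNReal.mul_inv_cancel (by simpa using pow_pos hab n)
        ENNReal.ofReal_ne_top, one_mul] at h3
    have h4 := ENNReal.rpow_le_rpow h2 (by positivity : (0 : ℝ) ≤ 1 / (n : ℝ))
    rw [ENNReal.ofReal_rpow_of_pos (by positivity), ← Real.rpow_natCast,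
      ← Real.rpow_mul hab.le, mul_one_div_cancel hn', Real.rpow_one,
      ENNReal.ofReal_add ha.le hb.le, ea, eb] at h4
    exact h4
  · rintro _ ⟨x, hx, rfl⟩ _ ⟨y, hy, rfl⟩
    refine ⟨x + y, h x hx y hy, ?_⟩
    ext i
    simp only [Pi.smul_apply, Pi.add_apply, smul_eq_mul]
    field_simp
    ring

/-- Brunn-Minkowski for bounded open sets of the Euclidean space. -/
theorem bm_euclid (n : ℕ) (hn : 0 < n) (A B C : Set (EuclideanSpace ℝ (Fin n))) (oA : IsOpen A)
    (oB : IsOpen B) (oC : IsOpen C) (bA : Bornology.IsBounded A) (bB : Bornology.IsBounded B)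
    (bC : Bornology.IsBounded C) (nA : A.Nonempty) (nB : B.Nonempty)
    (h : ∀ x ∈ A, ∀ y ∈ B, x + y ∈ C) :
    volume A ^ (1 / (n : ℝ)) + volume B ^ (1 / (n : ℝ)) ≤ volume C ^ (1 / (n : ℝ)) := by
  have mp := PiLp.volume_preserving_toLp (Fin n)
  have hv : ∀ D : Set (EuclideanSpace ℝ (Fin n)), IsOpen D →
      volume ((@WithLp.toLp 2 (Fin n → ℝ)) ⁻¹' D) = volume D := fun D hD =>
    mp.measure_preimage hD.measurableSet.nullMeasurableSet
  have hc : Continuous (@WithLp.toLp 2 (Fin n → ℝ)) := PiLp.continuous_toLp 2 _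
  have hb : ∀ D : Set (EuclideanSpace ℝ (Fin n)), Bornology.IsBounded D →
      Bornology.IsBounded ((@WithLp.toLp 2 (Fin n → ℝ)) ⁻¹' D) := by
    intro D hD
    have h1 := (PiLp.lipschitzWith_ofLp 2 (fun _ : Fin n => ℝ)).isBounded_image hD
    refine h1.subset ?_
    intro x hx
    exact ⟨_, hx, rfl⟩
  have hn1 : ∀ D : Set (EuclideanSpace ℝ (Fin n)), D.Nonempty →
      ((@WithLp.toLp 2 (Fin n → ℝ)) ⁻¹' D).Nonempty := by
    rintro D ⟨x, hx⟩
    exact ⟨x.ofLp, by simpa using hx⟩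
  rw [← hv A oA, ← hv B oB, ← hv C oC]
  refine bm_open n hn _ _ _ (oA.preimage hc) (oB.preimage hc) (oC.preimage hc) (hb A bA) (hb B bB)
    (hb C bC) (hn1 A nA) (hn1 B nB) ?_
  intro x hx y hy
  have := h _ hx _ hy
  simpa using this

end RTCB
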