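import Pool.Agent.RTC.St
import Pool.Agent.RTC.BMI

/-! # RTC_BMN from `RTCB.bm_euclid` -/

namespace Pool.Agent.RTC

open MeasureTheory Set Metric
open scoped ENNReal NNReal

theorem t_BMN75 : S_BMN := by
  intro N hN A oA bA nA ε hε
  have hN0 : (N : ℝ) ≠ 0 := by exact_mod_cast (by omega : N ≠ 0)
  have hp : (0 : ℝ) ≤ 1 / (N : ℝ) := by positivity
  have bT : Bornology.IsBounded (thickening ε A) := bA.thickening
  have key := RTCB.bm_euclid N hN A (ball 0 ε) (thickening ε A) oA isOpen_ball isOpen_thickening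
    bA isBounded_ball bT nA ⟨0, by simpa using hε⟩ (fun x hx y hy => by
      rw [mem_thickening_iff]
      exact ⟨x, hx, by simpa [dist_eq_norm] using hy⟩)
  have hb : volume (ball (0 : E N) ε) = ENNReal.ofReal (ε ^ N) * volume (ball (0 : E N) 1) := by
    rw [Measure.addHaar_ball_of_pos volume _ hε]
    simp
  have h1 := ENNReal.toReal_mono (ENNReal.rpow_ne_top_of_nonneg hp bT.measure_lt_top.ne) key
  rw [ENNReal.toReal_add (ENNReal.rpow_ne_top_of_nonneg hp bA.measure_lt_top.ne)
    (ENNReal.rpow_ne_top_of_nonneg hp isBounded_ball.measure_lt_top.ne), ← ENNReal.toReal_rpow,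
    ← ENNReal.toReal_rpow, ← ENNReal.toReal_rpow, hb, ENNReal.toReal_mul,
    ENNReal.toReal_ofReal (by positivity), Real.mul_rpow (by positivity) ENNReal.toReal_nonneg,
    ← Real.rpow_natCast, ← Real.rpow_mul hε.le, mul_one_div_cancel hN0, Real.rpow_one] at h1
  exact h1

end Pool.Agent.RTC
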