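import Mathlib

/-!
# RTC: comparison by right upper Dini derivatives, downward jumps allowed (helper88)
-/

set_option autoImplicit false

namespace Pool.Agent.RTC

/-- Comparison principle. `f a ≤ 0`; `f` may jump downwards only (`hleft`, `hup`); at all points with
`0 ≤ f x` the right upper Dini derivative is at most `0`. Then `f ≤ 0` at `b`. -/
theorem dini88 (f : ℝ → ℝ) (a b : ℝ) (hab : a ≤ b) (ha : f a ≤ 0)
    (hleft : ∀ x ∈ Set.Ioc a b, ∀ ε > 0, ∃ δ > 0, ∀ z ∈ Set.Ioo (x - δ) x, f x ≤ f z + ε)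
    (hup : ∀ x ∈ Set.Ico a b, ∀ ε > 0, ∃ δ > 0, ∀ z ∈ Set.Ioo x (x + δ), f z ≤ f x + ε)
    (hright : ∀ x ∈ Set.Ico a b, 0 ≤ f x →
      ∀ ε > 0, ∃ δ > 0, ∀ z ∈ Set.Ioo x (x + δ), f z ≤ f x + ε * (z - x)) :
    f b ≤ 0 := by
  have main : ∀ e : ℝ, 0 < e → f b ≤ e * (b - a) := by
    intro e he
    obtain ⟨S, hS⟩ : ∃ S : Set ℝ, S = {x | x ∈ Set.Icc a b ∧ ∀ z ∈ Set.Icc a x, f z ≤ e * (z - a)} :=
      ⟨_, rfl⟩
    have haS : a ∈ S := by
      rw [hS]
      refine ⟨⟨le_rfl, hab⟩, fun z hz => ?_⟩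
      have : z = a := le_antisymm hz.2 hz.1
      rw [this, sub_self, mul_zero]
      exact ha
    have hbdd : BddAbove S := ⟨b, fun x hx => by rw [hS] at hx; exact hx.1.2⟩
    obtain ⟨c, hc⟩ : ∃ c : ℝ, c = sSup S := ⟨_, rfl⟩
    have hac : a ≤ c := by rw [hc]; exact le_csSup hbdd haS
    have hcb : c ≤ b := by
      rw [hc]
      exact csSup_le ⟨a, haS⟩ fun x hx => by rw [hS] at hx; exact hx.1.2
    have hlt : ∀ z, a ≤ z → z < c → f z ≤ e * (z - a) := by
      intro z hz hzc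
      rw [hc] at hzc
      obtain ⟨x, hx, hzx⟩ := exists_lt_of_lt_csSup ⟨a, haS⟩ hzc
      rw [hS] at hx
      exact hx.2 z ⟨hz, hzx.le⟩
    have hfc : f c ≤ e * (c - a) := by
      rcases hac.eq_or_lt with h | h
      · rw [← h, sub_self, mul_zero]
        exact ha
      refine le_of_forall_pos_le_add fun ε hε => ?_
      obtain ⟨δ, hδ, h1⟩ := hleft c ⟨h, hcb⟩ ε hε
      obtain ⟨z, hz1, hz2⟩ := exists_between (max_lt h (by linarith : c - δ < c))
      have hza : a ≤ z := (lt_of_le_of_lt (le_max_left _ _) hz1).le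
      have hzd : c - δ < z := lt_of_le_of_lt (le_max_right _ _) hz1
      have h2 := h1 z ⟨hzd, hz2⟩
      have h3 := hlt z hza hz2
      have h4 : e * (z - a) ≤ e * (c - a) := mul_le_mul_of_nonneg_left (by linarith) he.le
      linarith
    rcases hcb.eq_or_lt with h | h
    · rw [← h]
      exact hfc
    exfalso
    -- extend to the right
    obtain ⟨δ, hδ, h1⟩ : ∃ δ > 0, ∀ z ∈ Set.Ioo c (c + δ), f z ≤ e * (z - a) := by
      rcases lt_or_ge (f c) 0 with h2 | h2
      · obtain ⟨δ, hδ, h3⟩ := hup c ⟨hac, h⟩ (-(f c)) (by linarith)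
        refine ⟨δ, hδ, fun z hz => ?_⟩
        have h4 := h3 z hz
        have h5 : 0 ≤ e * (z - a) := mul_nonneg he.le (by linarith [hz.1])
        linarith
      · obtain ⟨δ, hδ, h3⟩ := hright c ⟨hac, h⟩ h2 e he
        refine ⟨δ, hδ, fun z hz => ?_⟩
        have h4 := h3 z hz
        have h5 : e * (c - a) + e * (z - c) = e * (z - a) := by ring
        linarith
    obtain ⟨w, hw1, hw2⟩ := exists_between (lt_min h (by linarith : c < c + δ))
    have hwb : w ≤ b := (lt_of_lt_of_le hw2 (min_le_left _ _)).le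
    have hwd : w < c + δ := lt_of_lt_of_le hw2 (min_le_right _ _)
    have hwS : w ∈ S := by
      rw [hS]
      refine ⟨⟨by linarith, hwb⟩, fun z hz => ?_⟩
      rcases lt_trichotomy z c with h2 | h2 | h2
      · exact hlt z hz.1 h2
      · rw [h2]
        exact hfc
      · exact h1 z ⟨h2, lt_of_le_of_lt hz.2 hwd⟩
    have := le_csSup hbdd hwS
    rw [← hc] at this
    linarith
  refine le_of_forall_pos_le_add fun ε hε => ?_
  have hden : 0 < b - a + 1 := by linarith
  have h1 := main (ε / (b - a + 1)) (by positivity)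
  have h2 : ε / (b - a + 1) * (b - a) ≤ ε := by
    rw [div_mul_eq_mul_div, div_le_iff₀ hden]
    nlinarith
  linarith

/-- `(2 - y) (e^(y-1) - 1/2) ≤ y/2` -/
theorem bk88 (y : ℝ) : (2 - y) * (Real.exp (y - 1) - 1 / 2) ≤ y / 2 := by
  have h1 := Real.add_one_le_exp (1 - y)
  have h2 : Real.exp (1 - y) * Real.exp (y - 1) = 1 := by
    rw [← Real.exp_add, show 1 - y + (y - 1) = 0 by ring, Real.exp_zero]
  have h3 := mul_le_mul_of_nonneg_right h1 (Real.exp_pos (y - 1)).le
  rw [h2] at h3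
  nlinarith

end Pool.Agent.RTC
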