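import Mathlib

set_option autoImplicit false

/-!
# MP_84cf48_an: definitions (Robin torsion problem)
-/

namespace Pool.Agent.RTC

open MeasureTheory Set Filter Topology
open scoped ENNReal NNReal

/-- Euclidean space of dimension `N`. -/
abbrev E (N : ℕ) := EuclideanSpace ℝ (Fin N)

/-- The divergence of a vector field. -/
noncomputable def dv {N : ℕ} (X : E N → E N) (x : E N) : ℝ :=
  ∑ i : Fin N, (fderiv ℝ X x (EuclideanSpace.single i (1 : ℝ))) i

/-- `σ` is a finite measure on the boundary of `Ω` for which the Gauss-Green bound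
`|∫_Ω div X| ≤ ∫ |X| dσ` holds for all `C^1` vector fields `X`
(surface measure, when `Ω` is a bounded Lipschitz domain). -/
structure IsBoundaryMeasure {N : ℕ} (Ω : Set (E N)) (σ : Measure (E N)) : Prop where
  finite : σ univ < ⊤
  supp : σ (frontier Ω)ᶜ = 0
  gauss : ∀ X : E N → E N, ContDiff ℝ 1 X → |∫ x in Ω, dv X x| ≤ ∫ x, ‖X x‖ ∂σ

/-- `u` (with weak gradient `g` and trace `w`) is a weak solution in `H^1(Ω)` of
`-Δ u = 1` in `Ω`, `∂_ν u + β u = 0` on the boundary: `u, g` are the limits in `L²(Ω)` of `C^1`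
functions on the whole space and of their gradients, `w` is the limit in `L²(σ)` of the same
functions, and `∫_Ω g · ∇φ + β ∫ w φ dσ = ∫_Ω φ` for every `C^1` function `φ`. -/
structure IsRobin {N : ℕ} (Ω : Set (E N)) (σ : Measure (E N)) (β : ℝ)
    (u : E N → ℝ) (g : E N → E N) (w : E N → ℝ) : Prop where
  u_mem : MemLp u 2 (volume.restrict Ω)
  g_mem : MemLp g 2 (volume.restrict Ω)
  w_mem : MemLp w 2 σ
  approx : ∃ U : ℕ → E N → ℝ, (∀ k, ContDiff ℝ 1 (U k)) ∧
    Tendsto (fun k => ∫ x in Ω, (U k x - u x) ^ 2) atTop (𝓝 0) ∧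
    Tendsto (fun k => ∫ x in Ω, ‖gradient (U k) x - g x‖ ^ 2) atTop (𝓝 0) ∧
    Tendsto (fun k => ∫ x, (U k x - w x) ^ 2 ∂σ) atTop (𝓝 0)
  weak : ∀ φ : E N → ℝ, ContDiff ℝ 1 φ →
    (∫ x in Ω, fderiv ℝ φ x (g x)) + β * ∫ x, w x * φ x ∂σ = ∫ x in Ω, φ x

/-- The volume of the unit ball. -/
noncomputable def om (N : ℕ) : ℝ := (volume (Metric.ball (0 : E N) 1)).toReal

/-- The isoperimetric constant `N ω^(1/N)`. -/
noncomputable def gam (N : ℕ) : ℝ := N * (om N) ^ (1 / (N : ℝ))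

/-- Distribution function `μ(t) = |{x ∈ Ω : u(x) > t}|`. -/
noncomputable def mu {N : ℕ} (Ω : Set (E N)) (u : E N → ℝ) (t : ℝ) : ℝ :=
  (volume (Ω ∩ {x | t < u x})).toReal

/-- The solution of the Robin torsion problem in the ball of radius `R`. -/
noncomputable def vball (N : ℕ) (β R : ℝ) (x : E N) : ℝ :=
  (R ^ 2 - ‖x‖ ^ 2) / (2 * N) + R / (N * β)

/-- The Schwarz rearrangement `u^♯(x) = inf {t ≥ 0 : |{u > t}| < ω |x|^N}`. -/
noncomputable def sharp {N : ℕ} (Ω : Set (E N)) (u : E N → ℝ) (x : E N) : ℝ :=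
  sInf {t : ℝ | 0 ≤ t ∧ volume (Ω ∩ {z | t < u z}) < volume (Metric.ball (0 : E N) ‖x‖)}

end Pool.Agent.RTC
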