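import Mathlib

/-!
# RTC: the key inequality with the exponent 3/2 (range `2 N / 3 ≤ b`)
-/

set_option autoImplicit false

namespace Pool.Agent.RTC

open Real

/-- The starting level for the exponent 3/2. -/
noncomputable def a3 : ℝ := 1 - 4 / 3 * Real.log 2

theorem a3_lo : 0.0757 < a3 := by
  have := Real.log_two_lt_d9
  unfold a3
  linarith

theorem a3_hi : a3 < 0.0759 := by
  have := Real.log_two_gt_d9
  unfold a3
  linarith

/-- geometric mean at most logarithmic mean -/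
theorem k3_log (r : ℝ) (hr : 0 < r) (hr1 : r ≤ 1) : -2 * r * Real.log r ≤ 1 - r ^ 2 := by
  have hd : ∀ x : ℝ, 0 < x → HasDerivAt (fun x : ℝ => 1 - x ^ 2 + 2 * x * Real.log x)
      (-(2 * x) + (2 * Real.log x + 2)) x := by
    intro x hx
    have h1 : HasDerivAt (fun x : ℝ => 1 - x ^ 2) (-(2 * x)) x := by
      have := (hasDerivAt_pow 2 x).const_sub 1
      simpa using this
    have h2 : HasDerivAt (fun x : ℝ => 2 * x * Real.log x)
        (2 * Real.log x + 2 * x * x⁻¹) x := by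
      have h3 : HasDerivAt (fun x : ℝ => 2 * x) 2 x := by
        simpa using (hasDerivAt_id x).const_mul 2
      exact h3.mul (Real.hasDerivAt_log hx.ne')
    have h4 : 2 * x * x⁻¹ = 2 := by field_simp
    rw [h4] at h2
    exact h1.add h2
  have h : AntitoneOn (fun x : ℝ => 1 - x ^ 2 + 2 * x * Real.log x) (Set.Icc r 1) := by
    refine antitoneOn_of_deriv_nonpos (convex_Icc r 1) ?_ ?_ ?_
    · intro x hx
      exact (hd x (lt_of_lt_of_le hr hx.1)).continuousAt.continuousWithinAt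
    · intro x hx
      rw [interior_Icc] at hx
      exact (hd x (lt_trans hr hx.1)).differentiableAt.differentiableWithinAt
    · intro x hx
      rw [interior_Icc] at hx
      have hx0 : 0 < x := lt_trans hr hx.1
      rw [(hd x hx0).deriv]
      have := Real.log_le_sub_one_of_pos hx0
      linarith
  have h1 := h ⟨le_rfl, hr1⟩ ⟨hr1, le_rfl⟩ hr1
  simp only [Real.log_one, mul_zero, one_pow, sub_self, add_zero] at h1
  linarith

/-- `2 (1 - r) / (1 + r) ≤ - log r`. -/
theorem k3_log2 (r : ℝ) (hr : 0 < r) (hr1 : r ≤ 1) : 2 * (1 - r) / (1 + r) ≤ -Real.log r := by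
  have hx : 0 ≤ (1 - r) / r := div_nonneg (by linarith) hr.le
  have h := Real.le_log_one_add_of_nonneg hx
  have e1 : 1 + (1 - r) / r = r⁻¹ := by field_simp; ring
  have h1r : (1 : ℝ) + r ≠ 0 := by linarith
  have e3 : (1 - r) / r + 2 = (1 + r) / r := by field_simp; ring
  have e2 : 2 * ((1 - r) / r) / ((1 - r) / r + 2) = 2 * (1 - r) / (1 + r) := by
    rw [e3]; field_simp
  rwa [e1, e2, Real.log_inv] at h

/-- the polynomial inequality -/
theorem k3_poly (y : ℝ) (hy : 0 ≤ y) (hy2 : y < 2) :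
    3 / 2 * (y - a3) ≤ 2 * y / (2 + y) + y / (2 - y) := by
  have ha := a3_lo
  have hb := a3_hi
  have e : 2 * y / (2 + y) + y / (2 - y) = y * (6 - y) / ((2 + y) * (2 - y)) := by
    have h1 : (2 : ℝ) + y ≠ 0 := by linarith
    have h2 : (2 : ℝ) - y ≠ 0 := by linarith
    field_simp
    ring
  rw [e, le_div_iff₀ (mul_pos (by linarith) (by linarith))]
  have h3 : 0 ≤ y * (y - 1 / 2) ^ 2 := mul_nonneg hy (sq_nonneg _)
  nlinarith [sq_nonneg (y - 0.4858), mul_nonneg hy hy, h3]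

theorem key3 (N : ℕ) (b r y : ℝ) (hb : 0 < b) (hN : (N : ℝ) ≤ 3 / 2 * b) (hr : 0 < r) (hr1 : r ≤ 1)
    (hy2 : y < 2) (hyr : y < 2 * r) (hz : b / 2 * (1 - r ^ 2) ≤ y - a3) :
    2 * r - y ≤ Real.exp (3 / 2 * (b / 2 * (1 - r ^ 2))) * (2 - y) * r ^ N := by
  have ha := a3_lo
  obtain ⟨z, hzz⟩ : ∃ z : ℝ, z = b / 2 * (1 - r ^ 2) := ⟨_, rfl⟩
  obtain ⟨L, hL⟩ : ∃ L : ℝ, L = -Real.log r := ⟨_, rfl⟩
  rw [← hzz] at hz ⊢
  have hr2 : 0 ≤ 1 - r ^ 2 := by nlinarith
  have hz0 : 0 ≤ z := by rw [hzz]; positivity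
  have hy0 : 0 < y := by linarith
  have hL0 : 0 ≤ L := by rw [hL]; have := Real.log_nonpos hr.le hr1; linarith
  have hlog := k3_log r hr hr1
  have hlog2 := k3_log2 r hr hr1
  rw [← hL] at hlog2
  have hlog' : 2 * r * L ≤ 1 - r ^ 2 := by rw [hL]; linarith
  -- `r ^ N = exp (-N L)`
  have hrN : r ^ N = Real.exp (-(N * L)) := by
    rw [hL, mul_neg, neg_neg, mul_comm, Real.exp_mul, Real.exp_log hr, Real.rpow_natCast]
  -- `r (N L - 3/2 z) ≤ 3/2 (y - a3) (1 - r)`
  have h1 : r * (N * L - 3 / 2 * z) ≤ 3 / 2 * (y - a3) * (1 - r) := by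
    have h2 : r * (N * L) ≤ r * (3 / 2 * b * L) :=
      mul_le_mul_of_nonneg_left (mul_le_mul_of_nonneg_right hN hL0) hr.le
    have h3 : b * (2 * r * L) ≤ b * (1 - r ^ 2) := mul_le_mul_of_nonneg_left hlog' hb.le
    have h4 : b * (1 - r ^ 2) = 2 * z := by rw [hzz]; ring
    have h5 : z * (1 - r) ≤ (y - a3) * (1 - r) := mul_le_mul_of_nonneg_right hz (by linarith)
    nlinarith
  -- `3/2 (y - a3) (1 - r) ≤ r L + y (1 - r) / (2 - y)`
  have h6 : 3 / 2 * (y - a3) * (1 - r) ≤ r * L + y * (1 - r) / (2 - y) := by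
    have h7 := k3_poly y hy0.le hy2
    have h8 : 2 * y / (2 + y) ≤ 2 * r / (1 + r) := by
      rw [div_le_div_iff₀ (by linarith) (by linarith)]
      nlinarith
    have h9 : (1 - r) * (2 * r / (1 + r)) ≤ r * L := by
      have : (1 - r) * (2 * r / (1 + r)) = r * (2 * (1 - r) / (1 + r)) := by ring
      rw [this]
      exact mul_le_mul_of_nonneg_left hlog2 hr.le
    have h10 : 3 / 2 * (y - a3) ≤ 2 * r / (1 + r) + y / (2 - y) := by linarith
    have h11 := mul_le_mul_of_nonneg_right h10 (by linarith : (0 : ℝ) ≤ 1 - r)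
    have h12 : (2 * r / (1 + r) + y / (2 - y)) * (1 - r) =
        (1 - r) * (2 * r / (1 + r)) + y * (1 - r) / (2 - y) := by ring
    linarith
  -- `exp (- (L + y (1-r) / (r (2-y)))) ≥ (2r-y)/(2-y)`
  have h13 : N * L - 3 / 2 * z ≤ L + y * (1 - r) / (r * (2 - y)) := by
    have h14 : r * (N * L - 3 / 2 * z) ≤ r * (L + y * (1 - r) / (r * (2 - y))) := by
      have e : r * (L + y * (1 - r) / (r * (2 - y))) = r * L + y * (1 - r) / (2 - y) := by
        have : (2 : ℝ) - y ≠ 0 := by linarith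
        field_simp
      rw [e]; linarith
    exact le_of_mul_le_mul_left h14 hr
  have h15 : 1 - y * (1 - r) / (r * (2 - y)) ≤ Real.exp (-(y * (1 - r) / (r * (2 - y)))) := by
    have := Real.add_one_le_exp (-(y * (1 - r) / (r * (2 - y))))
    linarith
  have h16 : r * (2 - y) * (1 - y * (1 - r) / (r * (2 - y))) = 2 * r - y := by
    have : (2 : ℝ) - y ≠ 0 := by linarith
    field_simp
    ring
  have h17 : Real.exp (-L) = r := by rw [hL, neg_neg, Real.exp_log hr]
  have hp : 0 < 2 - y := by linarith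
  calc 2 * r - y = r * (2 - y) * (1 - y * (1 - r) / (r * (2 - y))) := h16.symm
    _ ≤ r * (2 - y) * Real.exp (-(y * (1 - r) / (r * (2 - y)))) :=
        mul_le_mul_of_nonneg_left h15 (by positivity)
    _ = (2 - y) * Real.exp (-(L + y * (1 - r) / (r * (2 - y)))) := by
        rw [neg_add, Real.exp_add, h17]; ring
    _ ≤ (2 - y) * Real.exp (3 / 2 * z - N * L) :=
        mul_le_mul_of_nonneg_left (Real.exp_le_exp.2 (by linarith)) hp.le
    _ = Real.exp (3 / 2 * z) * (2 - y) * r ^ N := by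
        rw [hrN, sub_eq_add_neg (3 / 2 * z), Real.exp_add]; ring

end Pool.Agent.RTC
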