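import Pool.Agent.RTC.St
import Pool.Agent.RTC.KEY3

set_option autoImplicit false

/-!
# RTC: the moment inequality with the exponent 3/2
-/

namespace Pool.Agent.RTC

open MeasureTheory Set Filter Topology
open scoped ENNReal NNReal

namespace FUB3

theorem exp_a3 : Real.exp (3 / 2 * (a3 - 1)) = 1 / 4 := by
  have h : 3 / 2 * (a3 - 1) = -Real.log 2 + -Real.log 2 := by
    unfold a3
    ring
  rw [h, Real.exp_add, Real.exp_neg, Real.exp_log (by norm_num)]
  norm_num

/-- `(1 - p) ≤ (1 + p/2) exp (-3p/2)` for `-1 ≤ p`. -/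
theorem aux (p : ℝ) (hp : -1 ≤ p) : 1 - p ≤ (1 + p / 2) * Real.exp (-(3 / 2 * p)) := by
  rcases le_total p 0 with h | h
  · obtain ⟨x, hx⟩ : ∃ x : ℝ, x = -(3 / 2 * p) := ⟨_, rfl⟩
    rw [← hx]
    have hx0 : 0 ≤ x := by linarith
    have h1 := Real.sum_le_exp_of_nonneg hx0 4
    simp [Finset.sum_range_succ, Nat.factorial] at h1
    have hp2 : p = -(2 / 3 * x) := by linarith
    have hx1 : x ≤ 3 / 2 := by linarith
    have h3 : (1 + p / 2) * (1 + x + x ^ 2 / 2 + x ^ 3 / 6) ≤ (1 + p / 2) * Real.exp x :=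
      mul_le_mul_of_nonneg_left h1 (by linarith)
    refine le_trans ?_ h3
    rw [hp2]
    have : 0 ≤ x ^ 2 * (3 - x ^ 2) := mul_nonneg (sq_nonneg _) (by nlinarith)
    nlinarith
  · have hd : ∀ x : ℝ, HasDerivAt (fun p : ℝ => (1 + p / 2) * Real.exp (-(3 / 2 * p)) - (1 - p))
        (1 / 2 * Real.exp (-(3 / 2 * x)) + (1 + x / 2) * (Real.exp (-(3 / 2 * x)) * (-(3 / 2))) + 1)
        x := by
      intro x
      have h1 : HasDerivAt (fun p : ℝ => 1 + p / 2) (1 / 2) x := by
        simpa using ((hasDerivAt_id x).div_const 2).const_add 1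
      have h2 : HasDerivAt (fun p : ℝ => -(3 / 2 * p)) (-(3 / 2)) x := by
        have h := (hasDerivAt_id x).const_mul (-(3 / 2) : ℝ)
        have e : (fun p : ℝ => -(3 / 2 * p)) = fun p => -(3 / 2) * id p := by
          funext p; simp
        rw [e, mul_one] at *
        exact h
      have h3 : HasDerivAt (fun p : ℝ => 1 - p) (-1) x := by
        simpa using (hasDerivAt_id x).const_sub 1
      have h4 := (h1.mul h2.exp).sub h3
      refine h4.congr_deriv ?_
      ring
    have hm : MonotoneOn (fun p : ℝ => (1 + p / 2) * Real.exp (-(3 / 2 * p)) - (1 - p)) (Ici 0) := by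
      refine monotoneOn_of_deriv_nonneg (convex_Ici 0)
        (fun x _ => (hd x).continuousAt.continuousWithinAt)
        (fun x _ => (hd x).differentiableAt.differentiableWithinAt) ?_
      intro x hx
      rw [interior_Ici, mem_Ioi] at hx
      rw [(hd x).deriv]
      have h5 : Real.exp (-(3 / 2 * x)) * Real.exp (3 / 2 * x) = 1 := by
        rw [← Real.exp_add]; simp
      have h6 := Real.add_one_le_exp (3 / 2 * x)
      have h7 := Real.exp_pos (-(3 / 2 * x))
      have h8 : Real.exp (-(3 / 2 * x)) * (1 + 3 / 4 * x) ≤ 1 := by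
        calc _ ≤ Real.exp (-(3 / 2 * x)) * Real.exp (3 / 2 * x) :=
              mul_le_mul_of_nonneg_left (by linarith) h7.le
          _ = 1 := h5
      nlinarith
    have h1 := hm (mem_Ici.2 le_rfl) (mem_Ici.2 h) h
    simp only [zero_div, add_zero, mul_zero, neg_zero, Real.exp_zero, sub_zero] at h1
    linarith

theorem key (z : ℝ) (hz : 0 ≤ z) :
    max 0 (2 - z) * (Real.exp (3 / 2 * (z - 1)) - 1 / 4) ≤ 3 / 4 * z := by
  rcases le_or_gt 2 z with h | h
  · rw [max_eq_left (by linarith), zero_mul]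
    linarith
  · rw [max_eq_right (by linarith)]
    have h1 := aux (z - 1) (by linarith)
    have h2 : (2 - z) * Real.exp (3 / 2 * (z - 1)) ≤ 1 + (z - 1) / 2 := by
      have h3 : Real.exp (-(3 / 2 * (z - 1))) * Real.exp (3 / 2 * (z - 1)) = 1 := by
        rw [← Real.exp_add]; simp
      calc (2 - z) * Real.exp (3 / 2 * (z - 1)) = (1 - (z - 1)) * Real.exp (3 / 2 * (z - 1)) := by
            ring
        _ ≤ ((1 + (z - 1) / 2) * Real.exp (-(3 / 2 * (z - 1)))) * Real.exp (3 / 2 * (z - 1)) :=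
            mul_le_mul_of_nonneg_right h1 (Real.exp_pos _).le
        _ = 1 + (z - 1) / 2 := by rw [mul_assoc, h3, mul_one]
    nlinarith

theorem int_exp (z : ℝ) :
    ∫ x in a3..z, 3 / 2 * Real.exp (3 / 2 * (x - 1)) = Real.exp (3 / 2 * (z - 1)) - 1 / 4 := by
  have hd : ∀ x ∈ uIcc a3 z, HasDerivAt (fun x : ℝ => Real.exp (3 / 2 * (x - 1)))
      (3 / 2 * Real.exp (3 / 2 * (x - 1))) x := by
    intro x _
    have h2 : HasDerivAt (fun p : ℝ => 3 / 2 * (p - 1)) (3 / 2) x := by
      simpa using ((hasDerivAt_id x).sub_const 1).const_mul (3 / 2)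
    refine h2.exp.congr_deriv ?_
    ring
  rw [intervalIntegral.integral_eq_sub_of_hasDerivAt hd
    ((by fun_prop : Continuous fun x : ℝ => 3 / 2 * Real.exp (3 / 2 * (x - 1))).intervalIntegrable _ _),
    exp_a3]

/-- The kernel. -/
noncomputable def F : ℝ × ℝ → ℝ :=
  {p : ℝ × ℝ | p.1 < p.2}.indicator (fun p => 3 / 2 * Real.exp (3 / 2 * (p.1 - 1)) * max 0 (2 - p.2))

theorem F_left (x z : ℝ) :
    F (x, z) = 3 / 2 * Real.exp (3 / 2 * (x - 1)) * (Ioi x).indicator (fun z => max 0 (2 - z)) z := by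
  unfold F
  by_cases h : x < z
  · rw [indicator_of_mem (show (x, z) ∈ {p : ℝ × ℝ | p.1 < p.2} from h),
      indicator_of_mem (show z ∈ Ioi x from h)]
  · rw [indicator_of_notMem (show (x, z) ∉ {p : ℝ × ℝ | p.1 < p.2} from h),
      indicator_of_notMem (show z ∉ Ioi x from h), mul_zero]

theorem F_right (x z : ℝ) :
    F (x, z) = (Iio z).indicator (fun x => 3 / 2 * Real.exp (3 / 2 * (x - 1)) * max 0 (2 - z)) x := by
  unfold F
  by_cases h : x < z
  · rw [indicator_of_mem (show (x, z) ∈ {p : ℝ × ℝ | p.1 < p.2} from h),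
      indicator_of_mem (show x ∈ Iio z from h)]
  · rw [indicator_of_notMem (show (x, z) ∉ {p : ℝ × ℝ | p.1 < p.2} from h),
      indicator_of_notMem (show x ∉ Iio z from h)]

theorem cont_exp : Continuous (fun x : ℝ => 3 / 2 * Real.exp (3 / 2 * (x - 1))) := by fun_prop

theorem F_int {ν : Measure ℝ} [IsFiniteMeasure ν] (hint : Integrable (fun y : ℝ => y) ν) (Y : ℝ) :
    Integrable F (((volume : Measure ℝ).restrict (Ioc a3 Y)).prod ν) := by
  unfold F
  refine Integrable.indicator ?_ (measurableSet_lt measurable_fst measurable_snd)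
  refine Integrable.mul_prod (f := fun x : ℝ => 3 / 2 * Real.exp (3 / 2 * (x - 1)))
    (g := fun z : ℝ => max 0 (2 - z)) ?_ ?_
  · exact (cont_exp.integrableOn_Icc (a := a3) (b := Y)).mono_set Ioc_subset_Icc_self
  · have h1 : Integrable (fun z : ℝ => 2 - z) ν := (integrable_const (2 : ℝ)).sub hint
    have h2 : (fun z : ℝ => max 0 (2 - z)) = fun z : ℝ => max (2 - z) 0 := by
      funext z
      exact max_comm _ _
    rw [h2]
    exact h1.pos_part

theorem inner_le (Y z : ℝ) (hz : 0 ≤ z) :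
    ∫ x in Ioc a3 Y, F (x, z) ≤ 3 / 4 * z := by
  have h1 : ∀ x, F (x, z) =
      (Iio z).indicator (fun x => 3 / 2 * Real.exp (3 / 2 * (x - 1)) * max 0 (2 - z)) x :=
    fun x => F_right x z
  simp_rw [h1]
  rw [setIntegral_indicator measurableSet_Iio]
  have hc : 0 ≤ max 0 (2 - z) := le_max_left _ _
  rcases le_or_gt z a3 with h | h
  · have h2 : Ioc a3 Y ∩ Iio z = ∅ := by
      ext x
      simp only [mem_inter_iff, mem_Ioc, mem_Iio, mem_empty_iff_false, iff_false]
      rintro ⟨⟨h3, -⟩, h4⟩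
      linarith
    rw [h2, Measure.restrict_empty, integral_zero_measure]
    linarith
  · have h2 : ∫ x in Ioc a3 Y ∩ Iio z, 3 / 2 * Real.exp (3 / 2 * (x - 1)) * max 0 (2 - z) ≤
        ∫ x in Ioc a3 z, 3 / 2 * Real.exp (3 / 2 * (x - 1)) * max 0 (2 - z) := by
      refine setIntegral_mono_set ?_ ?_ ?_
      · exact ((cont_exp.mul continuous_const).integrableOn_Icc
          (a := a3) (b := z)).mono_set Ioc_subset_Icc_self
      · exact Eventually.of_forall fun x => mul_nonneg
          (mul_nonneg (by norm_num) (Real.exp_pos _).le) hc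
      · refine LE.le.eventuallyLE ?_
        rintro x ⟨⟨h3, -⟩, h4⟩
        exact ⟨h3, le_of_lt h4⟩
    refine h2.trans ?_
    rw [← intervalIntegral.integral_of_le h.le, intervalIntegral.integral_mul_const, int_exp,
      mul_comm]
    exact key z hz

end FUB3

open FUB3 in
theorem fub3 (N : ℕ) (b : ℝ) (m : ℝ → ℝ) (ν : Measure ℝ) (hd : Data N b m ν) (Y : ℝ) (hY : a3 ≤ Y) :
    ∫ x in a3..Y, 3 / 2 * Real.exp (3 / 2 * (x - 1)) * S0 ν x ≤ 3 / 4 := by
  have hfin : IsFiniteMeasure ν := ⟨hd.fin⟩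
  have hF := F_int hd.int Y
  rw [intervalIntegral.integral_of_le hY]
  have h1 : ∀ x, 3 / 2 * Real.exp (3 / 2 * (x - 1)) * S0 ν x = ∫ z, F (x, z) ∂ν := by
    intro x
    simp_rw [F_left]
    rw [integral_const_mul, integral_indicator measurableSet_Ioi]
    rfl
  simp_rw [h1]
  rw [integral_integral_swap (f := fun x z => F (x, z)) hF]
  have hpos : ∀ᵐ z ∂ν, 0 ≤ z := by
    have h2 : ν {z | ¬ 0 ≤ z} = 0 := by
      have h3 : {z : ℝ | ¬ 0 ≤ z} = Iio 0 := by
        ext z
        simp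
      rw [h3]
      exact hd.supp
    exact h2
  have h2 : ∫ z, (∫ x in Ioc a3 Y, F (x, z)) ∂ν ≤ ∫ z, 3 / 4 * z ∂ν := by
    refine integral_mono_ae ?_ (hd.int.const_mul _) ?_
    · exact hF.integral_prod_right
    · filter_upwards [hpos] with z hz
      exact inner_le Y z hz
  refine h2.trans ?_
  rw [integral_const_mul]
  have := hd.mean
  linarith

end Pool.Agent.RTC
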