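import Pool.Agent.RTC.ETA
import Pool.Agent.RTC.FUB3

/-!
# RTC: the barrier function with the exponent 3/2
-/

set_option autoImplicit false

namespace Pool.Agent.RTC

open MeasureTheory Set Filter Topology
open scoped ENNReal NNReal

open ETA

theorem eta3 (N : ℕ) (b : ℝ) (m : ℝ → ℝ) (ν : Measure ℝ) (hD : Data N b m ν) (ε : ℝ) (hε : 0 < ε) :
    ∃ η : ℝ → ℝ, ContinuousOn η (Ici a3) ∧ η a3 = 1 ∧
      (∀ y, a3 ≤ y → Real.exp (-(3 / 2 * (y - a3))) ≤ η y) ∧
      (∀ y, a3 ≤ y → HasDerivWithinAt η (3 / 2 * (-(η y) + S0 ν y + ε)) (Ici y) y) ∧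
      (∀ y, a3 ≤ y → η y ≤ Real.exp (-(3 / 2 * (y - a3))) +
        Real.exp (-(3 / 2 * (y - 1))) * (∫ x in a3..y, 3 / 2 * Real.exp (3 / 2 * (x - 1)) * S0 ν x) +
        ε * (3 / 2 * (y - a3))) := by
  obtain ⟨F, hF⟩ : ∃ F : ℝ → ℝ, F = fun x => (3 / 2 * Real.exp (3 / 2 * x)) * (S0 ν x + ε) := ⟨_, rfl⟩
  have hce : Continuous (fun x : ℝ => 3 / 2 * Real.exp (3 / 2 * x)) := by fun_prop
  have hFi : ∀ x y, IntervalIntegrable F volume x y := fun x y => by
    rw [hF]
    exact ii hD _ hce ε x y
  have hFpos : ∀ x, 0 ≤ F x := fun x => by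
    rw [hF]
    exact mul_nonneg (mul_nonneg (by norm_num) (Real.exp_pos _).le) (add_nonneg (S0_nonneg ν x) hε.le)
  refine ⟨fun y => Real.exp (-(3 / 2 * y)) * (Real.exp (3 / 2 * a3) + ∫ x in a3..y, F x),
    ?_, ?_, ?_, ?_, ?_⟩
  · apply Continuous.continuousOn
    exact (by fun_prop : Continuous fun y : ℝ => Real.exp (-(3 / 2 * y))).mul
      (continuous_const.add (intervalIntegral.continuous_primitive hFi a3))
  · show Real.exp (-(3 / 2 * a3)) * (Real.exp (3 / 2 * a3) + ∫ x in a3..a3, F x) = 1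
    rw [intervalIntegral.integral_same, add_zero, ← Real.exp_add, neg_add_cancel, Real.exp_zero]
  · intro y hy
    have h1 : 0 ≤ ∫ x in a3..y, F x := intervalIntegral.integral_nonneg hy fun x _ => hFpos x
    have h2 : Real.exp (-(3 / 2 * (y - a3))) = Real.exp (-(3 / 2 * y)) * Real.exp (3 / 2 * a3) := by
      rw [← Real.exp_add]
      congr 1
      ring
    rw [h2]
    exact mul_le_mul_of_nonneg_left (by linarith) (Real.exp_pos _).le
  · intro y hy
    have hm : StronglyMeasurableAtFilter F (𝓝[Ioi y] y) volume := by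
      apply StronglyMeasurable.stronglyMeasurableAtFilter
      rw [hF]
      exact (hce.measurable.mul
        ((S0_anti hD).measurable.add measurable_const)).stronglyMeasurable
    have hc : ContinuousWithinAt F (Ioi y) y := by
      rw [hF]
      exact hce.continuousWithinAt.mul
        ((S0_cont hD y).add continuousWithinAt_const)
    have h1 : HasDerivWithinAt (fun u => ∫ x in a3..u, F x) (F y) (Ici y) y :=
      intervalIntegral.integral_hasDerivWithinAt_right (hFi a3 y) hm hc
    have h2 : HasDerivWithinAt (fun u : ℝ => Real.exp (-(3 / 2 * u)))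
        (Real.exp (-(3 / 2 * y)) * (-(3 / 2))) (Ici y) y := by
      have h : HasDerivAt (fun p : ℝ => -(3 / 2 * p)) (-(3 / 2)) y := by
        have h := (hasDerivAt_id y).const_mul (-(3 / 2) : ℝ)
        have e : (fun p : ℝ => -(3 / 2 * p)) = fun p => -(3 / 2) * id p := by
          funext p; simp
        rw [mul_one] at h
        rw [e]
        exact h
      exact h.exp.hasDerivWithinAt
    have h3 := h2.mul (h1.const_add (Real.exp (3 / 2 * a3)))
    refine h3.congr_deriv ?_
    rw [hF]
    have h4 : Real.exp (-(3 / 2 * y)) * Real.exp (3 / 2 * y) = 1 := by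
      rw [← Real.exp_add, neg_add_cancel, Real.exp_zero]
    linear_combination (3 / 2 * (S0 ν y + ε)) * h4
  · intro y hy
    have hS : ∀ f : ℝ → ℝ, Continuous f →
        IntervalIntegrable (fun x => f x * S0 ν x) volume a3 y := fun f hf =>
      ((S0_anti hD).intervalIntegrable).continuousOn_mul hf.continuousOn
    have hI : ∫ x in a3..y, 3 / 2 * Real.exp (3 / 2 * x) =
        Real.exp (3 / 2 * y) - Real.exp (3 / 2 * a3) := by
      have hd : ∀ x ∈ uIcc a3 y, HasDerivAt (fun x : ℝ => Real.exp (3 / 2 * x))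
          (3 / 2 * Real.exp (3 / 2 * x)) x := by
        intro x _
        have h2 : HasDerivAt (fun p : ℝ => 3 / 2 * p) (3 / 2) x := by
          simpa using (hasDerivAt_id x).const_mul (3 / 2)
        refine h2.exp.congr_deriv ?_
        ring
      exact intervalIntegral.integral_eq_sub_of_hasDerivAt hd (hce.intervalIntegrable _ _)
    have h1 : ∫ x in a3..y, F x =
        (∫ x in a3..y, 3 / 2 * Real.exp (3 / 2 * x) * S0 ν x) +
          ε * (Real.exp (3 / 2 * y) - Real.exp (3 / 2 * a3)) := by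
      have e1 : F = fun x => 3 / 2 * Real.exp (3 / 2 * x) * S0 ν x +
          ε * (3 / 2 * Real.exp (3 / 2 * x)) := by
        rw [hF]
        funext x
        ring
      have e2 : IntervalIntegrable (fun x : ℝ => ε * (3 / 2 * Real.exp (3 / 2 * x))) volume a3 y :=
        (continuous_const.mul hce).intervalIntegrable _ _
      have e3 := intervalIntegral.integral_add (hS _ hce) e2
      rw [e1]
      refine e3.trans ?_
      rw [intervalIntegral.integral_const_mul ε, hI]
    have h2 : ∫ x in a3..y, 3 / 2 * Real.exp (3 / 2 * (x - 1)) * S0 ν x =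
        Real.exp (-(3 / 2)) * ∫ x in a3..y, 3 / 2 * Real.exp (3 / 2 * x) * S0 ν x := by
      rw [← intervalIntegral.integral_const_mul]
      congr 1
      funext x
      have : Real.exp (3 / 2 * (x - 1)) = Real.exp (-(3 / 2)) * Real.exp (3 / 2 * x) := by
        rw [← Real.exp_add]
        congr 1
        ring
      rw [this]
      ring
    have h3 : Real.exp (-(3 / 2 * (y - 1))) * Real.exp (-(3 / 2)) = Real.exp (-(3 / 2 * y)) := by
      rw [← Real.exp_add]
      congr 1
      ring
    have h4 : Real.exp (-(3 / 2 * (y - a3))) = Real.exp (-(3 / 2 * y)) * Real.exp (3 / 2 * a3) := by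
      rw [← Real.exp_add]
      congr 1
      ring
    have h5 : Real.exp (-(3 / 2 * y)) * Real.exp (3 / 2 * y) = 1 := by
      rw [← Real.exp_add, neg_add_cancel, Real.exp_zero]
    have h6 : 1 - Real.exp (-(3 / 2 * (y - a3))) ≤ 3 / 2 * (y - a3) := by
      have := Real.add_one_le_exp (-(3 / 2 * (y - a3)))
      linarith
    show Real.exp (-(3 / 2 * y)) * (Real.exp (3 / 2 * a3) + ∫ x in a3..y, F x) ≤ _
    rw [h1, h2]
    have h7 : Real.exp (-(3 / 2 * y)) * (Real.exp (3 / 2 * a3) +
        ((∫ x in a3..y, 3 / 2 * Real.exp (3 / 2 * x) * S0 ν x) +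
        ε * (Real.exp (3 / 2 * y) - Real.exp (3 / 2 * a3)))) =
        Real.exp (-(3 / 2 * (y - a3))) + Real.exp (-(3 / 2 * (y - 1))) * (Real.exp (-(3 / 2)) *
          ∫ x in a3..y, 3 / 2 * Real.exp (3 / 2 * x) * S0 ν x) +
          ε * (1 - Real.exp (-(3 / 2 * (y - a3)))) := by
      linear_combination (-1 + ε) * h4 -
        (∫ x in a3..y, 3 / 2 * Real.exp (3 / 2 * x) * S0 ν x) * h3 + ε * h5
    rw [h7]
    have h8 := mul_le_mul_of_nonneg_left h6 hε.le
    linarith

end Pool.Agent.RTC
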