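import Pool.Agent.RTC.SCA3
import Pool.Agent.RTC.FIN

set_option autoImplicit false

/-!
# RTC: the pointwise comparison for `2 N / 3 ≤ β R`
-/

namespace Pool.Agent.RTC

open MeasureTheory Set Filter Topology
open scoped ENNReal NNReal

/-- The pointwise comparison: `u^♯ ≤ v` in the ball outside the centre, and `u ≤ v(0)` a.e. -/
def S_FIN3 : Prop :=
  ∀ (N : ℕ), 2 ≤ N → ∀ (Ω : Set (E N)) (σ : Measure (E N)) (β R : ℝ) (u : E N → ℝ)
    (g : E N → E N) (w : E N → ℝ), 0 < β → 0 < R → 2 * (N : ℝ) ≤ 3 * (β * R) → IsOpen Ω →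
    Bornology.IsBounded Ω → volume Ω = volume (Metric.ball (0 : E N) R) →
    IsBoundaryMeasure Ω σ → IsRobin Ω σ β u g w →
    (∀ x ∈ Metric.ball (0 : E N) R, x ≠ 0 → sharp Ω u x ≤ vball N β R x) ∧
    ∀ᵐ x ∂(volume.restrict Ω), u x ≤ vball N β R 0

theorem top3 (hSCA : S_SCA3) (N : ℕ) (hN : 2 ≤ N) (Ω : Set (E N)) (σ : Measure (E N)) (β R : ℝ)
    (u : E N → ℝ) (g : E N → E N) (w : E N → ℝ) (hβ : 0 < β) (hR : 0 < R)
    (hb : 2 * (N : ℝ) ≤ 3 * (β * R)) (hΩ : IsOpen Ω) (hbd : Bornology.IsBounded Ω)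
    (hvol : volume Ω = volume (Metric.ball (0 : E N) R)) (hσ : IsBoundaryMeasure Ω σ)
    (hu : IsRobin Ω σ β u g w) : ∀ᵐ x ∂(volume.restrict Ω), u x ≤ vball N β R 0 := by
  have hN0 : (0 : ℝ) < N := by exact_mod_cast (by omega : 0 < N)
  have hv : R / (N * β) ≤ vball N β R 0 := by
    unfold vball
    have : 0 ≤ (R ^ 2 - ‖(0 : E N)‖ ^ 2) / (2 * N) := by
      rw [norm_zero]
      exact div_nonneg (by nlinarith [sq_nonneg R]) (by positivity)
    linarith
  have hsca := hSCA N hN Ω σ β R u g w hβ hR hb hΩ hbd hvol hσ hu (vball N β R 0) hv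
  have e1 : R ^ 2 - 2 * N * (vball N β R 0 - R / (N * β)) = 0 := by
    unfold vball
    rw [norm_zero]
    field_simp
    ring
  rw [e1, max_self, Real.zero_rpow (by positivity), mul_zero] at hsca
  have h0 : mu Ω u (vball N β R 0) = 0 := le_antisymm hsca ENNReal.toReal_nonneg
  have hfin : volume (Ω ∩ {z | vball N β R 0 < u z}) ≠ ⊤ := by
    have h5 : volume (Ω ∩ {z | vball N β R 0 < u z}) ≤ volume Ω :=
      measure_mono inter_subset_left
    rw [hvol] at h5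
    exact (h5.trans_lt measure_ball_lt_top).ne
  have h1 : volume (Ω ∩ {z | vball N β R 0 < u z}) = 0 := by
    rcases (ENNReal.toReal_eq_zero_iff _).1 h0 with h | h
    · exact h
    · exact absurd h hfin
  rw [ae_restrict_iff' hΩ.measurableSet, ae_iff]
  refine measure_mono_null ?_ h1
  intro x hx
  simp only [mem_ofPred_eq, Classical.not_imp, not_le] at hx
  exact ⟨hx.1, hx.2⟩

theorem fin3 : S_SCA3 → S_FIN3 := by
  intro hSCA N hN Ω σ β R u g w hβ hR hb hΩ hbd hvol hσ hu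
  refine ⟨fun x hx hx0 => ?_, ?_⟩
  swap
  · exact top3 hSCA N hN Ω σ β R u g w hβ hR hb hΩ hbd hvol hσ hu
  have hN0 : (0 : ℝ) < N := by exact_mod_cast (by omega : 0 < N)
  have hxn : 0 < ‖x‖ := norm_pos_iff.2 hx0
  have hxR : ‖x‖ < R := by rwa [mem_ball_zero_iff] at hx
  have h1 : 0 < R ^ 2 - ‖x‖ ^ 2 := by nlinarith
  have hv : R / (N * β) ≤ vball N β R x := by
    unfold vball
    have : 0 ≤ (R ^ 2 - ‖x‖ ^ 2) / (2 * N) := div_nonneg h1.le (by positivity)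
    linarith
  have hv0 : 0 < R / (N * β) := by positivity
  refine le_of_forall_pos_le_add fun ε hε => ?_
  unfold sharp
  refine csInf_le ⟨0, fun t ht => ht.1⟩ ⟨by linarith, ?_⟩
  have hsca := hSCA N hN Ω σ β R u g w hβ hR hb hΩ hbd hvol hσ hu (vball N β R x + ε)
    (by linarith)
  have e1 : R ^ 2 - 2 * N * (vball N β R x + ε - R / (N * β)) = ‖x‖ ^ 2 - 2 * N * ε := by
    unfold vball
    have : 2 * (N : ℝ) * ((R ^ 2 - ‖x‖ ^ 2) / (2 * N)) = R ^ 2 - ‖x‖ ^ 2 := by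
      field_simp
    linear_combination -this
  have h2 : max 0 (‖x‖ ^ 2 - 2 * N * ε) < ‖x‖ ^ 2 := by
    apply max_lt (by positivity)
    have : 0 < 2 * (N : ℝ) * ε := by positivity
    linarith
  have h3 : (max 0 (‖x‖ ^ 2 - 2 * N * ε)) ^ ((N : ℝ) / 2) < ‖x‖ ^ N := by
    have h4 : (‖x‖ ^ 2) ^ ((N : ℝ) / 2) = ‖x‖ ^ N := by
      rw [← Real.rpow_natCast ‖x‖ 2, ← Real.rpow_mul hxn.le, ← Real.rpow_natCast ‖x‖ N]
      congr 1
      push_cast
      ring
    rw [← h4]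
    exact Real.rpow_lt_rpow (le_max_left _ _) h2 (by positivity)
  rw [e1] at hsca
  have hfin : volume (Ω ∩ {z | vball N β R x + ε < u z}) ≠ ⊤ := by
    have h5 : volume (Ω ∩ {z | vball N β R x + ε < u z}) ≤ volume Ω :=
      measure_mono inter_subset_left
    rw [hvol] at h5
    exact (h5.trans_lt measure_ball_lt_top).ne
  rw [← ENNReal.toReal_lt_toReal hfin measure_ball_lt_top.ne, FIN.toReal_ball hxn]
  have h6 : om N * (max 0 (‖x‖ ^ 2 - 2 * N * ε)) ^ ((N : ℝ) / 2) < om N * ‖x‖ ^ N :=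
    mul_lt_mul_of_pos_left h3 FIN.om_pos
  have h7 : (volume (Ω ∩ {z | vball N β R x + ε < u z})).toReal =
    mu Ω u (vball N β R x + ε) := rfl
  rw [h7]
  linarith

end Pool.Agent.RTC
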