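import Pool.Agent.RTC.BMN75
import Pool.Agent.RTC.ISO28
import Pool.Agent.RTC.MOP
import Pool.Agent.RTC.MOA
import Pool.Agent.RTC.ISW
import Pool.Agent.RTC.SUB
import Pool.Agent.RTC.LMA
import Pool.Agent.RTC.LMB
import Pool.Agent.RTC.GEX
import Pool.Agent.RTC.DIF
import Pool.Agent.RTC.NNG
import Pool.Agent.RTC.BAR
import Pool.Agent.RTC.BRZ
import Pool.Agent.RTC.FIN3

set_option autoImplicit false

/-! # RTC: the pointwise comparison for `2 N ≤ 3 β R` -/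

namespace Pool.Agent.RTC

theorem final3 : S_FIN3 :=
  fin3 (sca3 (t_DIF t_GEX (t_LMA t_SUB) (t_LMB (t_ISW (t_ISO t_BMN75) (t_MOA t_MOP)) t_SUB))
    (t_NNG (t_LMA t_SUB)) (t_BRZ t_BAR))

end Pool.Agent.RTC
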