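import Mathlib

/-!
# RTC (MP_84cf48_an): Brunn-Minkowski gives the isoperimetric inequality for functions
-/

set_option autoImplicit false

open MeasureTheory Metric Set

namespace Pool.Agent.RTC

namespace ISO

theorem pow_ineq (n : ℕ) (a x : ℝ) (ha : 0 ≤ a) (hx : 0 ≤ x) :
    a ^ (n + 1) + (n + 1) * a ^ n * x ≤ (a + x) ^ (n + 1) := by
  induction n with
  | zero => simp
  | succ n ih =>
    have h1 : 0 ≤ a ^ n := pow_nonneg ha n
    have h2 : (a + x) ^ (n + 1 + 1) = (a + x) ^ (n + 1) * (a + x) := pow_succ _ _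
    rw [h2]
    have h3 : (a ^ (n + 1) + (n + 1) * a ^ n * x) * (a + x) ≤ (a + x) ^ (n + 1) * (a + x) :=
      mul_le_mul_of_nonneg_right ih (by positivity)
    refine le_trans ?_ h3
    have h4 : 0 ≤ ((n : ℝ) + 1) * a ^ n * x * x := by positivity
    have h5 : (a ^ (n + 1) + (n + 1) * a ^ n * x) * (a + x)
        = a ^ (n + 1 + 1) + ((n + 1 : ℕ) + 1) * a ^ (n + 1) * x + ((n : ℝ) + 1) * a ^ n * x * x := by
      push_cast
      ring
    rw [h5]
    linarith

theorem vol_ineq {N : ℕ} (hN : 1 ≤ N) (V W z : ℝ) (hV : 0 ≤ V) (hW : 0 ≤ W) (hz : 0 ≤ z)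
    (h : V ^ (1 / N : ℝ) + z ≤ W ^ (1 / N : ℝ)) :
    V + N * z * V ^ (1 - 1 / N : ℝ) ≤ W := by
  obtain ⟨n, rfl⟩ : ∃ n, N = n + 1 := ⟨N - 1, by omega⟩
  have hN0 : ((n + 1 : ℕ) : ℝ) ≠ 0 := by positivity
  set a : ℝ := V ^ (1 / ((n + 1 : ℕ) : ℝ)) with ha
  have ha0 : 0 ≤ a := Real.rpow_nonneg hV _
  have h1 : a ^ (n + 1) = V := by
    rw [ha, ← Real.rpow_natCast, ← Real.rpow_mul hV, one_div, inv_mul_cancel₀ hN0, Real.rpow_one]
  have h2 : a ^ n = V ^ (1 - 1 / ((n + 1 : ℕ) : ℝ)) := by
    rw [ha, ← Real.rpow_natCast, ← Real.rpow_mul hV]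
    congr 1
    field_simp
    push_cast
    ring
  have h3 : (W ^ (1 / ((n + 1 : ℕ) : ℝ))) ^ (n + 1) = W := by
    rw [← Real.rpow_natCast, ← Real.rpow_mul hW, one_div, inv_mul_cancel₀ hN0, Real.rpow_one]
  have h4 := pow_ineq n a z ha0 hz
  have h5 : (a + z) ^ (n + 1) ≤ W := by
    rw [← h3]
    exact pow_le_pow_left₀ (by positivity) h _
  rw [h1, h2] at h4
  refine le_trans (le_of_eq ?_) (h4.trans h5)
  push_cast
  ring

end ISO

open ISO in
/-- The isoperimetric inequality for functions, from the Brunn-Minkowski inequality. -/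
theorem iso_of_BM {N : ℕ} (hN : 2 ≤ N) (c : ℝ) (hc : 0 ≤ c)
    (hBM : ∀ (A : Set (EuclideanSpace ℝ (Fin N))) (d : ℝ), IsOpen A → 0 < d →
      Bornology.IsBounded A → A.Nonempty → (volume A).toReal ^ (1 / N : ℝ) + c * d
        ≤ (volume (thickening d A)).toReal ^ (1 / N : ℝ))
    (f : EuclideanSpace ℝ (Fin N) → ℝ) (hf : ContDiff ℝ 1 f) (hcs : HasCompactSupport f)
    (h0 : ∀ x, 0 ≤ f x) (s : ℝ) (hs : 0 < s) :
    N * c * s * (volume {x | s < f x}).toReal ^ (1 - 1 / N : ℝ) ≤ ∫ x, ‖fderiv ℝ f x‖ := by
  have hfc : Continuous f := hf.continuous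
  have hdc : Continuous (fderiv ℝ f) := hf.continuous_fderiv one_ne_zero
  have hdcs : HasCompactSupport (fderiv ℝ f) := hcs.fderiv ℝ
  have hdiff : Differentiable ℝ f := hf.differentiable one_ne_zero
  have hunif : UniformContinuous (fderiv ℝ f) := hdcs.uniformContinuous_of_continuous hdc
  set K : Set (EuclideanSpace ℝ (Fin N)) := cthickening 1 (tsupport f) with hK
  have hKc : IsCompact K := (show IsCompact (tsupport f) from hcs).cthickening
  have hKf : volume K < ⊤ := hKc.measure_lt_top
  have hKm : MeasurableSet K := hKc.isClosed.measurableSet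
  set κ : ℝ := (volume {x | s < f x}).toReal ^ (1 - 1 / N : ℝ) with hκ
  have hκ0 : 0 ≤ κ := Real.rpow_nonneg ENNReal.toReal_nonneg _
  have hfi : Integrable f := hfc.integrable_of_hasCompactSupport hcs
  have hdi : Integrable (fun x => ‖fderiv ℝ f x‖) :=
    (hdc.integrable_of_hasCompactSupport hdcs).norm
  -- level sets
  have hsub : ∀ t : ℝ, 0 < t → {x | t < f x} ⊆ tsupport f := by
    intro t ht x hx
    apply subset_tsupport
    have : t < f x := hx
    exact ne_of_gt (ht.trans this)
  have hop : ∀ t : ℝ, IsOpen {x | t < f x} := fun t => isOpen_lt continuous_const hfc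
  -- key estimate for every ε
  have key : ∀ ε : ℝ, 0 < ε → N * c * s * κ ≤ (∫ x, ‖fderiv ℝ f x‖) + ε * (volume K).toReal := by
    intro ε hε
    obtain ⟨δ₀, hδ₀, hδu⟩ := Metric.uniformContinuous_iff.1 hunif ε hε
    set δ : ℝ := min δ₀ 1 with hδ
    have hδ0 : 0 < δ := lt_min hδ₀ one_pos
    have hδ1 : δ ≤ 1 := min_le_right _ _
    -- the majorant
    let h : EuclideanSpace ℝ (Fin N) → ℝ :=
      fun x => f x + K.indicator (fun x => δ * (‖fderiv ℝ f x‖ + ε)) x
    have hind0 : ∀ x, 0 ≤ K.indicator (fun x => δ * (‖fderiv ℝ f x‖ + ε)) x := fun x =>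
      Set.indicator_nonneg (fun x _ => by positivity) x
    have hh0 : ∀ x, 0 ≤ h x := fun x => add_nonneg (h0 x) (hind0 x)
    have hii : Integrable (K.indicator (fun x => δ * (‖fderiv ℝ f x‖ + ε))) := by
      rw [integrable_indicator_iff hKm]
      exact ((hdi.integrableOn.add (integrableOn_const (hs := hKf.ne)))).const_mul δ
    have hhi : Integrable h := hfi.add hii
    have hmaj : ∀ t : ℝ, 0 < t → thickening δ {x | t < f x} ⊆ {x | t < h x} := by
      intro t ht x hx
      obtain ⟨y, hy, hxy⟩ := mem_thickening_iff.1 hx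
      have hy' : t < f y := hy
      have hxK : x ∈ K := by
        apply mem_cthickening_of_dist_le x y 1 (tsupport f) (hsub t ht hy)
        exact (hxy.le.trans hδ1)
      show t < f x + K.indicator (fun x => δ * (‖fderiv ℝ f x‖ + ε)) x
      rw [indicator_of_mem hxK]
      have hb : ∀ z ∈ ball x δ, ‖fderiv ℝ f z‖ ≤ ‖fderiv ℝ f x‖ + ε := by
        intro z hz
        have h1 : dist (fderiv ℝ f z) (fderiv ℝ f x) < ε :=
          hδu (lt_of_lt_of_le (mem_ball.1 hz) (min_le_left _ _))
        rw [dist_eq_norm] at h1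
        have h2 := norm_le_norm_add_norm_sub' (fderiv ℝ f z) (fderiv ℝ f x)
        linarith
      have hmv := (convex_ball x δ).norm_image_sub_le_of_norm_fderiv_le (𝕜 := ℝ) (f := f)
        (fun z _ => hdiff z) hb (mem_ball_self hδ0) (y := y) (by rw [mem_ball, dist_comm]; exact hxy)
      have h3 : f y - f x ≤ ‖f y - f x‖ := Real.le_norm_self _
      have h4 : ‖y - x‖ ≤ δ := by
        rw [← dist_eq_norm, dist_comm]
        exact hxy.le
      have h5 : (‖fderiv ℝ f x‖ + ε) * ‖y - x‖ ≤ (‖fderiv ℝ f x‖ + ε) * δ :=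
        mul_le_mul_of_nonneg_left h4 (by positivity)
      nlinarith
    -- lower bound for the level sets of `h`
    have hlow : ∀ t : ℝ, 0 < t → volume {x | t < f x} +
        (Iio s).indicator (fun _ => ENNReal.ofReal (N * c * δ * κ)) t ≤ volume {x | t < h x} := by
      intro t ht
      have hVf : volume {x | t < f x} < ⊤ :=
        (measure_mono (hsub t ht)).trans_lt (show IsCompact (tsupport f) from hcs).measure_lt_top
      have hAb : Bornology.IsBounded {x | t < f x} :=
        (show IsCompact (tsupport f) from hcs).isBounded.subset (hsub t ht)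
      have hWf : volume (thickening δ {x | t < f x}) < ⊤ := by
        refine (measure_mono ?_).trans_lt hKf
        refine (thickening_subset_cthickening _ _).trans ?_
        exact (cthickening_mono hδ1 _).trans (cthickening_subset_of_subset _ (hsub t ht))
      refine le_trans ?_ (measure_mono (hmaj t ht))
      by_cases hne : ({x | t < f x} : Set (EuclideanSpace ℝ (Fin N))).Nonempty
      · have h1 := vol_ineq (N := N) (by omega) _ _ (c * δ) ENNReal.toReal_nonneg
          ENNReal.toReal_nonneg (by positivity) (hBM _ δ (hop t) hδ0 hAb hne)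
        have h2 : (Iio s).indicator (fun _ => ENNReal.ofReal (N * c * δ * κ)) t
            ≤ ENNReal.ofReal (N * (c * δ) * (volume {x | t < f x}).toReal ^ (1 - 1 / N : ℝ)) := by
          by_cases hts : t < s
          · rw [indicator_of_mem (show t ∈ Iio s from hts)]
            apply ENNReal.ofReal_le_ofReal
            have h3 : κ ≤ (volume {x | t < f x}).toReal ^ (1 - 1 / N : ℝ) := by
              apply Real.rpow_le_rpow ENNReal.toReal_nonneg
              · apply ENNReal.toReal_mono hVf.ne
                apply measure_mono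
                intro x hx
                exact hts.trans hx
              · have : (1 : ℝ) / N ≤ 1 := by
                  rw [div_le_one (by positivity)]
                  exact_mod_cast (by omega : 1 ≤ N)
                linarith
            have h4 : 0 ≤ (N : ℝ) * (c * δ) := by positivity
            nlinarith [mul_le_mul_of_nonneg_left h3 h4]
          · rw [indicator_of_notMem (show t ∉ Iio s from hts)]
            exact zero_le
        calc volume {x | t < f x} + (Iio s).indicator (fun _ => ENNReal.ofReal (N * c * δ * κ)) t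
            ≤ ENNReal.ofReal (volume {x | t < f x}).toReal +
              ENNReal.ofReal (N * (c * δ) * (volume {x | t < f x}).toReal ^ (1 - 1 / N : ℝ)) := by
              rw [ENNReal.ofReal_toReal hVf.ne]
              gcongr
          _ = ENNReal.ofReal ((volume {x | t < f x}).toReal +
              N * (c * δ) * (volume {x | t < f x}).toReal ^ (1 - 1 / N : ℝ)) := by
              rw [ENNReal.ofReal_add ENNReal.toReal_nonneg (by positivity)]
          _ ≤ ENNReal.ofReal (volume (thickening δ {x | t < f x})).toReal :=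
              ENNReal.ofReal_le_ofReal h1
          _ = volume (thickening δ {x | t < f x}) := ENNReal.ofReal_toReal hWf.ne
      · rw [not_nonempty_iff_eq_empty] at hne
        rw [hne]
        by_cases hts : t < s
        · have he : ({x | s < f x} : Set (EuclideanSpace ℝ (Fin N))) = ∅ := by
            rw [← subset_empty_iff, ← hne]
            intro x hx
            exact hts.trans hx
          have hk : κ = 0 := by
            rw [hκ, he, measure_empty, ENNReal.toReal_zero]
            apply Real.zero_rpow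
            have : (1 : ℝ) / N < 1 := by
              rw [div_lt_one (by positivity)]
              exact_mod_cast (by omega : 1 < N)
            linarith
          rw [indicator_of_mem (show t ∈ Iio s from hts), hk]
          simp
        · rw [indicator_of_notMem (show t ∉ Iio s from hts)]
          simp
    have hL1 : ENNReal.ofReal (∫ x, f x) = ∫⁻ t in Ioi (0 : ℝ), volume {x | t < f x} := by
      rw [ofReal_integral_eq_lintegral_ofReal hfi (Filter.Eventually.of_forall h0)]
      exact lintegral_eq_lintegral_meas_lt volume (Filter.Eventually.of_forall h0)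
        hfc.measurable.aemeasurable
    have hL2 : ENNReal.ofReal (∫ x, h x) = ∫⁻ t in Ioi (0 : ℝ), volume {x | t < h x} := by
      rw [ofReal_integral_eq_lintegral_ofReal hhi (Filter.Eventually.of_forall hh0)]
      exact lintegral_eq_lintegral_meas_lt volume (Filter.Eventually.of_forall hh0)
        hhi.aestronglyMeasurable.aemeasurable
    have hI : ∫⁻ t in Ioi (0 : ℝ), (Iio s).indicator (fun _ => ENNReal.ofReal (N * c * δ * κ)) t
        = ENNReal.ofReal (N * c * δ * κ) * ENNReal.ofReal s := by
      rw [lintegral_indicator measurableSet_Iio, lintegral_const,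
        Measure.restrict_restrict measurableSet_Iio, Measure.restrict_apply_univ]
      congr 1
      rw [Iio_inter_Ioi, Real.volume_Ioo, sub_zero]
    have hsum : ENNReal.ofReal (∫ x, f x) + ENNReal.ofReal (N * c * δ * κ) * ENNReal.ofReal s
        ≤ ENNReal.ofReal (∫ x, h x) := by
      rw [hL1, hL2, ← hI, ← lintegral_add_right _ (measurable_const.indicator measurableSet_Iio)]
      exact setLIntegral_mono' measurableSet_Ioi (fun t ht => hlow t ht)
    have hint : (∫ x, h x) ≤ (∫ x, f x) + δ * ((∫ x, ‖fderiv ℝ f x‖) + ε * (volume K).toReal) := by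
      have h1 : (∫ x, h x) = (∫ x, f x) + ∫ x in K, δ * (‖fderiv ℝ f x‖ + ε) := by
        rw [← integral_indicator hKm, ← integral_add hfi hii]
      rw [h1]
      have h2 : ∫ x in K, δ * (‖fderiv ℝ f x‖ + ε)
          = δ * ((∫ x in K, ‖fderiv ℝ f x‖) + ε * (volume K).toReal) := by
        rw [integral_const_mul, integral_add hdi.integrableOn (integrableOn_const (hs := hKf.ne)),
          setIntegral_const, smul_eq_mul, Measure.real, mul_comm ε]
      rw [h2]
      have h3 : ∫ x in K, ‖fderiv ℝ f x‖ ≤ ∫ x, ‖fderiv ℝ f x‖ :=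
        setIntegral_le_integral hdi (Filter.Eventually.of_forall fun x => norm_nonneg _)
      have h4 := mul_le_mul_of_nonneg_left h3 hδ0.le
      linarith [mul_add δ (∫ x in K, ‖fderiv ℝ f x‖) (ε * (volume K).toReal),
        mul_add δ (∫ x, ‖fderiv ℝ f x‖) (ε * (volume K).toReal)]
    have hf0 : 0 ≤ ∫ x, f x := integral_nonneg h0
    have hq0 : 0 ≤ N * c * δ * κ := by positivity
    have hreal : (∫ x, f x) + N * c * δ * κ * s ≤ ∫ x, h x := by
      rw [← ENNReal.ofReal_mul hq0, ← ENNReal.ofReal_add hf0 (by positivity)] at hsum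
      exact (ENNReal.ofReal_le_ofReal_iff (integral_nonneg hh0)).1 hsum
    have hfin : δ * (N * c * s * κ) ≤ δ * ((∫ x, ‖fderiv ℝ f x‖) + ε * (volume K).toReal) := by
      have : δ * (N * c * s * κ) = N * c * δ * κ * s := by ring
      linarith
    exact le_of_mul_le_mul_left hfin hδ0
  apply le_of_forall_pos_le_add
  intro η hη
  have hV1 : 0 < (volume K).toReal + 1 := by positivity
  have h1 := key (η / ((volume K).toReal + 1)) (by positivity)
  have h2 : η / ((volume K).toReal + 1) * (volume K).toReal ≤ η := by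
    rw [div_mul_eq_mul_div, div_le_iff₀ hV1]
    nlinarith [ENNReal.toReal_nonneg (a := volume K)]
  linarith

end Pool.Agent.RTC
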