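import Mathlib

/-!
# An isoperimetric inequality for smooth functions, from Brunn-Minkowski
-/

open MeasureTheory Set Metric
open scoped ENNReal Pointwise Topology

namespace Pool.Agent.RTC.H30

/-- Euclidean space. -/
abbrev E (n : ℕ) := EuclideanSpace ℝ (Fin n)

/-- Brunn-Minkowski for compact sets of the Euclidean space. -/
def BME (n : ℕ) : Prop := ∀ A B : Set (E n), IsCompact A → IsCompact B → A.Nonempty → B.Nonempty →
  volume A ^ (1 / n : ℝ) + volume B ^ (1 / n : ℝ) ≤ volume (A + B) ^ (1 / n : ℝ)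

variable {n : ℕ}

/-- sup-convolution. -/
noncomputable def sc (g : E n → ℝ) (δ : ℝ) (x : E n) : ℝ := sSup (g '' closedBall x δ)

theorem sc_ge {g : E n → ℝ} (hg : Continuous g) {δ : ℝ} {x z : E n} (hz : z ∈ closedBall x δ) :
    g z ≤ sc g δ x :=
  le_csSup ((isCompact_closedBall x δ).image hg).bddAbove (mem_image_of_mem g hz)

theorem sc_le {g : E n → ℝ} {δ c : ℝ} (hδ : 0 ≤ δ) {x : E n}
    (h : ∀ z ∈ closedBall x δ, g z ≤ c) : sc g δ x ≤ c := by
  refine csSup_le ⟨g x, mem_image_of_mem g (mem_closedBall_self hδ)⟩ ?_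
  rintro _ ⟨z, hz, rfl⟩
  exact h z hz

theorem sc_lip {g : E n → ℝ} {L : NNReal} (hg : LipschitzWith L g) {δ : ℝ} (hδ : 0 ≤ δ) :
    LipschitzWith L (sc g δ) := by
  refine LipschitzWith.of_le_add_mul L fun x y => ?_
  refine sc_le hδ fun z hz => ?_
  have h1 : z + (y - x) ∈ closedBall y δ := by
    rw [mem_closedBall, dist_eq_norm] at hz ⊢
    have : z + (y - x) - y = z - x := by abel
    rw [this]; exact hz
  have h2 := sc_ge hg.continuous h1
  have h3 : g z ≤ g (z + (y - x)) + L * dist z (z + (y - x)) := by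
    have := hg.dist_le_mul z (z + (y - x))
    rw [Real.dist_eq] at this
    linarith [le_abs_self (g z - g (z + (y - x)))]
  have h4 : dist z (z + (y - x)) = dist x y := by
    rw [dist_eq_norm, dist_eq_norm]
    congr 1
    abel
  rw [h4] at h3
  linarith

theorem sc_zero {g : E n → ℝ} {δ : ℝ} (hδ : 0 ≤ δ) (h0 : ∀ x, 0 ≤ g x)
    (hc : Continuous g) {x : E n} (hx : x ∉ cthickening δ (tsupport g)) : sc g δ x = 0 := by
  have hz : ∀ z ∈ closedBall x δ, g z = 0 := by
    intro z hz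
    by_contra h
    apply hx
    have hz' : z ∈ tsupport g := subset_tsupport g h
    exact mem_cthickening_of_dist_le x z δ _ hz' (by rw [dist_comm]; exact hz)
  apply le_antisymm
  · exact sc_le hδ fun z h => (hz z h).le
  · have := sc_ge hc (mem_closedBall_self hδ : x ∈ closedBall x δ)
    linarith [h0 x]

theorem bernoulli {x y : ℝ} (hx : 0 ≤ x) (hy : 0 ≤ y) (k : ℕ) :
    x ^ (k + 1) + (k + 1) * x ^ k * y ≤ (x + y) ^ (k + 1) := by
  induction k with
  | zero => simp
  | succ k ih =>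
    have h1 : (x + y) ^ (k + 1 + 1) = (x + y) ^ (k + 1) * (x + y) := pow_succ _ _
    have h2 : (x ^ (k + 1) + (k + 1) * x ^ k * y) * (x + y) ≤ (x + y) ^ (k + 1) * (x + y) :=
      mul_le_mul_of_nonneg_right ih (by positivity)
    rw [h1]
    refine le_trans ?_ h2
    push_cast
    have h3 : 0 ≤ (k + 1) * x ^ k * y * y := by positivity
    have e : (x ^ (k + 1) + (k + 1) * x ^ k * y) * (x + y)
        = x ^ (k + 1 + 1) + (k + 1 + 1) * x ^ (k + 1) * y + (k + 1) * x ^ k * y * y := by ring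
    rw [e]
    linarith

/-- the measure of a parallel body. -/
theorem parallel (hn : 2 ≤ n) (hBM : BME n) {A : Set (E n)} (hA : IsCompact A) (hA0 : A.Nonempty)
    {δ : ℝ} (hδ : 0 < δ) :
    volume A + ENNReal.ofReal (n * (volume (ball (0 : E n) 1)).toReal ^ (1 / n : ℝ) * δ
      * (volume A).toReal ^ (1 - 1 / n : ℝ)) ≤ volume (A + closedBall (0 : E n) δ) := by
  have hn0 : (n : ℝ) ≠ 0 := by positivity
  have hnp : (0 : ℝ) < n := by positivity
  set V := (volume (ball (0 : E n) 1)).toReal with hV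
  have hVf : volume (ball (0 : E n) 1) ≠ ⊤ := measure_ball_lt_top.ne
  have hAf : volume A ≠ ⊤ := hA.measure_lt_top.ne
  have hSf : volume (A + closedBall (0 : E n) δ) ≠ ⊤ :=
    (hA.add (isCompact_closedBall _ _)).measure_lt_top.ne
  have h1 := hBM A (closedBall 0 δ) hA (isCompact_closedBall _ _) hA0
    ⟨0, mem_closedBall_self hδ.le⟩
  have h2 : volume (closedBall (0 : E n) δ) = ENNReal.ofReal (δ ^ n) * volume (ball (0 : E n) 1) := by
    rw [Measure.addHaar_closedBall _ _ hδ.le, finrank_euclideanSpace_fin]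
  -- real form
  set a := (volume A).toReal with ha
  set S := (volume (A + closedBall (0 : E n) δ)).toReal with hS
  have ea : volume A = ENNReal.ofReal a := (ENNReal.ofReal_toReal hAf).symm
  have eS : volume (A + closedBall (0 : E n) δ) = ENNReal.ofReal S := (ENNReal.ofReal_toReal hSf).symm
  have ha0 : 0 ≤ a := ENNReal.toReal_nonneg
  have hS0 : 0 ≤ S := ENNReal.toReal_nonneg
  have hV0 : 0 ≤ V := ENNReal.toReal_nonneg
  have h2' : volume (closedBall (0 : E n) δ) = ENNReal.ofReal (δ ^ n * V) := by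
    rw [h2, ENNReal.ofReal_mul (by positivity), hV, ENNReal.ofReal_toReal hVf]
  rw [h2', ea, eS, ENNReal.ofReal_rpow_of_nonneg ha0 (by positivity),
    ENNReal.ofReal_rpow_of_nonneg (by positivity) (by positivity),
    ENNReal.ofReal_rpow_of_nonneg hS0 (by positivity), ← ENNReal.ofReal_add (by positivity)
      (by positivity), ENNReal.ofReal_le_ofReal_iff (by positivity)] at h1
  have h3 : (δ ^ n * V) ^ (1 / n : ℝ) = δ * V ^ (1 / n : ℝ) := by
    rw [Real.mul_rpow (by positivity) hV0, ← Real.rpow_natCast, ← Real.rpow_mul hδ.le]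
    rw [mul_one_div_cancel hn0, Real.rpow_one]
  rw [h3] at h1
  set p := a ^ (1 / n : ℝ) with hp
  set q := V ^ (1 / n : ℝ) with hq
  have hp0 : 0 ≤ p := by positivity
  have hq0 : 0 ≤ q := by positivity
  obtain ⟨k, rfl⟩ : ∃ k, n = k + 1 := ⟨n - 1, by omega⟩
  have h4 : (p + δ * q) ^ (k + 1) ≤ S := by
    have h5 : (p + δ * q) ^ (k + 1) ≤ (S ^ (1 / ((k + 1 : ℕ) : ℝ))) ^ (k + 1) :=
      pow_le_pow_left₀ (by positivity) h1 _
    refine h5.trans (le_of_eq ?_)
    rw [← Real.rpow_natCast, ← Real.rpow_mul hS0, one_div_mul_cancel hn0, Real.rpow_one]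
  have h6 := bernoulli hp0 (by positivity : 0 ≤ δ * q) k
  have e1 : p ^ (k + 1) = a := by
    rw [hp, ← Real.rpow_natCast, ← Real.rpow_mul ha0, one_div_mul_cancel hn0, Real.rpow_one]
  have e2 : p ^ k = a ^ (1 - 1 / ((k + 1 : ℕ) : ℝ)) := by
    rw [hp, ← Real.rpow_natCast, ← Real.rpow_mul ha0]
    congr 1
    push_cast at hn0 ⊢
    field_simp
    ring
  rw [ea, eS, ← ENNReal.ofReal_add ha0 (by positivity)]
  apply ENNReal.ofReal_le_ofReal
  rw [e1, e2] at h6
  refine le_trans ?_ (h6.trans h4)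
  push_cast
  apply le_of_eq
  ring

end Pool.Agent.RTC.H30
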