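import Pool.Agent.RTC.St5
import Pool.Agent.RTC.BA2

/-!
# RTC_LAM5: the flux through the boundary part
-/

set_option autoImplicit false

namespace Pool.Agent.RTC

open MeasureTheory Set Filter Topology
open scoped ENNReal NNReal

theorem lam5_h {N : ℕ} {b : ℝ} {m : ℝ → ℝ} {ν : Measure ℝ} (hN : 2 ≤ N) (hb : 0 < b)
    (hD : Data2 N b m ν) (h : ℝ) (hh : 0 < h) : ∫ z in Ici (1 + h), z ∂ν ≤ m 1 := by
  have : IsFiniteMeasure ν := ⟨hD.fin⟩
  have hN0 : (0 : ℝ) < N := by exact_mod_cast (by omega : 0 < N)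
  obtain ⟨L, hL⟩ : ∃ L : ℝ, L = ∫ z in Ici (1 + h), z ∂ν := ⟨_, rfl⟩
  obtain ⟨M, hM⟩ : ∃ M : ℝ, M = ∫ z in Ici (1 + h), (1 : ℝ) ∂ν := ⟨_, rfl⟩
  have key : ∀ s : ℝ, 2 ≤ s → L ≤ m 1 + (b / N * (1 / h)) / s ^ 2 + 2 * M / s := by
    intro s hs
    have hs0 : 0 < s := by linarith
    have h1 := hD.ineq 1 h s zero_le_one hh hs0
    have e1 : ∫ z in Ioi (1 : ℝ), max 0 (2 * s - s ^ 2 * z) ∂ν = 0 := by
      have : ∫ z in Ioi (1 : ℝ), max 0 (2 * s - s ^ 2 * z) ∂ν = ∫ z in Ioi (1 : ℝ), (0 : ℝ) ∂ν := by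
        refine setIntegral_congr_fun measurableSet_Ioi fun z hz => ?_
        have hz' : 1 < z := hz
        apply max_eq_left
        nlinarith
      rw [this]
      simp
    have e2 : ∫ z in Ici (1 + h), max 0 (s ^ 2 * z - 2 * s) ∂ν = s ^ 2 * L - 2 * s * M := by
      rw [hL, hM, ← integral_const_mul, ← integral_const_mul, ← integral_sub
        ((hD.int.const_mul _).integrableOn) ((integrable_const (1 : ℝ)).const_mul _).integrableOn]
      refine setIntegral_congr_fun measurableSet_Ici fun z hz => ?_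
      have hz' : 1 + h ≤ z := hz
      simp only [mul_one]
      apply max_eq_right
      nlinarith
    rw [e1, e2] at h1
    have h2 : 0 ≤ 2 * s * (m (1 + h)) ^ (1 - 1 / (N : ℝ)) :=
      mul_nonneg (by linarith) (Real.rpow_nonneg (hD.nonneg _) _)
    have h3 : (m 1 - m (1 + h)) / h ≤ 1 / h :=
      div_le_div_of_nonneg_right (by linarith [hD.le_one 1, hD.nonneg (1 + h)]) hh.le
    have h4 : (N : ℝ) / b * (- s ^ 2 * m 1 + (s ^ 2 * L - 2 * s * M)) ≤ 1 / h := by
      have h5 : 0 ≤ (N : ℝ) / b * (2 * s * (m (1 + h)) ^ (1 - 1 / (N : ℝ))) :=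
        mul_nonneg (by positivity) h2
      linarith
    have h6 : - s ^ 2 * m 1 + (s ^ 2 * L - 2 * s * M) ≤ b / N * (1 / h) := by
      have h7 := mul_le_mul_of_nonneg_left h4 (by positivity : (0 : ℝ) ≤ b / N)
      have e3 : b / N * ((N : ℝ) / b * (- s ^ 2 * m 1 + (s ^ 2 * L - 2 * s * M))) =
          - s ^ 2 * m 1 + (s ^ 2 * L - 2 * s * M) := by
        field_simp
      rw [e3] at h7
      exact h7
    have h8 : s ^ 2 * L ≤ s ^ 2 * (m 1 + (b / N * (1 / h)) / s ^ 2 + 2 * M / s) := by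
      have e4 : s ^ 2 * (m 1 + (b / N * (1 / h)) / s ^ 2 + 2 * M / s) =
          s ^ 2 * m 1 + b / N * (1 / h) + 2 * s * M := by
        field_simp
      rw [e4]
      linarith
    exact le_of_mul_le_mul_left h8 (by positivity)
  rw [← hL]
  have ht : Tendsto (fun s : ℝ => m 1 + (b / N * (1 / h)) / s ^ 2 + 2 * M / s) atTop
      (𝓝 (m 1 + 0 + 0)) := by
    refine (tendsto_const_nhds.add ?_).add ?_
    · exact tendsto_const_nhds.div_atTop (tendsto_pow_atTop two_ne_zero)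
    · exact tendsto_const_nhds.div_atTop tendsto_id
  rw [add_zero, add_zero] at ht
  refine ge_of_tendsto ht ?_
  filter_upwards [eventually_ge_atTop (2 : ℝ)] with s hs
  exact key s hs

theorem t_LAM5 : S_LAM5 := by
  intro N b m ν hN hb hD
  have ht := BA2.tend ν (fun z => z) hD.int 1
  refine le_of_tendsto ht ?_
  filter_upwards [self_mem_nhdsWithin] with y hy
  have hy' : 1 < y := hy
  have h := lam5_h hN hb hD (y - 1) (by linarith)
  have e : 1 + (y - 1) = y := by ring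
  rw [e] at h
  exact h

end Pool.Agent.RTC
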