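import Pool.Agent.RTC.LEV
import Pool.Agent.RTC.FINAL3

set_option autoImplicit false

/-! # RTC: distribution form of the comparison for `2 N ≤ 3 β R` -/

namespace Pool.Agent.RTC

open MeasureTheory Set Filter Topology
open scoped ENNReal NNReal

theorem all_SCA3 : S_SCA3 :=
  sca3 (t_DIF t_GEX (t_LMA t_SUB) (t_LMB (t_ISW (t_ISO t_BMN75) (t_MOA t_MOP)) t_SUB))
    (t_NNG (t_LMA t_SUB)) (t_BRZ t_BAR)

/-- Comparison of the distribution functions of `u` and `v`, at all levels. -/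
theorem lev3 (N : ℕ) (hN : 2 ≤ N) (Ω : Set (E N)) (σ : Measure (E N)) (β R : ℝ)
    (u : E N → ℝ) (g : E N → E N) (w : E N → ℝ) (hβ : 0 < β) (hR : 0 < R)
    (hβR : 2 * (N : ℝ) ≤ 3 * (β * R)) (hΩ : IsOpen Ω) (hb : Bornology.IsBounded Ω)
    (hvol : volume Ω = volume (Metric.ball (0 : E N) R)) (hσ : IsBoundaryMeasure Ω σ)
    (hu : IsRobin Ω σ β u g w) (t : ℝ) :
    volume (Ω ∩ {x | t < u x}) ≤
      volume (Metric.ball (0 : E N) R ∩ {x | t < vball N β R x}) := by
  rcases le_or_gt (R / (N * β)) t with h | h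
  · have h1 := all_SCA3 N hN Ω σ β R u g w hβ hR hβR hΩ hb hvol hσ hu t h
    refine le_trans ?_ (lev N hN β R t hβ hR h)
    refine ENNReal.le_ofReal_iff_toReal_le ?_ ?_ |>.2 h1
    · exact ((measure_mono inter_subset_left).trans_lt (by
        rw [hvol]; exact measure_ball_lt_top)).ne
    · apply mul_nonneg ENNReal.toReal_nonneg
      exact Real.rpow_nonneg (le_max_left _ _) _
  · rw [lev_small N hN β R t hβ hR h.le, ← hvol]
    exact measure_mono inter_subset_left

end Pool.Agent.RTC
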