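import Pool.Agent.RTC.LMB

set_option autoImplicit false

/-!
# MP_84cf48_an, module LMA (second version, helper87): the equation tested with `G(u)`
-/

namespace Pool.Agent.RTC

open MeasureTheory Set Filter Topology
open scoped ENNReal NNReal

namespace LMA2

lemma inner_grad {N : ℕ} (U : E N → ℝ) (x v : E N) :
    inner ℝ (gradient U x) v = fderiv ℝ U x v := by
  unfold gradient
  exact InnerProductSpace.toDual_symm_apply

lemma fderiv_comp {N : ℕ} (G : ℝ → ℝ) (hG : ContDiff ℝ 1 G)
    (U : E N → ℝ) (hU : ContDiff ℝ 1 U) (x v : E N) :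
    fderiv ℝ (fun y => G (U y)) x v = deriv G (U x) * inner ℝ (gradient U x) v := by
  have h1 : HasDerivAt G (deriv G (U x)) (U x) :=
    ((hG.differentiable one_ne_zero) (U x)).hasDerivAt
  have h2 : HasFDerivAt U (fderiv ℝ U x) x := ((hU.differentiable one_ne_zero) x).hasFDerivAt
  have h3 : HasFDerivAt (fun y => G (U y)) (deriv G (U x) • fderiv ℝ U x) x :=
    h1.comp_hasFDerivAt x h2
  rw [h3.fderiv, inner_grad]
  rfl

lemma amgm (δ a b : ℝ) (hδ : 0 < δ) (ha : 0 ≤ a) (hb : 0 ≤ b) :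
    a * b ≤ δ * b ^ 2 + δ⁻¹ * a ^ 2 := by
  rw [← sub_nonneg]
  have e : δ * b ^ 2 + δ⁻¹ * a ^ 2 - a * b = δ⁻¹ * ((δ * b) ^ 2 + a ^ 2 - a * (δ * b)) := by
    field_simp
  rw [e]
  refine mul_nonneg (inv_nonneg.2 hδ.le) ?_
  nlinarith [sq_nonneg (δ * b - a), mul_nonneg ha (mul_nonneg hδ.le hb)]

end LMA2

open LMB LMA2 in
theorem t_LMA2 : S_SUB → S_LMA := by
  intro hSUB N Ω σ β u g w hΩ hb hσ hR G C hG hGC hG'C
  obtain ⟨U, hU, hUu, hUw, hUg⟩ := hSUB N Ω σ β u g w hΩ hb hσ hR
  have hΩm : MeasurableSet Ω := hΩ.measurableSet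
  have hfin : IsFiniteMeasure (volume.restrict Ω) :=
    ⟨by rw [Measure.restrict_apply_univ]; exact hb.measure_lt_top⟩
  have hσfin : IsFiniteMeasure σ := ⟨hσ.finite⟩
  have hC : 0 ≤ C := (abs_nonneg _).trans (hGC 0)
  have hGc : Continuous G := hG.continuous
  have hG'c : Continuous (deriv G) := hG.continuous_deriv le_rfl
  have hum : AEStronglyMeasurable u (volume.restrict Ω) := hR.u_mem.aestronglyMeasurable
  have hgm : AEStronglyMeasurable g (volume.restrict Ω) := hR.g_mem.aestronglyMeasurable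
  have hwm : AEStronglyMeasurable w σ := hR.w_mem.aestronglyMeasurable
  have hwi : Integrable w σ := hR.w_mem.integrable one_le_two
  have hg2 : Integrable (fun x => ‖g x‖ ^ 2) (volume.restrict Ω) :=
    (memLp_two_iff_integrable_sq_norm hgm).1 hR.g_mem
  have hgradc : ∀ k, Continuous (gradient (U k)) := by
    intro k
    have h1 : Continuous (fderiv ℝ (U k)) := (hU k).continuous_fderiv one_ne_zero
    unfold gradient
    exact (LinearIsometryEquiv.continuous _).comp h1
  have hgradL : ∀ k, MemLp (gradient (U k)) 2 (volume.restrict Ω) := fun k =>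
    memLp_of_cont Ω hb _ (hgradc k) hΩm
  have hdiffL : ∀ k, MemLp (fun x => gradient (U k) x - g x) 2 (volume.restrict Ω) := fun k =>
    (hgradL k).sub hR.g_mem
  -- the right side
  have hRlim : Tendsto (fun k => ∫ x in Ω, G (U k x)) atTop (𝓝 (∫ x in Ω, G (u x))) := by
    refine tendsto_integral_of_dominated_convergence (fun _ => C) ?_ (integrable_const _) ?_ ?_
    · intro k
      exact (hGc.comp (hU k).continuous).aestronglyMeasurable
    · intro k
      exact Eventually.of_forall fun x => hGC _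
    · filter_upwards [hUu] with x hx
      exact (hGc.tendsto _).comp hx
  -- the boundary term
  have hBlim : Tendsto (fun k => ∫ x, w x * G (U k x) ∂σ) atTop
      (𝓝 (∫ x, w x * G (w x) ∂σ)) := by
    refine tendsto_integral_of_dominated_convergence (fun x => C * ‖w x‖) ?_
      (hwi.norm.const_mul C) ?_ ?_
    · intro k
      exact hwm.mul (hGc.comp (hU k).continuous).aestronglyMeasurable
    · intro k
      refine Eventually.of_forall fun x => ?_
      rw [norm_mul, mul_comm]
      exact mul_le_mul_of_nonneg_right (hGC _) (norm_nonneg _)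
    · filter_upwards [hUw] with x hx
      exact ((hGc.tendsto _).comp hx).const_mul _
  -- the main term
  have hSlim : Tendsto (fun k => ∫ x in Ω, deriv G (U k x) * ‖g x‖ ^ 2) atTop
      (𝓝 (∫ x in Ω, deriv G (u x) * ‖g x‖ ^ 2)) := by
    refine tendsto_integral_of_dominated_convergence (fun x => C * ‖g x‖ ^ 2) ?_
      (hg2.const_mul C) ?_ ?_
    · intro k
      exact (hG'c.comp (hU k).continuous).aestronglyMeasurable.mul hg2.aestronglyMeasurable
    · intro k
      refine Eventually.of_forall fun x => ?_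
      rw [norm_mul, Real.norm_eq_abs, Real.norm_eq_abs, abs_of_nonneg (sq_nonneg ‖g x‖)]
      exact mul_le_mul_of_nonneg_right (hG'C _) (sq_nonneg _)
    · filter_upwards [hUu] with x hx
      exact ((hG'c.tendsto _).comp hx).mul_const _
  have hT : ∀ k, ∫ x in Ω, deriv G (U k x) * inner ℝ (gradient (U k) x) (g x) =
      (∫ x in Ω, G (U k x)) - β * ∫ x, w x * G (U k x) ∂σ := by
    intro k
    have h1 := hR.weak (fun x => G (U k x)) (hG.comp (hU k))
    simp only [fderiv_comp G hG (U k) (hU k)] at h1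
    linarith
  have hdiff : ∀ δ : ℝ, 0 < δ → ∀ k,
      |(∫ x in Ω, deriv G (U k x) * inner ℝ (gradient (U k) x) (g x)) -
        ∫ x in Ω, deriv G (U k x) * ‖g x‖ ^ 2| ≤
      C * (δ * (∫ x in Ω, ‖g x‖ ^ 2) + δ⁻¹ * ∫ x in Ω, ‖gradient (U k) x - g x‖ ^ 2) := by
    intro δ hδ k
    have i2 : Integrable (fun x => ‖gradient (U k) x - g x‖ ^ 2) (volume.restrict Ω) :=
      (memLp_two_iff_integrable_sq_norm (hdiffL k).aestronglyMeasurable).1 (hdiffL k)
    have i3 : Integrable (fun x => deriv G (U k x) * ‖g x‖ ^ 2) (volume.restrict Ω) := by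
      refine (hg2.const_mul C).mono
        ((hG'c.comp (hU k).continuous).aestronglyMeasurable.mul hg2.aestronglyMeasurable)
        (Eventually.of_forall fun x => ?_)
      rw [norm_mul, norm_mul, Real.norm_eq_abs C, abs_of_nonneg hC]
      exact mul_le_mul_of_nonneg_right (hG'C _) (norm_nonneg _)
    have i1 : Integrable (fun x => deriv G (U k x) * inner ℝ (gradient (U k) x) (g x))
        (volume.restrict Ω) := by
      have i6 : Integrable (fun x => ‖gradient (U k) x‖ ^ 2) (volume.restrict Ω) :=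
        (memLp_two_iff_integrable_sq_norm (hgradL k).aestronglyMeasurable).1 (hgradL k)
      refine ((i6.add hg2).const_mul C).mono
        ((hG'c.comp (hU k).continuous).aestronglyMeasurable.mul
          ((hgradc k).aestronglyMeasurable.inner hgm))
        (Eventually.of_forall fun x => ?_)
      show ‖deriv G (U k x) * inner ℝ (gradient (U k) x) (g x)‖ ≤
        ‖C * (‖gradient (U k) x‖ ^ 2 + ‖g x‖ ^ 2)‖
      rw [norm_mul, norm_mul, Real.norm_eq_abs C, abs_of_nonneg hC]
      refine mul_le_mul (hG'C _) ?_ (norm_nonneg _) hC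
      rw [Real.norm_eq_abs, Real.norm_eq_abs, abs_of_nonneg (a := ‖gradient (U k) x‖ ^ 2 + ‖g x‖ ^ 2)
        (by positivity)]
      refine (abs_real_inner_le_norm _ _).trans ?_
      nlinarith [sq_nonneg (‖gradient (U k) x‖ - ‖g x‖), norm_nonneg (gradient (U k) x),
        norm_nonneg (g x), mul_nonneg (norm_nonneg (gradient (U k) x)) (norm_nonneg (g x))]
    rw [← integral_sub i1 i3, ← Real.norm_eq_abs]
    refine (norm_integral_le_integral_norm _).trans ?_
    have i5 : Integrable (fun x => C * (δ * ‖g x‖ ^ 2 + δ⁻¹ * ‖gradient (U k) x - g x‖ ^ 2))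
        (volume.restrict Ω) := ((hg2.const_mul δ).add (i2.const_mul δ⁻¹)).const_mul C
    have j1 : ∫ x in Ω, (δ * ‖g x‖ ^ 2 + δ⁻¹ * ‖gradient (U k) x - g x‖ ^ 2) =
        δ * (∫ x in Ω, ‖g x‖ ^ 2) + δ⁻¹ * ∫ x in Ω, ‖gradient (U k) x - g x‖ ^ 2 := by
      rw [integral_add (hg2.const_mul δ) (i2.const_mul δ⁻¹), integral_const_mul,
        integral_const_mul]
    rw [← j1, ← integral_const_mul]
    refine integral_mono (i1.sub i3).norm i5 fun x => ?_
    show ‖deriv G (U k x) * inner ℝ (gradient (U k) x) (g x) - deriv G (U k x) * ‖g x‖ ^ 2‖ ≤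
      C * (δ * ‖g x‖ ^ 2 + δ⁻¹ * ‖gradient (U k) x - g x‖ ^ 2)
    have e1 : deriv G (U k x) * inner ℝ (gradient (U k) x) (g x) - deriv G (U k x) * ‖g x‖ ^ 2 =
        deriv G (U k x) * inner ℝ (gradient (U k) x - g x) (g x) := by
      rw [inner_sub_left, real_inner_self_eq_norm_sq]
      ring
    rw [e1, norm_mul]
    refine mul_le_mul (hG'C _) ?_ (norm_nonneg _) hC
    rw [Real.norm_eq_abs]
    exact (abs_real_inner_le_norm _ _).trans (amgm δ _ _ hδ (norm_nonneg _) (norm_nonneg _))
  -- the limit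
  have hTlim : Tendsto (fun k => ∫ x in Ω, deriv G (U k x) * inner ℝ (gradient (U k) x) (g x))
      atTop (𝓝 ((∫ x in Ω, G (u x)) - β * ∫ x, w x * G (w x) ∂σ)) := by
    simp only [hT]
    exact hRlim.sub (hBlim.const_mul β)
  have hlimδ : ∀ δ : ℝ, 0 < δ →
      |((∫ x in Ω, G (u x)) - β * ∫ x, w x * G (w x) ∂σ) -
        ∫ x in Ω, deriv G (u x) * ‖g x‖ ^ 2| ≤
      C * (δ * (∫ x in Ω, ‖g x‖ ^ 2) + δ⁻¹ * 0) := fun δ hδ =>
    le_of_tendsto_of_tendsto' (hTlim.sub hSlim).abs
      (((hUg.const_mul δ⁻¹).const_add _).const_mul C) (hdiff δ hδ)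
  set J := ∫ x in Ω, ‖g x‖ ^ 2 with hJ
  have hJ0 : 0 ≤ J := integral_nonneg fun x => sq_nonneg _
  have hz : |((∫ x in Ω, G (u x)) - β * ∫ x, w x * G (w x) ∂σ) -
        ∫ x in Ω, deriv G (u x) * ‖g x‖ ^ 2| ≤ 0 := by
    refine le_of_forall_pos_le_add fun ε hε => ?_
    have hD : 0 < C * J + 1 := by positivity
    refine (hlimδ (ε / (C * J + 1)) (div_pos hε hD)).trans ?_
    rw [mul_zero, add_zero, zero_add]
    have e : C * (ε / (C * J + 1) * J) = ε * (C * J / (C * J + 1)) := by ring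
    rw [e]
    refine mul_le_of_le_one_right hε.le ?_
    rw [div_le_one hD]
    linarith
  have h9 := abs_eq_zero.1 (le_antisymm hz (abs_nonneg _))
  linarith

end Pool.Agent.RTC
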