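import Mathlib
import Pool.Agent.RTC.KEY88
import Pool.Agent.RTC.DINI88

/-!
# RTC: the differential inequality for the distribution function (helper88)
-/

set_option autoImplicit false

open MeasureTheory Filter Topology

namespace Pool.Agent.RTC

namespace O88

section

variable {X : Type} [MeasurableSpace X] (σ : Measure X) (w : X → ℝ)

theorem intOn (hw : Measurable w) (hwi : Integrable w σ) (y c : ℝ) (hy : 0 < y) (hc : 0 ≤ c)
    (F : X → ℝ) (hF : Measurable F) (hb : ∀ x, y < w x → |F x| ≤ c) :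
    IntegrableOn F {x | y < w x} σ := by
  have hs : MeasurableSet {x | y < w x} := measurableSet_lt measurable_const hw
  refine Integrable.mono' (hwi.const_mul (c / y)).integrableOn hF.aestronglyMeasurable ?_
  rw [ae_restrict_iff' hs]
  refine Eventually.of_forall fun x hx => ?_
  have hx' : y < w x := hx
  rw [Real.norm_eq_abs]
  refine (hb x hx').trans ?_
  rw [div_mul_eq_mul_div, le_div_iff₀ hy]
  exact mul_le_mul_of_nonneg_left hx'.le hc

noncomputable def S0 (y : ℝ) : ℝ := ∫ x in {x | y < w x}, max (2 - w x) 0 ∂σ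

theorem S0_nonneg (y : ℝ) : 0 ≤ S0 σ w y :=
  integral_nonneg fun _ => le_max_right _ _

theorem intS0 (hw : Measurable w) (hw0 : ∀ x, 0 ≤ w x) (hwi : Integrable w σ) (y : ℝ)
    (hy : 0 < y) : IntegrableOn (fun x => max (2 - w x) 0) {x | y < w x} σ := by
  refine intOn σ w hw hwi y 2 hy (by norm_num) _ (by fun_prop) fun x _ => ?_
  rw [abs_of_nonneg (le_max_right _ _)]
  exact max_le (by linarith [hw0 x]) (by norm_num)

theorem S0_anti (hw : Measurable w) (hw0 : ∀ x, 0 ≤ w x) (hwi : Integrable w σ) (y z : ℝ)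
    (hy : 0 < y) (hyz : y ≤ z) : S0 σ w z ≤ S0 σ w y := by
  refine setIntegral_mono_set (intS0 σ w hw hw0 hwi y hy)
    (Eventually.of_forall fun _ => le_max_right _ _) ?_
  exact HasSubset.Subset.eventuallyLE fun x hx => lt_of_le_of_lt hyz hx

theorem S0_right (hw : Measurable w) (hw0 : ∀ x, 0 ≤ w x) (hwi : Integrable w σ) (y : ℝ)
    (hy : 0 < y) (ε : ℝ) (hε : 0 < ε) :
    ∀ᶠ z in 𝓝[>] y, S0 σ w y - ε < S0 σ w z := by
  have hU : (⋃ n : ℕ, {x | y + 1 / ((n : ℝ) + 1) < w x}) = {x | y < w x} := by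
    ext x
    simp only [Set.mem_iUnion, Set.mem_setOf_eq]
    constructor
    · rintro ⟨n, hn⟩
      have : 0 < 1 / ((n : ℝ) + 1) := by positivity
      linarith
    · intro hx
      obtain ⟨n, hn⟩ := exists_nat_one_div_lt (sub_pos.2 hx)
      exact ⟨n, by linarith⟩
  have ht := tendsto_setIntegral_of_monotone (μ := σ) (f := fun x => max (2 - w x) 0)
    (s := fun n : ℕ => {x | y + 1 / ((n : ℝ) + 1) < w x})
    (fun n => measurableSet_lt measurable_const hw)
    (by
      intro n k hnk x hx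
      have h1 : 1 / ((k : ℝ) + 1) ≤ 1 / ((n : ℝ) + 1) := by
        refine one_div_le_one_div_of_le (by positivity) ?_
        have : (n : ℝ) ≤ k := by exact_mod_cast hnk
        linarith
      have h2 : y + 1 / ((n : ℝ) + 1) < w x := hx
      have h3 : y + 1 / ((k : ℝ) + 1) < w x := by linarith
      exact h3)
    (by rw [hU]; exact intS0 σ w hw hw0 hwi y hy)
  rw [hU] at ht
  have h1 : ∀ᶠ n : ℕ in atTop, S0 σ w y - ε < ∫ x in {x | y + 1 / ((n : ℝ) + 1) < w x},
      max (2 - w x) 0 ∂σ := by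
    refine ht.eventually (lt_mem_nhds ?_)
    change S0 σ w y - ε < S0 σ w y
    linarith
  obtain ⟨n, hn⟩ := h1.exists
  have hn0 : 0 < 1 / ((n : ℝ) + 1) := by positivity
  have h2 : Set.Ioo y (y + 1 / ((n : ℝ) + 1)) ∈ 𝓝[>] y := Ioo_mem_nhdsGT (by linarith)
  filter_upwards [h2] with z hz
  refine lt_of_lt_of_le hn ?_
  exact S0_anti σ w hw hw0 hwi z _ (by linarith [hz.1]) hz.2.le

noncomputable def al : ℝ := 1 - Real.log 2

theorem al_pos : 0 < al := by
  have := Real.log_two_lt_d9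
  unfold al
  linarith

theorem al_lt : al < 1 := by
  have := Real.log_two_gt_d9
  unfold al
  linarith

theorem exp_al : Real.exp al = Real.exp 1 / 2 := by
  unfold al
  rw [Real.exp_sub, Real.exp_log (by norm_num)]

noncomputable def Ph (y : ℝ) : ℝ :=
  Real.exp al + ∫ x in {x | al < w x}, max (2 - w x) 0 * (Real.exp (min y (w x)) - Real.exp al) ∂σ

theorem intPh (hw : Measurable w) (hw0 : ∀ x, 0 ≤ w x) (hwi : Integrable w σ) (y : ℝ)
    (hy : al ≤ y) : IntegrableOn (fun x => max (2 - w x) 0 *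
      (Real.exp (min y (w x)) - Real.exp al)) {x | al < w x} σ := by
  refine intOn σ w hw hwi al (2 * Real.exp y) al_pos (by positivity) _ (by fun_prop) fun x hx => ?_
  have h1 : 0 ≤ Real.exp (min y (w x)) - Real.exp al :=
    sub_nonneg.2 (Real.exp_le_exp.2 (le_min hy hx.le))
  have h2 : Real.exp (min y (w x)) - Real.exp al ≤ Real.exp y := by
    have := Real.exp_le_exp.2 (min_le_left y (w x))
    linarith [Real.exp_pos al]
  rw [abs_of_nonneg (mul_nonneg (le_max_right _ _) h1)]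
  exact mul_le_mul (max_le (by linarith [hw0 x]) (by norm_num)) h2 h1 (by norm_num)

theorem Ph_diff (hw : Measurable w) (hw0 : ∀ x, 0 ≤ w x) (hwi : Integrable w σ) (x z : ℝ)
    (hx : al ≤ x) (hxz : x ≤ z) :
    (Real.exp z - Real.exp x) * S0 σ w z ≤ Ph σ w z - Ph σ w x := by
  have hI1 := intPh σ w hw hw0 hwi z (hx.trans hxz)
  have hI2 := intPh σ w hw hw0 hwi x hx
  have hsm : ∀ y : ℝ, MeasurableSet {t | y < w t} := fun y => measurableSet_lt measurable_const hw
  have h1 : Ph σ w z - Ph σ w x = ∫ t in {t | al < w t},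
      (max (2 - w t) 0 * (Real.exp (min z (w t)) - Real.exp al) -
        max (2 - w t) 0 * (Real.exp (min x (w t)) - Real.exp al)) ∂σ := by
    rw [integral_sub hI1 hI2]
    unfold Ph
    ring
  rw [h1]
  have h2 : ∫ t in {t | z < w t},
      (max (2 - w t) 0 * (Real.exp (min z (w t)) - Real.exp al) -
        max (2 - w t) 0 * (Real.exp (min x (w t)) - Real.exp al)) ∂σ =
      (Real.exp z - Real.exp x) * S0 σ w z := by
    unfold S0
    rw [← integral_const_mul]
    refine setIntegral_congr_fun (hsm z) fun t ht => ?_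
    have ht' : z < w t := ht
    rw [min_eq_left ht'.le, min_eq_left (hxz.trans ht'.le)]
    ring
  rw [← h2]
  refine setIntegral_mono_set (hI1.sub hI2) (Eventually.of_forall fun t => ?_)
    (HasSubset.Subset.eventuallyLE fun t ht => lt_of_le_of_lt (hx.trans hxz) ht)
  have h3 : Real.exp (min x (w t)) ≤ Real.exp (min z (w t)) :=
    Real.exp_le_exp.2 (min_le_min_right _ hxz)
  have h4 : 0 ≤ max (2 - w t) 0 := le_max_right _ _
  have h5 := mul_nonneg h4 (sub_nonneg.2 h3)
  simp only [Pi.zero_apply]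
  nlinarith

theorem Ph_al (hw : Measurable w) : Ph σ w al = Real.exp al := by
  unfold Ph
  rw [add_eq_left, setIntegral_congr_fun (g := fun _ => (0 : ℝ))
    (measurableSet_lt measurable_const hw), integral_zero]
  intro x hx
  have hx' : al < w x := hx
  simp only
  rw [min_eq_left hx'.le, sub_self, mul_zero]

theorem Ph_le (hw : Measurable w) (hw0 : ∀ x, 0 ≤ w x) (hwi : Integrable w σ)
    (hw1 : ∫ x, w x ∂σ ≤ 1) (y : ℝ) (hy : al ≤ y) : Ph σ w y ≤ Real.exp 1 := by
  have hsm : MeasurableSet {t | al < w t} := measurableSet_lt measurable_const hw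
  have h1 : ∫ x in {x | al < w x}, max (2 - w x) 0 *
      (Real.exp (min y (w x)) - Real.exp al) ∂σ ≤
      ∫ x in {x | al < w x}, Real.exp 1 / 2 * w x ∂σ := by
    refine setIntegral_mono_on (intPh σ w hw hw0 hwi y hy) (hwi.const_mul _).integrableOn hsm
      fun x hx => ?_
    have hx' : al < w x := hx
    rcases le_or_gt 2 (w x) with h2 | h2
    · rw [max_eq_right (by linarith), zero_mul]
      exact mul_nonneg (by positivity) (hw0 x)
    · rw [max_eq_left (by linarith)]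
      have h3 : Real.exp (min y (w x)) ≤ Real.exp (w x) := Real.exp_le_exp.2 (min_le_right _ _)
      have h4 := mul_le_mul_of_nonneg_left (sub_le_sub_right h3 (Real.exp al))
        (by linarith : (0 : ℝ) ≤ 2 - w x)
      refine h4.trans ?_
      have h5 := mul_le_mul_of_nonneg_left (bk88 (w x)) (Real.exp_pos 1).le
      have h6 : Real.exp 1 * Real.exp (w x - 1) = Real.exp (w x) := by
        rw [← Real.exp_add]
        congr 1
        ring
      rw [exp_al]
      nlinarith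
  have h2 : ∫ x in {x | al < w x}, Real.exp 1 / 2 * w x ∂σ ≤ Real.exp 1 / 2 := by
    rw [integral_const_mul]
    have h3 : ∫ x in {x | al < w x}, w x ∂σ ≤ ∫ x, w x ∂σ :=
      setIntegral_le_integral hwi (Eventually.of_forall hw0)
    have h4 : 0 < Real.exp 1 / 2 := by positivity
    nlinarith
  unfold Ph
  rw [exp_al] at h1 ⊢
  linarith

end

/-- the exponential factor -/
noncomputable def Ex (b : ℝ) (N : ℕ) (m : ℝ → ℝ) (y : ℝ) : ℝ :=
  Real.exp (-(b / 2 * (1 - m y ^ (2 / (N : ℝ)))))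

theorem Ex_le_one (b : ℝ) (hb : 0 < b) (N : ℕ) (m : ℝ → ℝ) (hm0 : ∀ y, 0 ≤ m y)
    (hm1 : ∀ y, m y ≤ 1) (y : ℝ) : Ex b N m y ≤ 1 := by
  unfold Ex
  rw [Real.exp_le_one_iff]
  have h1 : m y ^ (2 / (N : ℝ)) ≤ 1 := Real.rpow_le_one (hm0 y) (hm1 y) (by positivity)
  have h2 : 0 ≤ b / 2 * (1 - m y ^ (2 / (N : ℝ))) := mul_nonneg (by positivity) (by linarith)
  linarith

theorem Ex_anti (b : ℝ) (hb : 0 < b) (N : ℕ) (m : ℝ → ℝ) (hm0 : ∀ y, 0 ≤ m y)
    (hanti : Antitone m) (y z : ℝ) (hyz : y ≤ z) : Ex b N m z ≤ Ex b N m y := by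
  unfold Ex
  refine Real.exp_le_exp.2 ?_
  have h1 : m z ^ (2 / (N : ℝ)) ≤ m y ^ (2 / (N : ℝ)) :=
    Real.rpow_le_rpow (hm0 z) (hanti hyz) (by positivity)
  have h2 : b / 2 * (1 - m y ^ (2 / (N : ℝ))) ≤ b / 2 * (1 - m z ^ (2 / (N : ℝ))) :=
    mul_le_mul_of_nonneg_left (by linarith) (by positivity)
  linarith

/-- The main step: the increase of the exponent. -/
theorem step {X : Type} [MeasurableSpace X] (σ : Measure X) (w : X → ℝ) (hw : Measurable w)
    (hw0 : ∀ x, 0 ≤ w x) (hwi : Integrable w σ) (N : ℕ) (hN : 2 ≤ N) (b : ℝ) (hb : 0 < b)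
    (hNb : (N : ℝ) ≤ b + 1) (m : ℝ → ℝ) (hm0 : ∀ y, 0 ≤ m y) (hm1 : ∀ y, m y ≤ 1)
    (hanti : Antitone m)
    (hd : ∀ y > 0, ∀ h > 0, ∀ s > 0, 2 * s * (m (y + h)) ^ (1 - 1 / (N : ℝ)) - s ^ 2 * m y -
      ∫ x in {x | y < w x}, max (2 * s - s ^ 2 * w x) 0 ∂σ ≤ b / N * ((m y - m (y + h)) / h))
    (x z : ℝ) (hx : al ≤ x) (hxz : x < z) (hz : 0 < m z)
    (hreg : b / 2 * (1 - m x ^ (2 / (N : ℝ))) + al ≤ x) :
    Real.exp z * Ex b N m z ≤ Real.exp x * Ex b N m x *
      Real.exp ((z - x) * (2 * (1 - m z / m x) + (Ex b N m x)⁻¹ * S0 σ w x)) := by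
  have hx0 : 0 < x := lt_of_lt_of_le al_pos hx
  have hNR : (2 : ℝ) ≤ N := by exact_mod_cast hN
  have hN0 : (0 : ℝ) < N := by linarith
  have hmx : 0 < m x := lt_of_lt_of_le hz (hanti hxz.le)
  obtain ⟨r, hr⟩ : ∃ r : ℝ, r = m x ^ (1 / (N : ℝ)) := ⟨_, rfl⟩
  have hr0 : 0 < r := by rw [hr]; exact Real.rpow_pos_of_pos hmx _
  have hr1 : r ≤ 1 := by rw [hr]; exact Real.rpow_le_one (hm0 x) (hm1 x) (by positivity)
  have hrN : r ^ N = m x := by
    rw [hr, ← Real.rpow_natCast, ← Real.rpow_mul (hm0 x), one_div_mul_cancel hN0.ne',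
      Real.rpow_one]
  have hr2 : m x ^ (2 / (N : ℝ)) = r ^ 2 := by
    rw [hr, ← Real.rpow_natCast, ← Real.rpow_mul (hm0 x)]
    congr 1
    push_cast
    ring
  obtain ⟨t, ht⟩ : ∃ t : ℝ, t = m z / m x := ⟨_, rfl⟩
  have ht0 : 0 < t := by rw [ht]; exact div_pos hz hmx
  have ht1 : t ≤ 1 := by rw [ht, div_le_one hmx]; exact hanti hxz.le
  have hmz : m z = t * m x := by rw [ht]; field_simp
  obtain ⟨ζ, hζ⟩ : ∃ ζ : ℝ, ζ = b / 2 * (1 - r ^ 2) := ⟨_, rfl⟩
  have hEx : Ex b N m x = Real.exp (-ζ) := by unfold Ex; rw [hr2, hζ]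
  have hExi : (Ex b N m x)⁻¹ = Real.exp ζ := by rw [hEx, ← Real.exp_neg, neg_neg]
  rw [hr2, ← hζ] at hreg
  -- the boundary term
  have hS : ∫ u in {u | x < w u}, max (2 * (1 / r) - (1 / r) ^ 2 * w u) 0 ∂σ ≤
      r ^ N / r ^ 2 * Real.exp ζ * S0 σ w x := by
    unfold S0
    rw [← integral_const_mul]
    refine setIntegral_mono_on ?_ ((intS0 σ w hw hw0 hwi x hx0).const_mul _)
      (measurableSet_lt measurable_const hw) fun u hu => ?_
    · refine intOn σ w hw hwi x (2 * (1 / r)) hx0 (by positivity) _ (by fun_prop) fun u _ => ?_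
      rw [abs_of_nonneg (le_max_right _ _)]
      refine max_le ?_ (by positivity)
      have := mul_nonneg (sq_nonneg (1 / r)) (hw0 u)
      linarith
    · have hu' : x < w u := hu
      have hk := key88 N b r (w u) hr0 hr1 hb hNb (by
        rw [← hζ]
        unfold al at hreg
        linarith)
      rw [← hζ, div_le_iff₀ (pow_pos hr0 N)] at hk
      have h1 : max (2 * (1 / r) - (1 / r) ^ 2 * w u) 0 = max (2 * r - w u) 0 / r ^ 2 := by
        rw [← max_div_div_right (by positivity), zero_div]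
        congr 1
        field_simp
      rw [h1, div_le_iff₀ (by positivity)]
      refine hk.trans (le_of_eq ?_)
      field_simp
  have hdd := hd x hx0 (z - x) (by linarith) (1 / r) (by positivity)
  rw [add_sub_cancel] at hdd
  -- the main term
  have hmain : r ^ N / r ^ 2 * t ≤ 1 / r * (m z) ^ (1 - 1 / (N : ℝ)) := by
    have h1 : (m z) ^ (1 - 1 / (N : ℝ)) = t ^ (1 - 1 / (N : ℝ)) * (m x / r) := by
      rw [hmz, Real.mul_rpow ht0.le hmx.le, Real.rpow_sub hmx, Real.rpow_one, ← hr]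
    have h2 : t ≤ t ^ (1 - 1 / (N : ℝ)) := by
      have h3 : (1 - 1 / (N : ℝ)) ≤ 1 := by
        have : 0 < 1 / (N : ℝ) := by positivity
        linarith
      have := Real.rpow_le_rpow_of_exponent_ge ht0 ht1 h3
      rwa [Real.rpow_one] at this
    rw [h1, hrN]
    have h4 : m x / r ^ 2 * t ≤ m x / r ^ 2 * t ^ (1 - 1 / (N : ℝ)) :=
      mul_le_mul_of_nonneg_left h2 (by positivity)
    refine h4.trans (le_of_eq ?_)
    field_simp
  obtain ⟨P, hP⟩ : ∃ P : ℝ, P = r ^ N / r ^ 2 := ⟨_, rfl⟩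
  have hP0 : 0 < P := by rw [hP]; positivity
  rw [← hP] at hS hmain
  have h5 : (1 / r) ^ 2 * m x = P := by rw [hP, hrN]; field_simp
  rw [h5] at hdd
  have h6 : P * (2 * t - 1 - Real.exp ζ * S0 σ w x) ≤ b / N * ((m x - m z) / (z - x)) := by
    have h7 : 2 * (1 / r) * m z ^ (1 - 1 / (N : ℝ)) = 2 * (1 / r * m z ^ (1 - 1 / (N : ℝ))) := by
      ring
    rw [h7] at hdd
    have h8 : P * (2 * t - 1 - Real.exp ζ * S0 σ w x) =
        2 * (P * t) - P - P * Real.exp ζ * S0 σ w x := by ring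
    rw [h8]
    linarith
  have hzx : 0 < z - x := by linarith
  have h9 : (z - x) * (2 * t - 1 - Real.exp ζ * S0 σ w x) ≤ b / N * r ^ 2 * (1 - t) := by
    have h10 : b / N * ((m x - m z) / (z - x)) = P * (b / N * r ^ 2 * (1 - t) / (z - x)) := by
      rw [hP, hmz, ← hrN]
      field_simp
    rw [h10] at h6
    have h11 := le_of_mul_le_mul_left h6 hP0
    rw [le_div_iff₀ hzx] at h11
    linarith
  -- concavity
  have h12 : m z ^ (2 / (N : ℝ)) ≤ r ^ 2 * (1 + 2 / N * (t - 1)) := by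
    rw [hmz, Real.mul_rpow ht0.le hmx.le, hr2]
    have h13 := rpow_one_add_le_one_add_mul_self (s := t - 1) (by linarith)
      (p := 2 / (N : ℝ)) (by positivity) (by rw [div_le_one hN0]; exact hNR)
    rw [add_sub_cancel] at h13
    have := mul_le_mul_of_nonneg_left h13 (sq_nonneg r)
    linarith
  have h14 : ζ + (z - x) * (2 * t - 1 - Real.exp ζ * S0 σ w x) ≤
      b / 2 * (1 - m z ^ (2 / (N : ℝ))) := by
    have h15 := mul_le_mul_of_nonneg_left h12 (by positivity : 0 ≤ b / 2)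
    have h16 : b / 2 * (r ^ 2 * (1 + 2 / N * (t - 1))) = b / 2 * r ^ 2 - b / N * r ^ 2 * (1 - t) := by
      ring
    rw [h16] at h15
    have h17 : b / 2 * (1 - m z ^ (2 / (N : ℝ))) = b / 2 - b / 2 * m z ^ (2 / (N : ℝ)) := by ring
    have h18 : ζ = b / 2 - b / 2 * r ^ 2 := by rw [hζ]; ring
    rw [h17]
    linarith [h9, h15, h18]
  rw [hExi, hEx, ← Real.exp_add, ← Real.exp_add]
  unfold Ex
  rw [← Real.exp_add]
  refine Real.exp_le_exp.2 ?_
  rw [← ht]
  have h19 : x + -ζ + (z - x) * (2 * (1 - t) + Real.exp ζ * S0 σ w x) =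
      z - (ζ + (z - x) * (2 * t - 1 - Real.exp ζ * S0 σ w x)) := by ring
  rw [h19]
  linarith

end O88

open O88 in
/-- The whole differential inequality. -/
theorem ode88 {X : Type} [MeasurableSpace X] (σ : Measure X) (w : X → ℝ) (hw : Measurable w)
    (hw0 : ∀ x, 0 ≤ w x) (hwi : Integrable w σ) (hw1 : ∫ x, w x ∂σ ≤ 1) (N : ℕ) (hN : 2 ≤ N)
    (b : ℝ) (hb : 0 < b) (hNb : (N : ℝ) ≤ b + 1) (m : ℝ → ℝ) (hm0 : ∀ y, 0 ≤ m y)
    (hm1 : ∀ y, m y ≤ 1) (hanti : Antitone m) (hrc : ∀ y, ContinuousWithinAt m (Set.Ici y) y)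
    (hd : ∀ y > 0, ∀ h > 0, ∀ s > 0, 2 * s * (m (y + h)) ^ (1 - 1 / (N : ℝ)) - s ^ 2 * m y -
      ∫ x in {x | y < w x}, max (2 * s - s ^ 2 * w x) 0 ∂σ ≤ b / N * ((m y - m (y + h)) / h)) :
    ∀ Y, 0 < m Y → Y - 1 ≤ b / 2 * (1 - (m Y) ^ (2 / (N : ℝ))) := by
  intro Y hY
  rcases lt_or_ge Y al with hYa | hYa
  · have h1 : m Y ^ (2 / (N : ℝ)) ≤ 1 := Real.rpow_le_one (hm0 Y) (hm1 Y) (by positivity)
    have h2 : 0 ≤ b / 2 * (1 - m Y ^ (2 / (N : ℝ))) := mul_nonneg (by positivity) (by linarith)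
    have := al_lt
    linarith
  have hEpos : ∀ y, 0 < Ex b N m y := fun y => Real.exp_pos _
  -- only downward jumps
  have hjump : ∀ x z, al ≤ x → x ≤ z → Real.exp z * Ex b N m z - Ph σ w z ≤
      Real.exp x * Ex b N m x - Ph σ w x + (Real.exp z - Real.exp x) := by
    intro x z hx hxz
    have h1 := Ph_diff σ w hw hw0 hwi x z hx hxz
    have h2 : 0 ≤ Real.exp z - Real.exp x := sub_nonneg.2 (Real.exp_le_exp.2 hxz)
    have h3 := mul_nonneg h2 (S0_nonneg σ w z)
    have h4 := mul_le_mul_of_nonneg_left (Ex_anti b hb N m hm0 hanti x z hxz) (Real.exp_pos z).le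
    have h5 := mul_le_mul_of_nonneg_left (Ex_le_one b hb N m hm0 hm1 x) h2
    nlinarith
  have hexp : ∀ x : ℝ, ∀ ε > 0, ∃ δ > 0, ∀ z, |z - x| < δ → |Real.exp z - Real.exp x| < ε := by
    intro x ε hε
    have := Metric.continuous_iff.1 Real.continuous_exp x ε hε
    simpa [Real.dist_eq] using this
  have hfY := dini88 (fun y => Real.exp y * Ex b N m y - Ph σ w y) al Y hYa ?_ ?_ ?_ ?_
  · have h1 := Ph_le σ w hw hw0 hwi hw1 Y hYa
    have h2 : Real.exp Y * Ex b N m Y ≤ Real.exp 1 := by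
      linarith
    unfold Ex at h2
    rw [← Real.exp_add, Real.exp_le_exp] at h2
    linarith
  · rw [Ph_al σ w hw]
    have := mul_le_mul_of_nonneg_left (Ex_le_one b hb N m hm0 hm1 al) (Real.exp_pos al).le
    linarith
  · intro x hx ε hε
    obtain ⟨δ, hδ, h1⟩ := hexp x ε hε
    refine ⟨min δ (x - al), lt_min hδ (by linarith [hx.1]), fun z hz => ?_⟩
    have hz1 : al ≤ z := by
      have := min_le_right δ (x - al)
      linarith [hz.1]
    have hz2 : |z - x| < δ := by
      rw [abs_sub_comm, abs_of_pos (by linarith [hz.2])]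
      have := min_le_left δ (x - al)
      linarith [hz.1]
    have h2 := hjump z x hz1 hz.2.le
    have h3 := h1 z hz2
    rw [abs_sub_comm] at h3
    have h4 := (abs_lt.1 h3).2
    linarith
  · intro x hx ε hε
    obtain ⟨δ, hδ, h1⟩ := hexp x ε hε
    refine ⟨δ, hδ, fun z hz => ?_⟩
    have hz2 : |z - x| < δ := by
      rw [abs_of_pos (by linarith [hz.1])]
      linarith [hz.2]
    have h2 := hjump x z hx.1 hz.1.le
    have h4 := (abs_lt.1 (h1 z hz2)).2
    linarith
  · intro x hx hfx ε hε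
    have hx0 : 0 < x := lt_of_lt_of_le al_pos hx.1
    have hmx : 0 < m x := lt_of_lt_of_le hY (hanti hx.2.le)
    -- the regime
    have hreg : b / 2 * (1 - m x ^ (2 / (N : ℝ))) + al ≤ x := by
      have h1 := Ph_diff σ w hw hw0 hwi al x le_rfl hx.1
      rw [Ph_al σ w hw] at h1
      have h2 : 0 ≤ (Real.exp x - Real.exp al) * S0 σ w x :=
        mul_nonneg (sub_nonneg.2 (Real.exp_le_exp.2 hx.1)) (S0_nonneg σ w x)
      have h3 : Real.exp al ≤ Real.exp x * Ex b N m x := by linarith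
      unfold Ex at h3
      rw [← Real.exp_add, Real.exp_le_exp] at h3
      linarith
    obtain ⟨e, he⟩ : ∃ e : ℝ, e = Ex b N m x := ⟨_, rfl⟩
    have he0 : 0 < e := by rw [he]; exact hEpos x
    -- the limit of the bound
    have hm_lim : Tendsto m (𝓝[>] x) (𝓝 (m x)) :=
      (hrc x).tendsto.mono_left (nhdsWithin_mono x Set.Ioi_subset_Ici_self)
    have hid : Tendsto (fun z : ℝ => z) (𝓝[>] x) (𝓝 x) := tendsto_id.mono_left nhdsWithin_le_nhds
    have hB : Tendsto (fun z => 2 * (1 - m z / m x) + e⁻¹ * S0 σ w x) (𝓝[>] x)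
        (𝓝 (2 * (1 - m x / m x) + e⁻¹ * S0 σ w x)) :=
      ((tendsto_const_nhds.sub (hm_lim.div_const _)).const_mul 2).add_const _
    rw [div_self hmx.ne', sub_self, mul_zero, zero_add] at hB
    have hG : Tendsto (fun z => Real.exp x * e * ((2 * (1 - m z / m x) + e⁻¹ * S0 σ w x) *
        Real.exp ((z - x) * (2 * (1 - m z / m x) + e⁻¹ * S0 σ w x)))) (𝓝[>] x)
        (𝓝 (Real.exp x * e * ((e⁻¹ * S0 σ w x) *
          Real.exp ((x - x) * (e⁻¹ * S0 σ w x))))) :=
      (hB.mul ((Real.continuous_exp.tendsto _).comp ((hid.sub_const x).mul hB))).const_mul _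
    have hGv : Real.exp x * e * ((e⁻¹ * S0 σ w x) * Real.exp ((x - x) * (e⁻¹ * S0 σ w x))) =
        Real.exp x * S0 σ w x := by
      rw [sub_self, zero_mul, Real.exp_zero, mul_one]
      field_simp
    rw [hGv] at hG
    have hev1 := hG.eventually (gt_mem_nhds (show Real.exp x * S0 σ w x <
      Real.exp x * S0 σ w x + ε / 2 by linarith))
    have hev2 := S0_right σ w hw hw0 hwi x hx0 (ε / 2 / Real.exp x) (by positivity)
    have hev3 : Set.Ioo x Y ∈ 𝓝[>] x := Ioo_mem_nhdsGT hx.2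
    have hev := (hev1.and (hev2.and hev3))
    obtain ⟨u, hu, hsub⟩ := mem_nhdsGT_iff_exists_Ioo_subset.1 hev
    refine ⟨u - x, sub_pos.2 hu, fun z hz => ?_⟩
    obtain ⟨h1, h2, h3⟩ := hsub (show z ∈ Set.Ioo x u from ⟨hz.1, by linarith [hz.2]⟩)
    have hzx : 0 < z - x := by linarith [hz.1]
    have hmz : 0 < m z := lt_of_lt_of_le hY (hanti h3.2.le)
    have hst := step σ w hw hw0 hwi N hN b hb hNb m hm0 hm1 hanti hd x z hx.1 hz.1 hmz hreg
    rw [← he] at hst
    obtain ⟨B, hBd⟩ : ∃ B : ℝ, B = 2 * (1 - m z / m x) + e⁻¹ * S0 σ w x := ⟨_, rfl⟩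
    rw [← hBd] at h1 hst
    have h4 := Ph_diff σ w hw hw0 hwi x z hx.1 hz.1.le
    -- `exp u - 1 ≤ u exp u`
    have h5 : Real.exp ((z - x) * B) - 1 ≤ (z - x) * B * Real.exp ((z - x) * B) := by
      have h6 := Real.add_one_le_exp (-((z - x) * B))
      have h7 : Real.exp (-((z - x) * B)) * Real.exp ((z - x) * B) = 1 := by
        rw [← Real.exp_add, neg_add_cancel, Real.exp_zero]
      have h8 := mul_le_mul_of_nonneg_right h6 (Real.exp_pos ((z - x) * B)).le
      rw [h7] at h8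
      linarith
    have h9 : Real.exp x * e * (Real.exp ((z - x) * B) - 1) ≤
        (z - x) * (Real.exp x * S0 σ w x + ε / 2) := by
      have h10 := mul_le_mul_of_nonneg_left h5 (by positivity : 0 ≤ Real.exp x * e)
      have h11 := mul_le_mul_of_nonneg_left h1.le hzx.le
      refine h10.trans (le_trans (le_of_eq ?_) h11)
      ring
    -- lower bound of the increase of `Ph`
    have h12 : (z - x) * (Real.exp x * S0 σ w x - ε / 2) ≤
        (Real.exp z - Real.exp x) * S0 σ w z := by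
      have h13 : (z - x) * Real.exp x ≤ Real.exp z - Real.exp x := by
        have h14 := Real.add_one_le_exp (z - x)
        have h15 : Real.exp (z - x) * Real.exp x = Real.exp z := by
          rw [← Real.exp_add]
          congr 1
          ring
        have h16 := mul_le_mul_of_nonneg_right h14 (Real.exp_pos x).le
        rw [h15] at h16
        linarith
      have h17 : Real.exp x * S0 σ w x - ε / 2 ≤ Real.exp x * S0 σ w z := by
        have h18 := mul_le_mul_of_nonneg_left h2.le (Real.exp_pos x).le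
        have h19 : Real.exp x * (S0 σ w x - ε / 2 / Real.exp x) =
            Real.exp x * S0 σ w x - ε / 2 := by
          field_simp
        linarith
      have h20 := mul_le_mul_of_nonneg_left h17 hzx.le
      have h21 := mul_le_mul_of_nonneg_right h13 (S0_nonneg σ w z)
      linarith
    rw [← he]
    linarith

end Pool.Agent.RTC
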