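import Pool.Agent.RTC.St2

set_option autoImplicit false

/-!
# RTC: module ONB (helper88)
-/

namespace Pool.Agent.RTC

open MeasureTheory Set Filter Topology

theorem onb88_intmax (ν : Measure ℝ) [IsFiniteMeasure ν] (c y : ℝ) (hc : 0 ≤ c) (hy : 0 < y) :
    IntegrableOn (fun z => max 0 (c - z)) (Ioi y) ν := by
  refine Integrable.mono' (integrable_const c) (by fun_prop) ?_
  rw [ae_restrict_iff' measurableSet_Ioi]
  refine Eventually.of_forall fun z hz => ?_
  have hz' : y < z := hz
  rw [Real.norm_eq_abs, abs_of_nonneg (le_max_left _ _)]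
  exact max_le hc (by linarith)

theorem t_ONB88 : S_BR2 → S_KE2 → S_ET2 → S_ONB := by
  intro hBR2 hKE2 hET2 N b θ m ν hN hb hθ hθ2 hNb hbN hD e₀ δ Y hY1 hY2 hδ he hm1 hsum
  haveI : IsFiniteMeasure ν := ⟨hD.fin⟩
  have hN2 : 2 ≤ N := by omega
  have he0 : 0 < e₀ := lt_of_lt_of_le (Real.exp_pos _) he
  have hθb : 0 < θ * b := mul_pos hθ hb
  have key : ∀ ε : ℝ, 0 < ε →
      m Y ≤ (max 0 (1 + 2 * Real.log (Real.exp (-(θ * (Y - 1))) * (1 + δ) + θ * ε) / (θ * b)))
        ^ ((N : ℝ) / 2) := by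
    intro ε hε
    obtain ⟨η, hc, h1, hlow, hder, hup⟩ := hET2 N b m ν hD θ ε e₀ Y hθ hε he0 hY1 hY2
    have hpos : ∀ y ∈ Icc 1 Y, 0 < η y := fun y hy =>
      lt_of_lt_of_le (mul_pos he0 (Real.exp_pos _)) (hlow y hy)
    have hζ : ∀ x : ℝ, 1 - 2 * (-Real.log x / θ) / b = 1 + 2 * Real.log x / (θ * b) := by
      intro x
      field_simp
      ring
    have hmain := hBR2 N b m ν hN2 hb hD (fun y => -Real.log (η y) / θ) 1 Y zero_le_one ?_ ?_ ?_ Y
      ⟨hY1, le_rfl⟩
    · refine hmain.trans (Real.rpow_le_rpow (le_max_left _ _) ?_ (by positivity))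
      refine max_le_max le_rfl ?_
      rw [hζ]
      have h2 : η Y ≤ Real.exp (-(θ * (Y - 1))) * (1 + δ) + θ * ε := by
        have h4 := mul_le_mul_of_nonneg_left hsum (Real.exp_pos (-(θ * (Y - 1)))).le
        linarith
      have h6 := Real.log_le_log (hpos Y ⟨hY1, le_rfl⟩) h2
      have h7 : 2 * Real.log (η Y) / (θ * b) ≤
          2 * Real.log (Real.exp (-(θ * (Y - 1))) * (1 + δ) + θ * ε) / (θ * b) :=
        div_le_div_of_nonneg_right (by linarith) hθb.le
      linarith
    · exact ((hc.log fun y hy => (hpos y hy).ne').neg).div_const θ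
    · simp only [h1]
      rw [hζ]
      exact hm1
    · intro y hy r hr0 hr1 hr2 hmy
      have hyI : y ∈ Icc 1 Y := ⟨hy.1, hy.2.le⟩
      have hy0 : 0 < y := lt_of_lt_of_le one_pos hy.1
      have hη := hpos y hyI
      refine ⟨-((θ * (S0 ν y + ε - η y)) / η y) / θ, 1, one_pos,
        (((hder y hy).log hη.ne').neg).div_const θ, ?_⟩
      have hz : b / 2 * (1 - r ^ 2) = -Real.log (η y) / θ := by
        rw [hr2]
        field_simp
        ring
      have hzle : -Real.log (η y) / θ ≤ y - 1 / 2 := by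
        have h2 := Real.log_le_log (mul_pos he0 (Real.exp_pos _)) (hlow y hyI)
        rw [Real.log_mul he0.ne' (Real.exp_pos _).ne', Real.log_exp] at h2
        have h3 := Real.log_le_log (Real.exp_pos _) he
        rw [Real.log_exp] at h3
        rw [div_le_iff₀ hθ]
        linarith
      have hexp : Real.exp (θ * (-Real.log (η y) / θ)) = (η y)⁻¹ := by
        rw [mul_div_cancel₀ _ hθ.ne', Real.exp_neg, Real.exp_log hη]
      have hlin : Integrable (fun z : ℝ => 2 * r - 1 * z) ν :=
        (integrable_const _).sub (hD.int.const_mul 1)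
      have hI : ∫ z in Ioi y, (2 * r - 1 * z) ∂ν ≤ (η y)⁻¹ * r ^ N * S0 ν y := by
        unfold S0
        rw [← integral_const_mul]
        refine setIntegral_mono_on hlin.integrableOn
          ((onb88_intmax ν 2 y (by norm_num) hy0).const_mul _) measurableSet_Ioi fun z hz' => ?_
        have hyz : y < z := hz'
        have h3 := hKE2 N b θ r z hN2 hb hθ hθ2 hNb hbN hr0 hr1 (by linarith [hy.1])
          (by rw [hz]; linarith)
        rw [hz, hexp] at h3
        have h4 : (η y)⁻¹ * r ^ N * (2 - z) ≤ (η y)⁻¹ * r ^ N * max 0 (2 - z) :=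
          mul_le_mul_of_nonneg_left (le_max_right _ _) (by positivity)
        linarith
      have hrN : 0 < r ^ N := pow_pos hr0 N
      have h4 : (∫ z in Ioi y, (2 * r - 1 * z) ∂ν) / r ^ N ≤ (η y)⁻¹ * S0 ν y := by
        rw [div_le_iff₀ hrN]
        linarith
      have h5 : -((θ * (S0 ν y + ε - η y)) / η y) / θ = 1 - (η y)⁻¹ * S0 ν y - ε / η y := by
        field_simp
        ring
      rw [h5]
      have h6 : 0 < ε / η y := div_pos hε hη
      have h7 : 1 * (∫ z in Ioi y, (2 * r - 1 * z) ∂ν) / r ^ N =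
        (∫ z in Ioi y, (2 * r - 1 * z) ∂ν) / r ^ N := by rw [one_mul]
      rw [h7]
      linarith
  -- the limit
  have hA : 0 < Real.exp (-(θ * (Y - 1))) * (1 + δ) :=
    mul_pos (Real.exp_pos _) (by linarith)
  have hlim : Tendsto (fun ε : ℝ =>
      (max 0 (1 + 2 * Real.log (Real.exp (-(θ * (Y - 1))) * (1 + δ) + θ * ε) / (θ * b)))
        ^ ((N : ℝ) / 2)) (𝓝[>] 0)
      (𝓝 ((max 0 (1 + 2 * Real.log (Real.exp (-(θ * (Y - 1))) * (1 + δ) + θ * 0) / (θ * b)))
        ^ ((N : ℝ) / 2))) := by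
    have hca : ContinuousAt (fun ε : ℝ =>
        (max 0 (1 + 2 * Real.log (Real.exp (-(θ * (Y - 1))) * (1 + δ) + θ * ε) / (θ * b)))
          ^ ((N : ℝ) / 2)) 0 := by
      refine ContinuousAt.rpow_const ?_ (Or.inr (by positivity))
      refine Filter.Tendsto.max tendsto_const_nhds ?_
      change ContinuousAt (fun ε : ℝ =>
        1 + 2 * Real.log (Real.exp (-(θ * (Y - 1))) * (1 + δ) + θ * ε) / (θ * b)) 0
      refine ContinuousAt.add continuousAt_const ?_
      refine ContinuousAt.div_const ?_ _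
      refine ContinuousAt.mul continuousAt_const ?_
      refine ContinuousAt.log (by fun_prop) ?_
      simp only [mul_zero, add_zero]
      exact hA.ne'
    exact hca.tendsto.mono_left nhdsWithin_le_nhds
  rw [mul_zero, add_zero, Real.log_mul (Real.exp_pos _).ne' (by linarith), Real.log_exp] at hlim
  have hfin : 1 + 2 * (-(θ * (Y - 1)) + Real.log (1 + δ)) / (θ * b) =
      1 - 2 * (Y - 1) / b + 2 * Real.log (1 + δ) / (θ * b) := by
    field_simp
    ring
  rw [hfin] at hlim
  exact ge_of_tendsto hlim (eventually_nhdsWithin_of_forall fun ε hε => key ε hε)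

end Pool.Agent.RTC
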