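import Pool.Agent.RTC.St

set_option autoImplicit false

/-!
# RTC: module ONE (helper88)
-/

namespace Pool.Agent.RTC

open MeasureTheory Set Filter Topology

theorem one88_a0_pos : 0 < a0 := by
  have := Real.log_two_lt_d9
  unfold a0
  linarith

theorem one88_int (ν : Measure ℝ) [IsFiniteMeasure ν] (c y : ℝ) (hc : 0 ≤ c) (hy : 0 < y) :
    IntegrableOn (fun z => max 0 (c - z)) (Ioi y) ν := by
  refine Integrable.mono' (integrable_const c) (by fun_prop) ?_
  rw [ae_restrict_iff' measurableSet_Ioi]
  refine Eventually.of_forall fun z hz => ?_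
  have hz' : y < z := hz
  rw [Real.norm_eq_abs, abs_of_nonneg (le_max_left _ _)]
  exact max_le hc (by linarith)

theorem t_ONE : S_BRZ → S_KEY → S_FUB → S_ETA → S_ONE := by
  intro hBRZ hKEY hFUB hETA N b m ν hN hNb hD Y hY1 hY2
  haveI : IsFiniteMeasure ν := ⟨hD.fin⟩
  have hNR : (2 : ℝ) ≤ N := by exact_mod_cast hN
  have hb : 0 < b := by linarith
  have ha := one88_a0_pos
  have haY : a0 ≤ Y := by
    have := Real.log_two_gt_d9
    unfold a0
    linarith
  have hexpa : Real.exp (-(Y - a0)) = Real.exp (-(Y - 1)) / 2 := by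
    have h1 : -(Y - a0) = -(Y - 1) - Real.log 2 := by unfold a0; ring
    rw [h1, Real.exp_sub, Real.exp_log (by norm_num)]
  have key : ∀ ε : ℝ, 0 < ε →
      m Y ≤ (max 0 (1 - 2 * (-Real.log (Real.exp (-(Y - 1)) + 2 * ε)) / b)) ^ ((N : ℝ) / 2) := by
    intro ε hε
    obtain ⟨η, hc, h1, hlow, hder, hup⟩ := hETA N b m ν hD ε hε
    have hpos : ∀ y, a0 ≤ y → 0 < η y := fun y hy => lt_of_lt_of_le (Real.exp_pos _) (hlow y hy)
    have hmain := hBRZ N b m ν hN hb hD (fun y => -Real.log (η y)) a0 Y ha.le ?_ ?_ ?_ Y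
      ⟨haY, le_rfl⟩
    · refine hmain.trans (Real.rpow_le_rpow (le_max_left _ _) ?_ (by positivity))
      refine max_le_max le_rfl ?_
      have h2 : η Y ≤ Real.exp (-(Y - 1)) + 2 * ε := by
        have h3 := hup Y haY
        have h4 := mul_le_mul_of_nonneg_left (hFUB N b m ν hD Y haY)
          (Real.exp_pos (-(Y - 1))).le
        rw [hexpa] at h3
        have h5 : ε * (Y - a0) ≤ ε * 2 := mul_le_mul_of_nonneg_left (by linarith) hε.le
        linarith
      have h6 := Real.log_le_log (hpos Y haY) h2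
      have h7 : 2 * (-Real.log (Real.exp (-(Y - 1)) + 2 * ε)) / b ≤ 2 * (-Real.log (η Y)) / b :=
        div_le_div_of_nonneg_right (by linarith) hb.le
      linarith
    · intro y hy
      exact ((hc y hy.1).mono fun z hz => hz.1).log (hpos y hy.1).ne' |>.neg
    · rw [h1, Real.log_one, neg_zero, mul_zero, zero_div, sub_zero, max_eq_right zero_le_one,
        Real.one_rpow]
      exact hD.le_one a0
    · intro y hy r hr0 hr1 hr2
      have hy0 : 0 < y := lt_of_lt_of_le ha hy.1
      have hη := hpos y hy.1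
      refine ⟨-((-(η y) + S0 ν y + ε) / η y), ((hder y hy.1).log hη.ne').neg, ?_⟩
      have hz : b / 2 * (1 - r ^ 2) = -Real.log (η y) := by
        rw [hr2]
        field_simp
        ring
      have hzle : -Real.log (η y) ≤ y - a0 := by
        have h2 := Real.log_le_log (Real.exp_pos _) (hlow y hy.1)
        rw [Real.log_exp] at h2
        linarith
      have hexp : Real.exp (-Real.log (η y)) = (η y)⁻¹ := by
        rw [Real.exp_neg, Real.exp_log hη]
      have hI : ∫ z in Ioi y, max 0 (2 * r - z) ∂ν ≤ (η y)⁻¹ * r ^ N * S0 ν y := by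
        unfold S0
        rw [← integral_const_mul]
        refine setIntegral_mono_on (one88_int ν (2 * r) y (by positivity) hy0)
          ((one88_int ν 2 y (by norm_num) hy0).const_mul _) measurableSet_Ioi fun z hz' => ?_
        have hyz : y < z := hz'
        have hR : 0 ≤ (η y)⁻¹ * r ^ N * max 0 (2 - z) := by positivity
        rcases le_or_gt (2 * r) z with h2 | h2
        · rw [max_eq_left (by linarith)]
          exact hR
        · have h3 := hKEY N b r z hN hNb hr0 hr1 (by linarith) h2 (by rw [hz]; linarith)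
          rw [hz, hexp] at h3
          rw [max_eq_right (by linarith : (0 : ℝ) ≤ 2 * r - z),
            max_eq_right (by linarith : (0 : ℝ) ≤ 2 - z)]
          linarith
      have hrN : 0 < r ^ N := pow_pos hr0 N
      have h4 : (∫ z in Ioi y, max 0 (2 * r - z) ∂ν) / r ^ N ≤ (η y)⁻¹ * S0 ν y := by
        rw [div_le_iff₀ hrN]
        linarith
      have h5 : -((-(η y) + S0 ν y + ε) / η y) = 1 - (η y)⁻¹ * S0 ν y - ε / η y := by
        field_simp
        ring
      rw [h5]
      have h6 : 0 < ε / η y := div_pos hε hη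
      linarith
  -- the limit
  have hlim : Tendsto (fun ε : ℝ =>
      (max 0 (1 - 2 * (-Real.log (Real.exp (-(Y - 1)) + 2 * ε)) / b)) ^ ((N : ℝ) / 2)) (𝓝[>] 0)
      (𝓝 ((max 0 (1 - 2 * (-Real.log (Real.exp (-(Y - 1)) + 2 * 0)) / b)) ^ ((N : ℝ) / 2))) := by
    have hca : ContinuousAt (fun ε : ℝ =>
        (max 0 (1 - 2 * (-Real.log (Real.exp (-(Y - 1)) + 2 * ε)) / b)) ^ ((N : ℝ) / 2)) 0 := by
      refine ContinuousAt.rpow_const ?_ (Or.inr (by positivity))
      refine Filter.Tendsto.max tendsto_const_nhds ?_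
      change ContinuousAt (fun ε : ℝ =>
        1 - 2 * (-Real.log (Real.exp (-(Y - 1)) + 2 * ε)) / b) 0
      refine ContinuousAt.sub continuousAt_const ?_
      refine ContinuousAt.div_const ?_ _
      refine ContinuousAt.mul continuousAt_const ?_
      refine ContinuousAt.neg ?_
      refine ContinuousAt.log (by fun_prop) ?_
      have := Real.exp_pos (-(Y - 1))
      simp only [mul_zero, add_zero]
      exact this.ne'
    exact hca.tendsto.mono_left nhdsWithin_le_nhds
  rw [mul_zero, add_zero, Real.log_exp, neg_neg] at hlim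
  exact ge_of_tendsto hlim (eventually_nhdsWithin_of_forall fun ε hε => key ε hε)

end Pool.Agent.RTC
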