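import Pool.Agent.RTC.ETA3
import Pool.Agent.RTC.TWO
import Pool.Agent.RTC.ONE

set_option autoImplicit false

/-!
# RTC: the claim for `1 ≤ Y`, range `2 N / 3 ≤ b`
-/

namespace Pool.Agent.RTC

open MeasureTheory Set Filter Topology

theorem one3 (hBRZ : S_BRZ) (N : ℕ) (b : ℝ) (m : ℝ → ℝ) (ν : Measure ℝ) (hN : 2 ≤ N)
    (hNb : (N : ℝ) ≤ 3 / 2 * b) (hD : Data N b m ν) (Y : ℝ) (hY1 : 1 ≤ Y) (hY2 : Y ≤ 2) :
    m Y ≤ (max 0 (1 - 2 * (Y - 1) / b)) ^ ((N : ℝ) / 2) := by
  haveI : IsFiniteMeasure ν := ⟨hD.fin⟩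
  have hNR : (2 : ℝ) ≤ N := by exact_mod_cast hN
  have hb : 0 < b := by linarith
  have halo := a3_lo
  have hahi := a3_hi
  have ha : 0 < a3 := by linarith
  have haY : a3 ≤ Y := by linarith
  have hexpa : Real.exp (-(3 / 2 * (Y - a3))) = Real.exp (-(3 / 2 * (Y - 1))) / 4 := by
    have h1 : -(3 / 2 * (Y - a3)) = -(3 / 2 * (Y - 1)) + 3 / 2 * (a3 - 1) := by ring
    rw [h1, Real.exp_add, FUB3.exp_a3]
    ring
  have key : ∀ ε : ℝ, 0 < ε →
      m Y ≤ (max 0 (1 - 2 * (-(2 / 3 * Real.log (Real.exp (-(3 / 2 * (Y - 1))) + 3 * ε))) / b)) ^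
        ((N : ℝ) / 2) := by
    intro ε hε
    obtain ⟨η, hc, h1, hlow, hder, hup⟩ := eta3 N b m ν hD ε hε
    have hpos : ∀ y, a3 ≤ y → 0 < η y := fun y hy => lt_of_lt_of_le (Real.exp_pos _) (hlow y hy)
    have hmain := hBRZ N b m ν hN hb hD (fun y => -(2 / 3 * Real.log (η y))) a3 Y ha.le ?_ ?_ ?_ Y
      ⟨haY, le_rfl⟩
    · refine hmain.trans (Real.rpow_le_rpow (le_max_left _ _) ?_ (by positivity))
      refine max_le_max le_rfl ?_
      have h2 : η Y ≤ Real.exp (-(3 / 2 * (Y - 1))) + 3 * ε := by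
        have h3 := hup Y haY
        have h4 := mul_le_mul_of_nonneg_left (fub3 N b m ν hD Y haY)
          (Real.exp_pos (-(3 / 2 * (Y - 1)))).le
        rw [hexpa] at h3
        have h5 : ε * (3 / 2 * (Y - a3)) ≤ ε * 3 := mul_le_mul_of_nonneg_left (by linarith) hε.le
        linarith
      have h6 := Real.log_le_log (hpos Y haY) h2
      have h7 : 2 * (-(2 / 3 * Real.log (Real.exp (-(3 / 2 * (Y - 1))) + 3 * ε))) / b ≤
          2 * (-(2 / 3 * Real.log (η Y))) / b :=
        div_le_div_of_nonneg_right (by linarith) hb.le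
      linarith
    · intro y hy
      exact (continuousWithinAt_const.mul
        (((hc y hy.1).mono fun z hz => hz.1).log (hpos y hy.1).ne')).neg
    · rw [h1, Real.log_one, mul_zero, neg_zero, mul_zero, zero_div, sub_zero,
        max_eq_right zero_le_one, Real.one_rpow]
      exact hD.le_one a3
    · intro y hy r hr0 hr1 hr2
      have hy0 : 0 < y := lt_of_lt_of_le ha hy.1
      have hη := hpos y hy.1
      refine ⟨-(2 / 3 * (3 / 2 * (-(η y) + S0 ν y + ε) / η y)),
        (((hder y hy.1).log hη.ne').const_mul (2 / 3)).neg, ?_⟩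
      have hz : b / 2 * (1 - r ^ 2) = -(2 / 3 * Real.log (η y)) := by
        rw [hr2]
        field_simp
        ring
      have hzle : -(2 / 3 * Real.log (η y)) ≤ y - a3 := by
        have h2 := Real.log_le_log (Real.exp_pos _) (hlow y hy.1)
        rw [Real.log_exp] at h2
        linarith
      have hexp : Real.exp (3 / 2 * (-(2 / 3 * Real.log (η y)))) = (η y)⁻¹ := by
        have e : 3 / 2 * (-(2 / 3 * Real.log (η y))) = -Real.log (η y) := by ring
        rw [e, Real.exp_neg, Real.exp_log hη]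
      have hI : ∫ z in Ioi y, max 0 (2 * r - z) ∂ν ≤ (η y)⁻¹ * r ^ N * S0 ν y := by
        unfold S0
        rw [← integral_const_mul]
        refine setIntegral_mono_on (one88_int ν (2 * r) y (by positivity) hy0)
          ((one88_int ν 2 y (by norm_num) hy0).const_mul _) measurableSet_Ioi fun z hz' => ?_
        have hyz : y < z := hz'
        have hR : 0 ≤ (η y)⁻¹ * r ^ N * max 0 (2 - z) := by positivity
        rcases le_or_gt (2 * r) z with h2 | h2
        · rw [max_eq_left (by linarith)]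
          exact hR
        · have h3 := key3 N b r z hb hNb hr0 hr1 (by linarith) h2 (by rw [hz]; linarith)
          rw [hz, hexp] at h3
          rw [max_eq_right (by linarith : (0 : ℝ) ≤ 2 * r - z),
            max_eq_right (by linarith : (0 : ℝ) ≤ 2 - z)]
          linarith
      have hrN : 0 < r ^ N := pow_pos hr0 N
      have h4 : (∫ z in Ioi y, max 0 (2 * r - z) ∂ν) / r ^ N ≤ (η y)⁻¹ * S0 ν y := by
        rw [div_le_iff₀ hrN]
        linarith
      have h5 : -(2 / 3 * (3 / 2 * (-(η y) + S0 ν y + ε) / η y)) =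
          1 - (η y)⁻¹ * S0 ν y - ε / η y := by
        field_simp
        ring
      rw [h5]
      have h6 : 0 < ε / η y := div_pos hε hη
      linarith
  -- the limit
  have hlim : Tendsto (fun ε : ℝ =>
      (max 0 (1 - 2 * (-(2 / 3 * Real.log (Real.exp (-(3 / 2 * (Y - 1))) + 3 * ε))) / b)) ^
        ((N : ℝ) / 2)) (𝓝[>] 0)
      (𝓝 ((max 0 (1 - 2 * (-(2 / 3 * Real.log (Real.exp (-(3 / 2 * (Y - 1))) + 3 * 0))) / b)) ^
        ((N : ℝ) / 2))) := by
    have hca : ContinuousAt (fun ε : ℝ =>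
        (max 0 (1 - 2 * (-(2 / 3 * Real.log (Real.exp (-(3 / 2 * (Y - 1))) + 3 * ε))) / b)) ^
          ((N : ℝ) / 2)) 0 := by
      refine ContinuousAt.rpow_const ?_ (Or.inr (by positivity))
      refine Filter.Tendsto.max tendsto_const_nhds ?_
      change ContinuousAt (fun ε : ℝ =>
        1 - 2 * (-(2 / 3 * Real.log (Real.exp (-(3 / 2 * (Y - 1))) + 3 * ε))) / b) 0
      refine ContinuousAt.sub continuousAt_const ?_
      refine ContinuousAt.div_const ?_ _
      refine ContinuousAt.mul continuousAt_const ?_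
      refine ContinuousAt.neg ?_
      refine ContinuousAt.mul continuousAt_const ?_
      refine ContinuousAt.log (by fun_prop) ?_
      have := Real.exp_pos (-(3 / 2 * (Y - 1)))
      simp only [mul_zero, add_zero]
      exact this.ne'
    exact hca.tendsto.mono_left nhdsWithin_le_nhds
  have e0 : -(2 / 3 * -(3 / 2 * (Y - 1))) = Y - 1 := by ring
  rw [mul_zero, add_zero, Real.log_exp, e0] at hlim
  exact ge_of_tendsto hlim (eventually_nhdsWithin_of_forall fun ε hε => key ε hε)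

namespace ONE3

theorem step (hBRZ : S_BRZ) (N : ℕ) (b : ℝ) (m : ℝ → ℝ) (ν : Measure ℝ)
    (hN : 2 ≤ N) (hb : (N : ℝ) ≤ 3 / 2 * b) (hD : Data N b m ν) (Y : ℝ) (hY : 2 ≤ Y) (ε : ℝ)
    (hε : 0 < ε) :
    m Y ≤ (max 0 (1 - 2 * (1 + (1 - ε) * (Y - 2)) / b)) ^ ((N : ℝ) / 2) := by
  have hN' : (2 : ℝ) ≤ N := by exact_mod_cast hN
  have hb0 : 0 < b := by linarith
  have h2 := one3 hBRZ N b m ν hN hb hD 2 (by norm_num) le_rfl
  refine hBRZ N b m ν hN hb0 hD (fun y => 1 + (1 - ε) * (y - 2)) 2 Y (by norm_num) ?_ ?_ ?_ Y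
    ⟨hY, le_rfl⟩
  · fun_prop
  · have e : (1 : ℝ) - 2 * (1 + (1 - ε) * (2 - 2)) / b = 1 - 2 * (2 - 1) / b := by
      norm_num
    simp only [e]
    exact h2
  · intro y hy r hr0 hr1 _
    refine ⟨1 - ε, ?_, ?_⟩
    · have h : HasDerivAt (fun y : ℝ => 1 + (1 - ε) * (y - 2)) ((1 - ε) * 1) y :=
        (((hasDerivAt_id y).sub_const 2).const_mul (1 - ε)).const_add 1
      rw [mul_one] at h
      exact h.hasDerivWithinAt
    · rw [TWO.int_zero ν y r hy.1 hr1]
      simp only [zero_div, sub_zero]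
      linarith

end ONE3

/-- The one-dimensional comparison for `2 N / 3 ≤ b`. -/
theorem two3 (hBRZ : S_BRZ) (N : ℕ) (b : ℝ) (m : ℝ → ℝ) (ν : Measure ℝ) (hN : 2 ≤ N)
    (hb : (N : ℝ) ≤ 3 / 2 * b) (hD : Data N b m ν) (Y : ℝ) (hY : 1 ≤ Y) :
    m Y ≤ (max 0 (1 - 2 * (Y - 1) / b)) ^ ((N : ℝ) / 2) := by
  rcases le_total Y 2 with h2 | h2
  · exact one3 hBRZ N b m ν hN hb hD Y hY h2
  · have hN' : (2 : ℝ) ≤ N := by exact_mod_cast hN
    have hc : Continuous (fun ε : ℝ =>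
        (max 0 (1 - 2 * (1 + (1 - ε) * (Y - 2)) / b)) ^ ((N : ℝ) / 2)) := by
      apply Continuous.rpow_const
      · fun_prop
      · intro x
        right
        positivity
    have ht : Tendsto (fun ε : ℝ =>
        (max 0 (1 - 2 * (1 + (1 - ε) * (Y - 2)) / b)) ^ ((N : ℝ) / 2)) (𝓝[>] 0)
        (𝓝 ((max 0 (1 - 2 * (1 + (1 - (0:ℝ)) * (Y - 2)) / b)) ^ ((N : ℝ) / 2))) :=
      (hc.tendsto 0).mono_left nhdsWithin_le_nhds
    have e : (1 : ℝ) - 2 * (1 + (1 - (0:ℝ)) * (Y - 2)) / b = 1 - 2 * (Y - 1) / b := by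
      ring
    rw [e] at ht
    apply ge_of_tendsto ht
    filter_upwards [self_mem_nhdsWithin] with ε hε
    exact ONE3.step hBRZ N b m ν hN hb hD Y h2 ε hε

end Pool.Agent.RTC
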