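import Mathlib

set_option autoImplicit false

namespace Pool.Agent.RTC.PL44

open MeasureTheory Set

/-- Brunn-Minkowski on the line, compact sets. -/
theorem bm1_compact {K L U : Set ℝ} (hK : IsCompact K) (hL : IsCompact L) (nK : K.Nonempty)
    (nL : L.Nonempty) (hU : ∀ x ∈ K, ∀ y ∈ L, x + y ∈ U) :
    volume K + volume L ≤ volume U := by
  obtain ⟨a, haK, ha⟩ := hK.exists_isGreatest nK
  obtain ⟨b, hbL, hb⟩ := hL.exists_isLeast nL
  have h1 : volume ((fun x => x + b) '' K) = volume K := by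
    rw [image_add_right]
    exact measure_preimage_add_right _ _ _
  have h2 : volume ((fun x => a + x) '' L) = volume L := by
    rw [image_add_left]
    exact measure_preimage_add _ _ _
  have hm2 : MeasurableSet ((fun x => a + x) '' L) :=
    (hL.image (continuous_const.add continuous_id)).isClosed.measurableSet
  have h3 := measure_union_add_inter (μ := volume) ((fun x => x + b) '' K) hm2
  have h4 : volume ((fun x => x + b) '' K ∩ (fun x => a + x) '' L) = 0 := by
    refine measure_mono_null (t := {a + b}) ?_ (by simp)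
    rintro z ⟨⟨x, hx, rfl⟩, ⟨y, hy, h⟩⟩
    have h5 : x ≤ a := ha hx
    have h6 : b ≤ y := hb hy
    simp only at h
    rw [mem_singleton_iff]
    simp only
    linarith
  rw [h4, add_zero, h1, h2] at h3
  rw [← h3]
  apply measure_mono
  rintro z (⟨x, hx, rfl⟩ | ⟨y, hy, rfl⟩)
  · exact hU x hx b hbL
  · exact hU a haK y hy

theorem bm1 {S T U : Set ℝ} (hS : MeasurableSet S) (hT : MeasurableSet T) (nS : S.Nonempty)
    (nT : T.Nonempty) (hU : ∀ x ∈ S, ∀ y ∈ T, x + y ∈ U) :
    volume S + volume T ≤ volume U := by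
  obtain ⟨s, hs⟩ := nS
  obtain ⟨t, ht⟩ := nT
  have key : ∀ K ⊆ S, IsCompact K → ∀ L ⊆ T, IsCompact L → volume K + volume L ≤ volume U := by
    intro K hK cK L hL cL
    refine le_trans (add_le_add (measure_mono (subset_insert s K))
      (measure_mono (subset_insert t L))) (bm1_compact (cK.insert s) (cL.insert t)
      (insert_nonempty _ _) (insert_nonempty _ _) ?_)
    intro x hx y hy
    exact hU x (insert_subset hs hK hx) y (insert_subset ht hL hy)
  have ap : ∀ A K : Set ℝ, ∃ K' ⊆ A, IsCompact K' ∧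
      (⨆ (_ : K ⊆ A) (_ : IsCompact K), volume K) = volume K' := by
    intro A K
    by_cases h : K ⊆ A ∧ IsCompact K
    · exact ⟨K, h.1, h.2, by simp [h.1, h.2]⟩
    · refine ⟨∅, empty_subset _, isCompact_empty, ?_⟩
      rw [not_and] at h
      by_cases h1 : K ⊆ A
      · simp [h1, h h1]
      · simp [h1]
  rw [hS.measure_eq_iSup_isCompact, hT.measure_eq_iSup_isCompact]
  refine ENNReal.iSup_add_iSup_le fun K L => ?_
  obtain ⟨K', h1, h2, h3⟩ := ap S K
  obtain ⟨L', h4, h5, h6⟩ := ap T L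
  rw [h3, h6]
  exact key K' h1 h2 L' h4 h5

theorem amgm (a : ℝ) (ha0 : 0 < a) (ha1 : a < 1) (x y : ENNReal) :
    x ^ (1 - a) * y ^ a ≤ ENNReal.ofReal (1 - a) * x + ENNReal.ofReal a * y := by
  have h1 : 0 < 1 - a := by linarith
  by_cases hx : x = ⊤
  · rw [hx, ENNReal.mul_top (by simpa using h1)]
    simp
  by_cases hy : y = ⊤
  · rw [hy, ENNReal.mul_top (by simpa using ha0)]
    simp
  lift x to NNReal using hx
  lift y to NNReal using hy
  have h := NNReal.geom_mean_le_arith_mean2_weighted (Real.toNNReal (1 - a)) (Real.toNNReal a) x y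
    (by rw [← Real.toNNReal_add h1.le ha0.le]; simp)
  rw [Real.coe_toNNReal _ h1.le, Real.coe_toNNReal _ ha0.le] at h
  rw [← ENNReal.coe_rpow_of_nonneg _ h1.le, ← ENNReal.coe_rpow_of_nonneg _ ha0.le]
  simp only [ENNReal.ofReal]
  exact_mod_cast h

/-- Prekopa-Leindler on the line for functions with supremum one. -/
theorem pl1_one (a : ℝ) (ha0 : 0 < a) (ha1 : a < 1) {f g h : ℝ → ℝ} (hf : Measurable f)
    (hg : Measurable g) (hh : Measurable h) (f0 : ∀ x, 0 ≤ f x) (g0 : ∀ x, 0 ≤ g x)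
    (h0 : ∀ x, 0 ≤ h x) (f1 : ∀ x, f x ≤ 1) (g1 : ∀ x, g x ≤ 1)
    (f2 : ∀ t < 1, ∃ x, t < f x) (g2 : ∀ t < 1, ∃ x, t < g x)
    (H : ∀ x y t, 0 < t → t < 1 → t < f x → t < g y → t ≤ h ((1 - a) * x + a * y)) :
    ENNReal.ofReal (1 - a) * (∫⁻ x, ENNReal.ofReal (f x)) +
      ENNReal.ofReal a * (∫⁻ x, ENNReal.ofReal (g x)) ≤ ∫⁻ x, ENNReal.ofReal (h x) := by
  have h1 : 0 < 1 - a := by linarith
  have lay : ∀ k : ℝ → ℝ, Measurable k → (∀ x, 0 ≤ k x) → (∀ x, k x ≤ 1) →
      ∫⁻ x, ENNReal.ofReal (k x) = ∫⁻ t in Ioo (0 : ℝ) 1, volume {x | t < k x} := by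
    intro k hk k0 k1
    rw [lintegral_eq_lintegral_meas_lt volume (ae_of_all _ k0) hk.aemeasurable]
    have e : Ioi (0 : ℝ) = Ioo 0 1 ∪ Ici 1 := by
      ext t
      simp only [mem_Ioi, mem_union, mem_Ioo, mem_Ici]
      constructor
      · intro ht
        rcases lt_or_ge t 1 with h | h
        · exact Or.inl ⟨ht, h⟩
        · exact Or.inr h
      · rintro (h | h)
        · exact h.1
        · linarith
    rw [e, lintegral_union measurableSet_Ici (by
      rw [Set.disjoint_left]
      intro t ht ht'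
      exact absurd ht.2 (not_lt.2 ht'))]
    have e2 : ∫⁻ t in Ici (1 : ℝ), volume {x | t < k x} = 0 := by
      rw [setLIntegral_congr_fun measurableSet_Ici (g := fun _ => 0)]
      · simp
      · intro t ht
        have : {x | t < k x} = ∅ := by
          ext x
          simp only [mem_ofPred_eq, mem_empty_iff_false, iff_false, not_lt]
          exact (k1 x).trans ht
        simp [this]
    rw [e2, add_zero]
  rw [lay f hf f0 f1, lay g hg g0 g1,
    lintegral_eq_lintegral_meas_le volume (ae_of_all _ h0) hh.aemeasurable]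
  have hmf : Measurable fun t : ℝ => volume {x | t < f x} :=
    (Antitone.measurable fun s t hst => measure_mono fun x hx => lt_of_le_of_lt hst hx)
  have hmg : Measurable fun t : ℝ => volume {x | t < g x} :=
    (Antitone.measurable fun s t hst => measure_mono fun x hx => lt_of_le_of_lt hst hx)
  rw [← lintegral_const_mul _ hmf, ← lintegral_const_mul _ hmg,
    ← lintegral_add_left (hmf.const_mul _)]
  refine le_trans ?_ (lintegral_mono_set (show Ioo (0 : ℝ) 1 ⊆ Ioi 0 from Ioo_subset_Ioi_self))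
  refine setLIntegral_mono' measurableSet_Ioo fun t ht => ?_
  have s1 : ∀ (c : ℝ) (_ : 0 < c) (S : Set ℝ),
      ENNReal.ofReal c * volume S = volume ((fun x => c⁻¹ * x) ⁻¹' S) := by
    intro c hc S
    rw [Real.volume_preimage_mul_left (inv_ne_zero hc.ne'), inv_inv, abs_of_pos hc]
  rw [s1 _ h1, s1 _ ha0]
  refine bm1 ?_ ?_ ?_ ?_ ?_
  · exact (measurable_const_mul _) (measurableSet_lt measurable_const hf)
  · exact (measurable_const_mul _) (measurableSet_lt measurable_const hg)
  · obtain ⟨x, hx⟩ := f2 t ht.2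
    refine ⟨(1 - a) * x, ?_⟩
    simp only [mem_preimage, mem_ofPred_eq]
    rwa [← mul_assoc, inv_mul_cancel₀ h1.ne', one_mul]
  · obtain ⟨x, hx⟩ := g2 t ht.2
    refine ⟨a * x, ?_⟩
    simp only [mem_preimage, mem_ofPred_eq]
    rwa [← mul_assoc, inv_mul_cancel₀ ha0.ne', one_mul]
  · intro x hx y hy
    simp only [mem_preimage, mem_ofPred_eq] at hx hy ⊢
    have := H _ _ t ht.1 ht.2 hx hy
    rwa [← mul_assoc, ← mul_assoc, mul_inv_cancel₀ h1.ne', mul_inv_cancel₀ ha0.ne', one_mul,
      one_mul] at this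

/-- Prekopa-Leindler on the line for bounded functions. -/
theorem pl1_bdd (a : ℝ) (ha0 : 0 < a) (ha1 : a < 1) {f g h : ℝ → ENNReal} (hf : Measurable f)
    (hg : Measurable g) (hh : Measurable h) (F G : ℝ) (hF0 : 0 < F) (hG0 : 0 < G)
    (hF : ⨆ x, f x = ENNReal.ofReal F) (hG : ⨆ x, g x = ENNReal.ofReal G)
    (H : ∀ x y, f x ^ (1 - a) * g y ^ a ≤ h ((1 - a) * x + a * y)) :
    (∫⁻ x, f x) ^ (1 - a) * (∫⁻ x, g x) ^ a ≤ ∫⁻ x, h x := by
  have h1 : 0 < 1 - a := by linarith
  have hc : 0 < F ^ (1 - a) * G ^ a := by positivity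
  obtain ⟨c, hcd⟩ : ∃ c, c = F ^ (1 - a) * G ^ a := ⟨_, rfl⟩
  rw [← hcd] at hc
  have nrm : ∀ (k : ℝ → ENNReal) (K : ℝ), 0 < K → ⨆ x, k x = ENNReal.ofReal K → Measurable k →
      ∃ k1 : ℝ → ℝ, Measurable k1 ∧ (∀ x, 0 ≤ k1 x) ∧ (∀ x, k1 x ≤ 1) ∧
        (∀ t < 1, ∃ x, t < k1 x) ∧ ∀ x, k x = ENNReal.ofReal K * ENNReal.ofReal (k1 x) := by
    intro k K hK0 hK hk
    have hle : ∀ x, k x ≤ ENNReal.ofReal K := fun x => hK ▸ le_iSup k x
    have hne : ∀ x, k x ≠ ⊤ := fun x => ne_top_of_le_ne_top ENNReal.ofReal_ne_top (hle x)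
    have hkx : ∀ x, k x = ENNReal.ofReal K * ENNReal.ofReal ((k x).toReal / K) := by
      intro x
      rw [← ENNReal.ofReal_mul hK0.le, mul_div_cancel₀ _ hK0.ne', ENNReal.ofReal_toReal (hne x)]
    refine ⟨fun x => (k x).toReal / K, hk.ennreal_toReal.div_const K, fun x => by positivity,
      fun x => ?_, fun t ht => ?_, hkx⟩
    · rw [div_le_one hK0]
      exact ENNReal.toReal_le_of_le_ofReal hK0.le (hle x)
    · by_contra hcon
      push Not at hcon
      have h2 : ⨆ x, k x ≤ ENNReal.ofReal (K * t) := by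
        refine iSup_le fun x => ?_
        rw [← ENNReal.ofReal_toReal (hne x)]
        apply ENNReal.ofReal_le_ofReal
        have := hcon x
        rw [div_le_iff₀ hK0] at this
        linarith
      rw [hK] at h2
      have h3 : ENNReal.ofReal (K * t) < ENNReal.ofReal K := by
        rw [ENNReal.ofReal_lt_ofReal_iff hK0]
        nlinarith
      exact absurd h2 (not_le.2 h3)
  obtain ⟨f1, mf, f0, fle, f2, hfe⟩ := nrm f F hF0 hF hf
  obtain ⟨g1, mg, g0, gle, g2, hge⟩ := nrm g G hG0 hG hg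
  have hmin : Measurable fun z => (min (h z) (ENNReal.ofReal c)).toReal / c :=
    ((hh.min measurable_const).ennreal_toReal).div_const c
  have hh1 : ∀ z, ENNReal.ofReal c * ENNReal.ofReal ((min (h z) (ENNReal.ofReal c)).toReal / c) ≤
      h z := by
    intro z
    have : min (h z) (ENNReal.ofReal c) ≠ ⊤ :=
      ne_top_of_le_ne_top ENNReal.ofReal_ne_top (min_le_right _ _)
    rw [← ENNReal.ofReal_mul hc.le, mul_div_cancel₀ _ hc.ne', ENNReal.ofReal_toReal this]
    exact min_le_left _ _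
  have key := pl1_one a ha0 ha1 mf mg hmin f0 g0 (fun z => by positivity) fle gle f2 g2 (by
    intro x y t ht0 ht1 hx hy
    rw [le_div_iff₀ hc]
    have hx0 : 0 ≤ f1 x := f0 x
    have h2 : ENNReal.ofReal (t * c) ≤ h ((1 - a) * x + a * y) := by
      refine le_trans ?_ (H x y)
      rw [hfe x, hge y, ← ENNReal.ofReal_mul hF0.le, ← ENNReal.ofReal_mul hG0.le,
        ENNReal.ofReal_rpow_of_nonneg (by positivity) h1.le,
        ENNReal.ofReal_rpow_of_nonneg (mul_nonneg hG0.le (g0 y)) ha0.le,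
        ← ENNReal.ofReal_mul (by positivity)]
      apply ENNReal.ofReal_le_ofReal
      calc t * c = (F * t) ^ (1 - a) * (G * t) ^ a := by
            rw [Real.mul_rpow hF0.le ht0.le, Real.mul_rpow hG0.le ht0.le, hcd]
            have : t = t ^ (1 - a) * t ^ a := by
              rw [← Real.rpow_add ht0]
              simp
            calc t * (F ^ (1 - a) * G ^ a) = (t ^ (1 - a) * t ^ a) * (F ^ (1 - a) * G ^ a) := by
                  rw [← this]
              _ = _ := by ring
        _ ≤ (F * f1 x) ^ (1 - a) * (G * g1 y) ^ a := by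
            apply mul_le_mul
            · exact Real.rpow_le_rpow (by positivity) (mul_le_mul_of_nonneg_left hx.le hF0.le) h1.le
            · exact Real.rpow_le_rpow (by positivity) (mul_le_mul_of_nonneg_left hy.le hG0.le) ha0.le
            · positivity
            · positivity
    have h3 : ENNReal.ofReal (t * c) ≤ min (h ((1 - a) * x + a * y)) (ENNReal.ofReal c) :=
      le_min h2 (ENNReal.ofReal_le_ofReal (by nlinarith))
    exact (ENNReal.ofReal_le_iff_le_toReal
      (ne_top_of_le_ne_top ENNReal.ofReal_ne_top (min_le_right _ _))).1 h3)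
  have hIf : ∫⁻ x, f x = ENNReal.ofReal F * ∫⁻ x, ENNReal.ofReal (f1 x) := by
    rw [← lintegral_const_mul _ mf.ennreal_ofReal]
    exact lintegral_congr hfe
  have hIg : ∫⁻ x, g x = ENNReal.ofReal G * ∫⁻ x, ENNReal.ofReal (g1 x) := by
    rw [← lintegral_const_mul _ mg.ennreal_ofReal]
    exact lintegral_congr hge
  rw [hIf, hIg, ENNReal.mul_rpow_of_nonneg _ _ h1.le, ENNReal.mul_rpow_of_nonneg _ _ ha0.le,
    ENNReal.ofReal_rpow_of_nonneg hF0.le h1.le, ENNReal.ofReal_rpow_of_nonneg hG0.le ha0.le]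
  calc ENNReal.ofReal (F ^ (1 - a)) * (∫⁻ x, ENNReal.ofReal (f1 x)) ^ (1 - a) *
        (ENNReal.ofReal (G ^ a) * (∫⁻ x, ENNReal.ofReal (g1 x)) ^ a)
      = ENNReal.ofReal c * ((∫⁻ x, ENNReal.ofReal (f1 x)) ^ (1 - a) *
        (∫⁻ x, ENNReal.ofReal (g1 x)) ^ a) := by
        rw [hcd, ENNReal.ofReal_mul (by positivity)]
        ring
    _ ≤ ENNReal.ofReal c * ∫⁻ z, ENNReal.ofReal ((min (h z) (ENNReal.ofReal c)).toReal / c) :=
        mul_le_mul_right ((amgm a ha0 ha1 _ _).trans key) _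
    _ = ∫⁻ z, ENNReal.ofReal c * ENNReal.ofReal ((min (h z) (ENNReal.ofReal c)).toReal / c) :=
        (lintegral_const_mul _ hmin.ennreal_ofReal).symm
    _ ≤ ∫⁻ x, h x := lintegral_mono hh1

/-- **Prekopa-Leindler on the line.** -/
theorem pl1 (a : ℝ) (ha0 : 0 < a) (ha1 : a < 1) {f g h : ℝ → ENNReal} (hf : Measurable f)
    (hg : Measurable g) (hh : Measurable h)
    (H : ∀ x y, f x ^ (1 - a) * g y ^ a ≤ h ((1 - a) * x + a * y)) :
    (∫⁻ x, f x) ^ (1 - a) * (∫⁻ x, g x) ^ a ≤ ∫⁻ x, h x := by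
  have h1 : 0 < 1 - a := by linarith
  -- truncations
  have htr : ∀ M : ℕ, (∫⁻ x, min (f x) M) ^ (1 - a) * (∫⁻ x, min (g x) M) ^ a ≤ ∫⁻ x, h x := by
    intro M
    have hfM : Measurable fun x => min (f x) (M : ENNReal) := hf.min measurable_const
    have hgM : Measurable fun x => min (g x) (M : ENNReal) := hg.min measurable_const
    have hF : ⨆ x, min (f x) (M : ENNReal) ≠ ⊤ :=
      ne_top_of_le_ne_top (ENNReal.natCast_ne_top M) (iSup_le fun x => min_le_right _ _)
    have hG : ⨆ x, min (g x) (M : ENNReal) ≠ ⊤ :=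
      ne_top_of_le_ne_top (ENNReal.natCast_ne_top M) (iSup_le fun x => min_le_right _ _)
    by_cases hF0 : ⨆ x, min (f x) (M : ENNReal) = 0
    · have : ∀ x, min (f x) (M : ENNReal) = 0 := fun x =>
        le_antisymm (hF0 ▸ le_iSup (fun x => min (f x) (M : ENNReal)) x) zero_le
      simp only [this, lintegral_zero, ENNReal.zero_rpow_of_pos h1, zero_mul, zero_le]
    by_cases hG0 : ⨆ x, min (g x) (M : ENNReal) = 0
    · have : ∀ x, min (g x) (M : ENNReal) = 0 := fun x =>
        le_antisymm (hG0 ▸ le_iSup (fun x => min (g x) (M : ENNReal)) x) zero_le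
      simp only [this, lintegral_zero, ENNReal.zero_rpow_of_pos ha0, mul_zero, zero_le]
    refine pl1_bdd a ha0 ha1 hfM hgM hh (⨆ x, min (f x) (M : ENNReal)).toReal
      (⨆ x, min (g x) (M : ENNReal)).toReal (ENNReal.toReal_pos hF0 hF) (ENNReal.toReal_pos hG0 hG)
      (ENNReal.ofReal_toReal hF).symm (ENNReal.ofReal_toReal hG).symm ?_
    intro x y
    exact (mul_le_mul' (ENNReal.rpow_le_rpow (min_le_left _ _) h1.le)
      (ENNReal.rpow_le_rpow (min_le_left _ _) ha0.le)).trans (H x y)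
  have hlim : ∀ k : ℝ → ENNReal, Measurable k → Filter.Tendsto
      (fun M : ℕ => ∫⁻ x, min (k x) (M : ENNReal)) Filter.atTop (nhds (∫⁻ x, k x)) := by
    intro k hk
    refine lintegral_tendsto_of_tendsto_of_monotone
      (fun M => (hk.min measurable_const).aemeasurable) (ae_of_all _ fun x => ?_)
      (ae_of_all _ fun x => ?_)
    · intro M N hMN
      exact min_le_min_left _ (by exact_mod_cast hMN)
    · have : Filter.Tendsto (fun M : ℕ => min (k x) (M : ENNReal)) Filter.atTop
          (nhds (min (k x) ⊤)) := tendsto_const_nhds.min ENNReal.tendsto_nat_nhds_top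
      rwa [min_top_right] at this
  by_cases hf0 : ∫⁻ x, f x = 0
  · rw [hf0, ENNReal.zero_rpow_of_pos h1, zero_mul]
    exact zero_le
  by_cases hg0 : ∫⁻ x, g x = 0
  · rw [hg0, ENNReal.zero_rpow_of_pos ha0, mul_zero]
    exact zero_le
  have t1 := ((ENNReal.continuous_rpow_const (y := 1 - a)).tendsto _).comp (hlim f hf)
  have t2 := ((ENNReal.continuous_rpow_const (y := a)).tendsto _).comp (hlim g hg)
  refine le_of_tendsto' (ENNReal.Tendsto.mul t1 (Or.inl ?_) t2 (Or.inl ?_)) htr
  · intro h0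
    rw [ENNReal.rpow_eq_zero_iff_of_pos h1] at h0
    exact hf0 h0
  · intro h0
    rw [ENNReal.rpow_eq_zero_iff_of_pos ha0] at h0
    exact hg0 h0

/-- **Prekopa-Leindler.** -/
theorem pln (a : ℝ) (ha0 : 0 < a) (ha1 : a < 1) (n : ℕ) : ∀ {f g h : (Fin n → ℝ) → ENNReal},
    Measurable f → Measurable g → Measurable h →
    (∀ x y, f x ^ (1 - a) * g y ^ a ≤ h ((1 - a) • x + a • y)) →
    (∫⁻ x, f x) ^ (1 - a) * (∫⁻ x, g x) ^ a ≤ ∫⁻ x, h x := by
  induction n with
  | zero =>
    intro f g h hf hg hh H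
    have e : ∀ k : (Fin 0 → ℝ) → ENNReal, ∫⁻ x, k x = k 0 := by
      intro k
      rw [volume_pi, Measure.pi_of_empty (fun _ : Fin 0 => (volume : Measure ℝ)) 0]
      simp
    rw [e f, e g, e h]
    refine (H 0 0).trans (le_of_eq ?_)
    congr 1
    exact Subsingleton.elim _ _
  | succ n ih =>
    intro f g h hf hg hh H
    have e := (volume_preserving_piFinSuccAbove (fun _ : Fin (n + 1) => ℝ) 0).symm
    have fub : ∀ k : (Fin (n + 1) → ℝ) → ENNReal, Measurable k →
        ∫⁻ x, k x = ∫⁻ s : ℝ, ∫⁻ y : Fin n → ℝ, k (Fin.cons s y) := by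
      intro k hk
      have hke : Measurable fun p : ℝ × (Fin n → ℝ) =>
          k ((MeasurableEquiv.piFinSuccAbove (fun _ : Fin (n + 1) => ℝ) 0).symm p) :=
        hk.comp e.measurable
      rw [← e.lintegral_comp hk, Measure.volume_eq_prod, lintegral_prod _ hke.aemeasurable]
      refine lintegral_congr fun s => lintegral_congr fun y => ?_
      congr 1
      ext i
      refine Fin.cases ?_ (fun j => ?_) i <;> simp
    have hms : Measurable fun p : ℝ × (Fin n → ℝ) => (Fin.cons p.1 p.2 : Fin (n + 1) → ℝ) := by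
      refine measurable_pi_iff.2 fun i => ?_
      refine Fin.cases ?_ (fun j => ?_) i
      · simpa using measurable_fst
      · simp only [Fin.cons_succ]
        exact (measurable_pi_apply j).comp measurable_snd
    rw [fub f hf, fub g hg, fub h hh]
    refine pl1 a ha0 ha1 (hf.comp hms).lintegral_prod_right' (hg.comp hms).lintegral_prod_right'
      (hh.comp hms).lintegral_prod_right' fun s t => ?_
    refine ih (hf.comp (hms.comp measurable_prodMk_left)) (hg.comp (hms.comp measurable_prodMk_left))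
      (hh.comp (hms.comp measurable_prodMk_left)) fun x y => ?_
    refine (H (Fin.cons s x) (Fin.cons t y)).trans (le_of_eq ?_)
    congr 1
    ext i
    refine Fin.cases ?_ (fun j => ?_) i
    · simp
    · simp

end Pool.Agent.RTC.PL44
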