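import Mathlib

/-!
# Prekopa-Leindler and Brunn-Minkowski (for MP_84cf48_an)

Measurable functions with values in `ℝ≥0∞` on `ℝ`, `Fin n → ℝ` and `EuclideanSpace ℝ (Fin n)`.
-/

set_option autoImplicit false

namespace Pool.Agent.RTC.P46

open MeasureTheory Set
open scoped ENNReal

/-- One dimension, compact sets. -/
theorem bm_compact {K L C : Set ℝ} (hK : IsCompact K) (hL : IsCompact L) (hKn : K.Nonempty)
    (hLn : L.Nonempty) (h : ∀ x ∈ K, ∀ y ∈ L, x + y ∈ C) :
    volume K + volume L ≤ volume C := by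
  obtain ⟨k, hk⟩ := hK.exists_isGreatest hKn
  obtain ⟨l, hl⟩ := hL.exists_isLeast hLn
  have hA : volume ((fun x => x + (-l)) ⁻¹' K) = volume K := measure_preimage_add_right _ _ _
  have hB : volume ((fun x => x + (-k)) ⁻¹' L) = volume L := measure_preimage_add_right _ _ _
  have hBm : MeasurableSet ((fun x : ℝ => x + (-k)) ⁻¹' L) :=
    (measurable_id.add_const _) hL.measurableSet
  have hsub : (fun x => x + (-l)) ⁻¹' K ∪ (fun x => x + (-k)) ⁻¹' L ⊆ C := by
    rintro x (hx | hx)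
    · have := h _ hx _ hl.1
      simpa using this
    · have := h _ hk.1 _ hx
      have e : k + (x + -k) = x := by ring
      rwa [e] at this
  have hint : (fun x => x + (-l)) ⁻¹' K ∩ (fun x => x + (-k)) ⁻¹' L ⊆ {k + l} := by
    rintro x ⟨hx1, hx2⟩
    have h1 := hk.2 hx1
    have h2 := hl.2 hx2
    simp only [mem_singleton_iff]
    linarith
  have h0 : volume ((fun x => x + (-l)) ⁻¹' K ∩ (fun x => x + (-k)) ⁻¹' L) = 0 :=
    measure_mono_null hint Real.volume_singleton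
  rw [← hA, ← hB, ← measure_union_add_inter _ hBm, h0, add_zero]
  exact measure_mono hsub

/-- One dimension, measurable sets. -/
theorem bm1 {A B C : Set ℝ} (hA : MeasurableSet A) (hB : MeasurableSet B) (hAn : A.Nonempty)
    (hBn : B.Nonempty) (h : ∀ x ∈ A, ∀ y ∈ B, x + y ∈ C) :
    volume A + volume B ≤ volume C := by
  by_cases hC : volume C = ∞
  · rw [hC]; exact le_top
  obtain ⟨x0, hx0⟩ := hAn
  obtain ⟨y0, hy0⟩ := hBn
  have key : ∀ K, K ⊆ A → IsCompact K → ∀ L, L ⊆ B → IsCompact L →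
      volume K + volume L ≤ volume C := by
    intro K hKA hK L hLB hL
    have h1 := bm_compact (K := insert x0 K) (L := insert y0 L) (C := C) (hK.insert x0)
      (hL.insert y0) (insert_nonempty _ _) (insert_nonempty _ _) (by
        intro x hx y hy
        have hx' : x ∈ A := by
          rcases hx with rfl | hx
          · exact hx0
          · exact hKA hx
        have hy' : y ∈ B := by
          rcases hy with rfl | hy
          · exact hy0
          · exact hLB hy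
        exact h x hx' y hy')
    exact (add_le_add (measure_mono (subset_insert _ _)) (measure_mono (subset_insert _ _))).trans h1
  have key2 : ∀ L, L ⊆ B → IsCompact L → volume A + volume L ≤ volume C := by
    intro L hLB hL
    have hLC : volume L ≤ volume C := by
      have := key ∅ (empty_subset _) isCompact_empty L hLB hL
      simpa using this
    have h1 : volume A ≤ volume C - volume L := by
      rw [hA.measure_eq_iSup_isCompact]
      refine iSup_le fun K => iSup_le fun hKA => iSup_le fun hK => ?_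
      exact ENNReal.le_sub_of_add_le_right (ne_top_of_le_ne_top hC hLC) (key K hKA hK L hLB hL)
    exact add_le_of_le_tsub_right_of_le hLC h1
  have hAC : volume A ≤ volume C := by
    have := key2 ∅ (empty_subset _) isCompact_empty
    simpa using this
  have h1 : volume B ≤ volume C - volume A := by
    rw [hB.measure_eq_iSup_isCompact]
    refine iSup_le fun L => iSup_le fun hLB => iSup_le fun hL => ?_
    refine ENNReal.le_sub_of_add_le_right (ne_top_of_le_ne_top hC hAC) ?_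
    rw [add_comm]
    exact key2 L hLB hL
  rw [add_comm]
  exact add_le_of_le_tsub_right_of_le hAC h1

/-- One dimension, convex combinations. -/
theorem bm1_conv {A B C : Set ℝ} (hA : MeasurableSet A) (hB : MeasurableSet B)
    (hAn : A.Nonempty) (hBn : B.Nonempty) {a b : ℝ} (ha : 0 < a) (hb : 0 < b)
    (h : ∀ x ∈ A, ∀ y ∈ B, a * x + b * y ∈ C) :
    ENNReal.ofReal a * volume A + ENNReal.ofReal b * volume B ≤ volume C := by
  have e1 : volume ((fun x => a⁻¹ * x) ⁻¹' A) = ENNReal.ofReal a * volume A := by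
    rw [Real.volume_preimage_mul_left (inv_ne_zero ha.ne'), inv_inv, abs_of_pos ha]
  have e2 : volume ((fun x => b⁻¹ * x) ⁻¹' B) = ENNReal.ofReal b * volume B := by
    rw [Real.volume_preimage_mul_left (inv_ne_zero hb.ne'), inv_inv, abs_of_pos hb]
  rw [← e1, ← e2]
  refine bm1 ((measurable_const_mul _) hA) ((measurable_const_mul _) hB) ?_ ?_ ?_
  · obtain ⟨x, hx⟩ := hAn
    exact ⟨a * x, by simpa [← mul_assoc, inv_mul_cancel₀ ha.ne'] using hx⟩
  · obtain ⟨x, hx⟩ := hBn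
    exact ⟨b * x, by simpa [← mul_assoc, inv_mul_cancel₀ hb.ne'] using hx⟩
  · intro x hx y hy
    have := h _ hx _ hy
    have e : a * (a⁻¹ * x) + b * (b⁻¹ * y) = x + y := by
      field_simp
    rwa [e] at this

/-- Layer cake, functions with values in `[0, 1]`. -/
theorem layer {f : ℝ → ℝ} (hf : Measurable f) (h0 : ∀ x, 0 ≤ f x) (h1 : ∀ x, f x ≤ 1) :
    ∫⁻ x, ENNReal.ofReal (f x) = ∫⁻ t in Ioo (0 : ℝ) 1, volume {x | t < f x} := by
  rw [lintegral_eq_lintegral_meas_lt volume (Filter.Eventually.of_forall h0) hf.aemeasurable]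
  refine le_antisymm ?_ (lintegral_mono_set Ioo_subset_Ioi_self)
  rw [← lintegral_indicator measurableSet_Ioi, ← lintegral_indicator measurableSet_Ioo]
  have : ∀ᵐ t : ℝ, t ≠ 1 := by
    rw [ae_iff]
    simp
  refine lintegral_mono_ae (this.mono fun t ht => ?_)
  by_cases ht0 : 0 < t
  · by_cases ht1 : t < 1
    · rw [indicator_of_mem (show t ∈ Ioi (0 : ℝ) from ht0),
        indicator_of_mem (show t ∈ Ioo (0 : ℝ) 1 from ⟨ht0, ht1⟩)]
    · have hlt : 1 < t := lt_of_le_of_ne (not_lt.1 ht1) (Ne.symm ht)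
      have he : {x | t < f x} = ∅ := by
        ext x
        simp only [mem_ofPred_eq, mem_empty_iff_false, iff_false, not_lt]
        exact (h1 x).trans hlt.le
      rw [indicator_of_mem (show t ∈ Ioi (0 : ℝ) from ht0), he]
      simp
  · rw [indicator_of_notMem (show t ∉ Ioi (0 : ℝ) from ht0)]
    exact bot_le

theorem pl_unit {f g h : ℝ → ℝ} (hf : Measurable f) (hg : Measurable g) (hh : Measurable h)
    (f0 : ∀ x, 0 ≤ f x) (f1 : ∀ x, f x ≤ 1) (g0 : ∀ x, 0 ≤ g x) (g1 : ∀ x, g x ≤ 1)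
    (h0 : ∀ x, 0 ≤ h x) (h1 : ∀ x, h x ≤ 1)
    (fs : ∀ t < 1, ∃ x, t < f x) (gs : ∀ t < 1, ∃ x, t < g x)
    {a b : ℝ} (ha : 0 < a) (hb : 0 < b) (hab : a + b = 1)
    (H : ∀ x y, f x ^ a * g y ^ b ≤ h (a * x + b * y)) :
    ENNReal.ofReal a * (∫⁻ x, ENNReal.ofReal (f x)) +
      ENNReal.ofReal b * (∫⁻ x, ENNReal.ofReal (g x)) ≤ ∫⁻ x, ENNReal.ofReal (h x) := by
  have manti : ∀ u : ℝ → ℝ, Measurable fun t : ℝ => volume {x | t < u x} := by
    intro u
    refine Antitone.measurable ?_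
    intro s t hst
    exact measure_mono fun x (hx : t < u x) => lt_of_le_of_lt hst hx
  rw [layer hf f0 f1, layer hg g0 g1, layer hh h0 h1,
    ← lintegral_const_mul _ (manti f), ← lintegral_const_mul _ (manti g),
    ← lintegral_add_left ((manti f).const_mul _)]
  refine setLIntegral_mono' measurableSet_Ioo fun t ht => ?_
  refine bm1_conv (hf measurableSet_Ioi) (hg measurableSet_Ioi) (fs t ht.2) (gs t ht.2) ha hb ?_
  intro x hx y hy
  have hx' : t < f x := hx
  have hy' : t < g y := hy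
  refine lt_of_lt_of_le ?_ (H x y)
  have e : t = t ^ a * t ^ b := by
    rw [← Real.rpow_add ht.1, hab, Real.rpow_one]
  calc t = t ^ a * t ^ b := e
    _ < f x ^ a * g y ^ b := by
        refine mul_lt_mul'' (Real.rpow_lt_rpow ht.1.le hx' ha) (Real.rpow_lt_rpow ht.1.le hy' hb)
          (Real.rpow_nonneg ht.1.le _) (Real.rpow_nonneg ht.1.le _)

/-- Weighted arithmetic-geometric mean inequality in `ℝ≥0∞`. -/
theorem amgm (X Y : ℝ≥0∞) {a b : ℝ} (ha : 0 < a) (hb : 0 < b) (hab : a + b = 1) :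
    X ^ a * Y ^ b ≤ ENNReal.ofReal a * X + ENNReal.ofReal b * Y := by
  by_cases hX : X = ∞
  · rw [hX, ENNReal.mul_top (by simpa using ha), top_add]
    exact le_top
  by_cases hY : Y = ∞
  · rw [hY, ENNReal.mul_top (by simpa using hb), add_top]
    exact le_top
  lift X to NNReal using hX
  lift Y to NNReal using hY
  have h := NNReal.geom_mean_le_arith_mean2_weighted a.toNNReal b.toNNReal X Y
    (by rw [← Real.toNNReal_add ha.le hb.le, hab, Real.toNNReal_one])
  rw [Real.coe_toNNReal a ha.le, Real.coe_toNNReal b hb.le] at h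
  have e1 : (X : ℝ≥0∞) ^ a = ((X ^ a : NNReal) : ℝ≥0∞) := (ENNReal.coe_rpow_of_nonneg _ ha.le).symm
  have e2 : (Y : ℝ≥0∞) ^ b = ((Y ^ b : NNReal) : ℝ≥0∞) := (ENNReal.coe_rpow_of_nonneg _ hb.le).symm
  rw [e1, e2, ENNReal.ofReal, ENNReal.ofReal]
  exact_mod_cast h

/-- Prekopa-Leindler on the line, bounded functions. -/
theorem pl1_bdd {f g h : ℝ → ℝ≥0∞} (hf : Measurable f) (hg : Measurable g) (hh : Measurable h)
    (fb : ⨆ x, f x ≠ ∞) (gb : ⨆ x, g x ≠ ∞)
    {a b : ℝ} (ha : 0 < a) (hb : 0 < b) (hab : a + b = 1)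
    (H : ∀ x y, f x ^ a * g y ^ b ≤ h (a * x + b * y)) :
    (∫⁻ x, f x) ^ a * (∫⁻ x, g x) ^ b ≤ ∫⁻ x, h x := by
  have hfP : ∀ x, f x ≤ ⨆ x, f x := fun x => le_iSup f x
  have hgQ : ∀ x, g x ≤ ⨆ x, g x := fun x => le_iSup g x
  have hlt : ∀ c, c < (⨆ x, f x) → ∃ x, c < f x := fun c hc => lt_iSup_iff.1 hc
  have hlt' : ∀ c, c < (⨆ x, g x) → ∃ x, c < g x := fun c hc => lt_iSup_iff.1 hc
  generalize (⨆ x, f x) = P at *
  generalize (⨆ x, g x) = Q at *
  by_cases hP0 : P = 0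
  · have : ∀ x, f x = 0 := fun x => le_antisymm ((hfP x).trans hP0.le) bot_le
    simp [this, ENNReal.zero_rpow_of_pos ha]
  by_cases hQ0 : Q = 0
  · have : ∀ x, g x = 0 := fun x => le_antisymm ((hgQ x).trans hQ0.le) bot_le
    simp [this, ENNReal.zero_rpow_of_pos hb]
  obtain ⟨M, hM⟩ : ∃ M, M = P ^ a * Q ^ b := ⟨_, rfl⟩
  have hPa0 : P ^ a ≠ 0 := by simp [ENNReal.rpow_eq_zero_iff, hP0, fb, ha.not_gt]
  have hPat : P ^ a ≠ ∞ := ENNReal.rpow_ne_top_of_nonneg ha.le fb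
  have hQb0 : Q ^ b ≠ 0 := by simp [ENNReal.rpow_eq_zero_iff, hQ0, gb, hb.not_gt]
  have hQbt : Q ^ b ≠ ∞ := ENNReal.rpow_ne_top_of_nonneg hb.le gb
  have hM0 : M ≠ 0 := by rw [hM]; exact mul_ne_zero hPa0 hQb0
  have hMt : M ≠ ∞ := by rw [hM]; exact ENNReal.mul_ne_top hPat hQbt
  have hMi : M⁻¹ = (P ^ a)⁻¹ * (Q ^ b)⁻¹ := by
    rw [hM, ENNReal.mul_inv (Or.inl hPa0) (Or.inl hPat)]
  have f1 : ∀ x, f x * P⁻¹ ≤ 1 := fun x => by
    rw [← div_eq_mul_inv]
    exact ENNReal.div_le_of_le_mul (by rw [one_mul]; exact hfP x)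
  have g1 : ∀ x, g x * Q⁻¹ ≤ 1 := fun x => by
    rw [← div_eq_mul_inv]
    exact ENNReal.div_le_of_le_mul (by rw [one_mul]; exact hgQ x)
  have h1 : ∀ x, min (h x) M * M⁻¹ ≤ 1 := fun x => by
    rw [← div_eq_mul_inv]
    exact ENNReal.div_le_of_le_mul (by rw [one_mul]; exact min_le_right _ _)
  have t1 : ∀ {u : ℝ≥0∞}, u ≤ 1 → u ≠ ∞ := fun h => ne_top_of_le_ne_top ENNReal.one_ne_top h
  have r1 : ∀ {u : ℝ≥0∞}, u ≤ 1 → u.toReal ≤ 1 := fun h => by
    have := ENNReal.toReal_mono ENNReal.one_ne_top h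
    simpa using this
  have exi : ∀ (u : ℝ → ℝ≥0∞) (N : ℝ≥0∞), N ≠ 0 → N ≠ ∞ → (∀ x, u x * N⁻¹ ≤ 1) →
      (∀ c, c < N → ∃ x, c < u x) → ∀ t < (1 : ℝ), ∃ x, t < (u x * N⁻¹).toReal := by
    intro u N hN0 hNt hu hN t ht
    rcases lt_or_ge t 0 with h0 | h0
    · exact ⟨0, lt_of_lt_of_le h0 ENNReal.toReal_nonneg⟩
    · have h2 : ENNReal.ofReal t < 1 := by
        rw [← ENNReal.ofReal_one]
        exact (ENNReal.ofReal_lt_ofReal_iff one_pos).2 ht
      have h3 : ENNReal.ofReal t * N < N := by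
        calc ENNReal.ofReal t * N < 1 * N := (ENNReal.mul_lt_mul_iff_left hN0 hNt).2 h2
          _ = N := one_mul _
      obtain ⟨x, hx⟩ := hN _ h3
      refine ⟨x, (ENNReal.ofReal_lt_iff_lt_toReal h0 (t1 (hu x))).1 ?_⟩
      rw [← div_eq_mul_inv]
      exact (ENNReal.lt_div_iff_mul_lt (Or.inl hN0) (Or.inl hNt)).2 hx
  have key := pl_unit (f := fun x => (f x * P⁻¹).toReal) (g := fun x => (g x * Q⁻¹).toReal)
    (h := fun x => (min (h x) M * M⁻¹).toReal)
    (hf.mul_const _).ennreal_toReal (hg.mul_const _).ennreal_toReal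
    ((hh.min measurable_const).mul_const _).ennreal_toReal
    (fun x => ENNReal.toReal_nonneg) (fun x => r1 (f1 x)) (fun x => ENNReal.toReal_nonneg)
    (fun x => r1 (g1 x)) (fun x => ENNReal.toReal_nonneg) (fun x => r1 (h1 x))
    (exi f P hP0 fb f1 hlt) (exi g Q hQ0 gb g1 hlt') ha hb hab (by
      intro x y
      rw [ENNReal.toReal_rpow, ENNReal.toReal_rpow, ← ENNReal.toReal_mul]
      refine ENNReal.toReal_mono (t1 (h1 _)) ?_
      rw [ENNReal.mul_rpow_of_nonneg _ _ ha.le, ENNReal.mul_rpow_of_nonneg _ _ hb.le,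
        ENNReal.inv_rpow, ENNReal.inv_rpow]
      calc f x ^ a * (P ^ a)⁻¹ * (g y ^ b * (Q ^ b)⁻¹) = (f x ^ a * g y ^ b) * M⁻¹ := by
            rw [hMi]; ring
        _ ≤ min (h (a * x + b * y)) M * M⁻¹ := by
            refine mul_le_mul_left (le_min (H x y) ?_) _
            rw [hM]
            exact mul_le_mul' (ENNReal.rpow_le_rpow (hfP x) ha.le)
              (ENNReal.rpow_le_rpow (hgQ y) hb.le))
  simp only [ENNReal.ofReal_toReal (t1 (f1 _)), ENNReal.ofReal_toReal (t1 (g1 _)),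
    ENNReal.ofReal_toReal (t1 (h1 _))] at key
  have k2 := (amgm _ _ ha hb hab).trans key
  rw [lintegral_mul_const _ hf, lintegral_mul_const _ hg,
    lintegral_mul_const _ (hh.min measurable_const),
    ENNReal.mul_rpow_of_nonneg _ _ ha.le, ENNReal.mul_rpow_of_nonneg _ _ hb.le,
    ENNReal.inv_rpow, ENNReal.inv_rpow] at k2
  have k3 : ((∫⁻ x, f x) ^ a * (∫⁻ x, g x) ^ b) * M⁻¹ ≤ (∫⁻ x, h x) * M⁻¹ := by
    calc ((∫⁻ x, f x) ^ a * (∫⁻ x, g x) ^ b) * M⁻¹
        = (∫⁻ x, f x) ^ a * (P ^ a)⁻¹ * ((∫⁻ x, g x) ^ b * (Q ^ b)⁻¹) := by rw [hMi]; ring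
      _ ≤ (∫⁻ x, min (h x) M) * M⁻¹ := k2
      _ ≤ (∫⁻ x, h x) * M⁻¹ := mul_le_mul_left (lintegral_mono fun x => min_le_left _ _) _
  exact (ENNReal.mul_le_mul_iff_left (ENNReal.inv_ne_zero.2 hMt) (ENNReal.inv_ne_top.2 hM0)).1 k3

/-- Reduction to bounded functions. -/
theorem pl_of_bdd {X : Type*} [MeasurableSpace X] (μ : Measure X) {f g : X → ℝ≥0∞}
    (hf : Measurable f) (hg : Measurable g) {a b : ℝ} (ha : 0 < a) (hb : 0 < b) (I : ℝ≥0∞)
    (H : ∀ n m : ℕ, (∫⁻ x, min (f x) n ∂μ) ^ a * (∫⁻ x, min (g x) m ∂μ) ^ b ≤ I) :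
    (∫⁻ x, f x ∂μ) ^ a * (∫⁻ x, g x ∂μ) ^ b ≤ I := by
  have key : ∀ (u : X → ℝ≥0∞), Measurable u → ∀ c : ℝ, 0 < c →
      (∫⁻ x, u x ∂μ) ^ c = ⨆ n : ℕ, (∫⁻ x, min (u x) n ∂μ) ^ c := by
    intro u hu c hc
    have h1 : ∀ x, u x = ⨆ n : ℕ, min (u x) n := by
      intro x
      have : (⨆ n : ℕ, min (u x) (n : ℝ≥0∞)) = min (u x) (⨆ n : ℕ, (n : ℝ≥0∞)) := by
        rw [inf_iSup_eq]
      rw [this, ENNReal.iSup_natCast, min_top_right]
    have h2 : ∫⁻ x, u x ∂μ = ⨆ n : ℕ, ∫⁻ x, min (u x) n ∂μ := by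
      rw [← lintegral_iSup (fun n => hu.min measurable_const) (fun i j hij x =>
        min_le_min le_rfl (by exact_mod_cast hij))]
      exact lintegral_congr h1
    rw [h2]
    exact (ENNReal.orderIsoRpow c hc).map_iSup _
  rw [key f hf a ha, key g hg b hb, ENNReal.iSup_mul]
  refine iSup_le fun n => ?_
  rw [ENNReal.mul_iSup]
  exact iSup_le fun m => H n m

/-- Prekopa-Leindler on the line. -/
theorem pl1 {f g h : ℝ → ℝ≥0∞} (hf : Measurable f) (hg : Measurable g) (hh : Measurable h)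
    {a b : ℝ} (ha : 0 < a) (hb : 0 < b) (hab : a + b = 1)
    (H : ∀ x y, f x ^ a * g y ^ b ≤ h (a * x + b * y)) :
    (∫⁻ x, f x) ^ a * (∫⁻ x, g x) ^ b ≤ ∫⁻ x, h x := by
  refine pl_of_bdd volume hf hg ha hb _ fun n m => ?_
  refine pl1_bdd (hf.min measurable_const) (hg.min measurable_const) hh ?_ ?_ ha hb hab ?_
  · exact ne_top_of_le_ne_top (ENNReal.natCast_ne_top n) (iSup_le fun x => min_le_right _ _)
  · exact ne_top_of_le_ne_top (ENNReal.natCast_ne_top m) (iSup_le fun x => min_le_right _ _)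
  · intro x y
    exact (mul_le_mul' (ENNReal.rpow_le_rpow (min_le_left _ _) ha.le)
      (ENNReal.rpow_le_rpow (min_le_left _ _) hb.le)).trans (H x y)

theorem cons_comb {n : ℕ} (a b s t : ℝ) (x y : Fin n → ℝ) :
    a • (Fin.cons s x : Fin (n + 1) → ℝ) + b • (Fin.cons t y : Fin (n + 1) → ℝ) =
      Fin.cons (a * s + b * t) (a • x + b • y) := by
  funext i
  refine Fin.cases ?_ (fun j => ?_) i
  · simp
  · simp

theorem symm_eq {n : ℕ} (p : ℝ × (Fin n → ℝ)) :
    (MeasurableEquiv.piFinSuccAbove (fun _ : Fin (n + 1) => ℝ) 0).symm p =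
      (Fin.cons p.1 p.2 : Fin (n + 1) → ℝ) := by
  funext i
  refine Fin.cases ?_ (fun j => ?_) i
  · simp [MeasurableEquiv.piFinSuccAbove]
  · simp [MeasurableEquiv.piFinSuccAbove]

theorem lint_cons {n : ℕ} {f : (Fin (n + 1) → ℝ) → ℝ≥0∞} (hf : Measurable f) :
    ∫⁻ x, f x = ∫⁻ s : ℝ, ∫⁻ x : Fin n → ℝ, f (Fin.cons s x) := by
  have h1 := (volume_preserving_piFinSuccAbove (fun _ : Fin (n + 1) => ℝ) 0).symm
  rw [← h1.lintegral_comp hf]
  have h2 : Measurable fun p : ℝ × (Fin n → ℝ) =>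
      f ((MeasurableEquiv.piFinSuccAbove (fun _ : Fin (n + 1) => ℝ) 0).symm p) :=
    hf.comp (MeasurableEquiv.measurable _)
  rw [Measure.volume_eq_prod, lintegral_prod _ h2.aemeasurable]
  simp only [symm_eq]

theorem meas_cons {n : ℕ} {f : (Fin (n + 1) → ℝ) → ℝ≥0∞} (hf : Measurable f) :
    Measurable fun p : ℝ × (Fin n → ℝ) => f (Fin.cons p.1 p.2) := by
  have h := hf.comp (MeasurableEquiv.piFinSuccAbove (fun _ : Fin (n + 1) => ℝ) 0).symm.measurable
  have e : (f ∘ (MeasurableEquiv.piFinSuccAbove (fun _ : Fin (n + 1) => ℝ) 0).symm) =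
      fun p : ℝ × (Fin n → ℝ) => f (Fin.cons p.1 p.2) := by
    funext p
    rw [Function.comp_apply, symm_eq]
  rwa [e] at h

/-- Prekopa-Leindler on `Fin n → ℝ`. -/
theorem pln {n : ℕ} {f g h : (Fin n → ℝ) → ℝ≥0∞} (hf : Measurable f) (hg : Measurable g)
    (hh : Measurable h) {a b : ℝ} (ha : 0 < a) (hb : 0 < b) (hab : a + b = 1)
    (H : ∀ x y, f x ^ a * g y ^ b ≤ h (a • x + b • y)) :
    (∫⁻ x, f x) ^ a * (∫⁻ x, g x) ^ b ≤ ∫⁻ x, h x := by
  induction n with
  | zero =>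
    have e : ∀ u : (Fin 0 → ℝ) → ℝ≥0∞, ∫⁻ x, u x = u default := by
      intro u
      rw [volume_pi, Measure.pi_of_empty (fun _ : Fin 0 => (volume : Measure ℝ)) default]
      simp
    rw [e f, e g, e h]
    have := H default default
    rwa [Subsingleton.elim (a • (default : Fin 0 → ℝ) + b • default) default] at this
  | succ n ih =>
    rw [lint_cons hf, lint_cons hg, lint_cons hh]
    refine pl1 (meas_cons hf).lintegral_prod_right' (meas_cons hg).lintegral_prod_right'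
      (meas_cons hh).lintegral_prod_right' ha hb hab fun s t => ?_
    refine ih (f := fun x => f (Fin.cons s x)) (g := fun x => g (Fin.cons t x))
      (h := fun x => h (Fin.cons (a * s + b * t) x))
      ((meas_cons hf).comp measurable_prodMk_left) ((meas_cons hg).comp measurable_prodMk_left)
      ((meas_cons hh).comp measurable_prodMk_left) fun x y => ?_
    rw [← cons_comb]
    exact H _ _

/-- Prekopa-Leindler on `EuclideanSpace ℝ (Fin n)`. -/
theorem plE {n : ℕ} {f g h : EuclideanSpace ℝ (Fin n) → ℝ≥0∞} (hf : Measurable f)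
    (hg : Measurable g) (hh : Measurable h) {a b : ℝ} (ha : 0 < a) (hb : 0 < b) (hab : a + b = 1)
    (H : ∀ x y, f x ^ a * g y ^ b ≤ h (a • x + b • y)) :
    (∫⁻ x, f x) ^ a * (∫⁻ x, g x) ^ b ≤ ∫⁻ x, h x := by
  have hv := (EuclideanSpace.volume_preserving_symm_measurableEquiv_toLp (Fin n)).symm
  rw [← hv.lintegral_comp hf, ← hv.lintegral_comp hg, ← hv.lintegral_comp hh]
  refine pln (hf.comp (MeasurableEquiv.measurable _)) (hg.comp (MeasurableEquiv.measurable _))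
    (hh.comp (MeasurableEquiv.measurable _)) ha hb hab fun x y => ?_
  exact H _ _

end Pool.Agent.RTC.P46
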