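import Pool.Agent.RTC.St
import Pool.Agent.RTC.PL

set_option autoImplicit false

/-!
# Brunn-Minkowski on the line and Prekopa-Leindler (helper44)
-/

namespace Pool.Agent.RTC

open MeasureTheory Set
open scoped ENNReal NNReal

theorem t_BMO : S_BMO := fun _ _ _ hA hB _ nA nB h => PL44.bm1 hA hB nA nB h

theorem t_PLO : S_PLO := by
  intro f g h θ hf hg hh h0 h1 H
  have k := PL44.pl1 (1 - θ) (by linarith) (by linarith) hf hg hh (by
    intro x y
    have := H x y
    rwa [sub_sub_cancel])
  rwa [sub_sub_cancel] at k

theorem t_PLN : S_PLN := by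
  intro n f g h θ hf hg hh h0 h1 H
  have k := PL44.pln (1 - θ) (by linarith) (by linarith) n hf hg hh (by
    intro x y
    have := H x y
    rwa [sub_sub_cancel])
  rwa [sub_sub_cancel] at k

end Pool.Agent.RTC
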