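import Pool.Agent.RTC.Defs

set_option autoImplicit false

/-!
# MP_84cf48_an: statements of the modules (paper proofs in the comments)
-/

namespace Pool.Agent.RTC

open MeasureTheory Set Filter Topology
open scoped ENNReal NNReal

/-! ## Part 1: the isoperimetric inequality -/

/-- RTC_BMO: Brunn-Minkowski on the line.
PROOF: inner regularity: compact `K ⊆ A`, `L ⊆ B` nonempty; translate so that `max K = 0 = min L`;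
then `K + L ⊇ K ∪ L` and `K ∩ L ⊆ {0}`. (If a measure is infinite use compact sets of large
measure.) -/
def S_BMO : Prop :=
  ∀ A B C : Set ℝ, MeasurableSet A → MeasurableSet B → MeasurableSet C → A.Nonempty →
    B.Nonempty → (∀ a ∈ A, ∀ b ∈ B, a + b ∈ C) → volume A + volume B ≤ volume C

/-- RTC_PLO: Prekopa-Leindler on the line.
PROOF: by monotone convergence (`min f n`, `min g n`) `f, g` are bounded; if `f = 0` or `g = 0`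
trivial (one side is 0); `F = sup f`, `G = sup g` in `(0, ∞)`. For `0 < t < 1` the sets
`θ {f > F t}` and `(1-θ) {g > G t}` are nonempty and their sum is in
`{h > F^θ G^(1-θ) t}`; BMO and the layer cake formula (`lintegral_eq_lintegral_meas_lt` or the
ENNReal version; integrate over `0 < t < 1`) give
`(∫h)/(F^θ G^(1-θ)) ≥ θ (∫f)/F + (1-θ) (∫g)/G ≥ ((∫f)/F)^θ ((∫g)/G)^(1-θ)`
(`ENNReal.inner_le_...`/`Real.geom_mean_le_arith_mean2_weighted`). -/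
def S_PLO : Prop :=
  ∀ (f g h : ℝ → ℝ≥0∞) (θ : ℝ), Measurable f → Measurable g → Measurable h → 0 < θ → θ < 1 →
    (∀ x y, f x ^ θ * g y ^ (1 - θ) ≤ h (θ * x + (1 - θ) * y)) →
    (∫⁻ x, f x) ^ θ * (∫⁻ x, g x) ^ (1 - θ) ≤ ∫⁻ x, h x

/-- RTC_PLN: Prekopa-Leindler in `Fin n → ℝ`. PROOF: induction on `n` with
`measurePreserving_piFinSuccAbove`/`MeasurableEquiv.piFinSuccAbove` and Tonelli: for fixed first
coordinates `x, y` apply the case `n` to the sections, then `S_PLO` to the marginals. -/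
def S_PLN : Prop :=
  ∀ (n : ℕ) (f g h : (Fin n → ℝ) → ℝ≥0∞) (θ : ℝ), Measurable f → Measurable g →
    Measurable h → 0 < θ → θ < 1 →
    (∀ x y, f x ^ θ * g y ^ (1 - θ) ≤ h (θ • x + (1 - θ) • y)) →
    (∫⁻ x, f x) ^ θ * (∫⁻ x, g x) ^ (1 - θ) ≤ ∫⁻ x, h x

/-- RTC_BMN: Brunn-Minkowski with a ball, for a bounded open set.
PROOF: `a = |A|^(1/N) > 0`, `c = ε ω^(1/N)` (`|ball 0 ε| = ε^N ω`), `θ = a/(a+c)`; apply `S_PLN`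
(transported to `EuclideanSpace`, `EuclideanSpace.volume_preserving_...`) to the indicators of
`A/a`, `(ball 0 ε)/c`, both of measure 1, and of `(thickening ε A)/(a+c)`: so
`|thickening ε A| ≥ (a+c)^N`. -/
def S_BMN : Prop :=
  ∀ (N : ℕ), 1 ≤ N → ∀ A : Set (E N), IsOpen A → Bornology.IsBounded A → A.Nonempty →
    ∀ ε : ℝ, 0 < ε →
    ((volume A).toReal) ^ (1 / (N : ℝ)) + ε * (om N) ^ (1 / (N : ℝ)) ≤
      ((volume (Metric.thickening ε A)).toReal) ^ (1 / (N : ℝ))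

/-- RTC_ISO: the sharp weak inequality for `C^1` functions of compact support.
PROOF: `e > 0`; by uniform continuity of `fderiv f` there is `d ∈ (0,1]` with
`f(x+z) ≤ F(x) := f(x) + d (‖f'(x)‖ + e) 1_K(x)` for `‖z‖ < d`, `K` a large closed ball; so
`thickening d {f > τ} ⊆ {F > τ}`; `S_BMN`, `(p+q)^N ≥ p^N + N p^(N-1) q` and the layer cake formula
for `F` and `f` give `d (∫ ‖f'‖ + e |K|) ≥ s N d ω^(1/N) |{f > s}|^(1-1/N)`; `e → 0`. -/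
def S_ISO : Prop :=
  ∀ (N : ℕ), 2 ≤ N → ∀ f : E N → ℝ, ContDiff ℝ 1 f → HasCompactSupport f → (∀ x, 0 ≤ f x) →
    ∀ s : ℝ, 0 < s →
    s * gam N * ((volume {x | s < f x}).toReal) ^ (1 - 1 / (N : ℝ)) ≤ ∫ x, ‖fderiv ℝ f x‖

/-- RTC_MOP: mollification of `W 1_Ω`, pointwise.
PROOF: `f = ρ * (W 1_Ω)` is a convolution (`HasCompactSupport.contDiff_convolution_left/right`),
support in the compact set `closure Ω + tsupport ρ`. For a unit vector `e` and `x` fixed, the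
field `X(y) = (ρ(x-y) W(y)) • e` is `C^1` with
`div X (y) = ρ(x-y) W'(y) e - ρ'(x-y) e W(y)`, so
`f'(x) e = ∫_Ω ρ'(x-y) e W(y) dy = ∫_Ω ρ(x-y) W'(y) e dy - ∫_Ω div X
  ≤ ∫_Ω ρ(x-y) ‖W'(y)‖ dy + ∫ ρ(x-y) W(y) dσ(y)`; so `‖f'(x)‖` is at most the right-hand
side. -/
def S_MOP : Prop :=
  ∀ (N : ℕ) (Ω : Set (E N)) (σ : Measure (E N)), IsOpen Ω → Bornology.IsBounded Ω →
    IsBoundaryMeasure Ω σ → ∀ W : E N → ℝ, ContDiff ℝ 1 W → (∀ x, 0 ≤ W x) →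
    ∀ ρ : E N → ℝ, ContDiff ℝ 1 ρ → HasCompactSupport ρ → (∀ x, 0 ≤ ρ x) →
    ContDiff ℝ 1 (fun x => ∫ y in Ω, ρ (x - y) * W y) ∧
    HasCompactSupport (fun x => ∫ y in Ω, ρ (x - y) * W y) ∧
    (∀ x, 0 ≤ ∫ y in Ω, ρ (x - y) * W y) ∧
    ∀ x, ‖fderiv ℝ (fun x => ∫ y in Ω, ρ (x - y) * W y) x‖ ≤
      (∫ y in Ω, ρ (x - y) * ‖fderiv ℝ W y‖) + ∫ y, ρ (x - y) * W y ∂σ

/-- RTC_MOA: mollification of `W 1_Ω`. PROOF: integrate `S_MOP` over `x`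
(Tonelli/`integral_integral_swap`, `∫ ρ(x-y) dx = 1`; `W`, `W'` are bounded on `Ω` and on the
compact frontier, `σ` is finite and carried by the frontier). -/
def S_MOA : Prop :=
  ∀ (N : ℕ) (Ω : Set (E N)) (σ : Measure (E N)), IsOpen Ω → Bornology.IsBounded Ω →
    IsBoundaryMeasure Ω σ → ∀ W : E N → ℝ, ContDiff ℝ 1 W → (∀ x, 0 ≤ W x) →
    ∀ ρ : E N → ℝ, ContDiff ℝ 1 ρ → HasCompactSupport ρ → (∀ x, 0 ≤ ρ x) → ∫ x, ρ x = 1 →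
    ContDiff ℝ 1 (fun x => ∫ y in Ω, ρ (x - y) * W y) ∧
    HasCompactSupport (fun x => ∫ y in Ω, ρ (x - y) * W y) ∧
    (∀ x, 0 ≤ ∫ y in Ω, ρ (x - y) * W y) ∧
    ∫ x, ‖fderiv ℝ (fun x => ∫ y in Ω, ρ (x - y) * W y) x‖ ≤
      (∫ x in Ω, ‖fderiv ℝ W x‖) + ∫ x, W x ∂σ

/-- RTC_ISW: the isoperimetric inequality on `Ω`.
PROOF: `S_MOA` with normalised bumps `ρ_k` (`ContDiffBump.normed`, radius `→ 0`), `S_ISO` for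
`f_k`; `f_k(x) → W(x)` for `x ∈ Ω`, so `Ω ∩ {W > s} ⊆ liminf {f_k > s}` and
`|Ω ∩ {W > s}| ≤ liminf |{f_k > s}|` (`measure_liminf_le`-type, or Fatou). -/
def S_ISW : Prop :=
  ∀ (N : ℕ), 2 ≤ N → ∀ (Ω : Set (E N)) (σ : Measure (E N)), IsOpen Ω →
    Bornology.IsBounded Ω → IsBoundaryMeasure Ω σ →
    ∀ W : E N → ℝ, ContDiff ℝ 1 W → (∀ x, 0 ≤ W x) → ∀ s : ℝ, 0 < s →
    s * gam N * ((volume (Ω ∩ {x | s < W x})).toReal) ^ (1 - 1 / (N : ℝ)) ≤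
      (∫ x in Ω, ‖fderiv ℝ W x‖) + ∫ x, W x ∂σ

/-! ## Part 2: the differential inequality for the distribution function -/

/-- RTC_SUB: almost everywhere convergent subsequences
(`L²` convergence → convergence in measure → `TendstoInMeasure.exists_seq_tendsto_ae`, twice). -/
def S_SUB : Prop :=
  ∀ (N : ℕ) (Ω : Set (E N)) (σ : Measure (E N)) (β : ℝ) (u : E N → ℝ) (g : E N → E N)
    (w : E N → ℝ), IsOpen Ω → Bornology.IsBounded Ω → IsBoundaryMeasure Ω σ →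
    IsRobin Ω σ β u g w →
    ∃ U : ℕ → E N → ℝ, (∀ k, ContDiff ℝ 1 (U k)) ∧
      (∀ᵐ x ∂(volume.restrict Ω), Tendsto (fun k => U k x) atTop (𝓝 (u x))) ∧
      (∀ᵐ x ∂σ, Tendsto (fun k => U k x) atTop (𝓝 (w x))) ∧
      Tendsto (fun k => ∫ x in Ω, ‖gradient (U k) x - g x‖ ^ 2) atTop (𝓝 0)

/-- RTC_LMA: the equation tested with `G(u)`.
PROOF: test with `φ = G ∘ U_k` (`S_SUB`), `φ'(x) v = G'(U_k x) ⟪∇U_k x, v⟫`, and let `k → ∞`: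
`∫_Ω G'(U_k) ⟪∇U_k, g⟫ = ∫_Ω G'(U_k) ‖g‖² + ∫_Ω G'(U_k) ⟪∇U_k - g, g⟫`, the first term converges
by dominated convergence (`G'` continuous, bounded), the second is at most
`C ‖∇U_k - g‖_2 ‖g‖_2 → 0`; the other terms by dominated convergence (`σ`, `Ω` finite,
`w ∈ L²(σ)`, `G` bounded). -/
def S_LMA : Prop :=
  ∀ (N : ℕ) (Ω : Set (E N)) (σ : Measure (E N)) (β : ℝ) (u : E N → ℝ) (g : E N → E N)
    (w : E N → ℝ), IsOpen Ω → Bornology.IsBounded Ω → IsBoundaryMeasure Ω σ →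
    IsRobin Ω σ β u g w →
    ∀ (G : ℝ → ℝ) (C : ℝ), ContDiff ℝ 1 G → (∀ x, |G x| ≤ C) → (∀ x, |deriv G x| ≤ C) →
    (∫ x in Ω, deriv G (u x) * ‖g x‖ ^ 2) + β * ∫ x, w x * G (w x) ∂σ = ∫ x in Ω, G (u x)

/-- RTC_LMB: the isoperimetric inequality for `G(u)`.
PROOF: `S_ISW` for `W = G ∘ U_k`, `‖W'‖ = G'(U_k) ‖∇U_k‖`; the right side converges to
`∫_Ω G'(u) ‖g‖ + ∫ G(w) dσ` (as in LMA, `Ω` has finite measure so `L² ⊆ L¹`), and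
`|Ω ∩ {G(u) > s}| ≤ liminf |Ω ∩ {G(U_k) > s}|` because a.e. point of `{G(u) > s}` is eventually in
`{G(U_k) > s}`. -/
def S_LMB : Prop :=
  ∀ (N : ℕ), 2 ≤ N → ∀ (Ω : Set (E N)) (σ : Measure (E N)) (β : ℝ) (u : E N → ℝ)
    (g : E N → E N) (w : E N → ℝ), IsOpen Ω → Bornology.IsBounded Ω → IsBoundaryMeasure Ω σ →
    IsRobin Ω σ β u g w →
    ∀ (G : ℝ → ℝ) (C : ℝ), ContDiff ℝ 1 G → (∀ x, 0 ≤ G x) → (∀ x, G x ≤ C) →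
    (∀ x, 0 ≤ deriv G x) → (∀ x, deriv G x ≤ C) → ∀ s : ℝ, 0 < s →
    s * gam N * ((volume (Ω ∩ {x | s < G (u x)})).toReal) ^ (1 - 1 / (N : ℝ)) ≤
      (∫ x in Ω, deriv G (u x) * ‖g x‖) + ∫ x, G (w x) ∂σ

/-- RTC_GEX: a `C^1` cut-off. PROOF: `G x = ∫_t^x k`, `k(x) = max 0 (min 1 (min ((x-t)/δ)
((t+h-x)/δ)))/(h-δ)` (for `2 δ ≤ h`), continuous, zero outside `(t, t+h)`, of integral 1. -/
def S_GEX : Prop :=
  ∀ t h δ : ℝ, 0 < δ → 2 * δ ≤ h → ∃ G : ℝ → ℝ, ContDiff ℝ 1 G ∧ (∀ x, 0 ≤ G x) ∧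
    (∀ x, G x ≤ 1) ∧ (∀ x, x ≤ t → G x = 0) ∧ (∀ x, t + h ≤ x → G x = 1) ∧
    (∀ x, 0 ≤ deriv G x) ∧ (∀ x, deriv G x ≤ 1 / (h - δ)) ∧
    (∀ x, x ≤ t → deriv G x = 0) ∧ (∀ x, t + h ≤ x → deriv G x = 0)

/-- RTC_DIF: the differential inequality.
PROOF: `G` from `S_GEX`, `μ = mu Ω u`. `S_LMB` with level `s₀ < 1` (`{G(u) > s₀} ⊇ {u > t+h}`),
`2 s ‖g‖ ≤ 1 + s² ‖g‖²` and `S_LMA`:
`2 s s₀ γ μ(t+h)^(1-1/N) ≤ ∫_Ω G'(u) + s² (∫_Ω G(u) - β ∫ w G(w) dσ) + 2 s ∫ G(w) dσ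
 ≤ (μ(t) - μ(t+h))/(h-δ) + s² μ(t) + ∫_{w > t} (2s - s² β w)_+ dσ`; then `δ → 0`, `s₀ → 1`. -/
def S_DIF : Prop :=
  ∀ (N : ℕ), 2 ≤ N → ∀ (Ω : Set (E N)) (σ : Measure (E N)) (β : ℝ) (u : E N → ℝ)
    (g : E N → E N) (w : E N → ℝ), 0 < β → IsOpen Ω → Bornology.IsBounded Ω →
    IsBoundaryMeasure Ω σ → IsRobin Ω σ β u g w →
    ∀ t h s : ℝ, 0 < h → 0 < s →
    2 * s * gam N * (mu Ω u (t + h)) ^ (1 - 1 / (N : ℝ)) - s ^ 2 * mu Ω u t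
      - (∫ x, (if t < w x then max 0 (2 * s - s ^ 2 * β * w x) else 0) ∂σ) ≤
      (mu Ω u t - mu Ω u (t + h)) / h

/-- RTC_NNG: the trace is nonnegative, and the flux.
PROOF: `S_LMA` with `G(x) = -x²/(1+x²)` for `x < 0`, `0` for `x ≥ 0` (`C^1`, bounded, `G' ≥ 0`
bounded): the left side is a sum of two nonnegative terms (`w G(w) ≥ 0`), the right side is
`≤ 0`; so `∫ w G(w) dσ = 0` and `w ≥ 0` `σ`-a.e. Flux: `weak` with `φ = 1`. -/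
def S_NNG : Prop :=
  ∀ (N : ℕ) (Ω : Set (E N)) (σ : Measure (E N)) (β : ℝ) (u : E N → ℝ) (g : E N → E N)
    (w : E N → ℝ), 0 < β → IsOpen Ω → Bornology.IsBounded Ω → IsBoundaryMeasure Ω σ →
    IsRobin Ω σ β u g w →
    (∀ᵐ x ∂σ, 0 ≤ w x) ∧ β * ∫ x, w x ∂σ = (volume Ω).toReal

/-! ## Part 3: the one-dimensional inequality -/

/-- The scaled differential inequality. -/
def Ineq (N : ℕ) (b : ℝ) (m : ℝ → ℝ) (ν : Measure ℝ) : Prop :=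
  ∀ y h s : ℝ, 0 ≤ y → 0 < h → 0 < s →
    ((N : ℝ) / b) * (2 * s * (m (y + h)) ^ (1 - 1 / (N : ℝ)) - s ^ 2 * m y
      - ∫ z in Ioi y, max 0 (2 * s - s ^ 2 * z) ∂ν) ≤ (m y - m (y + h)) / h

/-- Hypotheses of the one-dimensional problem. -/
structure Data (N : ℕ) (b : ℝ) (m : ℝ → ℝ) (ν : Measure ℝ) : Prop where
  anti : AntitoneOn m (Ici 0)
  nonneg : ∀ y, 0 ≤ m y
  le_one : ∀ y, m y ≤ 1
  fin : ν univ < ⊤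
  supp : ν (Iio 0) = 0
  int : Integrable (fun y : ℝ => y) ν
  mean : ∫ y, y ∂ν ≤ 1
  ineq : Ineq N b m ν

/-- RTC_BAR: barriers.
PROOF: let `S = {y ∈ [a,Y] : B y < m y}` be nonempty, `y₀ = inf S`. `m y₀ ≤ B y₀` (hypothesis if
`y₀ = a`, else `m y₀ ≤ m y ≤ B y → B y₀` as `y ↑ y₀`). So there are `y_k ∈ S`, `y_k ↓ y₀`,
`y_k > y₀`; `B y_k < m y_k ≤ m y₀`, so `B y₀ = m y₀ = lim m y_k`. If `B y₀ = 0` then
`m y_k ≤ 0 ≤ B y_k`, contradiction. Else `0 < B y₀ ≤ 1`, and with `h_k = y_k - y₀`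
`(B y₀ - B y_k)/h_k ≥ (m y₀ - m y_k)/h_k ≥ (N/b)(2 s (m y_k)^(1-1/N) - s² m y₀ - ∫ ..)`;
limit `k → ∞`: `-B' ≥ (N/b)(..)`, contradiction. -/
def S_BAR : Prop :=
  ∀ (N : ℕ) (b : ℝ) (m : ℝ → ℝ) (ν : Measure ℝ), 2 ≤ N → 0 < b → Data N b m ν →
    ∀ (B : ℝ → ℝ) (a Y : ℝ), 0 ≤ a → ContinuousOn B (Icc a Y) → (∀ y ∈ Icc a Y, 0 ≤ B y) →
    m a ≤ B a →
    (∀ y ∈ Ico a Y, 0 < B y → B y ≤ 1 → ∃ B' s : ℝ, 0 < s ∧
      HasDerivWithinAt B B' (Ici y) y ∧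
      -B' < ((N : ℝ) / b) * (2 * s * (B y) ^ (1 - 1 / (N : ℝ)) - s ^ 2 * B y
        - ∫ z in Ioi y, max 0 (2 * s - s ^ 2 * z) ∂ν)) →
    ∀ y ∈ Icc a Y, m y ≤ B y

/-- RTC_BRZ: barriers in the variable `ζ` (`B = (1 - 2 ζ/b)_+^(N/2)`).
PROOF: `S_BAR` with `B y = (max 0 (1 - 2 ζ(y)/b))^(N/2)`. At `y` with `0 < B y ≤ 1`,
`r² = 1 - 2 ζ/b ∈ (0, 1]`, `B = r^N`, `ζ ≥ 0`, right derivative
`B' = -(N/b) r^(N-2) ζ'`; take `s = 1/r`: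
`2 s B^(1-1/N) - s² B = r^(N-2)` and
`max 0 (2/r - z/r²) = r^(N-2) (r^(-N) max 0 (2 r - z))`. -/
def S_BRZ : Prop :=
  ∀ (N : ℕ) (b : ℝ) (m : ℝ → ℝ) (ν : Measure ℝ), 2 ≤ N → 0 < b → Data N b m ν →
    ∀ (ζ : ℝ → ℝ) (a Y : ℝ), 0 ≤ a → ContinuousOn ζ (Icc a Y) →
    m a ≤ (max 0 (1 - 2 * ζ a / b)) ^ ((N : ℝ) / 2) →
    (∀ y ∈ Ico a Y, ∀ r : ℝ, 0 < r → r ≤ 1 → r ^ 2 = 1 - 2 * ζ y / b → ∃ ζ' : ℝ,
      HasDerivWithinAt ζ ζ' (Ici y) y ∧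
      ζ' < 1 - (∫ z in Ioi y, max 0 (2 * r - z) ∂ν) / r ^ N) →
    ∀ y ∈ Icc a Y, m y ≤ (max 0 (1 - 2 * ζ y / b)) ^ ((N : ℝ) / 2)

/-- The starting level. -/
noncomputable def a0 : ℝ := 1 - Real.log 2

/-- `S₀(y) = ∫_{z > y} (2 - z)_+ dν(z)`. -/
noncomputable def S0 (ν : Measure ℝ) (y : ℝ) : ℝ := ∫ z in Ioi y, max 0 (2 - z) ∂ν

/-- RTC_KEY: the key inequality.
PROOF: `L = log (1/r)`, `δ = 1 - r`, `A = 1 - r²`. `L ≤ (1/r - r)/2 = A/(2r)`, so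
`L - A/2 ≤ A δ/(2 r)`. As `b ≥ N - 1`:
`N L - b A/2 = L + (N-1)(L - A/2) - (b - (N-1)) A/2 ≤ L + (N-1) A δ/(2r) ≤ L + (y - a0) δ/r`.
And `r (2-y)/(2r - y) ≥ exp (y δ/(r (2-y)))` because `(2r-y)/(r(2-y)) = 1 - y δ/(r(2-y))`
(`1 - x ≤ exp (-x)`). So it is enough that `(y - a0)(2 - y) ≤ y`, that is
`y² - (1+a0) y + 2 a0 ≥ 0`: discriminant `1 - 6 a0 + a0² < 0` as `0.3 < a0 < 0.31`. -/
def S_KEY : Prop :=
  ∀ (N : ℕ) (b r y : ℝ), 2 ≤ N → (N : ℝ) - 1 ≤ b → 0 < r → r ≤ 1 → y < 2 → y < 2 * r →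
    b / 2 * (1 - r ^ 2) ≤ y - a0 →
    2 * r - y ≤ Real.exp (b / 2 * (1 - r ^ 2)) * (2 - y) * r ^ N

/-- RTC_FUB: the moment inequality.
PROOF: Fubini: the left side is `∫_{z > a0} (2-z)_+ (∫_{a0}^{min z Y} e^{x-1} dx) dν(z)
 ≤ ∫_{z > a0} (2-z)_+ (e^{z-1} - 1/2) dν ≤ ∫ z/2 dν ≤ 1/2`, as
`(2-z)(e^{z-1} - 1/2) ≤ z/2` is `(1-p) e^p ≤ 1`, `p = z - 1`. (`e^{a0-1} = 1/2`.) -/
def S_FUB : Prop :=
  ∀ (N : ℕ) (b : ℝ) (m : ℝ → ℝ) (ν : Measure ℝ), Data N b m ν → ∀ Y : ℝ, a0 ≤ Y →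
    ∫ x in a0..Y, Real.exp (x - 1) * S0 ν x ≤ 1 / 2

/-- RTC_ETA: the barrier function `η`.
PROOF: `S₀` is antitone, bounded, right-continuous (dominated convergence on `Ioi`), and
`η y = e^{-y} (e^{a0} + ∫_{a0}^y e^x (S₀ x + ε) dx)`
(`intervalIntegral.integral_hasDerivWithinAt_right`). -/
def S_ETA : Prop :=
  ∀ (N : ℕ) (b : ℝ) (m : ℝ → ℝ) (ν : Measure ℝ), Data N b m ν → ∀ ε : ℝ, 0 < ε →
    ∃ η : ℝ → ℝ, ContinuousOn η (Ici a0) ∧ η a0 = 1 ∧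
      (∀ y, a0 ≤ y → Real.exp (-(y - a0)) ≤ η y) ∧
      (∀ y, a0 ≤ y → HasDerivWithinAt η (-(η y) + S0 ν y + ε) (Ici y) y) ∧
      (∀ y, a0 ≤ y → η y ≤ Real.exp (-(y - a0)) +
        Real.exp (-(y - 1)) * (∫ x in a0..y, Real.exp (x - 1) * S0 ν x) + ε * (y - a0))

/-- RTC_ONE: the claim for `1 ≤ Y ≤ 2`.
PROOF: `S_BRZ` on `[a0, Y]` with `ζ = -log η` (`S_ETA`), `m a0 ≤ 1`. At `y` with
`0 < r ≤ 1`, `r² = 1 - 2 ζ/b`: `0 ≤ ζ = (b/2)(1-r²) ≤ y - a0`; for `z > y`: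
`max 0 (2r - z) ≤ e^ζ (max 0 (2-z)) r^N` by `S_KEY` (with `z` for `y`; trivial if `z ≥ 2` or
`z ≥ 2r`), so `∫ .. / r^N ≤ e^ζ S₀(y)` and
`ζ' = -η'/η = 1 - (S₀ + ε) e^ζ < 1 - e^ζ S₀`. At `Y`: `η(Y) ≤ e^{-(Y-1)}(1/2 + 1/2) + 2 ε`
(`S_FUB`, `e^{-(Y-a0)} = e^{-(Y-1)}/2`), `ε → 0`, continuity of `ζ ↦ (max 0 (1-2ζ/b))^(N/2)`. -/
def S_ONE : Prop :=
  ∀ (N : ℕ) (b : ℝ) (m : ℝ → ℝ) (ν : Measure ℝ), 2 ≤ N → (N : ℝ) - 1 ≤ b → Data N b m ν →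
    ∀ Y : ℝ, 1 ≤ Y → Y ≤ 2 → m Y ≤ (max 0 (1 - 2 * (Y - 1) / b)) ^ ((N : ℝ) / 2)

/-- RTC_TWO: the claim for `Y ≥ 1`.
PROOF: for `Y ≥ 2` use `S_BRZ` on `[2, Y]` with `ζ y = 1 + (1-ε)(y-2)`: for `z > y ≥ 2`,
`max 0 (2r - z) = 0`, and `ζ' = 1 - ε < 1`; start: `S_ONE` at 2; `ε → 0`. -/
def S_TWO : Prop :=
  ∀ (N : ℕ) (b : ℝ) (m : ℝ → ℝ) (ν : Measure ℝ), 2 ≤ N → (N : ℝ) - 1 ≤ b → Data N b m ν →
    ∀ Y : ℝ, 1 ≤ Y → m Y ≤ (max 0 (1 - 2 * (Y - 1) / b)) ^ ((N : ℝ) / 2)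

/-! ## Part 4: conclusion -/

/-- RTC_SCA: comparison of the distribution functions.
PROOF: `v₀ = R/(N β)`, `b = β R`, `m y = mu Ω u (v₀ y)/|Ω|`, `|Ω| = ω R^N`,
`ν = (1/(N ω R^(N-1))) • (σ.map (fun x => w x / v₀))`. `Data`: antitone, in `[0,1]`; `supp`,
`int`, `mean` from `S_NNG` (`∫ y dν = β ∫ w dσ/|Ω| = 1`); `ineq`: `S_DIF` with
`t = v₀ y`, `h := v₀ h`, `s := (N/R) s`, divided by `N ω β R^(N-1) = |Ω|/v₀`; then `S_TWO` with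
`Y = t/v₀`: `R² (1 - 2 (Y-1)/b) = R² - 2 N (t - v₀)`. (`w` is only a.e. measurable:
use `hw.w_mem.aestronglyMeasurable.aemeasurable` and `Measure.map` of an a.e. measurable
function, `integral_map`.) -/
def S_SCA : Prop :=
  ∀ (N : ℕ), 2 ≤ N → ∀ (Ω : Set (E N)) (σ : Measure (E N)) (β R : ℝ) (u : E N → ℝ)
    (g : E N → E N) (w : E N → ℝ), 0 < β → 0 < R → (N : ℝ) - 1 ≤ β * R → IsOpen Ω →
    Bornology.IsBounded Ω → volume Ω = volume (Metric.ball (0 : E N) R) →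
    IsBoundaryMeasure Ω σ → IsRobin Ω σ β u g w →
    ∀ t : ℝ, R / (N * β) ≤ t →
      mu Ω u t ≤ om N * (max 0 (R ^ 2 - 2 * N * (t - R / (N * β)))) ^ ((N : ℝ) / 2)

/-- RTC_FIN: the pointwise comparison.
PROOF: let `x ∈ ball 0 R`, `x ≠ 0`. For every `t > vball x` (`≥ R/(Nβ)`),
`R² - 2N(t - R/(Nβ)) < ‖x‖²`, so `mu Ω u t < om N ‖x‖^N = |ball 0 ‖x‖|`, `t` is in the set
defining `sharp`, which is bounded below by 0; so `sharp ≤ t` for all `t > vball x`. -/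
def S_FIN : Prop :=
  ∀ (N : ℕ), 2 ≤ N → ∀ (Ω : Set (E N)) (σ : Measure (E N)) (β R : ℝ) (u : E N → ℝ)
    (g : E N → E N) (w : E N → ℝ), 0 < β → 0 < R → (N : ℝ) - 1 ≤ β * R → IsOpen Ω →
    Bornology.IsBounded Ω → volume Ω = volume (Metric.ball (0 : E N) R) →
    IsBoundaryMeasure Ω σ → IsRobin Ω σ β u g w →
    ∀ x ∈ Metric.ball (0 : E N) R, x ≠ 0 → sharp Ω u x ≤ vball N β R x

end Pool.Agent.RTC
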