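import Pool.Agent.RTC.St

set_option autoImplicit false

/-!
# MP_84cf48_an, second version (`β R ≥ (N-1)/2`): statements of the modules

Differences from the first version: the boundary term is kept with its sign, the free slope below
the level 1 is `1/y`, the exponent is `θ` with `0 < θ ≤ 2`, `N - 1 ≤ θ b ≤ N`.
-/

namespace Pool.Agent.RTC

open MeasureTheory Set Filter Topology
open scoped ENNReal NNReal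

/-- RTC_DI2: the differential inequality with the negative part of the boundary term.
PROOF: as `t_DIF` (DIF.lean); the only change: with `G` from `S_GEX`,
`(2s - s² β w) G(w) ≤ (if t < w then max 0 (2s - s² β w) else 0)
  - (if t + h ≤ w then max 0 (s² β w - 2s) else 0)`. -/
def S_DI2 : Prop :=
  ∀ (N : ℕ), 2 ≤ N → ∀ (Ω : Set (E N)) (σ : Measure (E N)) (β : ℝ) (u : E N → ℝ)
    (g : E N → E N) (w : E N → ℝ), 0 < β → IsOpen Ω → Bornology.IsBounded Ω →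
    IsBoundaryMeasure Ω σ → IsRobin Ω σ β u g w →
    ∀ t h s : ℝ, 0 < h → 0 < s →
    2 * s * gam N * (mu Ω u (t + h)) ^ (1 - 1 / (N : ℝ)) - s ^ 2 * mu Ω u t
      - (∫ x, (if t < w x then max 0 (2 * s - s ^ 2 * β * w x) else 0) ∂σ)
      + (∫ x, (if t + h ≤ w x then max 0 (s ^ 2 * β * w x - 2 * s) else 0) ∂σ) ≤
      (mu Ω u t - mu Ω u (t + h)) / h

/-- The scaled differential inequality with the negative part. -/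
def Ineq2 (N : ℕ) (b : ℝ) (m : ℝ → ℝ) (ν : Measure ℝ) : Prop :=
  ∀ y h s : ℝ, 0 ≤ y → 0 < h → 0 < s →
    ((N : ℝ) / b) * (2 * s * (m (y + h)) ^ (1 - 1 / (N : ℝ)) - s ^ 2 * m y
      - (∫ z in Ioi y, max 0 (2 * s - s ^ 2 * z) ∂ν)
      + (∫ z in Ici (y + h), max 0 (s ^ 2 * z - 2 * s) ∂ν)) ≤ (m y - m (y + h)) / h

/-- Hypotheses of the one-dimensional problem. -/
structure Data2 (N : ℕ) (b : ℝ) (m : ℝ → ℝ) (ν : Measure ℝ) : Prop where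
  anti : AntitoneOn m (Ici 0)
  nonneg : ∀ y, 0 ≤ m y
  le_one : ∀ y, m y ≤ 1
  fin : ν univ < ⊤
  supp : ν (Iio 0) = 0
  int : Integrable (fun y : ℝ => y) ν
  mean : ∫ y, y ∂ν ≤ 1
  ineq : Ineq2 N b m ν

/-- RTC_BA2: barriers, signed boundary term, condition only at touching points.
PROOF: as `t_BAR` (BAR.lean): `y₀ = inf {y ∈ [a,Y] : B y < m y}`, `m y₀ = B y₀`, `B y₀ > 0`,
`y_k ↓ y₀`, `B y_k < m y_k → B y₀`; in the limit `Ineq2` at `y₀`, `h_k = y_k - y₀` gives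
`-B' ≥ (N/b)(2 s B^(1-1/N) - s² B - ∫_{z > y₀} max 0 (2s - s² z) + ∫_{z > y₀} max 0 (s² z - 2s))`
(the last term: `Ici (y₀ + h_k)` increases to `Ioi y₀`, monotone convergence), and
`max 0 c - max 0 (-c) = c`. -/
def S_BA2 : Prop :=
  ∀ (N : ℕ) (b : ℝ) (m : ℝ → ℝ) (ν : Measure ℝ), 2 ≤ N → 0 < b → Data2 N b m ν →
    ∀ (B : ℝ → ℝ) (a Y : ℝ), 0 ≤ a → ContinuousOn B (Icc a Y) → (∀ y ∈ Icc a Y, 0 ≤ B y) →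
    m a ≤ B a →
    (∀ y ∈ Ico a Y, m y = B y → 0 < B y → ∃ B' s : ℝ, 0 < s ∧
      HasDerivWithinAt B B' (Ici y) y ∧
      -B' < ((N : ℝ) / b) * (2 * s * (B y) ^ (1 - 1 / (N : ℝ)) - s ^ 2 * B y
        - ∫ z in Ioi y, (2 * s - s ^ 2 * z) ∂ν)) →
    ∀ y ∈ Icc a Y, m y ≤ B y

/-- RTC_BR2: barriers in the variable `ζ` (`B = (1 - 2 ζ/b)_+^(N/2)`), free slope `q/r`.
PROOF: as `t_BRZ` (BRZ.lean) with `s = q/r`: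
`2 s B^(1-1/N) - s² B = r^(N-2) (2 q - q²)`, `2 s - s² z = (q/r²)(2 r - q z)`,
`B' = -(N/b) r^(N-2) ζ'`. At a touching point `m y = B y = r^N`, `r ≤ 1` because `m ≤ 1`. -/
def S_BR2 : Prop :=
  ∀ (N : ℕ) (b : ℝ) (m : ℝ → ℝ) (ν : Measure ℝ), 2 ≤ N → 0 < b → Data2 N b m ν →
    ∀ (ζ : ℝ → ℝ) (a Y : ℝ), 0 ≤ a → ContinuousOn ζ (Icc a Y) →
    m a ≤ (max 0 (1 - 2 * ζ a / b)) ^ ((N : ℝ) / 2) →
    (∀ y ∈ Ico a Y, ∀ r : ℝ, 0 < r → r ≤ 1 → r ^ 2 = 1 - 2 * ζ y / b → m y = r ^ N →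
      ∃ ζ' q : ℝ, 0 < q ∧ HasDerivWithinAt ζ ζ' (Ici y) y ∧
      ζ' < 2 * q - q ^ 2 - q * (∫ z in Ioi y, (2 * r - q * z) ∂ν) / r ^ N) →
    ∀ y ∈ Icc a Y, m y ≤ (max 0 (1 - 2 * ζ y / b)) ^ ((N : ℝ) / 2)

/-- RTC_KE2: the key inequality.
PROOF: `A = 1 - r²`, `L = -log r`, `ζ = b A/2`, `e^(θζ) r^N = exp (θ b A/2 - N L)`.
If `x ≥ 2`: `θ b ≤ N` and `A/2 ≤ L` give `e^(θζ) r^N ≤ 1`, so
`e^(θζ) r^N (x - 2) ≤ x - 2 ≤ x - 2r`. If `x < 2` and `2 r ≤ x`: trivial. If `x < 2 r`: with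
`δ = 1 - r`, `N ≤ θ b + 1`, `L - A/2 ≤ A δ/(2r)` (`L ≤ A/(2r)`),
`(2r - x)/(r (2-x)) = 1 - x δ/(r (2-x)) ≤ exp (-x δ/(r (2-x)))`:
`N L - θ b A/2 + log ((2r-x)/(2-x)) ≤ θ b (L - A/2) - x δ/(r (2-x)) ≤ (δ/r)(θ ζ - x/(2-x))`, and
`θ ζ (2-x) ≤ 2 (x - 1/2)(2 - x) = x - 2 (x-1)² ≤ x`. -/
def S_KE2 : Prop :=
  ∀ (N : ℕ) (b θ r x : ℝ), 2 ≤ N → 0 < b → 0 < θ → θ ≤ 2 → (N : ℝ) - 1 ≤ θ * b →
    θ * b ≤ N → 0 < r → r ≤ 1 → 1 ≤ x → b / 2 * (1 - r ^ 2) ≤ x - 1 / 2 →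
    2 * r - x ≤ Real.exp (θ * (b / 2 * (1 - r ^ 2))) * r ^ N * (2 - x)

/-- The weight below the level 1. -/
noncomputable def Wt (θ y : ℝ) : ℝ := Real.exp (θ * (2 * Real.log y + 1 / y - 1))

/-- The boundary term below the level 1. -/
noncomputable def Sm (ν : Measure ℝ) (y : ℝ) : ℝ := (1 / y) * ∫ z in Ioi y, (2 - z / y) ∂ν

/-- The properties of the starting level `a`. -/
structure Start (θ a : ℝ) : Prop where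
  third : 1 / 3 ≤ a
  lt_one : a < 1
  W_le : Wt θ a ≤ 1
  low : ∀ z ∈ Icc a 1, ∫ y in a..z, Wt θ y * (2 / y - z / y ^ 2) ≤ (1 - Wt θ a) / θ * z
  high : ∀ z : ℝ, ∫ y in a..1, Wt θ y * (2 / y - z / y ^ 2) = 1 - z * (1 - (1 - Wt θ a) / θ)

/-- RTC_AEX: existence of the starting level.
PROOF: `W = Wt θ`, `g(y) = 2 log y + 1/y - 1`, `g' = (2y-1)/y²`, `W' = θ W (2/y - 1/y²)`, `W 1 = 1`,
`g ≥ g(1/2) = 1 - 2 log 2`, so `W ≥ e^(2 - 4 log 2) = e²/16 > 0.4618` and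
`∫_{1/3}^1 W/y ≥ (e²/16) log 3 > 1/2` (`e² > 7.389`, `log 3 > 1.0986`; also
`e² log 3 > 8` is what is needed); by continuity there is `a ∈ [1/3, 1)` with `∫_a^1 W/y = 1/2`.
`g ≤ 0` on `[1/3, 1]` (decreasing up to 1/2, then increasing; `g(1/3) = 2 - 2 log 3 < 0`), so
`W a ≤ 1`. `c := (1 - W a)/θ = ∫_a^1 W (2/y - 1/y²) = 1 - ∫_a^1 W/y²`; `high` follows.
`low`: `D(z) = c z - ∫_a^z W (2/y - z/y²)`, `D 1 = 0`, `D'(z) = c - W(z)/z + ∫_a^z W/y²`, `D' 1 = 0`,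
`D''(z) = (W/z³)(2 z - θ (2 z - 1)) ≥ 0` on `(0, 1]`; so `D' ≤ 0` and `D ≥ 0` on `[a, 1]`. -/
def S_AEX : Prop := ∀ θ : ℝ, 0 < θ → θ ≤ 2 → ∃ a : ℝ, Start θ a

/-- RTC_MOM: the moment inequality.
PROOF: Fubini (as `t_FUB`): the left side is `W a + θ ∫_{z > a} F(z) dν(z)`,
`F(z) = ∫_a^{min z 1} W (2/y - z/y²) dy + (2-z)_+ (e^{θ(min z Y - 1)} - 1)_+/θ`. With
`c = (1 - W a)/θ ≥ 0`: `F(z) ≤ c z`: for `z ≤ 1` by `low`; for `1 ≤ z ≤ 2`, `p = z - 1`, by `high` it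
is `(1-p)(e^{θ p} - 1) ≤ θ p` (`1 - p ≤ 1 - θ p/2` and `(1 - v/2)(e^v - 1) ≤ v` for `0 ≤ v`,
`v = θ p`: the function `(1 + v/2) - (1 - v/2) e^v` vanishes at 0 and has derivative
`1/2 - (1/2) e^v (1 - v) ≥ 0`); for `z ≥ 2`, by `high`, `F(z) = 1 - z (1 - c) ≤ c z`.
So the sum is at most `W a + θ c ∫ z dν ≤ 1`. (`1 - c = ∫_a^1 W/y² > 0`; it is not needed.) -/
def S_MOM : Prop :=
  ∀ (N : ℕ) (b : ℝ) (m : ℝ → ℝ) (ν : Measure ℝ), Data2 N b m ν → ∀ θ a : ℝ, 0 < θ → θ ≤ 2 →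
    Start θ a → ∀ Y : ℝ, 1 ≤ Y → Y ≤ 2 →
    Wt θ a + θ * (∫ y in a..1, Wt θ y * Sm ν y)
      + θ * (∫ x in (1 : ℝ)..Y, Real.exp (θ * (x - 1)) * S0 ν x) ≤ 1

/-- RTC_NU2: PROOF: with `u = θ/2 ∈ (0,1]`, convexity of `exp`:
`e^{2up} - 1 ≤ u (e^{2p} - 1)`, `1 - e^{-u} ≥ u (1 - e^{-1})`; so it is enough that
`(1-p)(e^{2p} - 1) ≤ (1 - e^{-1})(1+p)` for `0 ≤ p ≤ 1` (minimum of the difference about 0.077 near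
`p = 0.56`; `e^{2p} = e · e^{2p-1}`, Taylor polynomial of degree 5, `Real.exp_bound`). -/
def S_NU2 : Prop :=
  ∀ θ p : ℝ, 0 < θ → θ ≤ 2 → 0 ≤ p → p ≤ 1 →
    (1 - p) * (Real.exp (θ * p) - 1) ≤ (1 - Real.exp (-θ / 2)) * (1 + p)

/-- RTC_RST: the inequality after a restart.
PROOF: Fubini: `θ ∫_1^Y e^{θ(x-1)} S₀ = ∫_{z > 1} (2-z)_+ (e^{θ(min z Y - 1)} - 1) dν
≤ (1 - e^{-θ/2}) ∫ z dν` by `S_NU2` with `p = z - 1`. -/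
def S_RST : Prop :=
  ∀ (N : ℕ) (b : ℝ) (m : ℝ → ℝ) (ν : Measure ℝ), Data2 N b m ν → ∀ θ : ℝ, 0 < θ → θ ≤ 2 →
    ∀ Y : ℝ, 1 ≤ Y → Y ≤ 2 →
    Real.exp (-θ / 2) + θ * (∫ x in (1 : ℝ)..Y, Real.exp (θ * (x - 1)) * S0 ν x) ≤ 1

/-- RTC_ET1: barrier function on `[a, 1]`.
PROOF: `η y = (W a + θ ∫_a^y W(x) (S(x) + ε) dx)/W y`, `S = Sm ν`; `W' = θ (2/y - 1/y²) W`, `W 1 = 1`,
`W ≤ 1` on `[1/3, 1]`; `S(y) = (1/y)(2 ν(Ioi y) - (1/y) ∫_{z>y} z dν)` is bounded on `[a, 1]` and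
right-continuous (compare ETA.lean). -/
def S_ET1 : Prop :=
  ∀ (N : ℕ) (b : ℝ) (m : ℝ → ℝ) (ν : Measure ℝ), Data2 N b m ν → ∀ θ a ε : ℝ, 0 < θ → θ ≤ 2 →
    1 / 3 ≤ a → a < 1 → 0 < ε →
    ∃ η : ℝ → ℝ, ContinuousOn η (Icc a 1) ∧ η a = 1 ∧
      (∀ y ∈ Ico a 1, HasDerivWithinAt η (θ * (Sm ν y + ε - (2 / y - 1 / y ^ 2) * η y))
        (Ici y) y) ∧
      η 1 ≤ Wt θ a + θ * (∫ y in a..1, Wt θ y * Sm ν y) + 3 * θ * ε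

/-- RTC_ET2: barrier function on `[1, Y]`.
PROOF: `η y = e^{-θ(y-1)} (e₀ + θ ∫_1^y e^{θ(x-1)} (S₀ x + ε) dx)` (compare ETA.lean). -/
def S_ET2 : Prop :=
  ∀ (N : ℕ) (b : ℝ) (m : ℝ → ℝ) (ν : Measure ℝ), Data2 N b m ν → ∀ θ ε e₀ Y : ℝ, 0 < θ →
    0 < ε → 0 < e₀ → 1 ≤ Y → Y ≤ 2 →
    ∃ η : ℝ → ℝ, ContinuousOn η (Icc 1 Y) ∧ η 1 = e₀ ∧
      (∀ y ∈ Icc 1 Y, e₀ * Real.exp (-(θ * (y - 1))) ≤ η y) ∧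
      (∀ y ∈ Ico 1 Y, HasDerivWithinAt η (θ * (S0 ν y + ε - η y)) (Ici y) y) ∧
      η Y ≤ Real.exp (-(θ * (Y - 1))) *
        (e₀ + θ * (∫ x in (1 : ℝ)..Y, Real.exp (θ * (x - 1)) * S0 ν x)) + θ * ε

/-- RTC_ONA: below the level 1, when `ζ ≤ 1/2` there.
PROOF: `S_BR2` on `[a, 1]` with `ζ y = -(1/θ) log (max (η y) c₀)`, `c₀ = e^{-θ b/2}`
(`1 - 2 ζ/b ≥ 0`; `ζ a = 0`, `m a ≤ 1`, as `c₀ ≤ 1`). At a touching point `y ∈ [a,1)`: `r > 0`, so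
`η y > c₀` (also near `y`), `ζ = (b/2)(1-r²) = -(1/θ) log (η y)`; `m y = r^N ≥ (1-1/b)_+^(N/2)`
gives `ζ ≤ 1/2`. Take `q = 1/y`, `x = z/y > 1` in `S_KE2` (`ζ ≤ 1/2 ≤ x - 1/2`):
`∫_{z>y} (2r - z/y) ≤ e^{θζ} r^N ∫_{z>y} (2 - z/y)`, so
`q ∫ (2 r - q z)/r^N ≤ e^{θζ} Sm ν y`, and
`ζ' = -η'/(θ η) = (2/y - 1/y²) - (Sm ν y + ε) e^{θζ} < 2 q - q² - q ∫(2r - q z)/r^N`.
At `1`: `max (η 1) c₀ ≤ e₀` as `b ≥ 1` (`θ b ≥ N - 1 ≥ 2`, `θ ≤ 2`). -/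
def S_ONA : Prop :=
  ∀ (N : ℕ) (b θ : ℝ) (m : ℝ → ℝ) (ν : Measure ℝ), 3 ≤ N → 0 < b → 0 < θ → θ ≤ 2 →
    (N : ℝ) - 1 ≤ θ * b → θ * b ≤ N → Data2 N b m ν → ∀ (a ε : ℝ) (η : ℝ → ℝ), 1 / 3 ≤ a →
    a < 1 → 0 < ε → (∀ y ∈ Ico a 1, (max 0 (1 - 1 / b)) ^ ((N : ℝ) / 2) ≤ m y) →
    ContinuousOn η (Icc a 1) → η a = 1 →
    (∀ y ∈ Ico a 1, HasDerivWithinAt η (θ * (Sm ν y + ε - (2 / y - 1 / y ^ 2) * η y))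
        (Ici y) y) →
    ∀ e₀ : ℝ, η 1 ≤ e₀ → Real.exp (-θ / 2) ≤ e₀ →
    m 1 ≤ (max 0 (1 + 2 * Real.log e₀ / (θ * b))) ^ ((N : ℝ) / 2)

/-- RTC_ONB: above the level 1.
PROOF: for `ε > 0` take `η` from `S_ET2`, and `S_BR2` on `[1, Y]` with `ζ = -(1/θ) log η`. As
`η ≥ e₀ e^{-θ(y-1)} ≥ e^{-θ/2 - θ(y-1)}`: `ζ y ≤ 1/2 + (y - 1) = y - 1/2`. At `y` with `0 < r ≤ 1`,
`r² = 1 - 2ζ/b`: `q = 1`; for `z > y ≥ 1`, `S_KE2` with `x = z`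
(`ζ ≤ y - 1/2 ≤ z - 1/2`) gives `2r - z ≤ e^{θζ} r^N (2 - z) ≤ e^{θζ} r^N max 0 (2-z)`, so
`∫ (2r - z)/r^N ≤ e^{θζ} S₀ y` and `ζ' = 1 - (S₀ y + ε) e^{θζ} < 1 - ∫ (2r-z)/r^N`. At `Y`:
`η Y ≤ e^{-θ(Y-1)} (1 + δ) + θ ε`; `ε → 0`. -/
def S_ONB : Prop :=
  ∀ (N : ℕ) (b θ : ℝ) (m : ℝ → ℝ) (ν : Measure ℝ), 3 ≤ N → 0 < b → 0 < θ → θ ≤ 2 →
    (N : ℝ) - 1 ≤ θ * b → θ * b ≤ N → Data2 N b m ν → ∀ (e₀ δ Y : ℝ), 1 ≤ Y → Y ≤ 2 →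
    0 ≤ δ → Real.exp (-θ / 2) ≤ e₀ →
    m 1 ≤ (max 0 (1 + 2 * Real.log e₀ / (θ * b))) ^ ((N : ℝ) / 2) →
    e₀ + θ * (∫ x in (1 : ℝ)..Y, Real.exp (θ * (x - 1)) * S0 ν x) ≤ 1 + δ →
    m Y ≤ (max 0 (1 - 2 * (Y - 1) / b + 2 * Real.log (1 + δ) / (θ * b))) ^ ((N : ℝ) / 2)

/-- RTC_ON2: the claim for `1 ≤ Y ≤ 2`.
PROOF: `a` from `S_AEX`. If `m y < (1-1/b)_+^(N/2)` for some `y ∈ [a,1)`, then
`m 1 ≤ (1-1/b)_+^(N/2)` and `S_ONB` with `e₀ = e^{-θ/2}`, `δ = 0` (`S_RST`). Otherwise for every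
`ε > 0`: `η` from `S_ET1`, `e₀ = max (η 1) (e^{-θ/2})`, `S_ONA`, and `S_ONB` with `δ = 3 θ ε`
(`S_MOM` or `S_RST`); `ε → 0`. -/
def S_ON2 : Prop :=
  ∀ (N : ℕ) (b θ : ℝ) (m : ℝ → ℝ) (ν : Measure ℝ), 3 ≤ N → 0 < b → 0 < θ → θ ≤ 2 →
    (N : ℝ) - 1 ≤ θ * b → θ * b ≤ N → Data2 N b m ν →
    ∀ Y : ℝ, 1 ≤ Y → Y ≤ 2 → m Y ≤ (max 0 (1 - 2 * (Y - 1) / b)) ^ ((N : ℝ) / 2)

/-- RTC_TW2: the claim for all `Y ≥ 1`.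
PROOF: `θ = min 2 (N/b)`. `Y ≤ 2`: `S_ON2`. `Y ≥ 2`: as `t_TWO`, `S_BR2` on `[2, Y]` with
`ζ y = 1 + (1-ε)(y-2)`, `q = 1`: for `z > y ≥ 2`, `2r - z ≤ 0`. -/
def S_TW2 : Prop :=
  ∀ (N : ℕ) (b : ℝ) (m : ℝ → ℝ) (ν : Measure ℝ), 3 ≤ N → (N : ℝ) - 1 ≤ 2 * b →
    Data2 N b m ν →
    ∀ Y : ℝ, 1 ≤ Y → m Y ≤ (max 0 (1 - 2 * (Y - 1) / b)) ^ ((N : ℝ) / 2)

/-- RTC_SC2: comparison of the distribution functions (as `t_SCA`, SCA.lean, with the additional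
term: `∫ (if t + h ≤ w ..) dσ` scales like the other boundary term). -/
def S_SC2 : Prop :=
  ∀ (N : ℕ), 3 ≤ N → ∀ (Ω : Set (E N)) (σ : Measure (E N)) (β R : ℝ) (u : E N → ℝ)
    (g : E N → E N) (w : E N → ℝ), 0 < β → 0 < R → (N : ℝ) - 1 ≤ 2 * (β * R) → IsOpen Ω →
    Bornology.IsBounded Ω → volume Ω = volume (Metric.ball (0 : E N) R) →
    IsBoundaryMeasure Ω σ → IsRobin Ω σ β u g w →
    ∀ t : ℝ, R / (N * β) ≤ t →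
      mu Ω u t ≤ om N * (max 0 (R ^ 2 - 2 * N * (t - R / (N * β)))) ^ ((N : ℝ) / 2)

end Pool.Agent.RTC
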