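import Pool.Agent.RTC.St4

set_option autoImplicit false

/-!
# MP_84cf48_an, fifth version: `β R ≥ (2N-3)/4`, and `β R ≥ 1/2` for `N = 3`

The statements of `St2.lean` with the range `Rng5 N (θ b)` and the cap `θ ζ ≤ 1/2` (in place of
`ζ ≤ 1/2`) at the level 1.
-/

namespace Pool.Agent.RTC

open MeasureTheory Set Filter Topology
open scoped ENNReal NNReal

/-- The range of `c = θ b`: `N - 3/2 ≤ c`, or `N = 3` and `1 ≤ c`. -/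
def Rng5 (N : ℕ) (c : ℝ) : Prop := (N : ℝ) - 3 / 2 ≤ c ∨ (N = 3 ∧ 1 ≤ c)

/-- The key inequality. -/
def S_KE5 : Prop :=
  ∀ (N : ℕ) (b θ r x : ℝ), 2 ≤ N → 0 < b → 0 < θ → θ ≤ 2 → Rng5 N (θ * b) →
    θ * b ≤ N → 0 < r → r ≤ 1 → 1 ≤ x → θ * (b / 2 * (1 - r ^ 2)) ≤ 2 * x - 3 / 2 →
    2 * r - x ≤ Real.exp (θ * (b / 2 * (1 - r ^ 2))) * r ^ N * (2 - x)

/-- The flux through the boundary part: `∫_{z > 1} z dν ≤ m 1`. -/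
def S_LAM5 : Prop :=
  ∀ (N : ℕ) (b : ℝ) (m : ℝ → ℝ) (ν : Measure ℝ), 2 ≤ N → 0 < b → Data2 N b m ν →
    ∫ z in Ioi 1, z ∂ν ≤ m 1

/-- The inequality after a restart at the level 1 with `m 1 ≤ exp (-1/2)`. -/
def S_RST5 : Prop :=
  ∀ (N : ℕ) (b : ℝ) (m : ℝ → ℝ) (ν : Measure ℝ), 2 ≤ N → 0 < b → Data2 N b m ν →
    m 1 ≤ Real.exp (-1 / 2) → ∀ θ : ℝ, 0 < θ → θ ≤ 2 → ∀ Y : ℝ, 1 ≤ Y → Y ≤ 2 →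
    Real.exp (-1 / 2) + θ * (∫ x in (1 : ℝ)..Y, Real.exp (θ * (x - 1)) * S0 ν x) ≤ 1

/-- Below the level 1, when `θ ζ ≤ 1/2` there. -/
def S_ONA5 : Prop :=
  ∀ (N : ℕ) (b θ : ℝ) (m : ℝ → ℝ) (ν : Measure ℝ), 3 ≤ N → 0 < b → 0 < θ → θ ≤ 2 →
    Rng5 N (θ * b) → θ * b ≤ N → Data2 N b m ν → ∀ (a ε : ℝ) (η : ℝ → ℝ), 1 / 3 ≤ a →
    a < 1 → 0 < ε → (∀ y ∈ Ico a 1, (max 0 (1 - 1 / (θ * b))) ^ ((N : ℝ) / 2) ≤ m y) →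
    ContinuousOn η (Icc a 1) → η a = 1 →
    (∀ y ∈ Ico a 1, HasDerivWithinAt η (θ * (Sm ν y + ε - (2 / y - 1 / y ^ 2) * η y))
        (Ici y) y) →
    ∀ e₀ : ℝ, η 1 ≤ e₀ → Real.exp (-1 / 2) ≤ e₀ →
    m 1 ≤ (max 0 (1 + 2 * Real.log e₀ / (θ * b))) ^ ((N : ℝ) / 2)

/-- Above the level 1. -/
def S_ONB5 : Prop :=
  ∀ (N : ℕ) (b θ : ℝ) (m : ℝ → ℝ) (ν : Measure ℝ), 3 ≤ N → 0 < b → 0 < θ → θ ≤ 2 →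
    Rng5 N (θ * b) → θ * b ≤ N → Data2 N b m ν → ∀ (e₀ δ Y : ℝ), 1 ≤ Y → Y ≤ 2 →
    0 ≤ δ → Real.exp (-1 / 2) ≤ e₀ →
    m 1 ≤ (max 0 (1 + 2 * Real.log e₀ / (θ * b))) ^ ((N : ℝ) / 2) →
    e₀ + θ * (∫ x in (1 : ℝ)..Y, Real.exp (θ * (x - 1)) * S0 ν x) ≤ 1 + δ →
    m Y ≤ (max 0 (1 - 2 * (Y - 1) / b + 2 * Real.log (1 + δ) / (θ * b))) ^ ((N : ℝ) / 2)

/-- The claim for `1 ≤ Y ≤ 2`. -/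
def S_ON5 : Prop :=
  ∀ (N : ℕ) (b θ : ℝ) (m : ℝ → ℝ) (ν : Measure ℝ), 3 ≤ N → 0 < b → 0 < θ → θ ≤ 2 →
    Rng5 N (θ * b) → θ * b ≤ N → Data2 N b m ν →
    ∀ Y : ℝ, 1 ≤ Y → Y ≤ 2 → m Y ≤ (max 0 (1 - 2 * (Y - 1) / b)) ^ ((N : ℝ) / 2)

/-- The claim for all `Y ≥ 1`. -/
def S_TW5 : Prop :=
  ∀ (N : ℕ) (b : ℝ) (m : ℝ → ℝ) (ν : Measure ℝ), 3 ≤ N → 0 < b → Rng5 N (2 * b) →
    Data2 N b m ν →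
    ∀ Y : ℝ, 1 ≤ Y → m Y ≤ (max 0 (1 - 2 * (Y - 1) / b)) ^ ((N : ℝ) / 2)

/-- Comparison of the distribution functions. -/
def S_SC5 : Prop :=
  ∀ (N : ℕ), 3 ≤ N → ∀ (Ω : Set (E N)) (σ : Measure (E N)) (β R : ℝ) (u : E N → ℝ)
    (g : E N → E N) (w : E N → ℝ), 0 < β → 0 < R → Rng5 N (2 * (β * R)) → IsOpen Ω →
    Bornology.IsBounded Ω → volume Ω = volume (Metric.ball (0 : E N) R) →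
    IsBoundaryMeasure Ω σ → IsRobin Ω σ β u g w →
    ∀ t : ℝ, R / (N * β) ≤ t →
      mu Ω u t ≤ om N * (max 0 (R ^ 2 - 2 * N * (t - R / (N * β)))) ^ ((N : ℝ) / 2)

end Pool.Agent.RTC
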